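import Pool.Agent.Y144.DL.Desc

/-!
# Twists of characters by linear characters
-/

set_option autoImplicit false

namespace Pool.Agent.Y144.DL

theorem isChar_twist {K : Type*} [Field K] {G : Type*} [Group G] {θ : G → K} (h : IsChar θ)
    (ψ : G →* Kˣ) : IsChar fun g => (ψ g : K) * θ g := by
  obtain ⟨n, ρ, rfl⟩ := h
  refine ⟨n, { toFun := fun g => (ψ g : K) • ρ g, map_one' := by simp, map_mul' := ?_ }, ?_⟩
  · intro x y
    rw [map_mul, map_mul, Units.val_mul, smul_mul_smul_comm]
  · funext g
    show _ = ((ψ g : K) • ρ g).trace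
    rw [Matrix.trace_smul, smul_eq_mul]

end Pool.Agent.Y144.DL
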