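import Pool.Agent.Y144.DL.Tr

/-!
# Brauer's theorem with signatures relative to an abelian normal subgroup `Z`

Only subgroups which contain `Z` are used.
-/

set_option autoImplicit false

namespace Pool.Agent.Y144.DL

universe u

section

variable {E : Type*} [Field E] {G : Type*} [Group G] [Finite G] [CharZero E] {S : Set G}
  {Z : Subgroup G} {ψ : G →* Eˣ}

/-- induction of linear characters of `G` from `T` to `U`, for a subgroup `T ≥ Z` which does not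
have to contain the abelian (modulo `Z`) normal subgroup `B` of `U` -/
theorem perm_GC (hE : HasEnoughRootsOfUnity E (Nat.card G)) (p : ℕ) [hp : Fact p.Prime]
    {T U B : Subgroup G} (hI : Isol S ψ U) (hZT : Z ≤ T) (hTU : T ≤ U) (hZB : Z ≤ B) (hBU : B ≤ U)
    (hZn : ∀ t ∈ U, ∀ z ∈ Z, t * z * t⁻¹ ∈ Z)
    (hab : ∀ x ∈ B, ∀ y ∈ B, x * y * (y * x)⁻¹ ∈ Z)
    (hn : ∀ t ∈ U, ∀ b ∈ B, t * b * t⁻¹ ∈ B) (hpow : ∀ t ∈ U, ∃ j : ℕ, t ^ p ^ j ∈ B)
    (ω : G →* Eˣ) : avg T U (ext T (ω.comp T.subtype)) ∈ GC E S Z ψ U := by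
  classical
  have := Fintype.ofFinite G
  have hZU : Z ≤ U := hZT.trans hTU
  have hE' : HasEnoughRootsOfUnity E (Nat.card U) :=
    hasEnough_of_dvd hE (Subgroup.card_subgroup_dvd_card U) Nat.card_pos.ne'
  have hZn' : (Z.subgroupOf U).Normal := by
    refine ⟨fun z hz t => ?_⟩
    exact hZn t t.2 z hz
  have hZT' : Z.subgroupOf U ≤ T.subgroupOf U := fun z hz => hZT hz
  obtain ⟨n, ρ, hρ, hperm⟩ := isCharN_perm (K := E) hZn' hZT'
  let ω' : U →* Eˣ := ω.comp U.subtype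
  let ρ' : U →* Matrix (Fin n) (Fin n) E :=
    { toFun := fun g => (ω' g : E) • ρ g
      map_one' := by simp
      map_mul' := by
        intro x y
        rw [map_mul, map_mul, Units.val_mul, smul_mul_smul_comm] }
  have hρ' : ∀ g, ρ' g = (ω' g : E) • ρ g := fun g => rfl
  have h1 := clifford (S := {s : U | (s : G) ∈ S}) (Z := Z.subgroupOf U) (ψ := ψ.comp U.subtype) hE' p ρ'
    (Nat.card (⊤ : Subgroup U) - Nat.card (B.subgroupOf U) + 1) ⊤ (B.subgroupOf U) 1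
    (Nat.lt_succ_self _) hI.subtype (fun z hz => hZB hz) le_top (fun t _ b hb => hn t t.2 b hb)
    (fun t _ => by
      obtain ⟨j, hj⟩ := hpow t t.2
      exact ⟨j, hj⟩)
    ⟨mul_one 1, fun b _ => by rw [mul_one, one_mul], fun x hx y hy => by
      have h2 : x * y = (x * y * (y * x)⁻¹) * (y * x) := by group
      have h3 : ρ (x * y * (y * x)⁻¹) = 1 := hρ _ (hab x hx y hy)
      have h4 : ρ (x * y) = ρ (y * x) := by
        rw [h2, map_mul, h3, one_mul]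
      have h5 : ω' (x * y) = ω' (y * x) := by
        rw [map_mul, map_mul, mul_comm]
      rw [mul_one, mul_one, hρ', hρ', h4, h5]⟩
    (fun h _ => by rw [mul_one, one_mul])
  have h2 := ex0_GC hZU h1
  have hcardT : (T.subgroupOf U).map U.subtype = T := Subgroup.map_subgroupOf_eq_of_le hTU
  have h3 : ex0 U (ext (⊤ : Subgroup U) (1 : (⊤ : Subgroup U) →* Eˣ) * fun g => (ρ' g * 1).trace) =
      avg T U (ext T (ω.comp T.subtype)) := by
    have h4 : (ext (⊤ : Subgroup U) (1 : (⊤ : Subgroup U) →* Eˣ) * fun g => (ρ' g * 1).trace) =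
        avg (T.subgroupOf U) ⊤ (ext (T.subgroupOf U) (ω'.comp (T.subgroupOf U).subtype)) := by
      funext g
      rw [Pi.mul_apply, ext_mem _ _ (Subgroup.mem_top g), MonoidHom.one_apply, Units.val_one, one_mul,
        mul_one, hρ', Matrix.trace_smul, smul_eq_mul]
      have h5 : (ρ g).trace = perm E (T.subgroupOf U) g := (congrFun hperm g).symm
      rw [h5, perm_eq_ind]
      unfold ind
      rw [avg_eq', avg_eq', ← mul_assoc, mul_comm (ω' g : E), mul_assoc, Finset.mul_sum]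
      congr 1
      refine Finset.sum_congr rfl fun x _ => ?_
      by_cases hx : ((x : U))⁻¹ * g * (x : U) ∈ T.subgroupOf U
      · rw [ext_mem _ _ hx, ext_mem _ _ hx, MonoidHom.one_apply, Units.val_one, mul_one]
        show (ω' g : E) = (ω' ((x : U)⁻¹ * g * (x : U)) : E)
        rw [map_mul, map_mul, map_inv, mul_comm (ω' (x : U))⁻¹, mul_assoc, inv_mul_cancel, mul_one]
      · rw [ext_not_mem _ _ hx, ext_not_mem _ _ hx, mul_zero]
    rw [h4, ex0_avg]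
    have h5 : ex0 U (ext (T.subgroupOf U) (ω'.comp (T.subgroupOf U).subtype)) =
        ext T (ω.comp T.subtype) := by
      funext g
      by_cases hU : g ∈ U
      · rw [ex0_mem U _ hU]
        by_cases hT : g ∈ T
        · rw [ext_mem T _ hT, ext_mem _ _ (show (⟨g, hU⟩ : U) ∈ T.subgroupOf U from hT)]
          rfl
        · rw [ext_not_mem T _ hT, ext_not_mem _ _ (show (⟨g, hU⟩ : U) ∉ T.subgroupOf U from hT)]
      · rw [ex0_not_mem U _ hU, ext_not_mem T _ (fun h => hU (hTU h))]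
    rw [h5, hcardT]
  rwa [h3] at h2

/-- `GC` is compatible with induction, for subgroups which contain `Z` -/
theorem GC_avg' (hE : HasEnoughRootsOfUnity E (Nat.card G)) (p : ℕ) [hp : Fact p.Prime]
    {T U B : Subgroup G} (hI : Isol S ψ U) (hZT : Z ≤ T) (hTU : T ≤ U) (hZB : Z ≤ B) (hBU : B ≤ U)
    (hZn : ∀ t ∈ U, ∀ z ∈ Z, t * z * t⁻¹ ∈ Z)
    (hab : ∀ x ∈ B, ∀ y ∈ B, x * y * (y * x)⁻¹ ∈ Z)
    (hn : ∀ t ∈ U, ∀ b ∈ B, t * b * t⁻¹ ∈ B) (hpow : ∀ t ∈ U, ∃ j : ℕ, t ^ p ^ j ∈ B)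
    {f : G → E} (hf : f ∈ GC E S Z ψ T) : avg T U f ∈ GC E S Z ψ U := by
  refine GC_avg_of hTU ?_ (perm_GC hE p hI hZT hTU hZB hBU hZn hab hn hpow ψ) hf
  have h3 := perm_GC hE p hI hZT hTU hZB hBU hZn hab hn hpow (1 : G →* Eˣ)
  exact h3

/-- the characters of `H`, if `Z` is an abelian normal subgroup and `H / Z` is an extension of a `p`-group
by a cyclic group -/
theorem clifford2 (hE : HasEnoughRootsOfUnity E (Nat.card G)) (p : ℕ) [hp : Fact p.Prime] {n : ℕ}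
    (ρ : G →* Matrix (Fin n) (Fin n) E) {H B : Subgroup G} {z₀ : G} (hI : Isol S ψ H)
    (hZB : Z ≤ B) (hBH : B ≤ H) (hZab : ∀ x ∈ Z, ∀ y ∈ Z, x * y = y * x)
    (hZn : ∀ t : G, ∀ z ∈ Z, t * z * t⁻¹ ∈ Z)
    (hcyc : ∀ b ∈ B, ∃ i : ℤ, ∃ a ∈ Z, b = z₀ ^ i * a)
    (hn : ∀ t ∈ H, ∀ b ∈ B, t * b * t⁻¹ ∈ B) (hpow : ∀ t ∈ H, ∃ j : ℕ, t ^ p ^ j ∈ B) :
    ext H (1 : H →* Eˣ) * (fun g => (ρ g).trace) ∈ GC E S Z ψ H := by
  classical
  have := Fintype.ofFinite G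
  have hE' := hasEnough_ab hE Z
  have : Finite (Z →* Eˣ) := finite_dual hE'
  have : Fintype (Z →* Eˣ) := Fintype.ofFinite _
  have hZH : Z ≤ H := hZB.trans hBH
  have hZn' : ∀ t : G, ∀ z ∈ Z, t⁻¹ * z * t ∈ Z := by
    intro t z hz
    have := hZn t⁻¹ z hz
    rwa [inv_inv] at this
  have hab : ∀ x ∈ B, ∀ y ∈ B, x * y * (y * x)⁻¹ ∈ Z := by
    intro x hx y hy
    obtain ⟨i, a, ha, rfl⟩ := hcyc x hx
    obtain ⟨j, a', ha', rfl⟩ := hcyc y hy
    have h2 : Commute (z₀ ^ i) (z₀ ^ j) := (Commute.refl z₀).zpow_zpow i j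
    have h1 : z₀ ^ i * a * (z₀ ^ j * a') * (z₀ ^ j * a' * (z₀ ^ i * a))⁻¹ =
        (z₀ ^ i * a * (z₀ ^ i)⁻¹) * ((z₀ ^ i * z₀ ^ j) * (a' * a⁻¹) * (z₀ ^ i * z₀ ^ j)⁻¹) *
          (z₀ ^ j * a'⁻¹ * (z₀ ^ j)⁻¹) := by
      have h3 : (z₀ ^ i * z₀ ^ j)⁻¹ = (z₀ ^ j * z₀ ^ i)⁻¹ := by rw [h2.eq]
      rw [h3]
      group
    rw [h1]
    exact Z.mul_mem (Z.mul_mem (hZn _ _ ha) (hZn _ _ (Z.mul_mem ha' (Z.inv_mem ha))))
      (hZn _ _ (Z.inv_mem ha'))
  have hA : Adm ρ Z (1 : Matrix (Fin n) (Fin n) E) :=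
    ⟨mul_one 1, fun b _ => by rw [mul_one, one_mul], fun x hx y hy => by rw [hZab x hx y hy]⟩
  have hcomm : ∀ h : G, ρ h * 1 = 1 * ρ h := fun h => by rw [mul_one, one_mul]
  -- the family of functions
  let f : Fn G E → G → E := fun z g =>
    if g ∈ H ∧ g • z = z then (ρ g * prf ρ Z 1 z).trace else 0
  let W : Finset (Fn G E) := Finset.univ.image (fun μ : Z →* Eˣ => (extF Z μ))
  have hf : ∀ h ∈ H, ∀ z g, f (h • z) g = f z (h⁻¹ * g * h) := by
    intro h hh z g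
    have h1 : (g ∈ H ∧ g • h • z = h • z) ↔ (h⁻¹ * g * h ∈ H ∧ (h⁻¹ * g * h) • z = z) := by
      constructor
      · rintro ⟨h2, h3⟩
        refine ⟨H.mul_mem (H.mul_mem (H.inv_mem hh) h2) hh, ?_⟩
        rw [mul_smul, mul_smul, h3, ← mul_smul, inv_mul_cancel, one_smul]
      · rintro ⟨h2, h3⟩
        have h4 : h * (h⁻¹ * g * h) * h⁻¹ = g := by group
        refine ⟨?_, ?_⟩
        · rw [← h4]
          exact H.mul_mem (H.mul_mem hh h2) (H.inv_mem hh)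
        · rw [mul_smul, mul_smul] at h3
          have h5 := congrArg (fun y => h • y) h3
          simpa only [smul_inv_smul] using h5
    show (if g ∈ H ∧ g • h • z = h • z then (ρ g * prf ρ Z 1 (h • z)).trace else 0) =
      if h⁻¹ * g * h ∈ H ∧ (h⁻¹ * g * h) • z = z then (ρ (h⁻¹ * g * h) * prf ρ Z 1 z).trace else 0
    simp only [h1]
    split_ifs with h2
    · have h3 : prf ρ Z 1 (h • z) = ρ h * prf ρ Z 1 z * ρ h⁻¹ := by
        rw [mul_prf ρ Z (hZn h) (hZn' h) (hcomm h), mul_assoc, ← map_mul, mul_inv_cancel,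
          map_one, mul_one]
      rw [h3, map_mul, map_mul]
      rw [← Matrix.mul_assoc, ← Matrix.mul_assoc, Matrix.trace_mul_comm _ (ρ h⁻¹),
        ← Matrix.mul_assoc, ← Matrix.mul_assoc]
    · rfl
  have hZW : ∀ h ∈ H, ∀ z ∈ W, h • z ∈ W := by
    intro h hh z hz
    obtain ⟨μ, _, rfl⟩ := Finset.mem_image.1 hz
    obtain ⟨ν, hν⟩ := smul_ext (hZn h) (hZn' h) μ
    rw [hν]
    exact Finset.mem_image_of_mem _ (Finset.mem_univ ν)
  have hsum : ext H (1 : H →* Eˣ) * (fun g => (ρ g).trace) = ∑ z ∈ W, f z := by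
    funext g
    have himg : ∑ z ∈ W, f z g = ∑ μ : Z →* Eˣ, f (extF Z μ) g :=
      Finset.sum_image (fun μ _ ν _ h => ext_injective Z h)
    rw [Finset.sum_apply, himg, Pi.mul_apply]
    by_cases hg : g ∈ H
    · rw [ext_mem H 1 hg, MonoidHom.one_apply, Units.val_one, one_mul]
      have h1 : ρ g = ∑ μ : Z →* Eˣ, ρ g * pr ρ Z 1 μ := by
        rw [← Finset.mul_sum, hA.sum_pr hE', mul_one]
      show (ρ g).trace = _
      rw [h1, Matrix.trace_sum]
      refine Finset.sum_congr rfl fun μ _ => ?_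
      show (ρ g * pr ρ Z 1 μ).trace =
        if g ∈ H ∧ g • (extF Z μ) = extF Z μ then (ρ g * prf ρ Z 1 (extF Z μ)).trace else 0
      by_cases hfix : g • (extF Z μ) = extF Z μ
      · rw [if_pos ⟨hg, hfix⟩, prf_extF]
      · rw [if_neg (fun h => hfix h.2)]
        obtain ⟨ν, hν⟩ := smul_ext (hZn g) (hZn' g) μ
        have hne : μ ≠ ν := by
          rintro rfl
          exact hfix hν
        have h2 : ρ g * pr ρ Z 1 μ = pr ρ Z 1 ν * ρ g := by
          have := mul_prf ρ Z (hZn g) (hZn' g) (hcomm g) (extF Z μ)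
          rwa [hν, prf_extF, prf_extF] at this
        rw [← hA.pr_mul_self μ, ← mul_assoc, h2, mul_assoc, Matrix.trace_mul_comm, mul_assoc,
          hA.pr_mul_pr_of_ne hne, mul_zero, Matrix.trace_zero]
    · rw [ext_not_mem H 1 hg, zero_mul]
      symm
      refine Finset.sum_eq_zero fun μ _ => ?_
      exact if_neg (fun h => hg h.1)
  rw [hsum]
  refine sum_orbits H f hf (GC E S Z ψ H) W.card W le_rfl hZW ?_
  intro z hz
  obtain ⟨μ, _, rfl⟩ := Finset.mem_image.1 hz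
  let T : Subgroup G := H ⊓ MulAction.stabilizer G (extF Z μ)
  have hTH : T ≤ H := inf_le_left
  have hfixZ : ∀ b ∈ Z, b • (extF Z μ) = extF Z μ := by
    intro b hb
    funext g
    rw [Fn.smul_apply]
    exact ext_conj Z μ g hb
  have hZT : Z ≤ T := fun b hb => ⟨hZH hb, hfixZ b hb⟩
  have hTcomm : ∀ t : G, t • (extF Z μ) = extF Z μ → ρ t * pr ρ Z 1 μ = pr ρ Z 1 μ * ρ t := by
    intro t ht
    have := mul_prf ρ Z (hZn t) (hZn' t) (hcomm t) (extF Z μ)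
    rwa [ht, prf_extF] at this
  have hfT : f (extF Z μ) = ext T (1 : T →* Eˣ) * (fun g => (ρ g * pr ρ Z 1 μ).trace) := by
    funext g
    rw [Pi.mul_apply]
    show (if g ∈ H ∧ g • (extF Z μ) = extF Z μ then (ρ g * prf ρ Z 1 (extF Z μ)).trace else 0) = _
    rw [prf_extF]
    by_cases hg : g ∈ T
    · rw [if_pos ⟨hg.1, hg.2⟩, ext_mem T 1 hg, MonoidHom.one_apply, Units.val_one, one_mul]
    · rw [if_neg (fun h => hg ⟨h.1, h.2⟩), ext_not_mem T 1 hg, zero_mul]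
  have hmain : f (extF Z μ) ∈ GC E S Z ψ T := by
    rw [hfT]
    have hfix : ∀ x ∈ B ⊓ T, ∃ i : ℤ, ∃ a, ∃ ha : a ∈ Z, x = z₀ ^ i * a ∧
        (z₀ ^ i) • (extF Z μ) = extF Z μ := by
      intro x hx
      obtain ⟨i, a, ha, hxa⟩ := hcyc x hx.1
      refine ⟨i, a, ha, hxa, ?_⟩
      have h1 : z₀ ^ i = x * a⁻¹ := by rw [hxa, mul_inv_cancel_right]
      have h2 : x • (extF Z μ) = extF Z μ := hx.2.2
      rw [h1, mul_smul, hfixZ _ (Z.inv_mem ha), h2]
    have hprod : ∀ (i j : ℤ) (b b' : G) (hb : b ∈ Z) (hb' : b' ∈ Z),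
        (z₀ ^ i) • (extF Z μ) = extF Z μ → (z₀ ^ j) • (extF Z μ) = extF Z μ →
        ρ (z₀ ^ i * b * (z₀ ^ j * b')) * pr ρ Z 1 μ =
          ((μ ⟨b, hb⟩ * μ ⟨b', hb'⟩ : Eˣ)) • (ρ (z₀ ^ (i + j)) * pr ρ Z 1 μ) := by
      intro i j b b' hb hb' hi hj
      have hact : ∀ k : ℤ, ∀ b, ∀ hb : b ∈ Z, ρ (z₀ ^ k * b) * pr ρ Z 1 μ =
          (μ ⟨b, hb⟩ : Eˣ) • (ρ (z₀ ^ k) * pr ρ Z 1 μ) := by
        intro k b hb
        rw [map_mul, mul_assoc, hA.mul_pr μ ⟨b, hb⟩, mul_smul_comm]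
      rw [map_mul ρ (z₀ ^ i * b), mul_assoc, hact j b' hb', mul_smul_comm, hTcomm _ hj,
        ← mul_assoc, hact i b hb, smul_mul_assoc, mul_assoc, ← hTcomm _ hj,
        ← mul_assoc, ← map_mul, ← zpow_add, smul_smul, mul_comm (μ ⟨b', hb'⟩)]
    have h1 := clifford (S := S) (Z := Z) (ψ := ψ) hE p ρ
      (Nat.card T - Nat.card (B ⊓ T : Subgroup G) + 1) T (B ⊓ T) (pr ρ Z 1 μ) (Nat.lt_succ_self _)
      (hI.mono hTH) (le_inf hZB hZT) inf_le_right
      (fun t ht b hb => ⟨hn t (hTH ht) b hb.1, T.mul_mem (T.mul_mem ht hb.2) (T.inv_mem ht)⟩)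
      (fun t ht => by
        obtain ⟨j, hj⟩ := hpow t (hTH ht)
        exact ⟨j, hj, T.pow_mem ht _⟩)
      ⟨hA.pr_mul_self μ, fun b hb => hTcomm b hb.2.2, fun x hx y hy => by
        obtain ⟨i, a, ha, hxa, hi⟩ := hfix x hx
        obtain ⟨j, a', ha', hya, hj⟩ := hfix y hy
        rw [hxa, hya, hprod i j a a' ha ha' hi hj, hprod j i a' a ha' ha hj hi, add_comm j i,
          mul_comm (μ ⟨a', ha'⟩)]⟩
      (fun t ht => hTcomm t ht.2)
    exact h1
  exact GC_avg' hE p hI hZT hTH hZB hBH (fun t _ => hZn t) hab hn hpow hmain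

end

end Pool.Agent.Y144.DL
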