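import Pool.Agent.Y144.DL.Fin

/-!
# The assumptions of the main theorems, and Galois groups of subfields of `ℂ`
-/

set_option autoImplicit false

namespace Pool.Agent.Y144.DL

universe u

section

variable {E : Type*} [Field E] {G : Type u} [Group G] [Finite G]

/-- The assumptions on the twists of a motive `M` by abelian characters. Here `G` is the Galois group of `F / ℚ`,
`c` is complex conjugation and `P H` says which subfields `k = F^H` are used.

* `L H χ` is the function `L(M_k ⊗ χ, s) = L(M ⊗ Ind_H χ, s)`: it has a meromorphic continuation which is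
  holomorphic and nonzero at `m`;
* `rel` is relative rationality: for characters `χ`, `χ'` of `H` with the same signs at the real places of `k`
  (the same values at the conjugates of `c` in `H`), `L(M_k ⊗ χ, m)` and `L(M_k ⊗ χ', m)` have the quotient
  `δ(Ind_H χ) ^ r / δ(Ind_H χ') ^ r`, up to a factor in `E`;
* `base` and `baseOdd` are Deligne's conjecture at `m`, up to a factor in `E`, for `M` and (if `c ≠ 1`) for one
  twist `M ⊗ ψ` by an odd Dirichlet character. -/
structure AbelianTwists (P : Subgroup G → Prop) (c : G) (M : FrobData E) (Fr : Nat.Primes → G) (m : ℂ)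
    (A : ArtinPeriods E G) (r : ℕ) (cP cM : (E →+* ℂ) → ℂ) where
  /-- the functions `L(M_k ⊗ χ, s)` -/
  L : ∀ H : Subgroup G, P H → ∀ χ : H →* Eˣ, LAt M Fr (ind H χ) m
  rel : ∀ (H : Subgroup G) (h : P H) (χ χ' : H →* Eˣ), (∀ s : H, IsConj c (s : G) → χ s = χ' s) →
    Sim ((L H h χ).value * A.δ (ind H χ') ^ r) ((L H h χ').value * A.δ (ind H χ) ^ r)
  /-- the function `L(M, s)` -/
  L₁ : LAt M Fr 1 m
  base : Sim L₁.value (cP * A.δ 1 ^ r)
  /-- the odd character -/
  ψ : G →* Eˣ
  odd : c ≠ 1 → ψ c = -1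
  /-- the function `L(M ⊗ ψ, s)` -/
  Lψ : LAt M Fr (fun g => ψ g) m
  baseOdd : c ≠ 1 → Sim Lψ.value (cM * A.δ (fun g => ψ g) ^ r)

end

section

variable {K E : Type*} [Field K] [CharZero K] [Field E] [Algebra K E] [Algebra.IsAlgebraic K E]

/-- the main theorem for groups in which `c` is central modulo a normal subgroup of odd order -/
theorem main_group' {G : Type u} [Group G] [Finite G]
    (hE : HasEnoughRootsOfUnity E (Nat.card G)) {c : G} {N : Subgroup G}
    (hN : N.Normal) (hodd : Odd (Nat.card N)) (hcN : ∀ g : G, g * c * g⁻¹ * c⁻¹ ∈ N)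
    (hcc : c * c = 1) {M : FrobData K} {Fr : Nat.Primes → G} {m : ℂ}
    {A : ArtinPeriods E G} {r : ℕ} {cP cM : (K →+* ℂ) → ℂ}
    (h : AbelianTwists (Used c N) c (M.map E) Fr m A r (lft E cP) (lft E cM))
    (θ : G → K) (hθ : IsChar θ) (a b : ℕ) (ha : θ 1 = a + b) (hb : θ c = a - b)
    (d : (K →+* ℂ) → ℂ) (hd : A.δ (fun g => algebraMap K E (θ g)) = lft E d) :
    ∃ X : LAt M Fr θ m, Sim X.value (cP ^ a * cM ^ b * d ^ r) :=
  main_group hE c N hN hodd hcN hcc h.L A r h.rel h.ψ h.odd h.L₁ h.Lψ cP cM h.base h.baseOdd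
    θ hθ a b ha hb d hd

end

attribute [local instance high] IntermediateField.algebra'

/-- The Galois group of `F / ℚ`. -/
def GQ (F : IntermediateField ℚ ℂ) : Type := F ≃ₐ[ℚ] F

/-- the group structure (composition) -/
noncomputable instance GQ.group (F : IntermediateField ℚ ℂ) : Group (GQ F) := AlgEquiv.aut

theorem finite_aut (F : IntermediateField ℚ ℂ) [FiniteDimensional ℚ F] : Finite (F ≃ₐ[ℚ] F) :=
  inferInstance

instance GQ.finite (F : IntermediateField ℚ ℂ) [FiniteDimensional ℚ F] : Finite (GQ F) :=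
  finite_aut F

/-- The subgroup `Gal(F/F₀)` of the Galois group of `F / ℚ`: the automorphisms of `F` which are trivial on
`F₀`. -/
noncomputable def gal (F₀ F : IntermediateField ℚ ℂ) : Subgroup (GQ F) :=
  fixingSubgroup (F ≃ₐ[ℚ] F) {x : F | (x : ℂ) ∈ F₀}

theorem fixingSubgroup_eq (F₀ F : IntermediateField ℚ ℂ) :
    fixingSubgroup (F ≃ₐ[ℚ] F) {x : F | (x : ℂ) ∈ F₀} = fixer F₀ F := by
  ext g
  rw [mem_fixingSubgroup_iff]
  exact Iff.rfl

theorem gal_eq (F₀ F : IntermediateField ℚ ℂ) : gal F₀ F = fixer F₀ F := fixingSubgroup_eq F₀ F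

/-- `c` is complex conjugation on `F`. -/
def IsConjC {F : IntermediateField ℚ ℂ} (c : GQ F) : Prop := IsCC (F := F) c

section

variable {K E : Type*} [Field K] [CharZero K] [Field E] [Algebra K E] [Algebra.IsAlgebraic K E]

/-- the main theorem -/
theorem main_GQ (F₀ : IntermediateField ℚ ℂ) [FiniteDimensional ℚ F₀] [Normal ℚ F₀]
    (hE : HasEnoughRootsOfUnity E (Nat.card (GQ (big F₀)))) {c : GQ (big F₀)} (hc : IsConjC c)
    {M : FrobData K} {Fr : Nat.Primes → GQ (big F₀)} {m : ℂ}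
    {A : ArtinPeriods E (GQ (big F₀))} {r : ℕ} {cP cM : (K →+* ℂ) → ℂ}
    (h : AbelianTwists (fun H : Subgroup (GQ (big F₀)) => Group.IsSolvable H) c (M.map E) Fr m A r
      (lft E cP) (lft E cM))
    (θ : GQ (big F₀) → K) (hθ : IsCharN (gal F₀ (big F₀)) θ) (a b : ℕ)
    (ha : θ 1 = a + b) (hb : θ c = a - b)
    (d : (K →+* ℂ) → ℂ) (hd : A.δ (fun g => algebraMap K E (θ g)) = lft E d) :
    ∃ X : LAt M Fr θ m, Sim X.value (cP ^ a * cM ^ b * d ^ r) := by
  have hc1 : c ≠ 1 := big_ne_one F₀ c hc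
  rw [gal_eq] at hθ
  exact main_field F₀ hE c hc h.L A r h.rel h.ψ (h.odd hc1) h.L₁ h.Lψ cP cM h.base (h.baseOdd hc1)
    θ hθ a b ha hb d hd

end

end Pool.Agent.Y144.DL
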