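import Pool.Agent.Y144.DL.Abn
import Pool.Agent.Y144.DL.GQ

/-!
# The theorems relative to an abelian normal subgroup `Z`
-/

set_option autoImplicit false

namespace Pool.Agent.Y144.DL

universe u

/-- `H` is an extension of a `p`-group by a group which is cyclic modulo `Z` -/
def HyC {G : Type*} [Group G] (Z : Subgroup G) (p : ℕ) (H : Subgroup G) : Prop :=
  ∃ (B : Subgroup G) (z : G), Z ≤ B ∧ B ≤ H ∧ (∀ b ∈ B, ∃ i : ℤ, ∃ a ∈ Z, b = z ^ i * a) ∧
    (∀ t ∈ H, ∀ b ∈ B, t * b * t⁻¹ ∈ B) ∧ ∀ t ∈ H, ∃ j : ℕ, t ^ p ^ j ∈ B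

theorem HyC.le {G : Type*} [Group G] {Z : Subgroup G} {p : ℕ} {H : Subgroup G} (h : HyC Z p H) :
    Z ≤ H := by
  obtain ⟨B, _, hc, hB, _⟩ := h
  exact hc.trans hB

theorem hyC_inf {G : Type*} [Group G] {Z : Subgroup G} {p : ℕ} {H K : Subgroup G} (h : HyC Z p H)
    (hK : Z ≤ K) : HyC Z p (H ⊓ K) := by
  obtain ⟨B, z, hc, hB, hcyc, hn, hpow⟩ := h
  refine ⟨B ⊓ K, z, le_inf hc hK, inf_le_inf_right K hB, ?_, ?_, ?_⟩
  · intro b hb
    exact hcyc b hb.1
  · intro t ht b hb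
    exact ⟨hn t ht.1 b hb.1, K.mul_mem (K.mul_mem ht.2 hb.2) (K.inv_mem ht.2)⟩
  · intro t ht
    obtain ⟨j, hj⟩ := hpow t ht.1
    exact ⟨j, hj, K.pow_mem ht.2 _⟩

variable {G : Type u} [Group G]

/-- hyperelementary subgroups of the quotient by `N` -/
theorem exists_FG_C [Finite G] (N : Subgroup G) (hN : N.Normal) (x : G) (p : ℕ) (hp : p.Prime) :
    ∃ f ∈ FG (HyC N p), ¬ (p : ℤ) ∣ f x := by
  classical
  have := Fact.mk hp
  let Q := G ⧸ N
  let π : G →* Q := QuotientGroup.mk' N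
  obtain ⟨H, C, hCH, hC, hn, hpow, hdvd⟩ := exists_hyper (π x) p
  let _ : MulAction G (Q ⧸ H) := MulAction.compHom (Q ⧸ H) π
  have hsmul : ∀ (g : G) (y : Q ⧸ H), g • y = π g • y := fun g y => rfl
  refine ⟨fun g => Nat.card {y : Q ⧸ H // g • y = y},
    ⟨Q ⧸ H, Fintype.ofFinite _, inferInstance, ?_, fun g => rfl⟩, ?_⟩
  · intro y
    induction y using QuotientGroup.induction_on with
    | H q =>
      let θ : G →* Q := (MulAut.conj q⁻¹).toMonoidHom.comp π
      have hθ : ∀ g : G, θ g = q⁻¹ * π g * q := by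
        intro g
        show q⁻¹ * π g * (q⁻¹)⁻¹ = _
        rw [inv_inv]
      have hker : ∀ g : G, θ g = 1 → g ∈ N := by
        intro g hg
        rw [hθ] at hg
        have h4 : π g = 1 := by
          have h5 : q * (q⁻¹ * π g * q) * q⁻¹ = π g := by group
          rw [← h5, hg]
          group
        rwa [← MonoidHom.mem_ker, QuotientGroup.ker_mk'] at h4
      have hstab : MulAction.stabilizer G (q : Q ⧸ H) = H.comap θ := by
        ext g
        rw [MulAction.mem_stabilizer_iff, Subgroup.mem_comap, hθ, hsmul]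
        have h1 : π g • (q : Q ⧸ H) = ((π g * q : Q) : Q ⧸ H) := rfl
        rw [h1, eq_comm, QuotientGroup.eq, mul_assoc]
      rw [hstab]
      obtain ⟨q', hq'⟩ := hC.exists_generator
      obtain ⟨z, hz⟩ := QuotientGroup.mk'_surjective N (q * (q' : Q) * q⁻¹)
      have hθz : θ z = q' := by
        rw [hθ]
        show q⁻¹ * (QuotientGroup.mk' N z) * q = q'
        rw [hz]
        group
      refine ⟨C.comap θ, z, ?_, Subgroup.comap_mono hCH, ?_, ?_, ?_⟩
      · intro g hg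
        have h1 : π g = 1 := by
          rw [← MonoidHom.mem_ker, QuotientGroup.ker_mk']
          exact hg
        rw [Subgroup.mem_comap, hθ, h1, mul_one, inv_mul_cancel]
        exact C.one_mem
      · intro b hb
        obtain ⟨i, hi⟩ := Subgroup.mem_zpowers_iff.1 (hq' ⟨θ b, hb⟩)
        refine ⟨i, (z ^ i)⁻¹ * b, hker _ ?_, by group⟩
        have h1 : (q' : Q) ^ i = θ b := by
          have h2 := congrArg Subtype.val hi
          rwa [Subgroup.coe_zpow] at h2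
        rw [map_mul, map_inv, map_zpow, hθz, h1, inv_mul_cancel]
      · intro t ht b hb
        rw [Subgroup.mem_comap, map_mul, map_mul, map_inv]
        exact hn _ ht _ hb
      · intro t ht
        obtain ⟨j, hj⟩ := hpow (θ t) ht
        refine ⟨j, ?_⟩
        rw [Subgroup.mem_comap, map_pow]
        exact hj
  · intro h1
    apply hdvd
    have h2 : ((p : ℕ) : ℤ) ∣ (Nat.card {y : Q ⧸ H // x • y = y} : ℤ) := h1
    exact_mod_cast h2

theorem HyC.comm {Z B : Subgroup G} {z : G} (hZ : Z.Normal)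
    (hcyc : ∀ b ∈ B, ∃ i : ℤ, ∃ a ∈ Z, b = z ^ i * a) :
    ∀ x ∈ B, ∀ y ∈ B, x * y * (y * x)⁻¹ ∈ Z := by
  intro x hx y hy
  obtain ⟨i, a, ha, rfl⟩ := hcyc x hx
  obtain ⟨j, a', ha', rfl⟩ := hcyc y hy
  have h2 : Commute (z ^ i) (z ^ j) := (Commute.refl z).zpow_zpow i j
  have h1 : z ^ i * a * (z ^ j * a') * (z ^ j * a' * (z ^ i * a))⁻¹ =
      (z ^ i * a * (z ^ i)⁻¹) * ((z ^ i * z ^ j) * (a' * a⁻¹) * (z ^ i * z ^ j)⁻¹) *
        (z ^ j * a'⁻¹ * (z ^ j)⁻¹) := by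
    have h3 : (z ^ i * z ^ j)⁻¹ = (z ^ j * z ^ i)⁻¹ := by rw [h2.eq]
    rw [h3]
    group
  rw [h1]
  exact Z.mul_mem (Z.mul_mem (hZ.conj_mem _ ha _) (hZ.conj_mem _ (Z.mul_mem ha' (Z.inv_mem ha)) _))
    (hZ.conj_mem _ (Z.inv_mem ha') _)

theorem HyC.solvable [Finite G] {Z : Subgroup G} (hZ : Z.Normal) (hZs : Group.IsSolvable Z) {p : ℕ}
    (hp : p.Prime) {H : Subgroup G} (h : HyC Z p H) : Group.IsSolvable H := by
  obtain ⟨B, z, hZB, hBH, hcyc, hn, hpow⟩ := h
  exact solv_pow p hp (solv_comm_mod hZ hZs (HyC.comm hZ hcyc)) hn hpow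

section

variable {E : Type*} [Field E] [CharZero E] [Finite G]

/-- **Brauer's theorem with signatures relative to an abelian normal subgroup `Z`**: `c` is central modulo
the normal subgroup `N` of odd order; only solvable subgroups which contain `Z` are used. -/
theorem brauer_Z (hE : HasEnoughRootsOfUnity E (Nat.card G)) {c : G} {N Z : Subgroup G}
    (hN : N.Normal) (hodd : Odd (Nat.card N)) (hcN : ∀ g : G, g * c * g⁻¹ * c⁻¹ ∈ N)
    (hcc : c * c = 1) (hZ : Z.Normal) (hZab : ∀ x ∈ Z, ∀ y ∈ Z, x * y = y * x)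
    {ψ : G →* Eˣ} (hψ : c ≠ 1 → ψ c = -1) {θ ω : G → E}
    (hθ : IsChar θ) (hω : IsChar ω) (h1 : θ 1 = ω 1) (h2 : θ c = ω c) :
    θ - ω ∈ SCT (fun K : Subgroup G => Group.IsSolvable K ∧ Z ≤ K) E {s | IsConj c s} := by
  have hI : ∀ H : Subgroup G, Isol {s | IsConj c s} ψ H := by
    intro H
    refine ⟨?_, ?_, ?_⟩
    · intro s hs
      obtain ⟨u, hu⟩ := isConj_iff.1 hs
      rw [← hu]
      have h3 : u * c * u⁻¹ * (u * c * u⁻¹) = u * (c * c) * u⁻¹ := by group
      rw [h3, hcc]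
      group
    · intro s hs s' hs' K _ hK hK'
      exact conj_of_odd hN hodd hcN hcc hs hs' hK hK'
    · intro s hs hs1
      obtain ⟨u, hu⟩ := isConj_iff.1 hs
      have hc1 : c ≠ 1 := by
        rintro rfl
        apply hs1
        rw [← hu]
        group
      rw [← hu, map_mul, map_mul, hψ hc1, map_inv, mul_right_comm, mul_inv_cancel, one_mul]
  have hconj : ∀ s ∈ {s | IsConj c s}, ∀ x : G, x⁻¹ * s * x ∈ {s | IsConj c s} := by
    intro s hs x
    exact hs.trans (isConj_iff.2 ⟨x⁻¹, by rw [inv_inv]⟩)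
  have hDS : ∀ s ∈ {s | IsConj c s}, θ s = ω s := by
    intro s hs
    obtain ⟨u, hu⟩ := isConj_iff.1 hs
    have h5 : s = (u⁻¹)⁻¹ * c * u⁻¹ := by rw [← hu, inv_inv]
    rw [h5, isChar_conj hθ, isChar_conj hω, h2]
  refine all_primes ?_
  intro p hp
  have := Fact.mk hp
  refine prime_part (Z := Z) (P₀ := HyC Z p) p hp
    (fun H K hH hK => hyC_inf hH hK.le) (fun x => exists_FG_C Z hZ x p hp) ?_ ?_ ?_
  · intro g x
    rw [Pi.sub_apply, Pi.sub_apply, isChar_conj hθ, isChar_conj hω]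
  · intro T hT K hK hZK
    exact ⟨solv_mono (hT.solvable hZ (solv_comm hZab) hp) hK, hZK⟩
  · intro T hT
    have hmem : ∀ {η : G → E}, IsChar η → ext T (1 : T →* Eˣ) * η ∈ GC E {s | IsConj c s} Z ψ T := by
      rintro _ ⟨n, ρ, rfl⟩
      obtain ⟨B, z, hZB, hBT, hcyc, hn, hpow⟩ := hT
      exact clifford2 hE p ρ (hI T) hZB hBT hZab (fun t z hz => hZ.conj_mem z hz t) hcyc hn hpow
    refine SC_of_GC hconj (hI T) hT.le ?_ ?_ ?_
    · rw [mul_sub]
      exact sub_mem (hmem hθ) (hmem hω)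
    · rw [Pi.mul_apply, Pi.sub_apply, h1, sub_self, mul_zero]
    · intro s hs
      rw [Pi.mul_apply, Pi.sub_apply, hDS s hs, sub_self, mul_zero]

end

section

variable {K E : Type*} [Field K] [CharZero K] [Field E] [Algebra K E] [Algebra.IsAlgebraic K E]

/-- the main theorem for groups in which `c` is central modulo a normal subgroup of odd order, relative to an
abelian normal subgroup `Z` -/
theorem main_Z [Finite G]
    (hE : HasEnoughRootsOfUnity E (Nat.card G)) {c : G} {N Z : Subgroup G}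
    (hN : N.Normal) (hodd : Odd (Nat.card N)) (hcN : ∀ g : G, g * c * g⁻¹ * c⁻¹ ∈ N)
    (hcc : c * c = 1) (hZ : Z.Normal) (hZab : ∀ x ∈ Z, ∀ y ∈ Z, x * y = y * x)
    {M : FrobData K} {Fr : Nat.Primes → G} {m : ℂ}
    {A : ArtinPeriods E G} {r : ℕ} {cP cM : (K →+* ℂ) → ℂ}
    (h : AbelianTwists (fun H : Subgroup G => Group.IsSolvable H ∧ Z ≤ H) c (M.map E) Fr m A r
      (lft E cP) (lft E cM))
    (θ : G → K) (hθ : IsChar θ) (a b : ℕ) (ha : θ 1 = a + b) (hb : θ c = a - b)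
    (d : (K →+* ℂ) → ℂ) (hd : A.δ (fun g => algebraMap K E (θ g)) = lft E d) :
    ∃ X : LAt M Fr θ m, Sim X.value (cP ^ a * cM ^ b * d ^ r) := by
  have hE0 : CharZero E := charZero_ext (K := K)
  obtain ⟨e1, e2, e3⟩ := char_vals c h.ψ h.odd θ a b ha hb
  have hθE : IsChar fun g => algebraMap K E (θ g) := isChar_map hθ
  have hD := brauer_Z hE hN hodd hcN hcc hZ hZab h.odd hθE
    (isChar_add (isChar_nsmul isChar_one a) (isChar_nsmul (isChar_linear h.ψ) b)) e1 e2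
  obtain ⟨X, hX⟩ := extend (S := {s | IsConj c s}) h.L A r h.rel h.ψ h.L₁ h.Lψ (lft E cP) (lft E cM) h.base b
    (fun hb0 => h.baseOdd (fun hc1 => hb0 (e3 hc1))) hθE a hD
  rw [hd, lft_comb] at hX
  exact descend_LAt X _ hX

end

end Pool.Agent.Y144.DL
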