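import Pool.Agent.Y144.DL.Proj

/-!
# Artin's theorem with signatures
-/

set_option autoImplicit false

namespace Pool.Agent.Y144.DL

variable {E : Type*} [Field E] {G : Type*} [Group G]

/-- The trace of an idempotent matrix is a natural number. -/
theorem trace_idem [CharZero E] {n : ℕ} (e : Matrix (Fin n) (Fin n) E) (he : e * e = e) :
    ∃ k : ℕ, e.trace = k := by
  have h1 : LinearMap.IsProj (LinearMap.range (Matrix.toLin' e)) (Matrix.toLin' e) := by
    refine ⟨fun x => LinearMap.mem_range_self _ x, ?_⟩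
    rintro _ ⟨y, rfl⟩
    rw [← LinearMap.comp_apply, ← Matrix.toLin'_mul, he]
  have h2 := LinearMap.IsProj.trace h1
  refine ⟨Module.finrank E (LinearMap.range (Matrix.toLin' e)), ?_⟩
  rw [← h2, LinearMap.trace_eq_matrix_trace E (Pi.basisFun E (Fin n))]
  simp

theorem isChar_conj {θ : G → E} (hθ : IsChar θ) (g x : G) : θ (x⁻¹ * g * x) = θ g := by
  obtain ⟨n, ρ, rfl⟩ := hθ
  show (ρ (x⁻¹ * g * x)).trace = (ρ g).trace
  rw [map_mul, map_mul, Matrix.trace_mul_cycle, ← map_mul, mul_inv_cancel, map_one, one_mul]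

/-- the additive group of the virtual characters of an abelian subgroup `C` -/
def RZ (E : Type*) [Field E] (C : Subgroup G) : AddSubgroup (G → E) :=
  AddSubgroup.closure {f | ∃ χ : C →* Eˣ, f = ext C χ}

theorem ext_mem_RZ (C : Subgroup G) (χ : C →* Eˣ) : ext C χ ∈ RZ E C :=
  AddSubgroup.subset_closure ⟨χ, rfl⟩

theorem ext_mul_ext (C : Subgroup G) (χ χ' : C →* Eˣ) : ext C χ * ext C χ' = ext C (χ * χ') := by
  funext g
  rw [Pi.mul_apply]
  by_cases h : g ∈ C
  · rw [ext_mem C χ h, ext_mem C χ' h, ext_mem C _ h, MonoidHom.mul_apply, Units.val_mul]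
  · rw [ext_not_mem C χ h, ext_not_mem C χ' h, ext_not_mem C _ h, mul_zero]

theorem RZ_mul (C : Subgroup G) {f f' : G → E} (hf : f ∈ RZ E C) (hf' : f' ∈ RZ E C) :
    f * f' ∈ RZ E C := by
  induction hf using AddSubgroup.closure_induction with
  | mem f hf =>
    obtain ⟨χ, rfl⟩ := hf
    induction hf' using AddSubgroup.closure_induction with
    | mem f' hf' =>
      obtain ⟨χ', rfl⟩ := hf'
      rw [ext_mul_ext]
      exact ext_mem_RZ C _
    | zero => rw [mul_zero]; exact zero_mem _
    | add a b _ _ ha hb => rw [mul_add]; exact add_mem ha hb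
    | neg a _ ha => rw [mul_neg]; exact neg_mem ha
  | zero => rw [zero_mul]; exact zero_mem _
  | add a b _ _ ha hb => rw [add_mul]; exact add_mem ha hb
  | neg a _ ha => rw [neg_mul]; exact neg_mem ha

theorem RZ_exists (C : Subgroup G) [Fintype (C →* Eˣ)] {f : G → E} (hf : f ∈ RZ E C) :
    ∃ n : (C →* Eˣ) → ℤ, f = ∑ χ, n χ • ext C χ := by
  classical
  induction hf using AddSubgroup.closure_induction with
  | mem f hf =>
    obtain ⟨χ, rfl⟩ := hf
    refine ⟨fun χ' => if χ' = χ then 1 else 0, ?_⟩
    simp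
  | zero => exact ⟨fun _ => 0, by simp⟩
  | add a b _ _ ha hb =>
    obtain ⟨n, rfl⟩ := ha
    obtain ⟨m, rfl⟩ := hb
    refine ⟨fun χ => n χ + m χ, ?_⟩
    rw [← Finset.sum_add_distrib]
    exact Finset.sum_congr rfl fun χ _ => (add_smul _ _ _).symm
  | neg a _ ha =>
    obtain ⟨n, rfl⟩ := ha
    refine ⟨fun χ => -n χ, ?_⟩
    rw [← Finset.sum_neg_distrib]
    exact Finset.sum_congr rfl fun χ _ => (neg_smul _ _).symm

section

variable [Finite G] [CharZero E] (hE : HasEnoughRootsOfUnity E (Nat.card G))

include hE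

/-- The restriction of a character to an abelian subgroup. -/
theorem restrict_mem {θ : G → E} (hθ : IsChar θ) (C : Subgroup G) (hC : ∀ x ∈ C, ∀ y ∈ C, x * y = y * x) :
    ext C (1 : C →* Eˣ) * θ ∈ RZ E C := by
  classical
  have := Fintype.ofFinite G
  obtain ⟨n, ρ, rfl⟩ := hθ
  have hE' := hasEnough_ab hE C
  have : Finite (C →* Eˣ) := finite_dual hE'
  have : Fintype (C →* Eˣ) := Fintype.ofFinite _
  have hA : Adm ρ C (1 : Matrix (Fin n) (Fin n) E) :=
    ⟨mul_one 1, fun b _ => by rw [mul_one, one_mul], fun x hx y hy => by rw [hC x hx y hy]⟩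
  choose k hk using fun μ : C →* Eˣ => trace_idem (pr ρ C 1 μ) (hA.pr_mul_self μ)
  have h1 : ext C (1 : C →* Eˣ) * (fun g => (ρ g).trace) = ∑ μ : C →* Eˣ, k μ • ext C μ := by
    funext g
    rw [Pi.mul_apply, Finset.sum_apply]
    by_cases hg : g ∈ C
    · rw [ext_mem C 1 hg, MonoidHom.one_apply, Units.val_one, one_mul]
      have h2 : ρ g = ∑ μ : C →* Eˣ, ρ g * pr ρ C 1 μ := by
        rw [← Finset.mul_sum, hA.sum_pr hE', mul_one]
      rw [h2, Matrix.trace_sum]
      refine Finset.sum_congr rfl fun μ _ => ?_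
      rw [hA.mul_pr μ ⟨g, hg⟩, Units.smul_def, Matrix.trace_smul, hk, Pi.smul_apply, ext_mem C μ hg,
        smul_eq_mul, nsmul_eq_mul, mul_comm]
    · rw [ext_not_mem C 1 hg, zero_mul]
      symm
      refine Finset.sum_eq_zero fun μ _ => ?_
      rw [Pi.smul_apply, ext_not_mem C μ hg, smul_zero]
  rw [h1]
  exact sum_mem fun μ _ => nsmul_mem (ext_mem_RZ C μ) _

open Classical in
/-- `|C|` times the characteristic function of a subgroup `B` of the abelian group `C` is a virtual
character. -/
theorem indicator_mem (C B : Subgroup G) (hBC : B ≤ C) (hC : ∀ x ∈ C, ∀ y ∈ C, x * y = y * x) :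
    (fun g => if g ∈ B then (Nat.card C : E) else 0) ∈ RZ E C := by
  have := Fintype.ofFinite G
  let : CommGroup C := { (inferInstance : Group C) with
    mul_comm := fun x y => Subtype.ext (hC x x.2 y y.2) }
  let N : Subgroup C := B.subgroupOf C
  have hE' : HasEnoughRootsOfUnity E (Monoid.exponent (C ⧸ N)) := by
    refine hasEnough_of_dvd hE ?_ Nat.card_pos.ne'
    have h1 : Monoid.exponent (C ⧸ N) ∣ Nat.card (C ⧸ N) := Group.exponent_dvd_nat_card
    have h2 : Nat.card (C ⧸ N) ∣ Nat.card C := Subgroup.index_dvd_card N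
    exact (h1.trans h2).trans (Subgroup.card_subgroup_dvd_card C)
  obtain ⟨e⟩ := CommGroup.monoidHom_mulEquiv_of_hasEnoughRootsOfUnity (C ⧸ N) E
  have : Finite (C ⧸ N →* Eˣ) := Finite.of_equiv _ e.symm.toEquiv
  have : Fintype (C ⧸ N →* Eˣ) := Fintype.ofFinite _
  have h1 : (fun g => if g ∈ B then (Nat.card C : E) else 0) =
      ∑ χ : C ⧸ N →* Eˣ, Nat.card B • ext C (χ.comp (QuotientGroup.mk' N)) := by
    funext g
    rw [Finset.sum_apply]
    by_cases hg : g ∈ C
    · have h2 : ∀ χ : C ⧸ N →* Eˣ, (Nat.card B • ext C (χ.comp (QuotientGroup.mk' N))) g =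
          (Nat.card B : E) * (χ (QuotientGroup.mk' N ⟨g, hg⟩) : E) := by
        intro χ
        rw [Pi.smul_apply, ext_mem C _ hg, nsmul_eq_mul]
        rfl
      rw [Finset.sum_congr rfl fun χ _ => h2 χ, ← Finset.mul_sum, sum_dual hE']
      have h3 : (QuotientGroup.mk' N ⟨g, hg⟩ = 1) ↔ g ∈ B := by
        rw [← MonoidHom.mem_ker, QuotientGroup.ker_mk', Subgroup.mem_subgroupOf]
      simp only [h3]
      split_ifs with hgB
      · have h4 : Nat.card B = Nat.card N :=
          (Nat.card_congr (Subgroup.subgroupOfEquivOfLe hBC).toEquiv).symm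
        rw [← Nat.cast_mul, h4]
        congr 1
        exact (Subgroup.card_mul_index N).symm
      · rw [mul_zero]
    · rw [if_neg (fun h => hg (hBC h))]
      symm
      refine Finset.sum_eq_zero fun χ _ => ?_
      rw [Pi.smul_apply, ext_not_mem C _ hg, smul_zero]
  rw [h1]
  exact sum_mem fun μ _ => nsmul_mem (ext_mem_RZ C _) _

open Classical in
/-- `|C|` times the characteristic function of the set of generators of `B ≤ C`. -/
theorem gen_mem (C : Subgroup G) (hC : ∀ x ∈ C, ∀ y ∈ C, x * y = y * x) (n : ℕ) :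
    ∀ B : Subgroup G, Nat.card B ≤ n → B ≤ C →
    (fun g => if Subgroup.zpowers g = B then (Nat.card C : E) else 0) ∈ RZ E C := by
  have := Fintype.ofFinite G
  have : Fintype (Subgroup G) := Fintype.ofFinite _
  induction n with
  | zero =>
    intro B hB
    exact absurd hB (by have := Nat.card_pos (α := B); omega)
  | succ n ih =>
    intro B hB hBC
    have h1 : (fun g => if Subgroup.zpowers g = B then (Nat.card C : E) else 0) =
        (fun g => if g ∈ B then (Nat.card C : E) else 0) -
          ∑ B' ∈ Finset.univ.filter (fun B' : Subgroup G => B' < B),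
            (fun g => if Subgroup.zpowers g = B' then (Nat.card C : E) else 0) := by
      funext g
      rw [Pi.sub_apply, Finset.sum_apply]
      have h2 : (∑ B' ∈ Finset.univ.filter (fun B' : Subgroup G => B' < B),
          if Subgroup.zpowers g = B' then (Nat.card C : E) else 0) =
          if Subgroup.zpowers g < B then (Nat.card C : E) else 0 := by
        rw [Finset.sum_ite_eq]
        simp
      rw [h2]
      by_cases hg : g ∈ B
      · rw [if_pos hg]
        have h3 : Subgroup.zpowers g ≤ B := by rwa [Subgroup.zpowers_le]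
        rcases h3.eq_or_lt with h4 | h4
        · rw [if_pos h4, if_neg (by rw [h4]; exact lt_irrefl B), sub_zero]
        · rw [if_neg h4.ne, if_pos h4, sub_self]
      · rw [if_neg hg]
        have h3 : Subgroup.zpowers g ≠ B := by
          rintro rfl
          exact hg (Subgroup.mem_zpowers g)
        have h4 : ¬ Subgroup.zpowers g < B := by
          intro h4
          exact hg (h4.le (Subgroup.mem_zpowers g))
        rw [if_neg h3, if_neg h4, sub_zero]
    rw [h1]
    refine sub_mem (indicator_mem hE C B hBC hC) (sum_mem fun B' hB' => ?_)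
    have h5 : B' < B := (Finset.mem_filter.1 hB').2
    refine ih B' ?_ (h5.le.trans hBC)
    have h6 : Nat.card B' < Nat.card B := by
      have h7 : (B' : Set G) ⊂ (B : Set G) := h5
      have h8 := Set.ncard_lt_ncard h7 (Set.toFinite _)
      exact h8
    omega

end

/-! ### sorting by signature -/

theorem cyclic_unique [Finite G] (C : Subgroup G) (hC : IsCyclic C) {z z' : G} (hz : z ∈ C) (hz' : z' ∈ C)
    (h2 : z * z = 1) (h2' : z' * z' = 1) (h1 : z ≠ 1) (h1' : z' ≠ 1) : z = z' := by
  classical
  have := Fintype.ofFinite G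
  by_contra hne
  have h3 := IsCyclic.card_pow_eq_one_le (α := C) (n := 2) (by norm_num)
  have h4 : ({1, ⟨z, hz⟩, ⟨z', hz'⟩} : Finset C) ⊆ Finset.univ.filter fun a : C => a ^ 2 = 1 := by
    intro x hx
    rw [Finset.mem_filter]
    refine ⟨Finset.mem_univ _, ?_⟩
    simp only [Finset.mem_insert, Finset.mem_singleton] at hx
    rcases hx with rfl | rfl | rfl
    · exact one_pow 2
    · exact Subtype.ext (by rw [Subgroup.coe_pow, sq]; exact h2)
    · exact Subtype.ext (by rw [Subgroup.coe_pow, sq]; exact h2')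
  have h5 : ({1, ⟨z, hz⟩, ⟨z', hz'⟩} : Finset C).card = 3 := by
    rw [Finset.card_insert_of_notMem, Finset.card_insert_of_notMem, Finset.card_singleton]
    · rw [Finset.mem_singleton]
      intro h
      exact hne (congrArg Subtype.val h)
    · simp only [Finset.mem_insert, Finset.mem_singleton, not_or]
      exact ⟨fun h => h1 (congrArg Subtype.val h).symm, fun h => h1' (congrArg Subtype.val h).symm⟩
  have h6 := Finset.card_le_card h4
  omega

/-- the pairs of induced characters to which the rationality theorems over number fields apply: `C` is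
cyclic and the two characters of `C` have the same signature -/
def pairs (E : Type*) [Field E] [Finite G] (c : G) : Set ((G → E) × (G → E)) :=
  {q | ∃ (C : Subgroup G) (χ χ' : C →* Eˣ), IsCyclic C ∧
    (∀ h : C, IsConj c (h : G) → χ h = χ' h) ∧ q = (ind C χ, ind C χ')}

theorem avg_mem [Finite G] [CharZero E] (hE : HasEnoughRootsOfUnity E (Nat.card G)) {c : G} (hc : c * c = 1)
    (C : Subgroup G) (hC : IsCyclic C) {f : G → E} (hf : f ∈ RZ E C) (h1 : f 1 = 0)
    (h2 : ∀ z ∈ C, IsConj c z → f z = 0) :
    avg C ⊤ f ∈ AddSubgroup.closure {f | ∃ q ∈ pairs E c, f = q.1 - q.2} := by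
  classical
  have := Fintype.ofFinite G
  have : Finite (C →* Eˣ) := finite_dual (hasEnough_ab hE C)
  have : Fintype (C →* Eˣ) := Fintype.ofFinite _
  obtain ⟨n, rfl⟩ := RZ_exists C hf
  -- differences
  have key : ∀ χ χ' : C →* Eˣ, (∀ h : C, IsConj c (h : G) → χ h = χ' h) →
      avgHom C ⊤ (ext C χ - ext C χ') ∈ AddSubgroup.closure {f | ∃ q ∈ pairs E c, f = q.1 - q.2} := by
    intro χ χ' h
    refine AddSubgroup.subset_closure ⟨(ind C χ, ind C χ'), ⟨C, χ, χ', hC, h, rfl⟩, ?_⟩
    rw [map_sub]
    rfl
  have hval : ∀ g : C, (∑ χ, n χ • ext C χ) (g : G) = ∑ χ : C →* Eˣ, (n χ : E) * (χ g : E) := by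
    intro g
    rw [Finset.sum_apply]
    refine Finset.sum_congr rfl fun χ _ => ?_
    rw [Pi.smul_apply, ext_mem C χ g.2, zsmul_eq_mul]
  have hone : (∑ χ : C →* Eˣ, n χ) = 0 := by
    have h3 := hval 1
    rw [Subgroup.coe_one, h1] at h3
    have h4 : (((∑ χ : C →* Eˣ, n χ : ℤ)) : E) = 0 := by
      rw [h3, Int.cast_sum]
      refine Finset.sum_congr rfl fun χ _ => ?_
      rw [map_one, Units.val_one, mul_one]
    exact_mod_cast h4
  change avgHom C ⊤ (∑ χ, n χ • ext C χ) ∈ _
  by_cases hall : ∀ (χ : C →* Eˣ) (h : C), IsConj c (h : G) → χ h = 1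
  · have h3 : (∑ χ, n χ • ext C χ) = ∑ χ : C →* Eˣ, n χ • (ext C χ - ext C 1) := by
      simp only [smul_sub]
      rw [Finset.sum_sub_distrib, ← Finset.sum_smul, hone, zero_smul, sub_zero]
    rw [h3, map_sum]
    refine sum_mem fun χ _ => ?_
    rw [map_zsmul]
    refine zsmul_mem (key χ 1 fun h hh => ?_) _
    rw [hall χ h hh, MonoidHom.one_apply]
  · push Not at hall
    obtain ⟨χm, z, hz, hχm⟩ := hall
    have hzz : (z : G) * z = 1 := by
      obtain ⟨u, hu⟩ := isConj_iff.1 hz
      rw [← hu]
      have h3 : u * c * u⁻¹ * (u * c * u⁻¹) = u * (c * c) * u⁻¹ := by group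
      rw [h3, hc]
      group
    have hz1 : (z : G) ≠ 1 := by
      intro h
      apply hχm
      have h3 : z = 1 := Subtype.ext h
      rw [h3, map_one]
    have huniq : ∀ h : C, IsConj c (h : G) → h = z := by
      intro h hh
      apply Subtype.ext
      refine cyclic_unique C hC h.2 z.2 ?_ hzz ?_ hz1
      · obtain ⟨u, hu⟩ := isConj_iff.1 hh
        rw [← hu]
        have h3 : u * c * u⁻¹ * (u * c * u⁻¹) = u * (c * c) * u⁻¹ := by group
        rw [h3, hc]
        group
      · intro h1'
        rw [h1'] at hh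
        have h3 : c = 1 := by
          obtain ⟨u, hu⟩ := isConj_iff.1 hh
          have h4 : u * c = u := by
            have := congrArg (fun t => t * u) hu
            simpa using this
          exact mul_left_cancel (h4.trans (mul_one u).symm)
        rw [h3] at hz
        exact hz1 (isConj_one_right.1 hz)
    have hpm : ∀ χ : C →* Eˣ, (χ z : E) = 1 ∨ (χ z : E) = -1 := by
      intro χ
      have h3 : (χ z : E) * (χ z : E) = 1 := by
        rw [← Units.val_mul, ← map_mul]
        have h4 : z * z = 1 := Subtype.ext hzz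
        rw [h4, map_one, Units.val_one]
      exact mul_self_eq_one_iff.1 h3
    have hχm' : (χm z : E) = -1 := by
      rcases hpm χm with h | h
      · exact absurd (Units.ext h) hχm
      · exact h
    let b : (C →* Eˣ) → (C →* Eˣ) := fun χ => if (χ z : E) = 1 then 1 else χm
    have hb : ∀ χ : C →* Eˣ, ∀ h : C, IsConj c (h : G) → χ h = b χ h := by
      intro χ h hh
      rw [huniq h hh]
      apply Units.ext
      show (χ z : E) = (((if (χ z : E) = 1 then 1 else χm : C →* Eˣ)) z : E)
      split_ifs with h3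
      · rw [h3, MonoidHom.one_apply, Units.val_one]
      · rw [hχm', (hpm χ).resolve_left h3]
    -- the two sums
    have hplus : (∑ χ ∈ Finset.univ.filter (fun χ : C →* Eˣ => (χ z : E) = 1), n χ) = 0 ∧
        (∑ χ ∈ Finset.univ.filter (fun χ : C →* Eˣ => ¬ (χ z : E) = 1), n χ) = 0 := by
      have h3 := Finset.sum_filter_add_sum_filter_not Finset.univ
        (fun χ : C →* Eˣ => (χ z : E) = 1) n
      rw [hone] at h3
      have h4 := hval z
      rw [h2 z z.2 hz, ← Finset.sum_filter_add_sum_filter_not Finset.univ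
        (fun χ : C →* Eˣ => (χ z : E) = 1)] at h4
      have h5 : ∑ χ ∈ Finset.univ.filter (fun χ : C →* Eˣ => (χ z : E) = 1), (n χ : E) * (χ z : E) =
          ((∑ χ ∈ Finset.univ.filter (fun χ : C →* Eˣ => (χ z : E) = 1), n χ : ℤ) : E) := by
        rw [Int.cast_sum]
        refine Finset.sum_congr rfl fun χ hχ => ?_
        rw [(Finset.mem_filter.1 hχ).2, mul_one]
      have h6 : ∑ χ ∈ Finset.univ.filter (fun χ : C →* Eˣ => ¬ (χ z : E) = 1), (n χ : E) * (χ z : E) =
          -((∑ χ ∈ Finset.univ.filter (fun χ : C →* Eˣ => ¬ (χ z : E) = 1), n χ : ℤ) : E) := by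
        rw [Int.cast_sum, ← Finset.sum_neg_distrib]
        refine Finset.sum_congr rfl fun χ hχ => ?_
        rw [(hpm χ).resolve_left (Finset.mem_filter.1 hχ).2]
        ring
      rw [h5, h6] at h4
      have h7 : (((∑ χ ∈ Finset.univ.filter (fun χ : C →* Eˣ => (χ z : E) = 1), n χ) -
          (∑ χ ∈ Finset.univ.filter (fun χ : C →* Eˣ => ¬ (χ z : E) = 1), n χ) : ℤ) : E) = 0 := by
        rw [Int.cast_sub, h4]
        ring
      have h8 : (∑ χ ∈ Finset.univ.filter (fun χ : C →* Eˣ => (χ z : E) = 1), n χ) -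
          (∑ χ ∈ Finset.univ.filter (fun χ : C →* Eˣ => ¬ (χ z : E) = 1), n χ) = 0 := by
        exact_mod_cast h7
      omega
    have h3 : (∑ χ, n χ • ext C χ) = ∑ χ : C →* Eˣ, n χ • (ext C χ - ext C (b χ)) := by
      simp only [smul_sub]
      rw [Finset.sum_sub_distrib]
      have h4 : ∑ χ : C →* Eˣ, n χ • ext C (b χ) = (0 : G → E) := by
        rw [← Finset.sum_filter_add_sum_filter_not Finset.univ
          (fun χ : C →* Eˣ => (χ z : E) = 1)]
        have h5 : ∑ χ ∈ Finset.univ.filter (fun χ : C →* Eˣ => (χ z : E) = 1), n χ • ext C (b χ) =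
            (0 : G → E) := by
          have h6 : ∀ χ ∈ Finset.univ.filter (fun χ : C →* Eˣ => (χ z : E) = 1),
              n χ • ext C (b χ) = n χ • ext C 1 := by
            intro χ hχ
            have h7 : b χ = 1 := if_pos (Finset.mem_filter.1 hχ).2
            rw [h7]
          rw [Finset.sum_congr rfl h6, ← Finset.sum_smul, hplus.1, zero_smul]
        have h5' : ∑ χ ∈ Finset.univ.filter (fun χ : C →* Eˣ => ¬ (χ z : E) = 1), n χ • ext C (b χ) =
            (0 : G → E) := by
          have h6 : ∀ χ ∈ Finset.univ.filter (fun χ : C →* Eˣ => ¬ (χ z : E) = 1),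
              n χ • ext C (b χ) = n χ • ext C χm := by
            intro χ hχ
            have h7 : b χ = χm := if_neg (Finset.mem_filter.1 hχ).2
            rw [h7]
          rw [Finset.sum_congr rfl h6, ← Finset.sum_smul, hplus.2, zero_smul]
        rw [h5, h5', add_zero]
      rw [h4, sub_zero]
    rw [h3, map_sum]
    refine sum_mem fun χ _ => ?_
    rw [map_zsmul]
    exact zsmul_mem (key χ (b χ) (hb χ)) _

/-- Artin's theorem: if two characters have the same dimension and the same value at the involution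
`c`, then `|G|` times their difference is an integral combination of differences of characters induced by
linear characters of cyclic subgroups with the same signature. -/
theorem artin_signature [Finite G] [CharZero E] (hE : HasEnoughRootsOfUnity E (Nat.card G)) {c : G}
    (hc : c * c = 1) {θ ω : G → E} (hθ : IsChar θ) (hω : IsChar ω) (h1 : θ 1 = ω 1) (h2 : θ c = ω c) :
    Nat.card G • θ - Nat.card G • ω ∈ AddSubgroup.closure {f | ∃ q ∈ pairs E c, f = q.1 - q.2} := by
  classical
  have := Fintype.ofFinite G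
  have : Fintype (Subgroup G) := Fintype.ofFinite _
  let D : G → E := θ - ω
  have hD : ∀ g x : G, D (x⁻¹ * g * x) = D g := by
    intro g x
    show θ (x⁻¹ * g * x) - ω (x⁻¹ * g * x) = θ g - ω g
    rw [isChar_conj hθ, isChar_conj hω]
  let F : Subgroup G → G → E := fun C g =>
    (if Subgroup.zpowers g = C then (Nat.card C : E) else 0) * D g
  have h3 : Nat.card G • θ - Nat.card G • ω = ∑ C : Subgroup G, avg C ⊤ (F C) := by
    funext g
    rw [Finset.sum_apply]
    have h4 : ∀ C : Subgroup G, avg C ⊤ (F C) g =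
        ∑ x : G, if Subgroup.zpowers (x⁻¹ * g * x) = C then D g else 0 := by
      intro C
      have hne : (Nat.card C : E) ≠ 0 := by
        rw [Nat.cast_ne_zero]
        exact Nat.card_pos.ne'
      rw [avg_eq, Finset.mul_sum]
      refine Finset.sum_congr rfl fun x _ => ?_
      show (Nat.card C : E)⁻¹ * ((if Subgroup.zpowers (x⁻¹ * g * x) = C then (Nat.card C : E) else 0) *
        D (x⁻¹ * g * x)) = _
      rw [hD]
      split_ifs
      · field_simp
      · ring
    rw [Finset.sum_congr rfl fun C _ => h4 C, Finset.sum_comm]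
    have h5 : ∀ x : G, (∑ C : Subgroup G, if Subgroup.zpowers (x⁻¹ * g * x) = C then D g else 0) =
        D g := by
      intro x
      rw [Finset.sum_ite_eq]
      simp
    rw [Finset.sum_congr rfl fun x _ => h5 x, Finset.sum_const, Finset.card_univ,
      ← Nat.card_eq_fintype_card]
    show Nat.card G • θ g - Nat.card G • ω g = Nat.card G • (θ g - ω g)
    rw [smul_sub]
  rw [h3]
  refine sum_mem fun C _ => ?_
  by_cases hC : IsCyclic C
  · have hab : ∀ x ∈ C, ∀ y ∈ C, x * y = y * x := by
      intro x hx y hy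
      let := hC.commGroup
      have := mul_comm (⟨x, hx⟩ : C) ⟨y, hy⟩
      exact congrArg Subtype.val this
    refine avg_mem hE hc C hC ?_ ?_ ?_
    · have h4 : F C = (fun g => if Subgroup.zpowers g = C then (Nat.card C : E) else 0) *
          (ext C (1 : C →* Eˣ) * θ - ext C (1 : C →* Eˣ) * ω) := by
        funext g
        show (if Subgroup.zpowers g = C then (Nat.card C : E) else 0) * (θ g - ω g) =
          (if Subgroup.zpowers g = C then (Nat.card C : E) else 0) *
            (ext C (1 : C →* Eˣ) g * θ g - ext C (1 : C →* Eˣ) g * ω g)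
        split_ifs with h5
        · have h6 : g ∈ C := by
            rw [← h5]
            exact Subgroup.mem_zpowers g
          rw [ext_mem C _ h6, MonoidHom.one_apply, Units.val_one]
          ring
        · ring
      rw [h4]
      exact RZ_mul C (gen_mem hE C hab _ C le_rfl le_rfl)
        (sub_mem (restrict_mem hE hθ C hab) (restrict_mem hE hω C hab))
    · show _ * (θ 1 - ω 1) = 0
      rw [h1, sub_self, mul_zero]
    · intro z hz hcz
      show _ * (θ z - ω z) = 0
      obtain ⟨u, hu⟩ := isConj_iff.1 hcz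
      have h5 : z = (u⁻¹)⁻¹ * c * u⁻¹ := by rw [← hu, inv_inv]
      rw [h5, isChar_conj hθ, isChar_conj hω, h2, sub_self, mul_zero]
  · have h4 : F C = 0 := by
      funext g
      show (if Subgroup.zpowers g = C then (Nat.card C : E) else 0) * D g = 0
      rw [if_neg, zero_mul]
      rintro rfl
      exact hC inferInstance
    rw [h4, avg_zero]
    exact zero_mem _

end Pool.Agent.Y144.DL
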