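import Mathlib

/-!
# Solomon's induction theorem
-/

set_option autoImplicit false

namespace Pool.Agent.Y144.DL

variable {Q : Type*} [Group Q]

/-- for every element `x` and every prime `p` there is a `p`-hyperelementary subgroup `H` such that the
number of fixed points of `x` on `Q ⧸ H` is prime to `p` -/
theorem exists_hyper [Finite Q] (x : Q) (p : ℕ) [hp : Fact p.Prime] :
    ∃ H C : Subgroup Q, C ≤ H ∧ IsCyclic C ∧ (∀ h ∈ H, ∀ y ∈ C, h * y * h⁻¹ ∈ C) ∧
      (∀ h ∈ H, ∃ k : ℕ, h ^ p ^ k ∈ C) ∧ ¬ p ∣ Nat.card {y : Q ⧸ H // x • y = y} := by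
  classical
  obtain ⟨v, m', hm', hord⟩ := Nat.exists_eq_pow_mul_and_not_dvd (orderOf_pos x).ne' p hp.out.ne_one
  let C : Subgroup Q := Subgroup.zpowers (x ^ p ^ v)
  have hCcard : Nat.card C = m' := by
    rw [Nat.card_zpowers, orderOf_pow, hord, Nat.gcd_eq_right (Dvd.intro _ rfl),
      Nat.mul_div_cancel_left _ (pow_pos hp.out.pos v)]
  have hcop : ∀ k : ℕ, Nat.Coprime (p ^ k) m' := fun k =>
    Nat.Coprime.pow_left k ((Nat.Prime.coprime_iff_not_dvd hp.out).2 hm')
  let N : Subgroup Q := Subgroup.normalizer (C : Set Q)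
  have hCN : C ≤ N := Subgroup.le_normalizer
  have hxC : ∀ y ∈ C, x * y * x⁻¹ = y := by
    intro y hy
    obtain ⟨j, rfl⟩ := Subgroup.mem_zpowers_iff.1 hy
    have h1 : Commute x ((x ^ p ^ v) ^ j) := ((Commute.refl x).pow_right _).zpow_right _
    rw [h1.eq, mul_assoc, mul_inv_cancel, mul_one]
  have hxN : x ∈ N := by
    rw [Subgroup.mem_normalizer_iff]
    intro h
    constructor
    · intro hh
      have := hxC h hh
      rwa [this]
    · intro hh
      have h1 := hxC _ hh
      have h2 : x * h * x⁻¹ = h := by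
        have h3 : x⁻¹ * (x * (x * h * x⁻¹) * x⁻¹) * x = x⁻¹ * (x * h * x⁻¹) * x := by rw [h1]
        have h4 : x⁻¹ * (x * (x * h * x⁻¹) * x⁻¹) * x = x * h * x⁻¹ := by group
        have h5 : x⁻¹ * (x * h * x⁻¹) * x = h := by group
        rw [h4, h5] at h3
        exact h3
      rwa [h2] at hh
  let CN : Subgroup N := C.subgroupOf N
  have hCNn : CN.Normal := Subgroup.normal_in_normalizer
  let QN := N ⧸ CN
  let D : Subgroup QN := (Subgroup.zpowers (⟨x, hxN⟩ : N)).map (QuotientGroup.mk' CN)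
  have hDp : IsPGroup p D := by
    rintro ⟨g, hg⟩
    refine ⟨v, ?_⟩
    apply Subtype.ext
    obtain ⟨y, hy, rfl⟩ := hg
    obtain ⟨j, rfl⟩ := Subgroup.mem_zpowers_iff.1 hy
    show (QuotientGroup.mk' CN ((⟨x, hxN⟩ : N) ^ j)) ^ p ^ v = 1
    rw [← map_pow, ← MonoidHom.mem_ker, QuotientGroup.ker_mk', Subgroup.mem_subgroupOf]
    show ((x ^ j) ^ (p ^ v) : Q) ∈ C
    rw [← zpow_natCast, zpow_comm, zpow_natCast]
    exact Subgroup.zpow_mem _ (Subgroup.mem_zpowers _) _
  obtain ⟨P, hP⟩ := hDp.exists_le_sylow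
  let HN : Subgroup N := (P : Subgroup QN).comap (QuotientGroup.mk' CN)
  let H : Subgroup Q := HN.map N.subtype
  have hHN : H ≤ N := by
    rintro _ ⟨y, _, rfl⟩
    exact y.2
  have hmemH : ∀ y : N, (y : Q) ∈ H ↔ y ∈ HN := by
    intro y
    constructor
    · rintro ⟨z, hz, hzy⟩
      have : z = y := Subtype.ext hzy
      rwa [this] at hz
    · intro h
      exact ⟨y, h, rfl⟩
  have hCH : C ≤ H := by
    intro y hy
    refine (hmemH ⟨y, hCN hy⟩).2 ?_
    show QuotientGroup.mk' CN ⟨y, hCN hy⟩ ∈ (P : Subgroup QN)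
    have h1 : QuotientGroup.mk' CN ⟨y, hCN hy⟩ = 1 := by
      rw [← MonoidHom.mem_ker, QuotientGroup.ker_mk', Subgroup.mem_subgroupOf]
      exact hy
    rw [h1]
    exact Subgroup.one_mem _
  have hxH : x ∈ H := by
    refine (hmemH ⟨x, hxN⟩).2 ?_
    apply hP
    exact ⟨⟨x, hxN⟩, Subgroup.mem_zpowers _, rfl⟩
  have hindex : HN.index = (P : Subgroup QN).index :=
    Subgroup.index_comap_of_surjective _ (QuotientGroup.mk'_surjective CN)
  have hpow : ∀ h ∈ H, ∃ k : ℕ, h ^ p ^ k ∈ C := by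
    intro h hh
    have hhN : h ∈ N := hHN hh
    have h1 : (⟨h, hhN⟩ : N) ∈ HN := (hmemH ⟨h, hhN⟩).1 hh
    have h2 : QuotientGroup.mk' CN ⟨h, hhN⟩ ∈ (P : Subgroup QN) := h1
    obtain ⟨j, hj⟩ := P.2 ⟨_, h2⟩
    have h3 : (QuotientGroup.mk' CN ⟨h, hhN⟩) ^ p ^ j = 1 := congrArg Subtype.val hj
    rw [← map_pow, ← MonoidHom.mem_ker, QuotientGroup.ker_mk', Subgroup.mem_subgroupOf] at h3
    exact ⟨j, h3⟩
  -- elements of order prime to p of H lie in C
  have hprime : ∀ h ∈ H, h ^ m' = 1 → h ∈ C := by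
    intro h hh hm
    have hhN : h ∈ N := hHN hh
    have h1 : (⟨h, hhN⟩ : N) ∈ HN := (hmemH ⟨h, hhN⟩).1 hh
    have h2 : QuotientGroup.mk' CN ⟨h, hhN⟩ ∈ (P : Subgroup QN) := h1
    obtain ⟨j, hj⟩ := P.2 ⟨_, h2⟩
    have h3 : (QuotientGroup.mk' CN ⟨h, hhN⟩) ^ p ^ j = 1 := congrArg Subtype.val hj
    have h4 : (QuotientGroup.mk' CN ⟨h, hhN⟩) ^ m' = 1 := by
      rw [← map_pow]
      have : (⟨h, hhN⟩ : N) ^ m' = 1 := Subtype.ext hm
      rw [this, map_one]
    have h5 : (QuotientGroup.mk' CN ⟨h, hhN⟩) = 1 := by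
      have h6 := pow_gcd_eq_one.2 ⟨h3, h4⟩
      rw [(hcop j), pow_one] at h6
      exact h6
    rw [← MonoidHom.mem_ker, QuotientGroup.ker_mk', Subgroup.mem_subgroupOf] at h5
    exact h5
  have hCpow : ∀ y ∈ C, y ^ m' = 1 := by
    intro y hy
    have h1 : (⟨y, hy⟩ : C) ^ Nat.card C = 1 := pow_card_eq_one'
    rw [hCcard] at h1
    exact congrArg Subtype.val h1
  have hHC : ∀ h ∈ H, ∀ y ∈ C, h * y * h⁻¹ ∈ C := by
    intro h hh y hy
    have := (Subgroup.mem_normalizer_iff.1 (hHN hh) y).1 hy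
    exact this
  refine ⟨H, C, hCH, inferInstance, hHC, hpow, ?_⟩
  -- the set of points fixed by C
  let Y := {y : Q ⧸ H // ∀ c ∈ C, c • y = y}
  have hsmul : ∀ (g : Q) (c : Q), c • (g : Q ⧸ H) = g ↔ g⁻¹ * c * g ∈ H := by
    intro g c
    have h1 : c • (g : Q ⧸ H) = ((c * g : Q) : Q ⧸ H) := rfl
    rw [h1, eq_comm, QuotientGroup.eq, mul_assoc]
  have hNfix : ∀ g : Q, (∀ c ∈ C, c • (g : Q ⧸ H) = g) → g ∈ N := by
    intro g hg
    have h1 : ∀ c ∈ C, g⁻¹ * c * g ∈ C := by
      intro c hc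
      refine hprime _ ((hsmul g c).1 (hg c hc)) ?_
      have h2 : (g⁻¹ * c * g) ^ m' = g⁻¹ * c ^ m' * g := by
        have := conj_pow (i := m') (a := g⁻¹) (b := c)
        rwa [inv_inv] at this
      rw [h2, hCpow c hc]
      group
    let φ : C → C := fun c => ⟨g⁻¹ * c * g, h1 c c.2⟩
    have hφ : Function.Injective φ := by
      intro a b hab
      have h2 : g⁻¹ * (a : Q) * g = g⁻¹ * b * g := congrArg Subtype.val hab
      apply Subtype.ext
      exact mul_left_cancel (mul_right_cancel h2)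
    have hφs : Function.Surjective φ := Finite.surjective_of_injective hφ
    rw [Subgroup.mem_normalizer_iff]
    intro h
    constructor
    · intro hh
      obtain ⟨c, hc⟩ := hφs ⟨h, hh⟩
      have h2 : g⁻¹ * (c : Q) * g = h := congrArg Subtype.val hc
      have h3 : g * h * g⁻¹ = c := by
        rw [← h2]
        group
      rw [h3]
      exact c.2
    · intro hh
      have h2 := h1 _ hh
      have h3 : g⁻¹ * (g * h * g⁻¹) * g = h := by group
      rw [h3] at h2
      exact h2
  have hYcard : Nat.card Y = HN.index := by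
    let φ : N → Y := fun n => ⟨((n : Q) : Q ⧸ H), fun c hc => by
      rw [hsmul]
      apply hCH
      have h1 := (Subgroup.mem_normalizer_iff.1 (N.inv_mem n.2) c).1 hc
      rw [inv_inv] at h1
      exact h1⟩
    have hφ : ∀ a b : N, φ a = φ b ↔ a⁻¹ * b ∈ HN := by
      intro a b
      rw [← hmemH]
      constructor
      · intro h
        have h1 : ((a : Q) : Q ⧸ H) = ((b : Q) : Q ⧸ H) := congrArg Subtype.val h
        exact QuotientGroup.eq.1 h1
      · intro h
        exact Subtype.ext (QuotientGroup.eq.2 h)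
    let ψ : N ⧸ HN → Y := Quotient.lift φ (fun a b hab => (hφ a b).2 (QuotientGroup.leftRel_apply.1 hab))
    have hψ : Function.Bijective ψ := by
      constructor
      · intro a b
        induction a using QuotientGroup.induction_on with
        | H a =>
          induction b using QuotientGroup.induction_on with
          | H b =>
            intro h
            exact QuotientGroup.eq.2 ((hφ a b).1 h)
      · rintro ⟨y, hy⟩
        induction y using QuotientGroup.induction_on with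
        | H g =>
          exact ⟨((⟨g, hNfix g hy⟩ : N) : N ⧸ HN), rfl⟩
    rw [← Nat.card_congr (Equiv.ofBijective ψ hψ)]
    rfl
  -- the action of x
  let f : Function.End Y := fun y => ⟨x • y.1, fun c hc => by
    have h1 : c * x = x * (x⁻¹ * c * x) := by group
    have h2 : x⁻¹ * c * x ∈ C := by
      have h3 := hxC c hc
      have h4 : x⁻¹ * c * x = c := by
        conv_lhs => rw [← h3]
        group
      rw [h4]
      exact hc
    rw [← mul_smul, h1, mul_smul, y.2 _ h2]⟩
  have hfpow : ∀ (n : ℕ) (y : Y), ((f ^ n) y).1 = x ^ n • y.1 := by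
    intro n
    induction n with
    | zero =>
      intro y
      rw [pow_zero, pow_zero, one_smul]
      rfl
    | succ n ih =>
      intro y
      have h1 : (f ^ (n + 1)) y = (f ^ n) (f y) := by
        rw [pow_succ]
        rfl
      rw [h1, ih, pow_succ, mul_smul]
  have hf : f ^ p ^ v = 1 := by
    funext y
    apply Subtype.ext
    rw [hfpow]
    exact y.2 _ (Subgroup.mem_zpowers _)
  have : Fintype Y := Fintype.ofFinite _
  have hmod := Equiv.Perm.card_fixedPoints_modEq hf
  have hfix : Nat.card {y : Q ⧸ H // x • y = y} = Fintype.card (Function.fixedPoints f) := by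
    rw [← Nat.card_eq_fintype_card]
    refine Nat.card_congr ?_
    refine
      { toFun := fun y => ⟨⟨y.1, fun c hc => ?_⟩, ?_⟩
        invFun := fun y => ⟨y.1.1, congrArg Subtype.val y.2⟩
        left_inv := fun y => rfl
        right_inv := fun y => rfl }
    · obtain ⟨j, rfl⟩ := Subgroup.mem_zpowers_iff.1 hc
      have h1 : x ∈ MulAction.stabilizer Q y.1 := y.2
      have h2 : (x ^ p ^ v) ^ j ∈ MulAction.stabilizer Q y.1 :=
        Subgroup.zpow_mem _ (Subgroup.pow_mem _ h1 _) _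
      exact h2
    · exact Subtype.ext y.2
  rw [hfix]
  intro hdvd
  have h1 : p ∣ Fintype.card Y := (Nat.ModEq.dvd_iff hmod.symm dvd_rfl).1 hdvd
  rw [← Nat.card_eq_fintype_card, hYcard, hindex] at h1
  exact P.not_dvd_index h1

end Pool.Agent.Y144.DL
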