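import Pool.Agent.Y144.DL.Cliff3
import Pool.Agent.Y144.DL.Sol

/-!
# Brauer's theorem with signatures
-/

set_option autoImplicit false

namespace Pool.Agent.Y144.DL

universe u

/-! ### Banaschewski's lemma -/

theorem banaschewski {X : Type*} [Finite X] (R : AddSubgroup (X → ℤ))
    (hmul : ∀ f ∈ R, ∀ f' ∈ R, f * f' ∈ R)
    (h : ∀ x : X, ∀ p : ℕ, p.Prime → ∃ f ∈ R, ¬ (p : ℤ) ∣ f x) : (1 : X → ℤ) ∈ R := by
  classical
  have := Fintype.ofFinite X
  have h1 : ∀ x : X, ∃ f ∈ R, f x = 1 := by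
    intro x
    let I : AddSubgroup ℤ := R.map (Pi.evalAddMonoidHom (fun _ : X => ℤ) x)
    obtain ⟨a, ha⟩ := Int.subgroup_cyclic I
    have hI : ∀ n : ℤ, n ∈ I ↔ a ∣ n := by
      intro n
      rw [ha, AddSubgroup.mem_closure_singleton]
      constructor
      · rintro ⟨k, rfl⟩
        exact ⟨k, by rw [smul_eq_mul, mul_comm]⟩
      · rintro ⟨k, rfl⟩
        exact ⟨k, by rw [smul_eq_mul, mul_comm]⟩
    have ha1 : a.natAbs = 1 := by
      by_contra hne
      obtain ⟨p, hp, hpa⟩ := Nat.exists_prime_and_dvd hne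
      obtain ⟨f, hf, hfx⟩ := h x p hp
      apply hfx
      have h2 : f x ∈ I := ⟨f, hf, rfl⟩
      exact (Int.natCast_dvd.2 hpa).trans ((hI _).1 h2)
    have h2 : (1 : ℤ) ∈ I := by
      rw [hI]
      exact Int.isUnit_iff_natAbs_eq.2 ha1 |>.dvd
    obtain ⟨f, hf, hfx⟩ := h2
    exact ⟨f, hf, hfx⟩
  choose f hf hfx using h1
  have h2 : ∀ s : Finset X, 1 - ∏ x ∈ s, (1 - f x) ∈ R := by
    intro s
    induction s using Finset.induction_on with
    | empty =>
      rw [Finset.prod_empty, sub_self]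
      exact zero_mem _
    | insert x s hx ih =>
      rw [Finset.prod_insert hx]
      have h3 : 1 - (1 - f x) * ∏ y ∈ s, (1 - f y) =
          (1 - ∏ y ∈ s, (1 - f y)) + f x - f x * (1 - ∏ y ∈ s, (1 - f y)) := by ring
      rw [h3]
      exact sub_mem (add_mem ih (hf x)) (hmul _ (hf x) _ ih)
  have h3 : ∏ x : X, (1 - f x) = 0 := by
    funext y
    rw [Finset.prod_apply]
    refine Finset.prod_eq_zero (Finset.mem_univ y) ?_
    rw [Pi.sub_apply, hfx, Pi.one_apply, sub_self]
  have h4 := h2 Finset.univ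
  rwa [h3, sub_zero] at h4

theorem banaschewski_p {X : Type*} [Finite X] (R : AddSubgroup (X → ℤ))
    (hmul : ∀ f ∈ R, ∀ f' ∈ R, f * f' ∈ R) (p : ℕ) (hp : p.Prime)
    (h : ∀ x : X, ∃ f ∈ R, ¬ (p : ℤ) ∣ f x) : ∃ l : ℤ, ¬ (p : ℤ) ∣ l ∧ (fun _ => l) ∈ R := by
  classical
  have := Fintype.ofFinite X
  choose f hf hfx using h
  have h2 : ∀ s : Finset X, (fun _ => ∏ x ∈ s, f x x) - ∏ x ∈ s, ((fun _ => f x x) - f x) ∈ R := by
    intro s
    induction s using Finset.induction_on with
    | empty =>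
      have h0 : ((fun _ => ∏ x ∈ (∅ : Finset X), f x x) - ∏ x ∈ (∅ : Finset X), ((fun _ => f x x) - f x) :
          X → ℤ) = 0 := by
        funext y
        simp
      rw [h0]
      exact zero_mem _
    | insert x s hx ih =>
      have h3 : ((fun _ => ∏ y ∈ insert x s, f y y) - ∏ y ∈ insert x s, ((fun _ => f y y) - f y) : X → ℤ) =
          f x x • ((fun _ => ∏ y ∈ s, f y y) - ∏ y ∈ s, ((fun _ => f y y) - f y)) +
          (∏ y ∈ s, f y y) • f x -
          f x * ((fun _ => ∏ y ∈ s, f y y) - ∏ y ∈ s, ((fun _ => f y y) - f y)) := by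
        funext z
        simp only [Finset.prod_insert hx, Pi.sub_apply, Pi.mul_apply, Pi.add_apply, Pi.smul_apply,
          smul_eq_mul, Finset.prod_apply]
        ring
      rw [h3]
      exact sub_mem (add_mem (zsmul_mem ih _) (zsmul_mem (hf x) _)) (hmul _ (hf x) _ ih)
  have h3 : ∏ x : X, ((fun _ => f x x) - f x) = 0 := by
    funext y
    rw [Finset.prod_apply]
    refine Finset.prod_eq_zero (Finset.mem_univ y) ?_
    rw [Pi.sub_apply, sub_self]
  have h4 := h2 Finset.univ
  rw [h3, sub_zero] at h4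
  refine ⟨_, ?_, h4⟩
  intro hd
  obtain ⟨x, _, hx⟩ := (Prime.dvd_finsetProd_iff (Nat.prime_iff_prime_int.1 hp) _).1 hd
  exact hfx x hx

/-! ### the families of subgroups -/

/-- `H` is an extension of a `p`-group by an abelian group containing `Z` -/
def Hyp {G : Type*} [Group G] (Z : Subgroup G) (p : ℕ) (H : Subgroup G) : Prop :=
  ∃ B : Subgroup G, Z ≤ B ∧ B ≤ H ∧ (∀ x ∈ B, ∀ y ∈ B, x * y = y * x) ∧
    (∀ t ∈ H, ∀ b ∈ B, t * b * t⁻¹ ∈ B) ∧ ∀ t ∈ H, ∃ j : ℕ, t ^ p ^ j ∈ B

theorem hyp_inf {G : Type*} [Group G] {Z : Subgroup G} {p : ℕ} {H K : Subgroup G} (h : Hyp Z p H)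
    (hK : Z ≤ K) : Hyp Z p (H ⊓ K) := by
  obtain ⟨B, hc, hB, hab, hn, hpow⟩ := h
  refine ⟨B ⊓ K, le_inf hc hK, inf_le_inf_right K hB, ?_, ?_, ?_⟩
  · intro x hx y hy
    exact hab x hx.1 y hy.1
  · intro t ht b hb
    exact ⟨hn t ht.1 b hb.1, K.mul_mem (K.mul_mem ht.2 hb.2) (K.inv_mem ht.2)⟩
  · intro t ht
    obtain ⟨j, hj⟩ := hpow t ht.1
    exact ⟨j, hj, K.pow_mem ht.2 _⟩

theorem Hyp.le {G : Type*} [Group G] {Z : Subgroup G} {p : ℕ} {H : Subgroup G} (h : Hyp Z p H) :
    Z ≤ H := by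
  obtain ⟨B, hc, hB, _⟩ := h
  exact hc.trans hB

variable {G : Type u} [Group G]

/-- numbers of fixed points on the finite `G`-sets whose stabilizers are in `P` -/
def FG (P : Subgroup G → Prop) : Set (G → ℤ) :=
  {f | ∃ (X : Type u) (_ : Fintype X) (_ : MulAction G X),
    (∀ x : X, P (MulAction.stabilizer G x)) ∧ ∀ g : G, f g = Nat.card {x : X // g • x = x}}

theorem FG_mul {P : Subgroup G → Prop} (hP : ∀ H K, P H → P K → P (H ⊓ K)) {f f' : G → ℤ}
    (hf : f ∈ FG P) (hf' : f' ∈ FG P) : f * f' ∈ FG P := by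
  classical
  obtain ⟨X, _, _, hX, hXf⟩ := hf
  obtain ⟨X', _, _, hX', hXf'⟩ := hf'
  refine ⟨X × X', inferInstance, inferInstance, ?_, ?_⟩
  · rintro ⟨x, x'⟩
    have h1 : MulAction.stabilizer G (x, x') =
        MulAction.stabilizer G x ⊓ MulAction.stabilizer G x' := by
      ext g
      rw [Subgroup.mem_inf, MulAction.mem_stabilizer_iff, MulAction.mem_stabilizer_iff,
        MulAction.mem_stabilizer_iff, Prod.smul_mk, Prod.mk.injEq]
    rw [h1]
    exact hP _ _ (hX x) (hX' x')
  · intro g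
    rw [Pi.mul_apply, hXf, hXf', ← Nat.cast_mul, ← Nat.card_prod]
    congr 1
    refine (Nat.card_congr ?_).symm
    exact
      { toFun := fun z => (⟨z.1.1, congrArg Prod.fst z.2⟩, ⟨z.1.2, congrArg Prod.snd z.2⟩)
        invFun := fun z => ⟨(z.1.1, z.2.1), Prod.ext z.1.2 z.2.2⟩
        left_inv := fun z => rfl
        right_inv := fun z => rfl }

theorem closure_FG_mul {P : Subgroup G → Prop} (hP : ∀ H K, P H → P K → P (H ⊓ K)) (f : G → ℤ)
    (hf : f ∈ AddSubgroup.closure (FG P)) (f' : G → ℤ)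
    (hf' : f' ∈ AddSubgroup.closure (FG P)) : f * f' ∈ AddSubgroup.closure (FG P) := by
  induction hf using AddSubgroup.closure_induction with
  | mem f hf =>
    induction hf' using AddSubgroup.closure_induction with
    | mem f' hf' => exact AddSubgroup.subset_closure (FG_mul hP hf hf')
    | zero => rw [mul_zero]; exact zero_mem _
    | add a b _ _ ha hb => rw [mul_add]; exact add_mem ha hb
    | neg a _ ha => rw [mul_neg]; exact neg_mem ha
  | zero => rw [zero_mul]; exact zero_mem _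
  | add a b _ _ ha hb => rw [add_mul]; exact add_mem ha hb
  | neg a _ ha => rw [neg_mul]; exact neg_mem ha

/-- hyperelementary subgroups -/
theorem exists_FG_hyp [Finite G] (x : G) (p : ℕ) (hp : p.Prime) :
    ∃ f ∈ FG (Hyp (⊥ : Subgroup G) p), ¬ (p : ℤ) ∣ f x := by
  classical
  have := Fact.mk hp
  obtain ⟨H, C, hCH, hC, hn, hpow, hdvd⟩ := exists_hyper x p
  refine ⟨fun g => Nat.card {y : G ⧸ H // g • y = y},
    ⟨G ⧸ H, Fintype.ofFinite _, inferInstance, ?_, fun g => rfl⟩, ?_⟩
  · intro y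
    induction y using QuotientGroup.induction_on with
    | H q =>
      let θ : G →* G := (MulAut.conj q⁻¹).toMonoidHom
      have hθ : ∀ g : G, θ g = q⁻¹ * g * q := by
        intro g
        show q⁻¹ * g * (q⁻¹)⁻¹ = _
        rw [inv_inv]
      have hinj : Function.Injective θ := (MulAut.conj q⁻¹).injective
      have hstab : MulAction.stabilizer G (q : G ⧸ H) = H.comap θ := by
        ext g
        rw [MulAction.mem_stabilizer_iff, Subgroup.mem_comap, hθ]
        have h1 : g • (q : G ⧸ H) = ((g * q : G) : G ⧸ H) := rfl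
        rw [h1, eq_comm, QuotientGroup.eq, mul_assoc]
      rw [hstab]
      refine ⟨C.comap θ, bot_le, Subgroup.comap_mono hCH, ?_, ?_, ?_⟩
      · intro a ha b hb
        apply hinj
        rw [map_mul, map_mul]
        let := hC.commGroup
        have := mul_comm (⟨θ a, ha⟩ : C) ⟨θ b, hb⟩
        exact congrArg Subtype.val this
      · intro t ht b hb
        rw [Subgroup.mem_comap, map_mul, map_mul, map_inv]
        exact hn _ ht _ hb
      · intro t ht
        obtain ⟨j, hj⟩ := hpow (θ t) ht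
        refine ⟨j, ?_⟩
        rw [Subgroup.mem_comap, map_pow]
        exact hj
  · intro h1
    apply hdvd
    have h2 : (p : ℤ) ∣ (Nat.card {y : G ⧸ H // x • y = y} : ℤ) := h1
    exact_mod_cast h2

/-- the central case: subgroups containing `c` -/
theorem exists_FG [Finite G] {c : G} (hc : ∀ g : G, g * c = c * g) (x : G) (p : ℕ) (hp : p.Prime) :
    ∃ f ∈ FG (Hyp (Subgroup.zpowers c) p), ¬ (p : ℤ) ∣ f x := by
  classical
  have := Fact.mk hp
  have hcz : ∀ b ∈ Subgroup.zpowers c, ∀ g : G, g * b = b * g := by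
    intro b hb g
    obtain ⟨j, rfl⟩ := Subgroup.mem_zpowers_iff.1 hb
    exact ((show Commute g c from hc g).zpow_right j).eq
  have hN : (Subgroup.zpowers c).Normal := by
    refine ⟨?_⟩
    intro b hb g
    rw [hcz b hb g, mul_assoc, mul_inv_cancel, mul_one]
    exact hb
  let Q := G ⧸ Subgroup.zpowers c
  let π : G →* Q := QuotientGroup.mk' (Subgroup.zpowers c)
  obtain ⟨H, C, hCH, hC, hn, hpow, hdvd⟩ := exists_hyper (π x) p
  let _ : MulAction G (Q ⧸ H) := MulAction.compHom (Q ⧸ H) π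
  have hsmul : ∀ (g : G) (y : Q ⧸ H), g • y = π g • y := fun g y => rfl
  refine ⟨fun g => Nat.card {y : Q ⧸ H // g • y = y},
    ⟨Q ⧸ H, Fintype.ofFinite _, inferInstance, ?_, fun g => rfl⟩, ?_⟩
  · intro y
    induction y using QuotientGroup.induction_on with
    | H q =>
      let θ : G →* Q := (MulAut.conj q⁻¹).toMonoidHom.comp π
      have hθ : ∀ g : G, θ g = q⁻¹ * π g * q := by
        intro g
        show q⁻¹ * π g * (q⁻¹)⁻¹ = _
        rw [inv_inv]
      have hstab : MulAction.stabilizer G (q : Q ⧸ H) = H.comap θ := by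
        ext g
        rw [MulAction.mem_stabilizer_iff, Subgroup.mem_comap, hθ, hsmul]
        have h1 : π g • (q : Q ⧸ H) = ((π g * q : Q) : Q ⧸ H) := rfl
        rw [h1, eq_comm, QuotientGroup.eq, mul_assoc]
      rw [hstab]
      refine ⟨C.comap θ, ?_, Subgroup.comap_mono hCH, ?_, ?_, ?_⟩
      · rw [Subgroup.zpowers_le]
        have h1 : π c = 1 := by
          rw [← MonoidHom.mem_ker, QuotientGroup.ker_mk']
          exact Subgroup.mem_zpowers c
        rw [Subgroup.mem_comap, hθ, h1, mul_one, inv_mul_cancel]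
        exact C.one_mem
      · intro a ha b hb
        let f : C.comap θ →* C :=
          { toFun := fun g => ⟨θ g, g.2⟩
            map_one' := Subtype.ext (by
              show θ ((1 : C.comap θ) : G) = 1
              rw [Subgroup.coe_one, map_one])
            map_mul' := fun g h => Subtype.ext (by
              show θ ((g * h : C.comap θ) : G) = θ g * θ h
              rw [Subgroup.coe_mul, map_mul]) }
        have hker : f.ker ≤ Subgroup.center (C.comap θ) := by
          intro g hg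
          have h1 : θ g = 1 := congrArg Subtype.val hg
          rw [hθ] at h1
          have h2 : π g = 1 := by
            have h3 : q * (q⁻¹ * π g * q) * q⁻¹ = π g := by group
            rw [← h3, h1]
            group
          rw [← MonoidHom.mem_ker, QuotientGroup.ker_mk'] at h2
          rw [Subgroup.mem_center_iff]
          intro h
          exact Subtype.ext (hcz g h2 h)
        have h1 := commutative_of_cyclic_center_quotient f hker ⟨a, ha⟩ ⟨b, hb⟩
        exact congrArg Subtype.val h1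
      · intro t ht b hb
        rw [Subgroup.mem_comap, map_mul, map_mul, map_inv]
        exact hn _ ht _ hb
      · intro t ht
        obtain ⟨j, hj⟩ := hpow (θ t) ht
        refine ⟨j, ?_⟩
        rw [Subgroup.mem_comap, map_pow]
        exact hj
  · intro h1
    apply hdvd
    have h2 : (p : ℤ) ∣ (Nat.card {y : Q ⧸ H // x • y = y} : ℤ) := h1
    exact_mod_cast h2

/-- there are enough subgroups in the family -/
theorem one_mem_closure_FG [Finite G] {P : Subgroup G → Prop} (hP : ∀ H K, P H → P K → P (H ⊓ K))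
    (h : ∀ (x : G) (p : ℕ), p.Prime → ∃ f ∈ FG P, ¬ (p : ℤ) ∣ f x) :
    (1 : G → ℤ) ∈ AddSubgroup.closure (FG P) := by
  refine banaschewski _ (closure_FG_mul hP) ?_
  intro x p hp
  obtain ⟨f, hf, h⟩ := h x p hp
  exact ⟨f, AddSubgroup.subset_closure hf, h⟩

theorem FG_mono {P P' : Subgroup G → Prop} (h : ∀ H, P H → P' H) : FG P ⊆ FG P' := by
  rintro f ⟨X, i, j, hX, hXf⟩
  exact ⟨X, i, j, fun x => h _ (hX x), hXf⟩

/-! ### the theorem -/

variable {E : Type*} [Field E] [CharZero E] [Finite G] {S : Set G} {Z : Subgroup G} {ψ : G →* Eˣ}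

omit [CharZero E] in
theorem SC_apply (hS : ∀ s ∈ S, ∀ x : G, x⁻¹ * s * x ∈ S) {H : Subgroup G} {f : G → E}
    (hf : f ∈ SC E S Z H) : f 1 = 0 ∧ ∀ s ∈ S, f s = 0 := by
  classical
  have := Fintype.ofFinite G
  induction hf using AddSubgroup.closure_induction with
  | mem f hf =>
    obtain ⟨K, χ, χ', hK, hcK, he, rfl⟩ := hf
    constructor
    · rw [avg_eq']
      have h1 : ∀ x : H, (ext K χ - ext K χ') ((x : G)⁻¹ * 1 * x) = 0 := by
        intro x
        have h2 : (x : G)⁻¹ * 1 * x = 1 := by group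
        have h3 : (⟨1, K.one_mem⟩ : K) = 1 := rfl
        rw [h2, Pi.sub_apply, ext_mem K _ K.one_mem, ext_mem K _ K.one_mem, h3, map_one, map_one, sub_self]
      rw [Finset.sum_congr rfl fun x _ => h1 x, Finset.sum_const_zero, mul_zero]
    · intro s hs
      rw [avg_eq']
      have h1 : ∀ x : H, (ext K χ - ext K χ') ((x : G)⁻¹ * s * x) = 0 := by
        intro x
        rw [Pi.sub_apply, he _ (hS s hs x), sub_self]
      rw [Finset.sum_congr rfl fun x _ => h1 x, Finset.sum_const_zero, mul_zero]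
  | zero => exact ⟨rfl, fun _ _ => rfl⟩
  | add a b _ _ ha hb =>
    refine ⟨?_, fun s hs => ?_⟩
    · rw [Pi.add_apply, ha.1, hb.1, add_zero]
    · rw [Pi.add_apply, ha.2 s hs, hb.2 s hs, add_zero]
  | neg a _ ha =>
    refine ⟨?_, fun s hs => ?_⟩
    · rw [Pi.neg_apply, ha.1, neg_zero]
    · rw [Pi.neg_apply, ha.2 s hs, neg_zero]

/-- an element of `GC` vanishing at `1` and on `S` is in `SC` -/
theorem SC_of_GC (hS : ∀ s ∈ S, ∀ x : G, x⁻¹ * s * x ∈ S) {H : Subgroup G} (hI : Isol S ψ H)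
    (hZ : Z ≤ H) {f : G → E} (hf : f ∈ GC E S Z ψ H) (h1 : f 1 = 0) (h2 : ∀ s ∈ S, f s = 0) :
    f ∈ SC E S Z H := by
  obtain ⟨s, hs, t, ht, rfl⟩ := AddSubgroup.mem_sup.1 hf
  obtain ⟨a, b, rfl⟩ := AddSubgroup.mem_closure_pair.1 ht
  obtain ⟨hs1, hs2⟩ := SC_apply hS hs
  refine add_mem hs ?_
  have e1 : ext H (1 : H →* Eˣ) 1 = 1 := by
    rw [ext_mem H _ H.one_mem, MonoidHom.one_apply, Units.val_one]
  have e2 : ext H (ψ.comp H.subtype) 1 = 1 := by
    rw [ext_mem H _ H.one_mem]
    show ((ψ 1 : Eˣ) : E) = 1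
    rw [map_one, Units.val_one]
  rw [Pi.add_apply, hs1, zero_add, Pi.add_apply, Pi.smul_apply, Pi.smul_apply, e1, e2] at h1
  rw [zsmul_eq_mul, zsmul_eq_mul, mul_one, mul_one] at h1
  have h3 : a + b = 0 := by exact_mod_cast h1
  have h4 : a = -b := by omega
  subst h4
  have h5 : -b • ext H (1 : H →* Eˣ) + b • ext H (ψ.comp H.subtype) =
      -b • (ext H 1 - ext H (ψ.comp H.subtype)) := by
    rw [smul_sub, neg_smul, neg_smul]
    abel
  by_cases hall : ∀ c ∈ S, ext H (1 : H →* Eˣ) c = ext H (ψ.comp H.subtype) c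
  · rw [h5]
    exact zsmul_mem (SC_ext hZ hall) _
  · push Not at hall
    obtain ⟨c, hcS, hc⟩ := hall
    have hcH : c ∈ H := by
      by_contra hcH
      apply hc
      rw [ext_not_mem H _ hcH, ext_not_mem H _ hcH]
    have hc1 : c ≠ 1 := by
      rintro rfl
      apply hc
      rw [e1, e2]
    have e3 : ext H (1 : H →* Eˣ) c = 1 := by
      rw [ext_mem H _ hcH, MonoidHom.one_apply, Units.val_one]
    have e4 : ext H (ψ.comp H.subtype) c = ψ c := by
      rw [ext_mem H _ hcH]
      rfl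
    have h2 := h2 c hcS
    rw [Pi.add_apply, hs2 c hcS, zero_add, Pi.add_apply, Pi.smul_apply, Pi.smul_apply, e3, e4] at h2
    rw [zsmul_eq_mul, zsmul_eq_mul, mul_one, hI.psi c hcS hc1] at h2
    have h6 : ((-b : ℤ) : E) + (b : E) * ((-1 : Eˣ) : E) = ((-(2 * b) : ℤ) : E) := by
      push_cast
      simp
      ring
    rw [h6] at h2
    have h7 : -(2 * b) = 0 := by exact_mod_cast h2
    have h8 : b = 0 := by omega
    subst h8
    simp

/-- the restriction to a hyperelementary subgroup -/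
theorem hyp_mem (hE : HasEnoughRootsOfUnity E (Nat.card G)) {p : ℕ} (hp : p.Prime) {H : Subgroup G}
    (hH : Hyp Z p H) (hI : Isol S ψ H) {θ : G → E} (hθ : IsChar θ) :
    ext H (1 : H →* Eˣ) * θ ∈ GC E S Z ψ H := by
  obtain ⟨B, hcB, hBS, hab, hn, hpow⟩ := hH
  obtain ⟨n, ρ, rfl⟩ := hθ
  have := Fact.mk hp
  have h3 := clifford hE p ρ (Nat.card H - Nat.card B + 1) H B 1 (Nat.lt_succ_self _) hI hcB hBS hn
    hpow ⟨mul_one 1, fun b _ => by rw [mul_one, one_mul], fun x hx y hy => by rw [hab x hx y hy]⟩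
    (fun h _ => by rw [mul_one, one_mul])
  simpa only [mul_one] using h3

/-- the passage from the subgroups in a family to `G` -/
theorem glue (hE : HasEnoughRootsOfUnity E (Nat.card G)) (hS : ∀ s ∈ S, ∀ x : G, x⁻¹ * s * x ∈ S)
    (P : Subgroup G → Prop) (hP : ∀ H, P H → Isol S ψ H ∧ ∃ p : ℕ, p.Prime ∧ Hyp Z p H)
    {θ ω : G → E} (hθ : IsChar θ) (hω : IsChar ω) (h1 : θ 1 = ω 1) (h2 : ∀ s ∈ S, θ s = ω s) :
    ∀ f ∈ AddSubgroup.closure (FG P), (fun g => (f g : E) * (θ g - ω g)) ∈ SC E S Z (⊤ : Subgroup G) := by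
  classical
  have := Fintype.ofFinite G
  let D : G → E := θ - ω
  have hDconj : ∀ g x : G, D (x⁻¹ * g * x) = D g := by
    intro g x
    show θ (x⁻¹ * g * x) - ω (x⁻¹ * g * x) = θ g - ω g
    rw [isChar_conj hθ, isChar_conj hω]
  intro f hf
  show (fun g => (f g : E) * D g) ∈ _
  induction hf using AddSubgroup.closure_induction with
  | mem f hf =>
    obtain ⟨X, _, _, hX, hXf⟩ := hf
    let F : X → G → E := fun x g => if g • x = x then D g else 0
    have hsum : (fun g => (f g : E) * D g) = ∑ x : X, F x := by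
      funext g
      rw [Finset.sum_apply]
      show (f g : E) * D g = ∑ x : X, if g • x = x then D g else 0
      rw [← Finset.sum_filter, Finset.sum_const, hXf, nsmul_eq_mul]
      congr 1
      rw [Nat.card_eq_fintype_card, Fintype.card_subtype]
      push_cast
      rfl
    rw [hsum]
    refine sum_orbits ⊤ F ?_ (SC E S Z ⊤) _ Finset.univ le_rfl (fun _ _ _ _ => Finset.mem_univ _) ?_
    · intro h _ x g
      have h3 : (g • h • x = h • x) ↔ (h⁻¹ * g * h) • x = x := by
        rw [mul_smul, mul_smul, inv_smul_eq_iff]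
      show (if g • h • x = h • x then D g else 0) = if (h⁻¹ * g * h) • x = x then D (h⁻¹ * g * h) else 0
      simp only [h3, hDconj]
    · intro x _
      let T := MulAction.stabilizer G x
      have hT : (⊤ : Subgroup G) ⊓ MulAction.stabilizer G x = T := top_inf_eq _
      rw [hT]
      obtain ⟨hI, p, hp, hH⟩ := hP T (hX x)
      have hF : F x = ext T (1 : T →* Eˣ) * D := by
        funext g
        rw [Pi.mul_apply]
        show (if g • x = x then D g else 0) = _
        by_cases hg : g • x = x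
        · rw [if_pos hg, ext_mem T _ (show g ∈ T from hg), MonoidHom.one_apply, Units.val_one, one_mul]
        · rw [if_neg hg, ext_not_mem T _ (show g ∉ T from hg), zero_mul]
      rw [hF]
      refine SC_avg le_top ?_
      refine SC_of_GC hS hI hH.le ?_ ?_ ?_
      · have h3 : ext T (1 : T →* Eˣ) * D = ext T 1 * θ - ext T 1 * ω := mul_sub _ _ _
        rw [h3]
        exact sub_mem (hyp_mem hE hp hH hI hθ) (hyp_mem hE hp hH hI hω)
      · rw [Pi.mul_apply]
        show _ * (θ 1 - ω 1) = 0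
        rw [h1, sub_self, mul_zero]
      · intro s hs
        rw [Pi.mul_apply]
        show _ * (θ s - ω s) = 0
        rw [h2 s hs, sub_self, mul_zero]
  | zero =>
    have h3 : (fun g => (((0 : G → ℤ) g : ℤ) : E) * D g) = 0 := by
      funext g
      simp
    rw [h3]
    exact zero_mem _
  | add a b _ _ ha hb =>
    have h3 : (fun g => (((a + b : G → ℤ) g : ℤ) : E) * D g) =
        (fun g => (a g : E) * D g) + fun g => (b g : E) * D g := by
      funext g
      simp only [Pi.add_apply, Int.cast_add]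
      ring
    rw [h3]
    exact add_mem ha hb
  | neg a _ ha =>
    have h3 : (fun g => (((-a : G → ℤ) g : ℤ) : E) * D g) = -fun g => (a g : E) * D g := by
      funext g
      simp only [Pi.neg_apply, Int.cast_neg]
      ring
    rw [h3]
    exact neg_mem ha

/-- **Brauer's theorem with signatures, central case.** Let `c` be a central element of order at most two,
and let `ψ` be a linear character with `ψ c = -1` if `c ≠ 1`. Two characters which agree at `1` and `c`
differ by an integral combination of differences of characters induced by linear characters of the same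
subgroup containing `c` which agree at `c`. -/
theorem brauer_signature (hE : HasEnoughRootsOfUnity E (Nat.card G)) {c : G}
    (hc : ∀ g : G, g * c = c * g) (hcc : c * c = 1) (hψ : c ≠ 1 → ψ c = -1) {θ ω : G → E}
    (hθ : IsChar θ) (hω : IsChar ω) (h1 : θ 1 = ω 1) (h2 : θ c = ω c) :
    θ - ω ∈ SC E {c} (Subgroup.zpowers c) ⊤ := by
  have hI : ∀ H : Subgroup G, Isol {c} ψ H := by
    intro H
    refine ⟨?_, ?_, ?_⟩
    · rintro s rfl
      exact hcc
    · rintro s rfl s' rfl K _ _ _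
      exact ⟨1, K.one_mem, by group⟩
    · rintro s rfl
      exact hψ
  have hP : ∀ H K : Subgroup G, (∃ p : ℕ, p.Prime ∧ Hyp (Subgroup.zpowers c) p H) →
      (∃ p : ℕ, p.Prime ∧ Hyp (Subgroup.zpowers c) p K) →
      ∃ p : ℕ, p.Prime ∧ Hyp (Subgroup.zpowers c) p (H ⊓ K) := by
    rintro H K ⟨p, hp, hH⟩ ⟨q, hq, hK⟩
    exact ⟨p, hp, hyp_inf hH hK.le⟩
  have h3 := glue (S := {c}) (Z := Subgroup.zpowers c) (ψ := ψ) hE (by
      rintro s rfl x
      show x⁻¹ * s * x = s
      rw [mul_assoc, ← hc x, ← mul_assoc, inv_mul_cancel, one_mul])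
    (fun H => ∃ p : ℕ, p.Prime ∧ Hyp (Subgroup.zpowers c) p H) (fun H hH => ⟨hI H, hH⟩) hθ hω h1
    (by
      rintro s rfl
      exact h2) 1 (one_mem_closure_FG hP (by
      intro x p hp
      obtain ⟨f, hf, h⟩ := exists_FG hc x p hp
      exact ⟨f, FG_mono (fun H hH => ⟨p, hp, hH⟩) hf, h⟩))
  have h4 : (fun g => (((1 : G → ℤ) g : ℤ) : E) * (θ g - ω g)) = θ - ω := by
    funext g
    simp
  rwa [h4] at h3

/-- conjugates of an involution which is central modulo a subgroup of odd order -/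
theorem conj_of_odd {N : Subgroup G} (hN : N.Normal) (hodd : Odd (Nat.card N)) {c : G}
    (hcN : ∀ g : G, g * c * g⁻¹ * c⁻¹ ∈ N) (hcc : c * c = 1) {s s' : G} (hs : IsConj c s)
    (hs' : IsConj c s') {K : Subgroup G} (hK : s ∈ K) (hK' : s' ∈ K) : ∃ k ∈ K, s' = k⁻¹ * s * k := by
  obtain ⟨u, hu⟩ := isConj_iff.1 hs
  obtain ⟨v, hv⟩ := isConj_iff.1 hs'
  have hss : s * s = 1 := by
    rw [← hu]
    have h3 : u * c * u⁻¹ * (u * c * u⁻¹) = u * (c * c) * u⁻¹ := by group
    rw [h3, hcc]
    group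
  have hss' : s' * s' = 1 := by
    rw [← hv]
    have h3 : v * c * v⁻¹ * (v * c * v⁻¹) = v * (c * c) * v⁻¹ := by group
    rw [h3, hcc]
    group
  have hinv : s⁻¹ = s := inv_eq_of_mul_eq_one_left hss
  have hinv' : s'⁻¹ = s' := inv_eq_of_mul_eq_one_left hss'
  let t : G := s * s'
  have htN : t ∈ N := by
    have h3 : t = (u * c * u⁻¹ * c⁻¹) * (v * c * v⁻¹ * c⁻¹)⁻¹ := by
      show s * s' = _
      rw [hu, hv]
      have h4 : s * c⁻¹ * (s' * c⁻¹)⁻¹ = s * s'⁻¹ := by group
      rw [h4, hinv']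
    rw [h3]
    exact N.mul_mem (hcN u) (N.inv_mem (hcN v))
  have hord : Odd (orderOf t) := by
    have h3 : orderOf (⟨t, htN⟩ : N) ∣ Nat.card N := orderOf_dvd_natCard _
    rw [← Subgroup.orderOf_coe] at h3
    exact Odd.of_dvd_nat hodd h3
  obtain ⟨k, hk⟩ := hord
  have htK : t ∈ K := K.mul_mem hK hK'
  have hcomm : ∀ j : ℕ, s * t ^ j = (t ^ j)⁻¹ * s := by
    intro j
    induction j with
    | zero => simp
    | succ j ih =>
      have h5 : s * t = t⁻¹ * s := by
        show s * (s * s') = (s * s')⁻¹ * s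
        rw [mul_inv_rev, hinv, hinv', ← mul_assoc, hss, one_mul, mul_assoc, hss, mul_one]
      have h7 : (t ^ j * t)⁻¹ = (t ^ j)⁻¹ * t⁻¹ := by
        rw [← pow_succ, pow_succ', mul_inv_rev]
      rw [pow_succ, h7, ← mul_assoc s, ih, mul_assoc, h5, ← mul_assoc]
  refine ⟨t ^ (k + 1), K.pow_mem htK _, ?_⟩
  rw [← hcomm, mul_assoc, ← pow_add]
  have h9 : t ^ (k + 1 + (k + 1)) = t := by
    have h10 : k + 1 + (k + 1) = orderOf t + 1 := by omega
    rw [h10, pow_add, pow_orderOf_eq_one, one_mul, pow_one]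
  rw [h9]
  show s' = s * (s * s')
  rw [← mul_assoc, hss, one_mul]

/-- **Brauer's theorem with signatures.** Let `c` be an element of order at most two which is central modulo a
normal subgroup `N` of odd order, and let `ψ` be a linear character with `ψ c = -1` if `c ≠ 1`. Two
characters which agree at `1` and `c` differ by an integral combination of differences of characters
induced by linear characters of the same subgroup `K` which agree on the conjugates of `c` in `K`. -/
theorem brauer_odd (hE : HasEnoughRootsOfUnity E (Nat.card G)) {c : G} {N : Subgroup G}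
    (hN : N.Normal) (hodd : Odd (Nat.card N)) (hcN : ∀ g : G, g * c * g⁻¹ * c⁻¹ ∈ N)
    (hcc : c * c = 1) (hψ : c ≠ 1 → ψ c = -1) {θ ω : G → E}
    (hθ : IsChar θ) (hω : IsChar ω) (h1 : θ 1 = ω 1) (h2 : θ c = ω c) :
    θ - ω ∈ SC E {s | IsConj c s} ⊥ ⊤ := by
  have hI : ∀ H : Subgroup G, Isol {s | IsConj c s} ψ H := by
    intro H
    refine ⟨?_, ?_, ?_⟩
    · intro s hs
      obtain ⟨u, hu⟩ := isConj_iff.1 hs
      rw [← hu]
      have h3 : u * c * u⁻¹ * (u * c * u⁻¹) = u * (c * c) * u⁻¹ := by group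
      rw [h3, hcc]
      group
    · intro s hs s' hs' K _ hK hK'
      exact conj_of_odd hN hodd hcN hcc hs hs' hK hK'
    · intro s hs hs1
      obtain ⟨u, hu⟩ := isConj_iff.1 hs
      have hc1 : c ≠ 1 := by
        rintro rfl
        apply hs1
        rw [← hu]
        group
      rw [← hu, map_mul, map_mul, hψ hc1, map_inv, mul_right_comm, mul_inv_cancel, one_mul]
  have hP : ∀ H K : Subgroup G, (∃ p : ℕ, p.Prime ∧ Hyp (⊥ : Subgroup G) p H) →
      (∃ p : ℕ, p.Prime ∧ Hyp (⊥ : Subgroup G) p K) →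
      ∃ p : ℕ, p.Prime ∧ Hyp (⊥ : Subgroup G) p (H ⊓ K) := by
    rintro H K ⟨p, hp, hH⟩ ⟨q, hq, hK⟩
    exact ⟨p, hp, hyp_inf hH hK.le⟩
  have h3 := glue (S := {s | IsConj c s}) (Z := (⊥ : Subgroup G)) (ψ := ψ) hE (by
      intro s hs x
      exact hs.trans (isConj_iff.2 ⟨x⁻¹, by rw [inv_inv]⟩))
    (fun H => ∃ p : ℕ, p.Prime ∧ Hyp (⊥ : Subgroup G) p H) (fun H hH => ⟨hI H, hH⟩) hθ hω h1
    (by
      intro s hs
      obtain ⟨u, hu⟩ := isConj_iff.1 hs
      have h5 : s = (u⁻¹)⁻¹ * c * u⁻¹ := by rw [← hu, inv_inv]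
      rw [h5, isChar_conj hθ, isChar_conj hω, h2]) 1 (one_mem_closure_FG hP (by
      intro x p hp
      obtain ⟨f, hf, h⟩ := exists_FG_hyp x p hp
      exact ⟨f, FG_mono (fun H hH => ⟨p, hp, hH⟩) hf, h⟩))
  have h4 : (fun g => (((1 : G → ℤ) g : ℤ) : E) * (θ g - ω g)) = θ - ω := by
    funext g
    simp
  rwa [h4] at h3

end Pool.Agent.Y144.DL
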