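import Mathlib

/-!
# Characters and induction of functions on finite groups
-/

set_option autoImplicit false

namespace Pool.Agent.Y144.DL

variable {E : Type*} [Field E] {G : Type*} [Group G]

/-- `θ` is the character of a representation of `G` over `E`. -/
def IsChar (θ : G → E) : Prop :=
  ∃ (n : ℕ) (ρ : G →* Matrix (Fin n) (Fin n) E), θ = fun g => (ρ g).trace

/-- the extension by zero of a linear character of a subgroup -/
noncomputable def ext (H : Subgroup G) (χ : H →* Eˣ) : G → E := fun g => by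
  classical exact if h : g ∈ H then (χ ⟨g, h⟩ : E) else 0

/-- `(1 / |K|) ∑_(x ∈ H) f (x⁻¹ g x)`: for a function `f` on `K ≤ H` (extended by zero), this is the
function induced on `H` (extended by zero). -/
noncomputable def avg [Finite G] (K H : Subgroup G) (f : G → E) : G → E := fun g =>
  (Nat.card K : E)⁻¹ * ∑ᶠ x : H, f ((x : G)⁻¹ * g * x)

/-- The character of `G` induced by the linear character `χ` of `H`. -/
noncomputable def ind [Finite G] (H : Subgroup G) (χ : H →* Eˣ) : G → E := avg H ⊤ (ext H χ)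

theorem ext_mem (H : Subgroup G) (χ : H →* Eˣ) {g : G} (h : g ∈ H) :
    ext H χ g = (χ ⟨g, h⟩ : E) := by
  unfold ext
  rw [dif_pos h]

theorem ext_not_mem (H : Subgroup G) (χ : H →* Eˣ) {g : G} (h : g ∉ H) :
    ext H χ g = 0 := by
  unfold ext
  rw [dif_neg h]

theorem ext_conj (H : Subgroup G) (χ : H →* Eˣ) (g : G) {x : G} (hx : x ∈ H) :
    ext H χ (x⁻¹ * g * x) = ext H χ g := by
  by_cases hg : g ∈ H
  · rw [ext_mem H χ hg, ext_mem H χ (H.mul_mem (H.mul_mem (H.inv_mem hx) hg) hx)]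
    have h1 : (⟨x⁻¹ * g * x, H.mul_mem (H.mul_mem (H.inv_mem hx) hg) hx⟩ : H) =
        (⟨x, hx⟩ : H)⁻¹ * ⟨g, hg⟩ * ⟨x, hx⟩ := rfl
    rw [h1, map_mul, map_mul, map_inv, mul_comm, ← mul_assoc, mul_inv_cancel, one_mul]
  · rw [ext_not_mem H χ hg, ext_not_mem]
    intro h
    apply hg
    have h2 := H.mul_mem (H.mul_mem hx h) (H.inv_mem hx)
    have h3 : x * (x⁻¹ * g * x) * x⁻¹ = g := by group
    rwa [h3] at h2

section avg

variable [Fintype G]

theorem avg_eq (K : Subgroup G) (f : G → E) (g : G) :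
    avg K ⊤ f g = (Nat.card K : E)⁻¹ * ∑ x : G, f (x⁻¹ * g * x) := by
  classical
  unfold avg
  rw [finsum_eq_sum_of_fintype]
  congr 1
  exact Fintype.sum_equiv Subgroup.topEquiv.toEquiv _ _ (fun x => rfl)

theorem avg_eq' (K H : Subgroup G) [Fintype H] (f : G → E) (g : G) :
    avg K H f g = (Nat.card K : E)⁻¹ * ∑ x : H, f ((x : G)⁻¹ * g * x) := by
  unfold avg
  rw [finsum_eq_sum_of_fintype]

theorem avg_add (K H : Subgroup G) (f f' : G → E) : avg K H (f + f') = avg K H f + avg K H f' := by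
  classical
  funext g
  rw [Pi.add_apply, avg_eq', avg_eq', avg_eq', ← mul_add, ← Finset.sum_add_distrib]
  rfl

theorem avg_neg (K H : Subgroup G) (f : G → E) : avg K H (-f) = -avg K H f := by
  classical
  funext g
  rw [Pi.neg_apply, avg_eq', avg_eq', ← mul_neg, ← Finset.sum_neg_distrib]
  rfl

theorem avg_zero (K H : Subgroup G) : avg K H (0 : G → E) = 0 := by
  classical
  funext g
  rw [avg_eq']
  simp

theorem avg_sub (K H : Subgroup G) (f f' : G → E) : avg K H (f - f') = avg K H f - avg K H f' := by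
  rw [sub_eq_add_neg, avg_add, avg_neg, ← sub_eq_add_neg]

/-- `avg` as an additive map -/
noncomputable def avgHom (K H : Subgroup G) : (G → E) →+ (G → E) where
  toFun := avg K H
  map_zero' := avg_zero K H
  map_add' := avg_add K H

theorem avgHom_apply (K H : Subgroup G) (f : G → E) : avgHom K H f = avg K H f := rfl

/-- transitivity of induction -/
theorem avg_avg [CharZero E] {K H L : Subgroup G} (hHL : H ≤ L) (f : G → E) :
    avg H L (avg K H f) = avg K L f := by
  classical
  funext g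
  rw [avg_eq', avg_eq']
  have h1 : ∀ x : L, avg K H f ((x : G)⁻¹ * g * x) =
      (Nat.card K : E)⁻¹ * ∑ y : H, f (((x * ⟨y, hHL y.2⟩ : L) : G)⁻¹ * g * (x * ⟨y, hHL y.2⟩ : L)) := by
    intro x
    rw [avg_eq']
    congr 1
    refine Finset.sum_congr rfl fun y _ => ?_
    congr 1
    simp only [Subgroup.coe_mul, mul_inv_rev, mul_assoc]
  rw [Finset.sum_congr rfl fun x _ => h1 x, ← Finset.mul_sum, Finset.sum_comm]
  have h2 : ∀ y : H, ∑ x : L, f (((x * ⟨y, hHL y.2⟩ : L) : G)⁻¹ * g * (x * ⟨y, hHL y.2⟩ : L)) =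
      ∑ x : L, f ((x : G)⁻¹ * g * x) := by
    intro y
    exact Fintype.sum_equiv (Equiv.mulRight (⟨y, hHL y.2⟩ : L)) _ _ (fun x => rfl)
  rw [Finset.sum_congr rfl fun y _ => h2 y, Finset.sum_const, Finset.card_univ, nsmul_eq_mul]
  have h3 : (Nat.card H : E) ≠ 0 := by
    rw [Nat.cast_ne_zero]
    exact Nat.card_pos.ne'
  rw [Nat.card_eq_fintype_card] at h3 ⊢
  field_simp

end avg

/-! ### genuine characters -/

theorem isChar_zero : IsChar (0 : G → E) := by
  refine ⟨0, { toFun := fun _ => 1, map_one' := rfl, map_mul' := fun _ _ => by simp }, ?_⟩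
  funext g
  simp [Matrix.trace]

theorem isChar_of_fintype {ι : Type*} [Fintype ι] [DecidableEq ι] (ρ : G →* Matrix ι ι E) :
    IsChar (fun g => (ρ g).trace) := by
  refine ⟨Fintype.card ι, (Matrix.reindexAlgEquiv E E (Fintype.equivFin ι)).toMulEquiv.toMonoidHom.comp ρ, ?_⟩
  funext g
  simp only [Matrix.trace, Matrix.diag_apply]
  exact Fintype.sum_equiv (Fintype.equivFin ι) _ _ (fun x => by simp)

theorem isChar_add {θ θ' : G → E} (h : IsChar θ) (h' : IsChar θ') : IsChar (θ + θ') := by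
  classical
  obtain ⟨n, ρ, rfl⟩ := h
  obtain ⟨n', ρ', rfl⟩ := h'
  let R : G →* Matrix (Fin n ⊕ Fin n') (Fin n ⊕ Fin n') E :=
    { toFun := fun g => Matrix.fromBlocks (ρ g) 0 0 (ρ' g)
      map_one' := by simp
      map_mul' := fun x y => by simp [Matrix.fromBlocks_multiply] }
  have h := isChar_of_fintype R
  convert h using 1
  funext g
  simp [R, Matrix.trace]

theorem isChar_nsmul {θ : G → E} (h : IsChar θ) (n : ℕ) : IsChar (n • θ) := by
  induction n with
  | zero => rw [zero_smul]; exact isChar_zero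
  | succ n ih => rw [succ_nsmul]; exact isChar_add ih h

theorem isChar_linear (χ : G →* Eˣ) : IsChar (fun g => (χ g : E)) := by
  refine ⟨1, { toFun := fun g => fun _ _ => (χ g : E), map_one' := ?_, map_mul' := ?_ }, ?_⟩
  · ext i j
    rw [Subsingleton.elim i j]
    simp
  · intro x y
    ext i j
    simp [Matrix.mul_apply]
  · funext g
    simp [Matrix.trace]

theorem isChar_one : IsChar (1 : G → E) := by
  have h := isChar_linear (1 : G →* Eˣ)
  convert h using 1
  funext g
  simp

/-- a group and the product of the cosets and the subgroup -/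
noncomputable def cosetEquiv (H : Subgroup G) : (G ⧸ H) × H ≃ G where
  toFun q := q.1.out * q.2
  invFun y := ((y : G ⧸ H), ⟨((y : G ⧸ H)).out⁻¹ * y, by
    rw [← QuotientGroup.eq, QuotientGroup.out_eq']⟩)
  left_inv := by
    rintro ⟨x, h⟩
    have h1 : (((x.out * (h : G) : G)) : G ⧸ H) = x := by
      rw [QuotientGroup.mk_mul_of_mem _ h.2, QuotientGroup.out_eq']
    refine Prod.ext h1 (Subtype.ext ?_)
    show ((((x.out * (h : G) : G)) : G ⧸ H)).out⁻¹ * (x.out * (h : G)) = h
    rw [h1]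
    group
  right_inv := by
    intro y
    show ((y : G ⧸ H)).out * (((y : G ⧸ H)).out⁻¹ * y) = y
    group

/-- sums over a group and sums over cosets -/
theorem sum_coset {M : Type*} [AddCommMonoid M] [Fintype G] (H : Subgroup G) [Fintype (G ⧸ H)] [Fintype H]
    (f : G → M) :
    ∑ y : G, f y = ∑ x : G ⧸ H, ∑ h : H, f (x.out * h) := by
  classical
  rw [← Fintype.sum_prod_type' (f := fun (x : G ⧸ H) (h : H) => f (x.out * h))]
  exact (Fintype.sum_equiv (cosetEquiv H) _ _ (fun q => rfl)).symm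

theorem ind_eq_sum_cosets [Fintype G] [CharZero E] (H : Subgroup G) [Fintype (G ⧸ H)] (χ : H →* Eˣ)
    (g : G) : ind H χ g = ∑ x : G ⧸ H, ext H χ (x.out⁻¹ * g * x.out) := by
  classical
  have h3 : (Nat.card H : E) ≠ 0 := by
    rw [Nat.cast_ne_zero]
    exact Nat.card_pos.ne'
  unfold ind
  rw [avg_eq, sum_coset H]
  have h1 : ∀ x : G ⧸ H, ∑ h : H, ext H χ ((x.out * (h : G))⁻¹ * g * (x.out * h)) =
      (Nat.card H : E) * ext H χ (x.out⁻¹ * g * x.out) := by
    intro x
    have h2 : ∀ h : H, ext H χ ((x.out * (h : G))⁻¹ * g * (x.out * h)) =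
        ext H χ (x.out⁻¹ * g * x.out) := by
      intro h
      rw [← ext_conj H χ (x.out⁻¹ * g * x.out) h.2]
      congr 1
      group
    rw [Finset.sum_congr rfl fun h _ => h2 h, Finset.sum_const, Finset.card_univ, nsmul_eq_mul,
      Nat.card_eq_fintype_card]
  rw [Finset.sum_congr rfl fun x _ => h1 x, ← Finset.mul_sum, ← mul_assoc, inv_mul_cancel₀ h3,
    one_mul]

theorem smul_out_mem (H : Subgroup G) (g : G) (x y : G ⧸ H) :
    x.out⁻¹ * g * y.out ∈ H ↔ g • y = x := by
  rw [mul_assoc, ← QuotientGroup.eq, QuotientGroup.out_eq', eq_comm]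
  have h1 : ((g * y.out : G) : G ⧸ H) = g • y := by
    conv_rhs => rw [← QuotientGroup.out_eq' y]
    rfl
  rw [h1]

/-- the monomial representation -/
noncomputable def monomial (H : Subgroup G) [Fintype (G ⧸ H)] [DecidableEq (G ⧸ H)] (χ : H →* Eˣ) :
    G →* Matrix (G ⧸ H) (G ⧸ H) E where
  toFun g := fun x y => ext H χ (x.out⁻¹ * g * y.out)
  map_one' := by
    ext x y
    rw [Matrix.one_apply]
    split_ifs with h
    · subst h
      have h1 : x.out⁻¹ * 1 * x.out = 1 := by group
      rw [h1, ext_mem H χ H.one_mem]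
      have h2 : (⟨1, H.one_mem⟩ : H) = 1 := rfl
      rw [h2, map_one, Units.val_one]
    · rw [ext_not_mem]
      rw [smul_out_mem, one_smul]
      exact fun h1 => h h1.symm
  map_mul' := by
    intro g g'
    ext x z
    rw [Matrix.mul_apply, Finset.sum_eq_single (g' • z)]
    · by_cases hx : g • g' • z = x
      · have m1 : x.out⁻¹ * g * (g' • z).out ∈ H := (smul_out_mem H g x (g' • z)).2 hx
        have m2 : (g' • z).out⁻¹ * g' * z.out ∈ H := (smul_out_mem H g' (g' • z) z).2 rfl
        have m3 : x.out⁻¹ * (g * g') * z.out ∈ H := by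
          rw [smul_out_mem, mul_smul]
          exact hx
        rw [ext_mem H χ m1, ext_mem H χ m2, ext_mem H χ m3, ← Units.val_mul, ← map_mul]
        congr 3
        show x.out⁻¹ * (g * g') * z.out =
          (x.out⁻¹ * g * (g' • z).out) * ((g' • z).out⁻¹ * g' * z.out)
        group
      · have m1 : x.out⁻¹ * g * (g' • z).out ∉ H := fun h => hx ((smul_out_mem H g x (g' • z)).1 h)
        have m3 : x.out⁻¹ * (g * g') * z.out ∉ H := by
          rw [smul_out_mem, mul_smul]
          exact hx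
        rw [ext_not_mem H χ m1, ext_not_mem H χ m3, zero_mul]
    · intro y _ hy
      have m2 : y.out⁻¹ * g' * z.out ∉ H := fun h => hy ((smul_out_mem H g' y z).1 h).symm
      rw [ext_not_mem H χ m2, mul_zero]
    · intro h
      exact absurd (Finset.mem_univ _) h

/-- An induced linear character is a character. -/
theorem isChar_ind [Finite G] [CharZero E] (H : Subgroup G) (χ : H →* Eˣ) : IsChar (ind H χ) := by
  classical
  have := Fintype.ofFinite G
  have : Fintype (G ⧸ H) := Fintype.ofFinite _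
  have h := isChar_of_fintype (monomial H χ)
  convert h using 1
  funext g
  rw [ind_eq_sum_cosets]
  rfl

/-! ### the formal argument -/

/-- A function on characters with values in a commutative group which is multiplicative is determined,
on the differences in the subgroup generated by the given pairs. -/
theorem exists_of_mem_closure {A : Type*} [CommGroup A] (Y : (G → E) → A)
    (hY : ∀ θ θ', IsChar θ → IsChar θ' → Y (θ + θ') = Y θ * Y θ')
    (P : Set ((G → E) × (G → E))) (hP : ∀ q ∈ P, IsChar q.1 ∧ IsChar q.2 ∧ Y q.1 = Y q.2)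
    {D : G → E} (hD : D ∈ AddSubgroup.closure {f | ∃ q ∈ P, f = q.1 - q.2}) :
    ∃ α β : G → E, IsChar α ∧ IsChar β ∧ Y α = Y β ∧ D = α - β := by
  induction hD using AddSubgroup.closure_induction with
  | mem f hf =>
    obtain ⟨q, hq, rfl⟩ := hf
    obtain ⟨h1, h2, h3⟩ := hP q hq
    exact ⟨q.1, q.2, h1, h2, h3, rfl⟩
  | zero => exact ⟨0, 0, isChar_zero, isChar_zero, rfl, by rw [sub_zero]⟩
  | add f f' _ _ hf hf' =>
    obtain ⟨α, β, h1, h2, h3, rfl⟩ := hf
    obtain ⟨α', β', h1', h2', h3', rfl⟩ := hf'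
    refine ⟨α + α', β + β', isChar_add h1 h1', isChar_add h2 h2', ?_, by abel⟩
    rw [hY _ _ h1 h1', hY _ _ h2 h2', h3, h3']
  | neg f _ hf =>
    obtain ⟨α, β, h1, h2, h3, rfl⟩ := hf
    exact ⟨β, α, h2, h1, h3.symm, by abel⟩

theorem hY_zero {A : Type*} [CommGroup A] (Y : (G → E) → A)
    (hY : ∀ θ θ', IsChar θ → IsChar θ' → Y (θ + θ') = Y θ * Y θ') : Y 0 = 1 := by
  have h := hY 0 0 isChar_zero isChar_zero
  rw [add_zero] at h
  exact (left_eq_mul.1 h)

theorem hY_nsmul {A : Type*} [CommGroup A] (Y : (G → E) → A)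
    (hY : ∀ θ θ', IsChar θ → IsChar θ' → Y (θ + θ') = Y θ * Y θ') {θ : G → E} (h : IsChar θ) (n : ℕ) :
    Y (n • θ) = Y θ ^ n := by
  induction n with
  | zero => rw [zero_smul, pow_zero, hY_zero Y hY]
  | succ n ih => rw [succ_nsmul, hY _ _ (isChar_nsmul h n) h, ih, pow_succ]

/-- If `N θ - N (a + b ψ)` is in the subgroup generated by the differences of the pairs of characters
on which `Y` agrees, then `Y θ ^ N = (Y 1 ^ a * Y ψ ^ b) ^ N`. -/
theorem formal {A : Type*} [CommGroup A] (Y : (G → E) → A)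
    (hY : ∀ θ θ', IsChar θ → IsChar θ' → Y (θ + θ') = Y θ * Y θ')
    (P : Set ((G → E) × (G → E))) (hP : ∀ q ∈ P, IsChar q.1 ∧ IsChar q.2 ∧ Y q.1 = Y q.2)
    {θ ω : G → E} (hθ : IsChar θ) (hω : IsChar ω) (N : ℕ)
    (hD : N • θ - N • ω ∈ AddSubgroup.closure {f | ∃ q ∈ P, f = q.1 - q.2}) :
    Y θ ^ N = Y ω ^ N := by
  obtain ⟨α, β, h1, h2, h3, h4⟩ := exists_of_mem_closure Y hY P hP hD
  have h5 : N • θ + β = N • ω + α := by
    rw [sub_eq_iff_eq_add] at h4
    rw [h4]
    abel
  have h6 := congrArg Y h5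
  rw [hY _ _ (isChar_nsmul hθ N) h2, hY _ _ (isChar_nsmul hω N) h1, h3,
    hY_nsmul Y hY hθ, hY_nsmul Y hY hω] at h6
  exact mul_right_cancel h6

end Pool.Agent.Y144.DL
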