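import Pool.Agent.Y144.DL.Orb
import Pool.Agent.Y144.DL.Art

/-!
# Characters of extensions of `p`-groups by abelian groups
-/

set_option autoImplicit false

namespace Pool.Agent.Y144.DL

variable {E : Type*} [Field E] {G : Type*} [Group G]

/-- differences of characters of `H` induced by linear characters of subgroups `K` containing `Z`, which
agree on `K ∩ S` -/
def SC (E : Type*) [Field E] [Finite G] (S : Set G) (Z H : Subgroup G) : AddSubgroup (G → E) :=
  AddSubgroup.closure {f | ∃ (K : Subgroup G) (χ χ' : K →* Eˣ), K ≤ H ∧ Z ≤ K ∧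
    (∀ s ∈ S, ext K χ s = ext K χ' s) ∧ f = avg K H (ext K χ - ext K χ')}

/-- `SC` and the restrictions of `1` and `ψ` -/
def GC (E : Type*) [Field E] [Finite G] (S : Set G) (Z : Subgroup G) (ψ : G →* Eˣ) (H : Subgroup G) :
    AddSubgroup (G → E) :=
  SC E S Z H ⊔ AddSubgroup.closure {ext H 1, ext H (ψ.comp H.subtype)}

/-- `S` consists of elements of order at most two, any two elements of `S` in a subgroup `K` of `H` are
conjugate in `K`, and `ψ = -1` on `S` outside `1` -/
structure Isol (S : Set G) (ψ : G →* Eˣ) (H : Subgroup G) : Prop where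
  sq : ∀ s ∈ S, s * s = 1
  iso : ∀ s ∈ S, ∀ s' ∈ S, ∀ K : Subgroup G, K ≤ H → s ∈ K → s' ∈ K → ∃ k ∈ K, s' = k⁻¹ * s * k
  psi : ∀ s ∈ S, s ≠ 1 → ψ s = -1

theorem Isol.mono {S : Set G} {ψ : G →* Eˣ} {H H' : Subgroup G} (h : Isol S ψ H) (hH : H' ≤ H) :
    Isol S ψ H' :=
  ⟨h.sq, fun s hs s' hs' K hK => h.iso s hs s' hs' K (hK.trans hH), h.psi⟩

section

variable [Finite G] [CharZero E] {S : Set G} {Z : Subgroup G} {ψ : G →* Eˣ}

theorem avg_self_ext (H : Subgroup G) (χ : H →* Eˣ) : avg H H (ext H χ) = ext H χ := by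
  classical
  have := Fintype.ofFinite G
  funext g
  have hne : (Nat.card H : E) ≠ 0 := by
    rw [Nat.cast_ne_zero]
    exact Nat.card_pos.ne'
  rw [avg_eq', Finset.sum_congr rfl fun x _ => ext_conj H χ g x.2, Finset.sum_const,
    Finset.card_univ, nsmul_eq_mul, ← Nat.card_eq_fintype_card, ← mul_assoc, inv_mul_cancel₀ hne,
    one_mul]

theorem SC_avg {T H : Subgroup G} (hTH : T ≤ H) {f : G → E} (hf : f ∈ SC E S Z T) :
    avg T H f ∈ SC E S Z H := by
  classical
  have := Fintype.ofFinite G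
  have h1 : SC E S Z T ≤ (SC E S Z H).comap (avgHom T H) := by
    unfold SC
    rw [AddSubgroup.closure_le]
    rintro _ ⟨K, χ, χ', hK, hc, he, rfl⟩
    show avg T H (avg K T _) ∈ AddSubgroup.closure _
    rw [avg_avg hTH]
    exact AddSubgroup.subset_closure ⟨K, χ, χ', hK.trans hTH, hc, he, rfl⟩
  exact h1 hf

theorem SC_ext {H : Subgroup G} (hc : Z ≤ H) {χ χ' : H →* Eˣ} (he : ∀ s ∈ S, ext H χ s = ext H χ' s) :
    ext H χ - ext H χ' ∈ SC E S Z H := by
  classical
  have := Fintype.ofFinite G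
  refine AddSubgroup.subset_closure ⟨H, χ, χ', le_rfl, hc, he, ?_⟩
  rw [avg_sub, avg_self_ext, avg_self_ext]

theorem SC_le_GC (H : Subgroup G) : SC E S Z H ≤ GC E S Z ψ H := le_sup_left

theorem one_mem_GC (H : Subgroup G) : ext H (1 : H →* Eˣ) ∈ GC E S Z ψ H :=
  (le_sup_right : _ ≤ GC E S Z ψ H) (AddSubgroup.subset_closure (Or.inl rfl))

theorem psi_mem_GC (H : Subgroup G) : ext H (ψ.comp H.subtype) ∈ GC E S Z ψ H :=
  (le_sup_right : _ ≤ GC E S Z ψ H) (AddSubgroup.subset_closure (Or.inr rfl))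

/-- every linear character is in `GC` -/
theorem ext_mem_GC {H : Subgroup G} (hI : Isol S ψ H) (hc : Z ≤ H)
    (χ : H →* Eˣ) : ext H χ ∈ GC E S Z ψ H := by
  by_cases hS : ∃ s ∈ S, s ∈ H
  · obtain ⟨s, hs, hsH⟩ := hS
    have hconst : ∀ (χ : H →* Eˣ), ∀ s' ∈ S, s' ∈ H → ext H χ s' = ext H χ s := by
      intro χ s' hs' hs'H
      obtain ⟨k, hk, rfl⟩ := hI.iso s hs s' hs' H le_rfl hsH hs'H
      exact ext_conj H χ s hk
    have hagree : ∀ χ χ' : H →* Eˣ, ext H χ s = ext H χ' s → ∀ s' ∈ S, ext H χ s' = ext H χ' s' := by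
      intro χ χ' he s' hs'
      by_cases hs'H : s' ∈ H
      · rw [hconst χ s' hs' hs'H, hconst χ' s' hs' hs'H, he]
      · rw [ext_not_mem H χ hs'H, ext_not_mem H χ' hs'H]
    have h1 : ext H χ s * ext H χ s = 1 := by
      rw [ext_mem H χ hsH, ← Units.val_mul, ← map_mul]
      have h2 : (⟨s, hsH⟩ : H) * ⟨s, hsH⟩ = 1 := Subtype.ext (hI.sq s hs)
      rw [h2, map_one, Units.val_one]
    rcases mul_self_eq_one_iff.1 h1 with h | h
    · have h3 : ext H χ - ext H 1 ∈ SC E S Z H := by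
        apply SC_ext hc
        apply hagree
        rw [h, ext_mem H _ hsH, MonoidHom.one_apply, Units.val_one]
      have h4 := add_mem (SC_le_GC (ψ := ψ) H h3) (one_mem_GC (E := E) (S := S) (Z := Z) (ψ := ψ) H)
      rwa [sub_add_cancel] at h4
    · have hc1 : s ≠ 1 := by
        rintro rfl
        rw [ext_mem H χ hsH] at h
        have h2 : (⟨1, hsH⟩ : H) = 1 := rfl
        rw [h2, map_one, Units.val_one] at h
        have h5 : (1 : E) + 1 = 0 := by
          nth_rewrite 1 [h]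
          ring
        norm_num at h5
      have h3 : ext H χ - ext H (ψ.comp H.subtype) ∈ SC E S Z H := by
        apply SC_ext hc
        apply hagree
        rw [h, ext_mem H _ hsH]
        show (-1 : E) = (ψ s : E)
        rw [hI.psi s hs hc1]
        simp
      have h4 := add_mem (SC_le_GC (ψ := ψ) H h3) (psi_mem_GC (E := E) (S := S) (Z := Z) (ψ := ψ) H)
      rwa [sub_add_cancel] at h4
  · have h3 : ext H χ - ext H 1 ∈ SC E S Z H := by
      apply SC_ext hc
      intro s hs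
      rw [ext_not_mem H χ (fun h => hS ⟨s, hs, h⟩), ext_not_mem H 1 (fun h => hS ⟨s, hs, h⟩)]
    have h4 := add_mem (SC_le_GC (ψ := ψ) H h3) (one_mem_GC (E := E) (S := S) (Z := Z) (ψ := ψ) H)
    rwa [sub_add_cancel] at h4

/-- induction from a normal subgroup with abelian quotient -/
theorem avg_ext_step (hE : HasEnoughRootsOfUnity E (Nat.card G)) {T K : Subgroup G}
    (hI : Isol S ψ K) (hTK : T ≤ K) (hc : Z ≤ T)
    (hn : ∀ k ∈ K, ∀ t ∈ T, k * t * k⁻¹ ∈ T) (hab : ∀ x ∈ K, ∀ y ∈ K, x * y * (y * x)⁻¹ ∈ T)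
    (ω : G →* Eˣ) : avg T K (ext T (ω.comp T.subtype)) ∈ GC E S Z ψ K := by
  classical
  have := Fintype.ofFinite G
  let N : Subgroup K := T.subgroupOf K
  have hN : N.Normal := by
    refine ⟨?_⟩
    intro t ht k
    rw [Subgroup.mem_subgroupOf] at ht ⊢
    exact hn k k.2 t ht
  let _ : CommGroup (K ⧸ N) := { (inferInstance : Group (K ⧸ N)) with
    mul_comm := by
      intro x y
      induction x using QuotientGroup.induction_on with
      | H x =>
        induction y using QuotientGroup.induction_on with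
        | H y =>
          rw [← QuotientGroup.mk_mul, ← QuotientGroup.mk_mul, QuotientGroup.eq, Subgroup.mem_subgroupOf]
          have h1 := hab (y⁻¹ : K) (y⁻¹ : K).2 (x⁻¹ : K) (x⁻¹ : K).2
          have h2 : (((x * y)⁻¹ * (y * x) : K) : G) =
              ((y⁻¹ : K) : G) * (x⁻¹ : K) * (((x⁻¹ : K) : G) * (y⁻¹ : K))⁻¹ := by
            simp only [Subgroup.coe_mul, Subgroup.coe_inv]
            group
          rw [h2]
          exact h1 }
  have hE' : HasEnoughRootsOfUnity E (Monoid.exponent (K ⧸ N)) := by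
    refine hasEnough_of_dvd hE ?_ Nat.card_pos.ne'
    have h1 : Monoid.exponent (K ⧸ N) ∣ Nat.card (K ⧸ N) := Group.exponent_dvd_nat_card
    have h2 : Nat.card (K ⧸ N) ∣ Nat.card K := Subgroup.index_dvd_card N
    exact (h1.trans h2).trans (Subgroup.card_subgroup_dvd_card K)
  obtain ⟨e⟩ := CommGroup.monoidHom_mulEquiv_of_hasEnoughRootsOfUnity (K ⧸ N) E
  have : Finite (K ⧸ N →* Eˣ) := Finite.of_equiv _ e.symm.toEquiv
  have : Fintype (K ⧸ N →* Eˣ) := Fintype.ofFinite _
  have hne : (Nat.card T : E) ≠ 0 := by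
    rw [Nat.cast_ne_zero]
    exact Nat.card_pos.ne'
  have hcardTN : Nat.card N = Nat.card T :=
    Nat.card_congr (Subgroup.subgroupOfEquivOfLe hTK).toEquiv
  have hcard : (Nat.card K : E) = Nat.card T * Nat.card (K ⧸ N) := by
    rw [← hcardTN, ← Nat.cast_mul]
    congr 1
    exact (Subgroup.card_mul_index N).symm
  have h1 : avg T K (ext T (ω.comp T.subtype)) =
      ∑ χ : K ⧸ N →* Eˣ, ext K (χ.comp (QuotientGroup.mk' N) * ω.comp K.subtype) := by
    funext g
    rw [Finset.sum_apply, avg_eq']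
    have h2 : ∀ x : K, ext T (ω.comp T.subtype) ((x : G)⁻¹ * g * x) = ext T (ω.comp T.subtype) g := by
      intro x
      by_cases hg : g ∈ T
      · have hg' : (x : G)⁻¹ * g * x ∈ T := by
          have := hn (x : G)⁻¹ (K.inv_mem x.2) g hg
          rwa [inv_inv] at this
        rw [ext_mem T _ hg, ext_mem T _ hg']
        show ((ω ((x : G)⁻¹ * g * x) : Eˣ) : E) = (ω g : E)
        rw [map_mul, map_mul, map_inv, mul_comm, ← mul_assoc, mul_inv_cancel, one_mul]
      · rw [ext_not_mem T _ hg, ext_not_mem]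
        intro h
        apply hg
        have h3 := hn x x.2 _ h
        have h4 : (x : G) * ((x : G)⁻¹ * g * x) * (x : G)⁻¹ = g := by group
        rwa [h4] at h3
    rw [Finset.sum_congr rfl fun x _ => h2 x, Finset.sum_const, Finset.card_univ, nsmul_eq_mul,
      ← Nat.card_eq_fintype_card, hcard]
    by_cases hgK : g ∈ K
    · have h5 : ∀ χ : K ⧸ N →* Eˣ, ext K (χ.comp (QuotientGroup.mk' N) * ω.comp K.subtype) g =
          (χ (QuotientGroup.mk' N ⟨g, hgK⟩) : E) * (ω g : E) := by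
        intro χ
        rw [ext_mem K _ hgK, MonoidHom.mul_apply, Units.val_mul]
        rfl
      rw [Finset.sum_congr rfl fun χ _ => h5 χ, ← Finset.sum_mul, sum_dual hE']
      have h3 : (QuotientGroup.mk' N ⟨g, hgK⟩ = 1) ↔ g ∈ T := by
        rw [← MonoidHom.mem_ker, QuotientGroup.ker_mk', Subgroup.mem_subgroupOf]
      simp only [h3]
      split_ifs with hgT
      · rw [ext_mem T _ hgT]
        show (Nat.card T : E)⁻¹ * (Nat.card T * Nat.card (K ⧸ N) * (ω g : E)) = _
        field_simp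
      · rw [ext_not_mem T _ hgT]
        ring
    · rw [ext_not_mem T _ (fun h => hgK (hTK h)), mul_zero, mul_zero]
      symm
      refine Finset.sum_eq_zero fun χ _ => ?_
      rw [ext_not_mem K _ hgK]
  rw [h1]
  exact sum_mem fun χ _ => ext_mem_GC hI (hc.trans hTK) _

theorem GC_avg_of {T H : Subgroup G} (hTH : T ≤ H)
    (h1 : avg T H (ext T 1) ∈ GC E S Z ψ H) (h2 : avg T H (ext T (ψ.comp T.subtype)) ∈ GC E S Z ψ H)
    {f : G → E} (hf : f ∈ GC E S Z ψ T) : avg T H f ∈ GC E S Z ψ H := by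
  classical
  have := Fintype.ofFinite G
  have h3 : GC E S Z ψ T ≤ (GC E S Z ψ H).comap (avgHom T H) := by
    unfold GC
    refine sup_le ?_ ?_
    · intro f hf
      exact SC_le_GC H (SC_avg hTH hf)
    · rw [AddSubgroup.closure_le]
      rintro _ (rfl | rfl)
      · exact h1
      · exact h2
  exact h3 hf

/-- the subgroup generated by `B` and an element normalizing it -/
def adj (B : Subgroup G) (z : G) (hz : ∀ i : ℤ, ∀ b ∈ B, z ^ i * b * (z ^ i)⁻¹ ∈ B) : Subgroup G where
  carrier := {g | ∃ i : ℤ, ∃ b ∈ B, g = z ^ i * b}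
  one_mem' := ⟨0, 1, B.one_mem, by simp⟩
  mul_mem' := by
    rintro _ _ ⟨i, b, hb, rfl⟩ ⟨j, b', hb', rfl⟩
    refine ⟨i + j, (z ^ (-j)) * b * (z ^ (-j))⁻¹ * b', B.mul_mem (hz (-j) b hb) hb', ?_⟩
    rw [zpow_add, zpow_neg]
    group
  inv_mem' := by
    rintro _ ⟨i, b, hb, rfl⟩
    refine ⟨-i, z ^ i * b⁻¹ * (z ^ i)⁻¹, hz i _ (B.inv_mem hb), ?_⟩
    rw [zpow_neg]
    group

theorem zpow_conj_mem (B : Subgroup G) (z : G) (hz : ∀ b ∈ B, z * b * z⁻¹ ∈ B) :
    ∀ i : ℤ, ∀ b ∈ B, z ^ i * b * (z ^ i)⁻¹ ∈ B := by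
  have hmem : z ∈ Subgroup.normalizer (B : Set G) := by
    have hφ : Function.Injective (fun b : B => (⟨z * b * z⁻¹, hz b b.2⟩ : B)) := by
      intro a b hab
      have h2 : z * (a : G) * z⁻¹ = z * b * z⁻¹ := congrArg Subtype.val hab
      apply Subtype.ext
      exact mul_left_cancel (mul_right_cancel h2)
    have hφs := Finite.surjective_of_injective hφ
    rw [Subgroup.mem_normalizer_iff]
    intro h
    constructor
    · intro hh
      exact hz h hh
    · intro hh
      obtain ⟨b, hb⟩ := hφs ⟨_, hh⟩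
      have h2 : z * (b : G) * z⁻¹ = z * h * z⁻¹ := congrArg Subtype.val hb
      have h3 : (b : G) = h := mul_left_cancel (mul_right_cancel h2)
      rw [← h3]
      exact b.2
  intro i b hb
  exact (Subgroup.mem_normalizer_iff.1 (Subgroup.zpow_mem _ hmem i) b).1 hb

end

end Pool.Agent.Y144.DL
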