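import Pool.Agent.Y144.DL.Cliff

/-!
# Clifford theory for extensions of `p`-groups by abelian groups
-/

set_option autoImplicit false

namespace Pool.Agent.Y144.DL

variable {E : Type*} [Field E] {G : Type*} [Group G]

theorem exists_central [Finite G] (p : ℕ) [hp : Fact p.Prime] {B T : Subgroup G} (hBT : B ≤ T)
    (hn : ∀ t ∈ T, ∀ b ∈ B, t * b * t⁻¹ ∈ B) (hpow : ∀ t ∈ T, ∃ j : ℕ, t ^ p ^ j ∈ B) (hne : T ≠ B) :
    ∃ z ∈ T, z ∉ B ∧ ∀ t ∈ T, t * z * t⁻¹ * z⁻¹ ∈ B := by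
  let N : Subgroup T := B.subgroupOf T
  have hN : N.Normal := by
    refine ⟨?_⟩
    intro b hb t
    rw [Subgroup.mem_subgroupOf] at hb ⊢
    exact hn t t.2 b hb
  have hQ : IsPGroup p (T ⧸ N) := by
    intro x
    induction x using QuotientGroup.induction_on with
    | H x =>
      obtain ⟨j, hj⟩ := hpow x x.2
      refine ⟨j, ?_⟩
      rw [← QuotientGroup.mk_pow, QuotientGroup.eq_one_iff, Subgroup.mem_subgroupOf]
      exact hj
  have hnt : Nontrivial (T ⧸ N) := by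
    obtain ⟨t, ht, htB⟩ : ∃ t ∈ T, t ∉ B := by
      by_contra hcon
      push Not at hcon
      exact hne (le_antisymm hcon hBT)
    refine ⟨⟨((⟨t, ht⟩ : T) : T ⧸ N), 1, ?_⟩⟩
    rw [Ne, QuotientGroup.eq_one_iff, Subgroup.mem_subgroupOf]
    exact htB
  have hc := hQ.center_nontrivial
  obtain ⟨⟨x, hx⟩, hx1⟩ := exists_ne (1 : Subgroup.center (T ⧸ N))
  induction x using QuotientGroup.induction_on with
  | H z =>
    refine ⟨z, z.2, ?_, ?_⟩
    · intro h
      apply hx1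
      apply Subtype.ext
      show ((z : T) : T ⧸ N) = 1
      rw [QuotientGroup.eq_one_iff, Subgroup.mem_subgroupOf]
      exact h
    · intro t ht
      have h1 := Subgroup.mem_center_iff.1 hx ((⟨t, ht⟩ : T) : T ⧸ N)
      have h2 : (((⟨t, ht⟩ : T) * z * (⟨t, ht⟩ : T)⁻¹ * z⁻¹ : T) : T ⧸ N) = 1 := by
        rw [QuotientGroup.mk_mul, QuotientGroup.mk_mul, QuotientGroup.mk_mul, h1,
          QuotientGroup.mk_inv, QuotientGroup.mk_inv]
        group
      rw [QuotientGroup.eq_one_iff, Subgroup.mem_subgroupOf] at h2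
      exact h2

theorem exists_normalizing [Finite G] (p : ℕ) [hp : Fact p.Prime] {B T H : Subgroup G} (hBT : B ≤ T)
    (hTH : T ≤ H) (hn : ∀ t ∈ H, ∀ b ∈ B, t * b * t⁻¹ ∈ B) (hpow : ∀ t ∈ H, ∃ j : ℕ, t ^ p ^ j ∈ B)
    (hne : T ≠ H) : ∃ z ∈ H, z ∉ T ∧ ∀ t ∈ T, z * t * z⁻¹ ∈ T := by
  let N : Subgroup H := B.subgroupOf H
  have hN : N.Normal := by
    refine ⟨?_⟩
    intro b hb t
    rw [Subgroup.mem_subgroupOf] at hb ⊢
    exact hn t t.2 b hb
  have hQ : IsPGroup p (H ⧸ N) := by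
    intro x
    induction x using QuotientGroup.induction_on with
    | H x =>
      obtain ⟨j, hj⟩ := hpow x x.2
      refine ⟨j, ?_⟩
      rw [← QuotientGroup.mk_pow, QuotientGroup.eq_one_iff, Subgroup.mem_subgroupOf]
      exact hj
  have hnil : Group.IsNilpotent (H ⧸ N) := hQ.isNilpotent
  let TQ : Subgroup (H ⧸ N) := (T.subgroupOf H).map (QuotientGroup.mk' N)
  have hmem : ∀ h : H, ((h : H) : H ⧸ N) ∈ TQ → (h : G) ∈ T := by
    rintro h ⟨t, ht, hth⟩
    have h1 : ((t : H) : H ⧸ N) = h := hth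
    rw [QuotientGroup.eq, Subgroup.mem_subgroupOf] at h1
    have h2 : (h : G) = t * ((t⁻¹ * h : H) : G) := by
      simp only [Subgroup.coe_mul, Subgroup.coe_inv]
      group
    rw [h2]
    exact T.mul_mem ht (hBT h1)
  have hmem' : ∀ h : H, (h : G) ∈ T → ((h : H) : H ⧸ N) ∈ TQ := fun h hh => ⟨h, hh, rfl⟩
  have hlt : TQ < ⊤ := by
    rw [lt_top_iff_ne_top]
    intro htop
    apply hne
    refine le_antisymm hTH ?_
    intro h hh
    exact hmem ⟨h, hh⟩ (by rw [htop]; exact Subgroup.mem_top _)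
  have hlt2 := Group.normalizerCondition_of_isNilpotent TQ hlt
  obtain ⟨x, hx, hx'⟩ := SetLike.exists_of_lt hlt2
  induction x using QuotientGroup.induction_on with
  | H z =>
    refine ⟨z, z.2, fun h => hx' (hmem' z h), ?_⟩
    intro t ht
    have h1 := (Subgroup.mem_normalizer_iff.1 hx ((⟨t, hTH ht⟩ : H) : H ⧸ N)).1 (hmem' ⟨t, hTH ht⟩ ht)
    exact hmem (z * (⟨t, hTH ht⟩ : H) * z⁻¹) h1

section

variable [Finite G] [CharZero E] {S : Set G} {Z : Subgroup G} {ψ : G →* Eˣ}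

theorem card_lt_of_lt {A B : Subgroup G} (h : A < B) : Nat.card A < Nat.card B := by
  have h7 : (A : Set G) ⊂ (B : Set G) := h
  exact Set.ncard_lt_ncard h7 (Set.toFinite _)

/-- `GC` is compatible with induction inside extensions of `p`-groups -/
theorem GC_avg (hE : HasEnoughRootsOfUnity E (Nat.card G)) (p : ℕ) [hp : Fact p.Prime]
    {B H : Subgroup G} (hI : Isol S ψ H) (hc : Z ≤ B)
    (hn : ∀ t ∈ H, ∀ b ∈ B, t * b * t⁻¹ ∈ B) (hpow : ∀ t ∈ H, ∃ j : ℕ, t ^ p ^ j ∈ B) (n : ℕ) :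
    ∀ T : Subgroup G, B ≤ T → T ≤ H → Nat.card H - Nat.card T ≤ n →
      ∀ f ∈ GC E S Z ψ T, avg T H f ∈ GC E S Z ψ H := by
  classical
  have := Fintype.ofFinite G
  induction n with
  | zero =>
    intro T hBT hTH hcard f hf
    have h1 : T = H := by
      by_contra hne
      have := card_lt_of_lt (lt_of_le_of_ne hTH hne)
      omega
    subst h1
    refine GC_avg_of le_rfl ?_ ?_ hf
    · rw [avg_self_ext]
      exact one_mem_GC T
    · rw [avg_self_ext]
      exact psi_mem_GC T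
  | succ n ih =>
    intro T hBT hTH hcard f hf
    by_cases hne : T = H
    · subst hne
      refine GC_avg_of le_rfl ?_ ?_ hf
      · rw [avg_self_ext]
        exact one_mem_GC T
      · rw [avg_self_ext]
        exact psi_mem_GC T
    · obtain ⟨z, hzH, hzT, hz⟩ := exists_normalizing p hBT hTH hn hpow hne
      have hz' := zpow_conj_mem T z hz
      let K := adj T z hz'
      have hTK : T ≤ K := fun t ht => ⟨0, t, ht, by simp⟩
      have hzK : z ∈ K := ⟨1, 1, T.one_mem, by simp⟩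
      have hKH : K ≤ H := by
        rintro _ ⟨i, b, hb, rfl⟩
        exact H.mul_mem (H.zpow_mem hzH i) (hTH hb)
      have hlt : T < K := lt_of_le_of_ne hTK (fun h => hzT (h ▸ hzK))
      have hnK : ∀ k ∈ K, ∀ t ∈ T, k * t * k⁻¹ ∈ T := by
        rintro _ ⟨i, b, hb, rfl⟩ t ht
        have h1 : z ^ i * b * t * (z ^ i * b)⁻¹ = z ^ i * (b * t * b⁻¹) * (z ^ i)⁻¹ := by group
        rw [h1]
        exact hz' i _ (T.mul_mem (T.mul_mem hb ht) (T.inv_mem hb))
      have habK : ∀ x ∈ K, ∀ y ∈ K, x * y * (y * x)⁻¹ ∈ T := by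
        rintro _ ⟨i, b, hb, rfl⟩ _ ⟨j, b', hb', rfl⟩
        have h1 : z ^ i * b * (z ^ j * b') * (z ^ j * b' * (z ^ i * b))⁻¹ =
            z ^ (i + j) * ((z ^ (-j) * b * (z ^ (-j))⁻¹) * b' * b⁻¹ *
              (z ^ (-i) * b' * (z ^ (-i))⁻¹)⁻¹) * (z ^ (i + j))⁻¹ := by
          rw [zpow_add, zpow_neg, zpow_neg]
          have h2 : Commute (z ^ i) (z ^ j) := (Commute.refl z).zpow_zpow i j
          have h3 : (z ^ i * z ^ j)⁻¹ = (z ^ j * z ^ i)⁻¹ := by rw [h2.eq]
          rw [h3]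
          group
        rw [h1]
        refine hz' _ _ (T.mul_mem (T.mul_mem (T.mul_mem (hz' _ _ hb) hb') (T.inv_mem hb))
          (T.inv_mem (hz' _ _ hb')))
      have h2 : avg T K f ∈ GC E S Z ψ K := by
        refine GC_avg_of hTK ?_ (avg_ext_step hE (hI.mono hKH) hTK (hc.trans hBT) hnK habK ψ) hf
        have h3 := avg_ext_step hE (hI.mono hKH) hTK (hc.trans hBT) hnK habK (1 : G →* Eˣ)
        exact h3
      have h3 : avg T H f = avg K H (avg T K f) := (avg_avg hKH f).symm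
      rw [h3]
      refine ih K (hBT.trans hTK) hKH ?_ _ h2
      have h4 := card_lt_of_lt hlt
      have h5 : Nat.card K ≤ Nat.card H := Subgroup.card_le_of_le hKH
      omega

end

/-! ### the conjugation action on functions -/

/-- functions on `G` with the conjugation action -/
def Fn (G E : Type*) : Type _ := G → E

instance : MulAction G (Fn G E) where
  smul h z := fun g => z (h⁻¹ * g * h)
  one_smul z := by
    funext g
    show z ((1 : G)⁻¹ * g * 1) = z g
    congr 1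
    group
  mul_smul h k z := by
    funext g
    show z ((h * k)⁻¹ * g * (h * k)) = z (k⁻¹ * (h⁻¹ * g * h) * k)
    congr 1
    group

omit [Field E] in
theorem Fn.smul_apply (h : G) (z : Fn G E) (g : G) : (h • z) g = z (h⁻¹ * g * h) := rfl

section

variable {n : ℕ} (ρ : G →* Matrix (Fin n) (Fin n) E) (B : Subgroup G)

/-- the projector for a function -/
noncomputable def prf [Fintype B] (e : Matrix (Fin n) (Fin n) E) (z : Fn G E) :
    Matrix (Fin n) (Fin n) E :=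
  (Nat.card B : E)⁻¹ • ∑ b : B, z (b : G)⁻¹ • (ρ b * e)

theorem prf_ext [Fintype B] (e : Matrix (Fin n) (Fin n) E) (μ : B →* Eˣ) :
    prf ρ B e (ext B μ) = pr ρ B e μ := by
  unfold prf pr
  congr 1
  refine Finset.sum_congr rfl fun b _ => ?_
  rw [ext_mem B μ (B.inv_mem b.2), Units.smul_def]
  congr 2
  have h1 : (⟨(b : G)⁻¹, B.inv_mem b.2⟩ : B) = b⁻¹ := rfl
  rw [h1, map_inv]

theorem mul_prf [Fintype B] {e : Matrix (Fin n) (Fin n) E} {h : G} (hn : ∀ b ∈ B, h * b * h⁻¹ ∈ B)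
    (hn' : ∀ b ∈ B, h⁻¹ * b * h ∈ B) (he : ρ h * e = e * ρ h) (z : Fn G E) :
    ρ h * prf ρ B e z = prf ρ B e (h • z) * ρ h := by
  unfold prf
  rw [mul_smul_comm, smul_mul_assoc, Finset.mul_sum, Finset.sum_mul]
  congr 1
  let φ : B ≃ B :=
    { toFun := fun b => ⟨h * b * h⁻¹, hn b b.2⟩
      invFun := fun b => ⟨h⁻¹ * b * h, hn' b b.2⟩
      left_inv := fun b => Subtype.ext (by
        show h⁻¹ * (h * (b : G) * h⁻¹) * h = b
        group)
      right_inv := fun b => Subtype.ext (by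
        show h * (h⁻¹ * (b : G) * h) * h⁻¹ = b
        group) }
  refine Fintype.sum_equiv φ _ _ (fun b => ?_)
  rw [mul_smul_comm, smul_mul_assoc, Fn.smul_apply]
  have h1 : h⁻¹ * ((φ b : B) : G)⁻¹ * h = (b : G)⁻¹ := by
    show h⁻¹ * (h * (b : G) * h⁻¹)⁻¹ * h = (b : G)⁻¹
    group
  rw [h1]
  congr 1
  show ρ h * (ρ b * e) = ρ (h * (b : G) * h⁻¹) * e * ρ h
  rw [mul_assoc (ρ (h * (b : G) * h⁻¹)), ← he, ← mul_assoc, ← mul_assoc, ← map_mul, ← map_mul]
  congr 2
  group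

end

end Pool.Agent.Y144.DL
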