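import Pool.Agent.Y144.DL.Cliff2

/-!
# The characters of an extension of a `p`-group by an abelian group
-/

set_option autoImplicit false

namespace Pool.Agent.Y144.DL

variable {E : Type*} [Field E] {G : Type*} [Group G] [Finite G] [CharZero E] {S : Set G}
  {Z : Subgroup G} {ψ : G →* Eˣ}

omit [Finite G] [CharZero E] in
theorem ext_injective (B : Subgroup G) : Function.Injective (fun μ : B →* Eˣ => (ext B μ : G → E)) := by
  intro μ ν h
  refine MonoidHom.ext fun b => Units.ext ?_
  have h1 := congrFun h (b : G)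
  simp only [] at h1
  rwa [ext_mem B μ b.2, ext_mem B ν b.2] at h1

/-- the extension by zero of a linear character, as a point of the set of functions with the
conjugation action -/
noncomputable def extF {E : Type*} [Field E] {G : Type*} [Group G] (B : Subgroup G)
    (μ : B →* Eˣ) : Fn G E := ext B μ

omit [Finite G] [CharZero E] in
theorem prf_extF {n : ℕ} (ρ : G →* Matrix (Fin n) (Fin n) E) (B : Subgroup G) [Fintype B]
    (e : Matrix (Fin n) (Fin n) E) (μ : B →* Eˣ) : prf ρ B e (extF B μ) = pr ρ B e μ :=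
  prf_ext ρ B e μ

omit [Finite G] [CharZero E] in
theorem smul_ext {B : Subgroup G} {h : G} (hn : ∀ b ∈ B, h * b * h⁻¹ ∈ B)
    (hn' : ∀ b ∈ B, h⁻¹ * b * h ∈ B) (μ : B →* Eˣ) :
    ∃ ν : B →* Eˣ, (h • (extF B μ)) = extF B ν := by
  let φ : B →* B :=
    { toFun := fun b => ⟨h⁻¹ * b * h, hn' b b.2⟩
      map_one' := Subtype.ext (by
        show h⁻¹ * 1 * h = 1
        group)
      map_mul' := fun a b => Subtype.ext (by
        show h⁻¹ * ((a : G) * b) * h = h⁻¹ * a * h * (h⁻¹ * b * h)
        group) }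
  refine ⟨μ.comp φ, ?_⟩
  funext g
  rw [Fn.smul_apply]
  show ext B μ (h⁻¹ * g * h) = ext B (μ.comp φ) g
  by_cases hg : g ∈ B
  · rw [ext_mem B _ hg, ext_mem B μ (hn' g hg)]
    rfl
  · rw [ext_not_mem B _ hg, ext_not_mem]
    intro h1
    apply hg
    have h2 := hn _ h1
    have h3 : h * (h⁻¹ * g * h) * h⁻¹ = g := by group
    rwa [h3] at h2

theorem clifford (hE : HasEnoughRootsOfUnity E (Nat.card G)) (p : ℕ) [hp : Fact p.Prime] {n : ℕ}
    (ρ : G →* Matrix (Fin n) (Fin n) E)
    (m : ℕ) : ∀ (H B : Subgroup G) (e : Matrix (Fin n) (Fin n) E), Nat.card H - Nat.card B < m →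
      Isol S ψ H → Z ≤ B → B ≤ H → (∀ t ∈ H, ∀ b ∈ B, t * b * t⁻¹ ∈ B) → (∀ t ∈ H, ∃ j : ℕ, t ^ p ^ j ∈ B) →
      Adm ρ B e → (∀ h ∈ H, ρ h * e = e * ρ h) →
      ext H (1 : H →* Eˣ) * (fun g => (ρ g * e).trace) ∈ GC E S Z ψ H := by
  classical
  have := Fintype.ofFinite G
  induction m with
  | zero =>
    intro H B e hm
    omega
  | succ m ih =>
    intro H B e hm hI hcB hBH hn hpow hA hcomm
    have hE' := hasEnough_ab hE B
    have : Finite (B →* Eˣ) := finite_dual hE'
    have : Fintype (B →* Eˣ) := Fintype.ofFinite _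
    have hn' : ∀ t ∈ H, ∀ b ∈ B, t⁻¹ * b * t ∈ B := by
      intro t ht b hb
      have := hn t⁻¹ (H.inv_mem ht) b hb
      rwa [inv_inv] at this
    -- the family of functions
    let f : Fn G E → G → E := fun z g =>
      if g ∈ H ∧ g • z = z then (ρ g * prf ρ B e z).trace else 0
    let W : Finset (Fn G E) := Finset.univ.image (fun μ : B →* Eˣ => (extF B μ))
    have hf : ∀ h ∈ H, ∀ z g, f (h • z) g = f z (h⁻¹ * g * h) := by
      intro h hh z g
      have h1 : (g ∈ H ∧ g • h • z = h • z) ↔ (h⁻¹ * g * h ∈ H ∧ (h⁻¹ * g * h) • z = z) := by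
        constructor
        · rintro ⟨h2, h3⟩
          refine ⟨H.mul_mem (H.mul_mem (H.inv_mem hh) h2) hh, ?_⟩
          rw [mul_smul, mul_smul, h3, ← mul_smul, inv_mul_cancel, one_smul]
        · rintro ⟨h2, h3⟩
          have h4 : h * (h⁻¹ * g * h) * h⁻¹ = g := by group
          refine ⟨?_, ?_⟩
          · rw [← h4]
            exact H.mul_mem (H.mul_mem hh h2) (H.inv_mem hh)
          · rw [mul_smul, mul_smul] at h3
            have h5 := congrArg (fun y => h • y) h3
            simpa only [smul_inv_smul] using h5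
      show (if g ∈ H ∧ g • h • z = h • z then (ρ g * prf ρ B e (h • z)).trace else 0) =
        if h⁻¹ * g * h ∈ H ∧ (h⁻¹ * g * h) • z = z then (ρ (h⁻¹ * g * h) * prf ρ B e z).trace else 0
      simp only [h1]
      split_ifs with h2
      · have h3 : prf ρ B e (h • z) = ρ h * prf ρ B e z * ρ h⁻¹ := by
          rw [mul_prf ρ B (hn h hh) (hn' h hh) (hcomm h hh), mul_assoc, ← map_mul, mul_inv_cancel,
            map_one, mul_one]
        rw [h3, map_mul, map_mul]
        rw [← Matrix.mul_assoc, ← Matrix.mul_assoc, Matrix.trace_mul_comm _ (ρ h⁻¹),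
          ← Matrix.mul_assoc, ← Matrix.mul_assoc]
      · rfl
    have hZ : ∀ h ∈ H, ∀ z ∈ W, h • z ∈ W := by
      intro h hh z hz
      obtain ⟨μ, _, rfl⟩ := Finset.mem_image.1 hz
      obtain ⟨ν, hν⟩ := smul_ext (hn h hh) (hn' h hh) μ
      rw [hν]
      exact Finset.mem_image_of_mem _ (Finset.mem_univ ν)
    have hsum : ext H (1 : H →* Eˣ) * (fun g => (ρ g * e).trace) = ∑ z ∈ W, f z := by
      funext g
      have himg : ∑ z ∈ W, f z g = ∑ μ : B →* Eˣ, f (extF B μ) g :=
        Finset.sum_image (fun μ _ ν _ h => ext_injective B h)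
      rw [Finset.sum_apply, himg, Pi.mul_apply]
      by_cases hg : g ∈ H
      · rw [ext_mem H 1 hg, MonoidHom.one_apply, Units.val_one, one_mul]
        have h1 : ρ g * e = ∑ μ : B →* Eˣ, ρ g * pr ρ B e μ := by
          rw [← Finset.mul_sum, hA.sum_pr hE']
        rw [h1, Matrix.trace_sum]
        refine Finset.sum_congr rfl fun μ _ => ?_
        show (ρ g * pr ρ B e μ).trace =
          if g ∈ H ∧ g • (extF B μ) = extF B μ then (ρ g * prf ρ B e (extF B μ)).trace else 0
        by_cases hfix : g • (extF B μ) = extF B μ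
        · rw [if_pos ⟨hg, hfix⟩, prf_extF]
        · rw [if_neg (fun h => hfix h.2)]
          obtain ⟨ν, hν⟩ := smul_ext (hn g hg) (hn' g hg) μ
          have hne : μ ≠ ν := by
            rintro rfl
            exact hfix hν
          have h2 : ρ g * pr ρ B e μ = pr ρ B e ν * ρ g := by
            have := mul_prf ρ B (hn g hg) (hn' g hg) (hcomm g hg) (extF B μ)
            rwa [hν, prf_extF, prf_extF] at this
          rw [← hA.pr_mul_self μ, ← mul_assoc, h2, mul_assoc, Matrix.trace_mul_comm, mul_assoc,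
            hA.pr_mul_pr_of_ne hne, mul_zero, Matrix.trace_zero]
      · rw [ext_not_mem H 1 hg, zero_mul]
        symm
        refine Finset.sum_eq_zero fun μ _ => ?_
        exact if_neg (fun h => hg h.1)
    rw [hsum]
    refine sum_orbits H f hf (GC E S Z ψ H) W.card W le_rfl hZ ?_
    intro z hz
    obtain ⟨μ, _, rfl⟩ := Finset.mem_image.1 hz
    let T : Subgroup G := H ⊓ MulAction.stabilizer G (extF B μ)
    have hTH : T ≤ H := inf_le_left
    have hBT : B ≤ T := by
      intro b hb
      refine ⟨hBH hb, ?_⟩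
      show b • (extF B μ) = extF B μ
      funext g
      rw [Fn.smul_apply]
      exact ext_conj B μ g hb
    have hTfix : ∀ t ∈ T, t • (extF B μ) = extF B μ := fun t ht => ht.2
    have hTcomm : ∀ t ∈ T, ρ t * pr ρ B e μ = pr ρ B e μ * ρ t := by
      intro t ht
      have := mul_prf ρ B (hn t (hTH ht)) (hn' t (hTH ht)) (hcomm t (hTH ht)) (extF B μ)
      rwa [hTfix t ht, prf_extF] at this
    have hfT : f (extF B μ) = ext T (1 : T →* Eˣ) * (fun g => (ρ g * pr ρ B e μ).trace) := by
      funext g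
      rw [Pi.mul_apply]
      show (if g ∈ H ∧ g • (extF B μ) = extF B μ then (ρ g * prf ρ B e (extF B μ)).trace else 0) = _
      rw [prf_extF]
      by_cases hg : g ∈ T
      · rw [if_pos ⟨hg.1, hg.2⟩, ext_mem T 1 hg, MonoidHom.one_apply, Units.val_one, one_mul]
      · rw [if_neg (fun h => hg ⟨h.1, h.2⟩), ext_not_mem T 1 hg, zero_mul]
    have hmain : f (extF B μ) ∈ GC E S Z ψ T := by
      rw [hfT]
      by_cases hTB : T = B
      · rw [hTB]
        obtain ⟨k, hk⟩ := trace_idem (pr ρ B e μ) (hA.pr_mul_self μ)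
        have h1 : ext B (1 : B →* Eˣ) * (fun g => (ρ g * pr ρ B e μ).trace) = k • ext B μ := by
          funext g
          rw [Pi.mul_apply, Pi.smul_apply, nsmul_eq_mul]
          by_cases hg : g ∈ B
          · rw [ext_mem B 1 hg, MonoidHom.one_apply, Units.val_one, one_mul, hA.mul_pr μ ⟨g, hg⟩,
              Units.smul_def, Matrix.trace_smul, hk, ext_mem B μ hg, smul_eq_mul, mul_comm]
          · rw [ext_not_mem B 1 hg, ext_not_mem B μ hg]
            ring
        rw [h1]
        exact nsmul_mem (ext_mem_GC (hI.mono hBH) hcB μ) k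
      · obtain ⟨z, hzT, hzB, hz⟩ := exists_central p hBT
          (fun t ht b hb => hn t (hTH ht) b hb) (fun t ht => hpow t (hTH ht)) hTB
        have hz' := zpow_conj_mem B z (fun b hb => hn z (hTH hzT) b hb)
        let K := adj B z hz'
        have hBK : B ≤ K := fun t ht => ⟨0, t, ht, by simp⟩
        have hzK : z ∈ K := ⟨1, 1, B.one_mem, by simp⟩
        have hKT : K ≤ T := by
          rintro _ ⟨i, b, hb, rfl⟩
          exact T.mul_mem (T.zpow_mem hzT i) (hBT hb)
        have hlt : B < K := lt_of_le_of_ne hBK (fun h => hzB (h ▸ hzK))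
        -- conjugates of powers of z
        have hconj : ∀ t ∈ T, ∀ i : ℤ, ∃ b ∈ B, t * z ^ i * t⁻¹ = z ^ i * b := by
          intro t ht i
          have h1 : t * z * t⁻¹ ∈ K := by
            refine ⟨1, z⁻¹ * (t * z * t⁻¹ * z⁻¹) * z, ?_, ?_⟩
            · exact hn' z (hTH hzT) _ (hz t ht)
            · rw [zpow_one]
              group
          -- by induction on the exponent, in the quotient by B
          have h2 : ∀ i : ℤ, (z ^ i)⁻¹ * (t * z ^ i * t⁻¹) ∈ B := by
            intro i
            have hstep : ∀ j : ℕ, (z ^ j)⁻¹ * (t * z ^ j * t⁻¹) ∈ B := by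
              intro j
              induction j with
              | zero =>
                have : (z ^ 0)⁻¹ * (t * z ^ 0 * t⁻¹) = 1 := by group
                rw [this]
                exact B.one_mem
              | succ j ihj =>
                have h3 : (z ^ (j + 1))⁻¹ * (t * z ^ (j + 1) * t⁻¹) =
                    (z⁻¹ * ((z ^ j)⁻¹ * (t * z ^ j * t⁻¹)) * z) *
                      (z⁻¹ * (t * z * t⁻¹ * z⁻¹) * z) := by
                  rw [pow_succ]
                  group
                rw [h3]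
                exact B.mul_mem (hn' z (hTH hzT) _ ihj) (hn' z (hTH hzT) _ (hz t ht))
            obtain ⟨j, rfl | rfl⟩ := i.eq_nat_or_neg
            · rw [zpow_natCast]
              exact hstep j
            · have h4 : (z ^ (-(j : ℤ)))⁻¹ * (t * z ^ (-(j : ℤ)) * t⁻¹) =
                  (t * z ^ j * t⁻¹) * ((z ^ j)⁻¹ * (t * z ^ j * t⁻¹))⁻¹ * (t * z ^ j * t⁻¹)⁻¹ := by
                rw [zpow_neg, zpow_natCast]
                group
              rw [h4]
              have hmem : t * z ^ j * t⁻¹ ∈ H :=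
                H.mul_mem (H.mul_mem (hTH ht) (H.pow_mem (hTH hzT) j)) (H.inv_mem (hTH ht))
              exact hn _ hmem _ (B.inv_mem (hstep j))
          exact ⟨_, h2 i, by group⟩
        have hnK : ∀ t ∈ T, ∀ k ∈ K, t * k * t⁻¹ ∈ K := by
          rintro t ht _ ⟨i, b, hb, rfl⟩
          obtain ⟨b', hb', h1⟩ := hconj t ht i
          refine ⟨i, b' * (t * b * t⁻¹), B.mul_mem hb' (hn t (hTH ht) b hb), ?_⟩
          have h2 : t * (z ^ i * b) * t⁻¹ = (t * z ^ i * t⁻¹) * (t * b * t⁻¹) := by group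
          rw [h2, h1, mul_assoc]
        have hcards : Nat.card T - Nat.card K < m := by
          have h4 := card_lt_of_lt hlt
          have h5 : Nat.card T ≤ Nat.card H := Subgroup.card_le_of_le hTH
          have h6 : Nat.card K ≤ Nat.card T := Subgroup.card_le_of_le hKT
          omega
        have hact : ∀ i : ℤ, ∀ b, ∀ hb : b ∈ B, ρ (z ^ i * b) * pr ρ B e μ =
            (μ ⟨b, hb⟩ : Eˣ) • (ρ (z ^ i) * pr ρ B e μ) := by
          intro i b hb
          rw [map_mul, mul_assoc, hA.mul_pr μ ⟨b, hb⟩, mul_smul_comm]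
        refine ih T K (pr ρ B e μ) hcards (hI.mono hTH) (hcB.trans hBK) hKT hnK
          (fun t ht => by
            obtain ⟨j, hj⟩ := hpow t (hTH ht)
            exact ⟨j, hBK hj⟩) ⟨hA.pr_mul_self μ, fun b hb => hTcomm b (hKT hb), ?_⟩ hTcomm
        rintro _ ⟨i, b, hb, rfl⟩ _ ⟨j, b', hb', rfl⟩
        have hprod : ∀ (i j : ℤ) (b b' : G) (hb : b ∈ B) (hb' : b' ∈ B),
            ρ (z ^ i * b * (z ^ j * b')) * pr ρ B e μ =
              ((μ ⟨b, hb⟩ * μ ⟨b', hb'⟩ : Eˣ)) • (ρ (z ^ (i + j)) * pr ρ B e μ) := by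
          intro i j b b' hb hb'
          rw [map_mul ρ (z ^ i * b), mul_assoc, hact j b' hb', mul_smul_comm, hTcomm _ (T.zpow_mem hzT j),
            ← mul_assoc, hact i b hb, smul_mul_assoc, mul_assoc, ← hTcomm _ (T.zpow_mem hzT j),
            ← mul_assoc, ← map_mul, ← zpow_add, smul_smul, mul_comm (μ ⟨b', hb'⟩)]
        rw [hprod i j b b' hb hb', hprod j i b' b hb' hb, add_comm j i, mul_comm (μ ⟨b', hb'⟩)]
    exact GC_avg hE p hI hcB hn hpow _ T hBT hTH le_rfl _ hmain

end Pool.Agent.Y144.DL
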