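import Pool.Agent.Y144.DL.Thm

/-!
# Descent of the field of coefficients
-/

set_option autoImplicit false

namespace Pool.Agent.Y144.DL

universe u

/-- an element on which embeddings which agree on `K` agree is in `K` -/
theorem mem_range_of_embeddings {K L : Type*} [Field K] [Field L] [CharZero K] [Algebra K L]
    [Algebra.IsAlgebraic K L] (σ₀ : L →+* ℂ) (e : L)
    (h : ∀ σ : L →+* ℂ, σ.comp (algebraMap K L) = σ₀.comp (algebraMap K L) → σ e = σ₀ e) :
    e ∈ (algebraMap K L).range := by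
  classical
  let _ : Algebra K ℂ := (σ₀.comp (algebraMap K L)).toAlgebra
  have h1 := Algebra.IsAlgebraic.range_eval_eq_rootSet_minpoly (F := K) (K := L) (A := ℂ) e
  have h2 : (minpoly K e).rootSet ℂ = {σ₀ e} := by
    rw [← h1]
    ext z
    simp only [Set.mem_range, Set.mem_singleton_iff]
    constructor
    · rintro ⟨φ, rfl⟩
      refine h (φ : L →+* ℂ) ?_
      ext x
      exact φ.commutes x
    · rintro rfl
      exact ⟨{ σ₀ with commutes' := fun x => rfl }, rfl⟩
  have hint : IsIntegral K e := Algebra.IsIntegral.isIntegral e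
  have hsep : (minpoly K e).Separable := (minpoly.irreducible hint).separable
  have h3 : Fintype.card ((minpoly K e).rootSet ℂ) = (minpoly K e).natDegree :=
    Polynomial.card_rootSet_eq_natDegree hsep (IsAlgClosed.splits _)
  have h4 : Fintype.card ((minpoly K e).rootSet ℂ) = 1 := by
    rw [← Nat.card_eq_fintype_card, h2]
    simp
  rw [h4] at h3
  have h5 := minpoly.natDegree_eq_one_iff.1 h3.symm
  exact h5

/-- `x ∼_E y` descends to a subfield `K` of `E` if `x`, `y` come from families over the embeddings of `K`. -/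
theorem Sim.descend {K E : Type*} [Field K] [Field E] [CharZero K] [Algebra K E]
    [Algebra.IsAlgebraic K E] {x y : (E →+* ℂ) → ℂ} (h : Sim x y) (hy : ∀ σ, y σ ≠ 0)
    (x₀ y₀ : (K →+* ℂ) → ℂ) (hx₀ : ∀ σ : E →+* ℂ, x σ = x₀ (σ.comp (algebraMap K E)))
    (hy₀ : ∀ σ : E →+* ℂ, y σ = y₀ (σ.comp (algebraMap K E))) : Sim x₀ y₀ := by
  classical
  obtain ⟨e, he, h⟩ := h
  have hlift : ∀ τ : K →+* ℂ, ∃ σ : E →+* ℂ, σ.comp (algebraMap K E) = τ := by
    intro τ
    let _ : Algebra K ℂ := τ.toAlgebra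
    have φ : E →ₐ[K] ℂ := IsAlgClosed.lift
    refine ⟨(φ : E →+* ℂ), ?_⟩
    ext x
    exact φ.commutes x
  by_cases hne : Nonempty (K →+* ℂ)
  · obtain ⟨τ⟩ := hne
    obtain ⟨σ₀, hσ₀⟩ := hlift τ
    have h1 : e ∈ (algebraMap K E).range := by
      refine mem_range_of_embeddings σ₀ e ?_
      intro σ hσ
      have h2 := h σ
      rw [hx₀, hσ, ← hx₀, h σ₀, hy₀ σ, hσ, ← hy₀] at h2
      exact (mul_right_cancel₀ (hy σ₀) h2).symm
    obtain ⟨k, rfl⟩ := h1
    refine ⟨k, ?_, ?_⟩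
    · rintro rfl
      exact he (map_zero _)
    · intro τ
      obtain ⟨σ, rfl⟩ := hlift τ
      rw [← hx₀, ← hy₀]
      exact h σ
  · exact ⟨1, one_ne_zero, fun σ => absurd ⟨σ⟩ hne⟩

variable {K E : Type*} [Field K] [Field E] [Algebra K E] {G : Type*} [Group G]

/-- extension of the field of coefficients -/
noncomputable def FrobData.map (M : FrobData K) (E : Type*) [Field E] [Algebra K E] : FrobData E where
  t := fun p k => algebraMap K E (M.t p k)
  a := M.a
  summable := fun σ x hx => M.summable (σ.comp (algebraMap K E)) x hx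

theorem logL_map (M : FrobData K) (Fr : Nat.Primes → G) (θ : G → K) (σ : E →+* ℂ) (s : ℂ) :
    logL (M.map E) Fr (fun g => algebraMap K E (θ g)) σ s =
      logL M Fr θ (σ.comp (algebraMap K E)) s := by
  unfold logL FrobData.map
  refine tsum_congr fun q => ?_
  simp only [← map_mul, RingHom.comp_apply]

/-- the functions for `θ` with values in `K` -/
theorem value_map {M : FrobData K} {Fr : Nat.Primes → G} {m : ℂ} (F : LFamily (M.map E) Fr m)
    {θ : G → K} (hθ : IsChar fun g => algebraMap K E (θ g)) (Λ : (K →+* ℂ) → ℂ → ℂ)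
    (hΛ : ∀ τ, IsLFunction M Fr θ τ (Λ τ)) (han : ∀ τ, AnalyticAt ℂ (Λ τ) m) (σ : E →+* ℂ) :
    F.value (fun g => algebraMap K E (θ g)) σ = Λ (σ.comp (algebraMap K E)) m := by
  refine eq_of_eq_halfPlane (F.isLFunction _ hθ σ).1 (hΛ _).1 (a := M.a) ?_ (F.analytic _ hθ σ) (han _)
  intro s hs
  rw [(F.isLFunction _ hθ σ).2 s hs, (hΛ _).2 s hs, logL_map]

theorem isChar_map {θ : G → K} (h : IsChar θ) : IsChar fun g => algebraMap K E (θ g) := by
  obtain ⟨n, ρ, rfl⟩ := h
  refine ⟨n, ((algebraMap K E).mapMatrix (m := Fin n)).toMonoidHom.comp ρ, ?_⟩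
  funext g
  exact AddMonoidHom.map_trace (algebraMap K E) (ρ g)

/-- the statement over `K`, from the statement over `E` -/
theorem descended [CharZero K] [Algebra.IsAlgebraic K E] {M : FrobData K} {Fr : Nat.Primes → G}
    {m : ℂ} (F : LFamily (M.map E) Fr m) (A : ArtinPeriods E G) (r : ℕ) (cP cM : (K →+* ℂ) → ℂ)
    (hP : ∀ τ, cP τ ≠ 0) (hM : ∀ τ, cM τ ≠ 0)
    {θ : G → K} (hθ : IsChar θ) (a b : ℕ)
    (h : Sim (F.value fun g => algebraMap K E (θ g)) ((fun σ => cP (σ.comp (algebraMap K E))) ^ a *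
      (fun σ => cM (σ.comp (algebraMap K E))) ^ b * A.δ (fun g => algebraMap K E (θ g)) ^ r))
    (Λ : (K →+* ℂ) → ℂ → ℂ)
    (hΛ : ∀ τ, IsLFunction M Fr θ τ (Λ τ)) (han : ∀ τ, AnalyticAt ℂ (Λ τ) m)
    (d : (K →+* ℂ) → ℂ)
    (hd : ∀ σ : E →+* ℂ, A.δ (fun g => algebraMap K E (θ g)) σ = d (σ.comp (algebraMap K E))) :
    Sim (fun τ => Λ τ m) (cP ^ a * cM ^ b * d ^ r) := by
  refine Sim.descend h ?_ _ _ (fun σ => value_map F (isChar_map hθ) Λ hΛ han σ) ?_
  · intro σ
    simp only [Pi.mul_apply, Pi.pow_apply]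
    exact mul_ne_zero (mul_ne_zero (pow_ne_zero _ (hP _)) (pow_ne_zero _ (hM _)))
      (pow_ne_zero _ (A.ne_zero _ (isChar_map hθ) σ))
  · intro σ
    simp only [Pi.mul_apply, Pi.pow_apply]
    rw [hd]

end Pool.Agent.Y144.DL
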