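import Pool.Agent.Y144.DL.Nrm

/-!
# Induction from a subgroup of index two: the two ways of inducing in a dihedral group
-/

set_option autoImplicit false

namespace Pool.Agent.Y144.DL

universe u

variable {E : Type*} [Field E] {G : Type u} [Group G] [Finite G] [CharZero E] {S : Set G}

/-- the case of a character whose signs are invariant -/
theorem inv_case (hS : Invol S) {V U : Subgroup G} {t : G} (hV : Idx V U t) (hU : SignProp S U)
    (η : V →* Eˣ) (hinv : ∀ s ∈ S, s ∈ V → ∀ u ∈ U, ext V η (u⁻¹ * s * u) = ext V η s) :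
    avg V U (ext V η) ∈ LC E U ⊔ SC E S ⊥ U := by
  classical
  have := Fintype.ofFinite G
  obtain ⟨κ, hκ⟩ := exists_sign (E := E) hU (ext V η) (by
    intro s hs hsU u hu
    by_cases hsV : s ∈ V
    · exact hinv s hs hsV u hu
    · rw [ext_not_mem V _ hsV, ext_not_mem V _ (fun h => hsV ((hV.normal hu hsU).1 h))])
  have h1 : avg V U (ext V η) = (ext U (sg E κ) + ext U (sg E κ * sg E hV.eps)) +
      avg V U (ext V η - ext V ((sg E κ).comp (Subgroup.inclusion hV.1))) := by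
    rw [← hV.avg_res, ← avg_add]
    congr 1
    abel
  rw [h1]
  refine add_mem ((le_sup_left : LC E U ≤ _) (add_mem ?_ ?_)) ((le_sup_right : SC E S ⊥ U ≤ _) ?_)
  · exact AddSubgroup.subset_closure ⟨_, rfl⟩
  · exact AddSubgroup.subset_closure ⟨_, rfl⟩
  · refine AddSubgroup.subset_closure ⟨V, _, _, hV.1, bot_le, ?_, rfl⟩
    intro s hs
    by_cases hsV : s ∈ V
    · have h2 := hκ s hs (hV.1 hsV) (hS.val η hs hsV)
      rw [← h2, ext_mem U _ (hV.1 hsV), ext_mem V _ hsV]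
      rfl
    · rw [ext_not_mem V _ hsV, ext_not_mem V _ hsV]

theorem units_inv (a : ℤˣ) : a⁻¹ = a := by
  rcases Int.units_eq_one_or a with h | h <;> rw [h] <;> rfl

theorem units_sq (a : ℤˣ) : a * a = 1 := Int.units_mul_self a

theorem units_neg {a b : ℤˣ} (h : a * b = -1) : b = -a := by
  rcases Int.units_eq_one_or a with h1 | h1 <;> rcases Int.units_eq_one_or b with h2 | h2 <;>
    rw [h1, h2] at h ⊢ <;> first | rfl | (exfalso; revert h; decide)

/-- the dihedral step -/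
theorem dihedral (hE : HasEnoughRootsOfUnity E (Nat.card G)) (hS : Invol S) {V U : Subgroup G} {τ : G}
    (hV : Idx V U τ) (e : G → ℤˣ) (he : ∀ a ∈ V, ∀ b ∈ V, e (a * b) = e a * e b)
    (h1 : e (τ * τ) = -1) {v : G} (hv : v ∈ V) (hq : e v * e (τ⁻¹ * v * τ) = -1)
    (η : V →* Eˣ) (hη : ∀ g (hg : g ∈ V), (η ⟨g, hg⟩ : E) = ((e g : ℤ) : E)) :
    ∃ (V' : Subgroup G) (hV' : Idx V' U v) (ψ : V' →* Eˣ), avg V U (ext V η) = avg V' U (ext V' ψ) ∧
      ∀ s ∈ S, s ∈ V' → ∀ u ∈ U, ext V' ψ (u⁻¹ * s * u) = ext V' ψ s := by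
  classical
  have := Fintype.ofFinite G
  obtain ⟨hVU, hτU, hτV, hcos⟩ := hV
  have hV : Idx V U τ := ⟨hVU, hτU, hτV, hcos⟩
  have hττ : τ * τ ∈ V := (hV.mul_mem_iff hτU hτU).2 Iff.rfl
  have hcV : ∀ a ∈ V, τ⁻¹ * a * τ ∈ V := fun a ha => (hV.normal hτU (hVU ha)).2 ha
  have he1 : e 1 = 1 := by
    have h2 := he 1 V.one_mem 1 V.one_mem
    rw [mul_one] at h2
    exact (left_eq_mul.1 h2)
  have hei : ∀ a ∈ V, e a⁻¹ = e a := by
    intro a ha
    have h2 := he a⁻¹ (V.inv_mem ha) a ha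
    rw [inv_mul_cancel, he1] at h2
    rw [← units_inv (e a)]
    exact eq_inv_of_mul_eq_one_left h2.symm
  have hec : ∀ x ∈ V, ∀ a ∈ V, e (x⁻¹ * a * x) = e a := by
    intro x hx a ha
    rw [he _ (V.mul_mem (V.inv_mem hx) ha) x hx, he _ (V.inv_mem hx) a ha, hei x hx, mul_right_comm,
      units_sq, one_mul]
  let q : G → ℤˣ := fun w => e w * e (τ⁻¹ * w * τ)
  have hqm : ∀ a ∈ V, ∀ b ∈ V, q (a * b) = q a * q b := by
    intro a ha b hb
    show e (a * b) * e (τ⁻¹ * (a * b) * τ) = e a * e (τ⁻¹ * a * τ) * (e b * e (τ⁻¹ * b * τ))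
    have h2 : τ⁻¹ * (a * b) * τ = (τ⁻¹ * a * τ) * (τ⁻¹ * b * τ) := by group
    rw [h2, he a ha b hb, he _ (hcV a ha) _ (hcV b hb)]
    exact mul_mul_mul_comm _ _ _ _
  have hqi : ∀ a ∈ V, q a⁻¹ = q a := by
    intro a ha
    show e a⁻¹ * e (τ⁻¹ * a⁻¹ * τ) = e a * e (τ⁻¹ * a * τ)
    have h2 : τ⁻¹ * a⁻¹ * τ = (τ⁻¹ * a * τ)⁻¹ := by group
    rw [h2, hei a ha, hei _ (hcV a ha)]
  have hqτ : ∀ a ∈ V, q (τ⁻¹ * a * τ) = q a := by
    intro a ha
    show e (τ⁻¹ * a * τ) * e (τ⁻¹ * (τ⁻¹ * a * τ) * τ) = e a * e (τ⁻¹ * a * τ)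
    have h2 : τ⁻¹ * (τ⁻¹ * a * τ) * τ = (τ * τ)⁻¹ * a * (τ * τ) := by group
    rw [h2, hec _ hττ a ha, mul_comm]
  have hqττ : q (τ * τ) = 1 := by
    show e (τ * τ) * e (τ⁻¹ * (τ * τ) * τ) = 1
    have h2 : τ⁻¹ * (τ * τ) * τ = τ * τ := by group
    rw [h2, units_sq]
  have hq1 : q 1 = 1 := by
    show e 1 * e (τ⁻¹ * 1 * τ) = 1
    have h2 : τ⁻¹ * 1 * τ = 1 := by group
    rw [h2, units_sq]
  have hqv : q v = -1 := hq
  have hqne : ∀ a, q a ≠ 1 → q a = -1 := fun a h => (Int.units_eq_one_or (q a)).resolve_left h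
  have hneg : (1 : ℤˣ) ≠ -1 := by decide
  -- the square root of -1
  obtain ⟨I, hI⟩ : ∃ I : E, I * I = -1 := by
    have hpow : ∀ m : ℕ, (τ * τ) ^ m ∈ V ∧ e ((τ * τ) ^ m) = (-1) ^ m := by
      intro m
      refine ⟨V.pow_mem hττ m, ?_⟩
      induction m with
      | zero => rw [pow_zero, pow_zero, he1]
      | succ m ih => rw [pow_succ, pow_succ, he _ (V.pow_mem hττ m) _ hττ, ih, h1]
    have h4 : 4 ∣ Nat.card G := by
      refine dvd_trans ?_ (orderOf_dvd_natCard τ)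
      rcases Nat.even_or_odd' (orderOf τ) with ⟨m, hm | hm⟩
      · have h2 : (τ * τ) ^ m = 1 := by
          rw [← sq, ← pow_mul, ← hm, pow_orderOf_eq_one]
        have h3 := (hpow m).2
        rw [h2, he1] at h3
        rcases Nat.even_or_odd m with h5 | h5
        · obtain ⟨j, hj⟩ := h5
          rw [hm, hj]
          exact ⟨j, by ring⟩
        · rw [h5.neg_one_pow] at h3
          exact absurd h3 hneg
      · exfalso
        apply hτV
        have h2 : τ = (τ * τ) ^ (m + 1) := by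
          rw [← sq, ← pow_mul]
          have h3 : 2 * (m + 1) = orderOf τ + 1 := by omega
          rw [h3, pow_succ, pow_orderOf_eq_one, one_mul]
        rw [h2]
        exact (hpow (m + 1)).1
    have hE4 := hasEnough_of_dvd hE h4 Nat.card_pos.ne'
    obtain ⟨ζ, hζ⟩ := HasEnoughRootsOfUnity.exists_primitiveRoot E 4
    refine ⟨ζ, ?_⟩
    have h5 : (ζ * ζ) * (ζ * ζ) = 1 := by
      have := hζ.pow_eq_one
      linear_combination this
    refine (mul_self_eq_one_iff.1 h5).resolve_left ?_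
    intro h6
    exact hζ.pow_ne_one_of_pos_of_lt (l := 2) (by norm_num) (by norm_num) (by rw [sq]; exact h6)
  -- the subgroup V'
  have hτinv : ∀ a, τ * a ∈ V → a ∈ V → False := by
    intro a h2 h3
    apply hτV
    have h4 : τ = τ * a * a⁻¹ := by group
    rw [h4]
    exact V.mul_mem h2 (V.inv_mem h3)
  let V' : Subgroup G :=
    { carrier := {u | ∃ w, w ∈ V ∧ q w = 1 ∧ (w = u ∨ τ * w = u)}
      one_mem' := ⟨1, V.one_mem, hq1, Or.inl rfl⟩
      mul_mem' := by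
        rintro _ _ ⟨w, hw, hqw, rfl | rfl⟩ ⟨w', hw', hqw', rfl | rfl⟩
        · exact ⟨w * w', V.mul_mem hw hw', by rw [hqm w hw w' hw', hqw, hqw', one_mul], Or.inl rfl⟩
        · refine ⟨τ⁻¹ * w * τ * w', V.mul_mem (hcV w hw) hw', ?_, Or.inr (by group)⟩
          rw [hqm _ (hcV w hw) w' hw', hqτ w hw, hqw, hqw', one_mul]
        · exact ⟨w * w', V.mul_mem hw hw', by rw [hqm w hw w' hw', hqw, hqw', one_mul],
            Or.inr (by group)⟩
        · refine ⟨(τ * τ) * (τ⁻¹ * w * τ * w'), V.mul_mem hττ (V.mul_mem (hcV w hw) hw'), ?_,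
            Or.inl (by group)⟩
          rw [hqm _ hττ _ (V.mul_mem (hcV w hw) hw'), hqm _ (hcV w hw) w' hw', hqτ w hw, hqw, hqw',
            hqττ]
          rfl
      inv_mem' := by
        rintro _ ⟨w, hw, hqw, rfl | rfl⟩
        · exact ⟨w⁻¹, V.inv_mem hw, by rw [hqi w hw, hqw], Or.inl rfl⟩
        · refine ⟨(τ⁻¹ * w⁻¹ * τ) * (τ * τ)⁻¹, V.mul_mem (hcV _ (V.inv_mem hw)) (V.inv_mem hττ), ?_,
            Or.inr (by group)⟩
          rw [hqm _ (hcV _ (V.inv_mem hw)) _ (V.inv_mem hττ), hqτ _ (V.inv_mem hw), hqi w hw, hqw,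
            hqi _ hττ, hqττ, one_mul] }
  have hmemV : ∀ g ∈ V, g ∈ V' ↔ q g = 1 := by
    intro g hg
    constructor
    · rintro ⟨w, hw, hqw, rfl | rfl⟩
      · exact hqw
      · exact (hτinv w hg hw).elim
    · intro h2
      exact ⟨g, hg, h2, Or.inl rfl⟩
  have hmemτ : ∀ g, g ∉ V → (g ∈ V' ↔ τ⁻¹ * g ∈ V ∧ q (τ⁻¹ * g) = 1) := by
    intro g hg
    constructor
    · rintro ⟨w, hw, hqw, rfl | rfl⟩
      · exact absurd hw hg
      · have h2 : τ⁻¹ * (τ * w) = w := by group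
        rw [h2]
        exact ⟨hw, hqw⟩
    · rintro ⟨h2, h3⟩
      exact ⟨τ⁻¹ * g, h2, h3, Or.inr (by group)⟩
  have hV'U : V' ≤ U := by
    rintro _ ⟨w, hw, _, rfl | rfl⟩
    · exact hVU hw
    · exact U.mul_mem hτU (hVU hw)
  have hIdx' : Idx V' U v := by
    refine ⟨hV'U, hVU hv, ?_, ?_⟩
    · rw [hmemV v hv, hqv]
      exact hneg.symm
    · intro u hu
      by_cases huV : u ∈ V
      · rw [hmemV u huV, hmemV _ (V.mul_mem (V.inv_mem hv) huV),
          hqm _ (V.inv_mem hv) u huV, hqi v hv, hqv]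
        by_cases h2 : q u = 1
        · exact Or.inl h2
        · right
          rw [hqne u h2]
          rfl
      · have huτ : τ⁻¹ * u ∈ V := (hcos u hu).resolve_left huV
        have hvu : v⁻¹ * u ∉ V := by
          intro h2
          apply huV
          have h3 : u = v * (v⁻¹ * u) := by group
          rw [h3]
          exact V.mul_mem hv h2
        rw [hmemτ u huV, hmemτ _ hvu]
        have h2 : τ⁻¹ * (v⁻¹ * u) = (τ⁻¹ * v⁻¹ * τ) * (τ⁻¹ * u) := by group
        have h3 : (τ⁻¹ * v⁻¹ * τ) * (τ⁻¹ * u) ∈ V := V.mul_mem (hcV _ (V.inv_mem hv)) huτ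
        rw [h2]
        by_cases h4 : q (τ⁻¹ * u) = 1
        · exact Or.inl ⟨huτ, h4⟩
        · right
          refine ⟨h3, ?_⟩
          rw [hqm _ (hcV _ (V.inv_mem hv)) _ huτ, hqτ _ (V.inv_mem hv), hqi v hv, hqv, hqne _ h4]
          rfl
  -- the character
  let F : G → E := fun u => if u ∈ V then ((e u : ℤ) : E) else I * ((e (τ⁻¹ * u) : ℤ) : E)
  have hFm : ∀ a ∈ V', ∀ b ∈ V', F (a * b) = F a * F b := by
    have hcast : ∀ x y : ℤˣ, (((x * y : ℤˣ) : ℤ) : E) = ((x : ℤ) : E) * ((y : ℤ) : E) := by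
      intro x y
      push_cast
      rfl
    have heq : ∀ w ∈ V, q w = 1 → e (τ⁻¹ * w * τ) = e w := by
      intro w hw hqw
      have h2 : e w * e (τ⁻¹ * w * τ) = 1 := hqw
      have h3 := eq_inv_of_mul_eq_one_right h2
      rw [h3, units_inv]
    rintro _ ⟨w, hw, hqw, rfl | rfl⟩ _ ⟨w', hw', hqw', rfl | rfl⟩
    · show (if w * w' ∈ V then _ else _) = (if w ∈ V then _ else _) * (if w' ∈ V then _ else _)
      rw [if_pos (V.mul_mem hw hw'), if_pos hw, if_pos hw', he w hw w' hw', hcast]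
    · have h2 : w * (τ * w') ∉ V := by
        intro h3
        apply hτV
        have h4 : τ = w⁻¹ * (w * (τ * w')) * w'⁻¹ := by group
        rw [h4]
        exact V.mul_mem (V.mul_mem (V.inv_mem hw) h3) (V.inv_mem hw')
      show (if w * (τ * w') ∈ V then _ else _) = (if w ∈ V then _ else _) * (if τ * w' ∈ V then _ else _)
      rw [if_neg h2, if_pos hw, if_neg (fun h => hτinv w' h hw')]
      have h3 : τ⁻¹ * (w * (τ * w')) = (τ⁻¹ * w * τ) * w' := by group
      have h4 : τ⁻¹ * (τ * w') = w' := by group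
      rw [h3, h4, he _ (hcV w hw) w' hw', heq w hw hqw, hcast]
      ring
    · have h2 : τ * w * w' ∉ V := by
        intro h3
        exact hτinv (w * w') (by rw [← mul_assoc]; exact h3) (V.mul_mem hw hw')
      show (if τ * w * w' ∈ V then _ else _) = (if τ * w ∈ V then _ else _) * (if w' ∈ V then _ else _)
      rw [if_neg h2, if_pos hw', if_neg (fun h => hτinv w h hw)]
      have h3 : τ⁻¹ * (τ * w * w') = w * w' := by group
      have h4 : τ⁻¹ * (τ * w) = w := by group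
      rw [h3, h4, he w hw w' hw', hcast]
      ring
    · have h2 : τ * w * (τ * w') = (τ * τ) * ((τ⁻¹ * w * τ) * w') := by group
      have h3 : (τ * τ) * ((τ⁻¹ * w * τ) * w') ∈ V := V.mul_mem hττ (V.mul_mem (hcV w hw) hw')
      show (if τ * w * (τ * w') ∈ V then _ else _) = (if τ * w ∈ V then _ else _) *
        (if τ * w' ∈ V then _ else _)
      have h4 : τ⁻¹ * (τ * w) = w := by group
      have h5 : τ⁻¹ * (τ * w') = w' := by group
      rw [h2, if_pos h3, if_neg (fun h => hτinv w h hw), if_neg (fun h => hτinv w' h hw'), h4, h5,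
        he _ hττ _ (V.mul_mem (hcV w hw) hw'), he _ (hcV w hw) w' hw', heq w hw hqw, h1, hcast, hcast]
      have h6 : (((-1 : ℤˣ) : ℤ) : E) = I * I := by
        rw [hI]
        simp
      rw [h6]
      ring
  let ψ₀ : V' →* E :=
    { toFun := fun u => F u
      map_one' := by
        show (if (1 : G) ∈ V then ((e 1 : ℤ) : E) else _) = 1
        rw [if_pos V.one_mem, he1]
        simp
      map_mul' := fun a b => hFm a a.2 b b.2 }
  let ψ : V' →* Eˣ := ψ₀.toHomUnits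
  have hψ : ∀ g (hg : g ∈ V'), ext V' ψ g = F g := by
    intro g hg
    rw [ext_mem V' _ hg]
    rfl
  have hηV : ∀ g (hg : g ∈ V), ext V η g = ((e g : ℤ) : E) := by
    intro g hg
    rw [ext_mem V _ hg, hη g hg]
  refine ⟨V', hIdx', ψ, ?_, ?_⟩
  · funext g
    rw [hV.avg (fun x hx g => ext_conj V _ g hx), hIdx'.avg (fun x hx g => ext_conj V' _ g hx)]
    by_cases hg : g ∈ V
    · have hg' : τ⁻¹ * g * τ ∈ V := hcV g hg
      have hgv : v⁻¹ * g * v ∈ V := V.mul_mem (V.mul_mem (V.inv_mem hv) hg) hv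
      have hqgv : q (v⁻¹ * g * v) = q g := by
        rw [hqm _ (V.mul_mem (V.inv_mem hv) hg) v hv, hqm _ (V.inv_mem hv) g hg, hqi v hv, hqv,
          mul_right_comm]
        rw [units_sq, one_mul]
      rw [hηV g hg, hηV _ hg']
      have h2 : e g * e (τ⁻¹ * g * τ) = q g := rfl
      by_cases hqg : q g = 1
      · rw [hψ g ((hmemV g hg).2 hqg), hψ _ ((hmemV _ hgv).2 (by rw [hqgv, hqg]))]
        show _ = (if g ∈ V then _ else _) + (if v⁻¹ * g * v ∈ V then _ else _)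
        rw [if_pos hg, if_pos hgv, hec v hv g hg]
        rw [hqg] at h2
        have h3 := eq_inv_of_mul_eq_one_right h2
        rw [h3, units_inv]
      · rw [ext_not_mem V' _ (fun h => hqg ((hmemV g hg).1 h)),
          ext_not_mem V' _ (fun h => hqg (by rw [← hqgv]; exact (hmemV _ hgv).1 h))]
        rw [hqne g hqg] at h2
        rw [units_neg h2]
        push_cast
        ring
    · have hg' : τ⁻¹ * g * τ ∉ V := by
        intro h2
        apply hg
        by_cases hgU : g ∈ U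
        · exact (hV.normal hτU hgU).1 h2
        · exfalso
          apply hgU
          have h3 : g = τ * (τ⁻¹ * g * τ) * τ⁻¹ := by group
          rw [h3]
          exact U.mul_mem (U.mul_mem hτU (hVU h2)) (U.inv_mem hτU)
      have hgv : v⁻¹ * g * v ∉ V := by
        intro h2
        apply hg
        have h3 : g = v * (v⁻¹ * g * v) * v⁻¹ := by group
        rw [h3]
        exact V.mul_mem (V.mul_mem hv h2) (V.inv_mem hv)
      rw [ext_not_mem V _ hg, ext_not_mem V _ hg']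
      have h2 : τ⁻¹ * (v⁻¹ * g * v) = (τ⁻¹ * v⁻¹ * τ) * (τ⁻¹ * g) * v := by group
      have hτg : τ⁻¹ * (v⁻¹ * g * v) ∈ V ↔ τ⁻¹ * g ∈ V := by
        rw [h2]
        constructor
        · intro h3
          have h4 : τ⁻¹ * g = (τ⁻¹ * v⁻¹ * τ)⁻¹ * ((τ⁻¹ * v⁻¹ * τ) * (τ⁻¹ * g) * v) * v⁻¹ := by group
          rw [h4]
          exact V.mul_mem (V.mul_mem (V.inv_mem (hcV _ (V.inv_mem hv))) h3) (V.inv_mem hv)
        · intro h3
          exact V.mul_mem (V.mul_mem (hcV _ (V.inv_mem hv)) h3) hv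
      by_cases hgτ : τ⁻¹ * g ∈ V
      · have hq2 : q (τ⁻¹ * (v⁻¹ * g * v)) = q (τ⁻¹ * g) := by
          rw [h2, hqm _ (V.mul_mem (hcV _ (V.inv_mem hv)) hgτ) v hv,
            hqm _ (hcV _ (V.inv_mem hv)) _ hgτ, hqτ _ (V.inv_mem hv), hqi v hv, hqv, mul_right_comm,
            units_sq, one_mul]
        have he2 : e (τ⁻¹ * (v⁻¹ * g * v)) = -e (τ⁻¹ * g) := by
          rw [h2, he _ (V.mul_mem (hcV _ (V.inv_mem hv)) hgτ) v hv,
            he _ (hcV _ (V.inv_mem hv)) _ hgτ]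
          have h4 : τ⁻¹ * v⁻¹ * τ = (τ⁻¹ * v * τ)⁻¹ := by group
          rw [h4, hei _ (hcV v hv), units_neg hq]
          rcases Int.units_eq_one_or (e v) with h5 | h5 <;> rw [h5] <;> simp
        by_cases hqg : q (τ⁻¹ * g) = 1
        · rw [hψ g ((hmemτ g hg).2 ⟨hgτ, hqg⟩),
            hψ _ ((hmemτ _ hgv).2 ⟨hτg.2 hgτ, by rw [hq2, hqg]⟩)]
          show _ = (if g ∈ V then _ else _) + (if v⁻¹ * g * v ∈ V then _ else _)
          rw [if_neg hg, if_neg hgv, he2]
          push_cast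
          ring
        · rw [ext_not_mem V' _ (fun h => hqg ((hmemτ g hg).1 h).2),
            ext_not_mem V' _ (fun h => hqg (by rw [← hq2]; exact ((hmemτ _ hgv).1 h).2))]
      · rw [ext_not_mem V' _ (fun h => hgτ ((hmemτ g hg).1 h).1),
          ext_not_mem V' _ (fun h => hgτ (hτg.1 ((hmemτ _ hgv).1 h).1))]
  · intro s hs hsV' u hu
    -- s is in V
    have hsV : s ∈ V := by
      by_contra hsV
      obtain ⟨h2, h3⟩ := (hmemτ s hsV).1 hsV'
      have h4 : s * s = (τ * τ) * ((τ⁻¹ * (τ⁻¹ * s) * τ) * (τ⁻¹ * s)) := by group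
      have h5 : e (s * s) = -1 := by
        rw [h4, he _ hττ _ (V.mul_mem (hcV _ h2) h2), he _ (hcV _ h2) _ h2, h1]
        have h6 : e (τ⁻¹ * s) * e (τ⁻¹ * (τ⁻¹ * s) * τ) = 1 := h3
        rw [mul_comm (e (τ⁻¹ * (τ⁻¹ * s) * τ)), h6]
        rfl
      rw [hS.sq s hs, he1] at h5
      exact hneg h5
    have hqs : q s = 1 := (hmemV s hsV).1 hsV'
    have h6 : e s * e (τ⁻¹ * s * τ) = 1 := hqs
    have h7 : e (τ⁻¹ * s * τ) = e s := by
      rw [eq_inv_of_mul_eq_one_right h6, units_inv]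
    have key : u⁻¹ * s * u ∈ V ∧ q (u⁻¹ * s * u) = 1 ∧ e (u⁻¹ * s * u) = e s := by
      by_cases huV : u ∈ V
      · refine ⟨V.mul_mem (V.mul_mem (V.inv_mem huV) hsV) huV, ?_, hec u huV s hsV⟩
        rw [hqm _ (V.mul_mem (V.inv_mem huV) hsV) u huV, hqm _ (V.inv_mem huV) s hsV, hqi u huV,
          mul_right_comm, units_sq, one_mul, hqs]
      · have h8 : τ⁻¹ * u ∈ V := (hcos u hu).resolve_left huV
        have h9 : u⁻¹ * s * u = (τ⁻¹ * u)⁻¹ * (τ⁻¹ * s * τ) * (τ⁻¹ * u) := by group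
        have h10 := hcV s hsV
        rw [h9]
        refine ⟨V.mul_mem (V.mul_mem (V.inv_mem h8) h10) h8, ?_, ?_⟩
        · rw [hqm _ (V.mul_mem (V.inv_mem h8) h10) _ h8, hqm _ (V.inv_mem h8) _ h10, hqi _ h8,
            mul_right_comm, units_sq, one_mul, hqτ s hsV, hqs]
        · rw [hec _ h8 _ h10, h7]
    rw [hψ s hsV', hψ _ ((hmemV _ key.1).2 key.2.1)]
    show (if u⁻¹ * s * u ∈ V then _ else _) = (if s ∈ V then _ else _)
    rw [if_pos key.1, if_pos hsV, key.2.2]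

end Pool.Agent.Y144.DL
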