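import Pool.Agent.Y144.DL.GQ
import Pool.Agent.Y144.DL.Twist

/-!
# The main theorem for number fields, and twists of characters which are trivial on a subgroup
-/

set_option autoImplicit false

namespace Pool.Agent.Y144.DL

attribute [local instance high] IntermediateField.algebra'

/-- the main theorem for the permutation character of a number field `k` -/
theorem main_number_field (k : IntermediateField ℚ ℂ) [FiniteDimensional ℚ k] (r₁ r₂ : ℕ)
    (hr₁ : Nat.card {τ : k →ₐ[ℚ] ℂ // ∀ x, (starRingEnd ℂ) (τ x) = τ x} = r₁)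
    (hr₂ : Module.finrank ℚ k = r₁ + 2 * r₂) :
    ∃ (F₁ : IntermediateField ℚ ℂ) (_ : FiniteDimensional ℚ F₁) (_ : Normal ℚ F₁), k ≤ F₁ ∧
      (∀ g ∈ gal (IntermediateField.normalClosure ℚ k ℂ) F₁, g * g = 1) ∧
      ∀ (E : Type) [Field E] [Algebra ℚ E] [Algebra.IsAlgebraic ℚ E]
        (_ : HasEnoughRootsOfUnity E (Nat.card (GQ F₁))) (c : GQ F₁) (_ : IsConjC c)
        (M : FrobData ℚ) (Fr : Nat.Primes → GQ F₁) (m : ℂ) (A : ArtinPeriods E (GQ F₁)) (r : ℕ)
        (cP cM : ℂ)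
        (_ : AbelianTwists (fun H : Subgroup (GQ F₁) => Group.IsSolvable H) c (M.map E) Fr m A r
          (fun _ => cP) (fun _ => cM))
        (d : ℂ) (_ : A.δ (perm E (gal k F₁)) = fun _ => d),
        ∃ X : LAt M Fr (perm ℚ (gal k F₁)) m, ∃ q : ℚ, q ≠ 0 ∧
          X.L (algebraMap ℚ ℂ) m = q * (cP ^ (r₁ + r₂) * cM ^ r₂ * d ^ r) := by
  let F₀ := IntermediateField.normalClosure ℚ k ℂ
  have : Normal ℚ F₀ := normalClosure_normal k
  have hk : k ≤ F₀ := IntermediateField.le_normalClosure k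
  refine ⟨big F₀, inferInstance, inferInstance, hk.trans (le_big F₀), ?_, ?_⟩
  · intro g hg
    rw [gal_eq] at hg
    exact big_fixer_sq F₀ g hg
  intro E _ _ _ hE c hc M Fr m A r cP cM h d hd
  have hθ : IsCharN (gal F₀ (big F₀)) (perm ℚ (gal k (big F₀))) := by
    rw [gal_eq, gal_eq]
    exact isCharN_perm fixer_normal (fixer_mono hk)
  obtain ⟨X, q, hq, h2⟩ := main_GQ (K := ℚ) F₀ hE hc (cP := fun _ => cP) (cM := fun _ => cM) h
    (perm ℚ (gal k (big F₀))) hθ (r₁ + r₂) r₂
    (by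
      have h6 : Nat.card (GQ (big F₀) ⧸ gal k (big F₀)) = Module.finrank ℚ k := by
        rw [gal_eq]
        exact card_cosets (hk.trans (le_big F₀))
      rw [perm_one, h6, hr₂]
      push_cast
      ring)
    (by
      have h6 : Nat.card {x : GQ (big F₀) ⧸ gal k (big F₀) // c • x = x} = r₁ := by
        rw [gal_eq]
        exact (card_fixed (hk.trans (le_big F₀)) hc).trans hr₁
      show (Nat.card {x : GQ (big F₀) ⧸ gal k (big F₀) // c • x = x} : ℚ) = _
      rw [h6]
      push_cast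
      ring)
    (fun _ => d)
    (by
      rw [perm_map, hd]
      rfl)
  refine ⟨X, q, hq, ?_⟩
  have h3 := h2 (algebraMap ℚ ℂ)
  have h4 : X.value (algebraMap ℚ ℂ) = X.L (algebraMap ℚ ℂ) m := rfl
  rw [← h4, h3]
  simp

theorem isCharN_twist {K : Type*} [Field K] {G : Type*} [Group G] {N : Subgroup G} {θ : G → K}
    (h : IsCharN N θ) (ψ : G →* Kˣ) (hψ : ∀ x ∈ N, ψ x = 1) :
    IsCharN N fun g => (ψ g : K) * θ g := by
  obtain ⟨n, ρ, hρ, rfl⟩ := h
  refine ⟨n, { toFun := fun g => (ψ g : K) • ρ g, map_one' := by simp, map_mul' := ?_ }, ?_, ?_⟩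
  · intro x y
    rw [map_mul, map_mul, Units.val_mul, smul_mul_smul_comm]
  · intro x hx
    show (ψ x : K) • ρ x = 1
    rw [hψ x hx, hρ x hx, Units.val_one, one_smul]
  · funext g
    show _ = ((ψ g : K) • ρ g).trace
    rw [Matrix.trace_smul, smul_eq_mul]

theorem isCharN_map {K E : Type*} [Field K] [Field E] [Algebra K E] {G : Type*} [Group G]
    {N : Subgroup G} {θ : G → K} (h : IsCharN N θ) : IsCharN N fun g => algebraMap K E (θ g) := by
  obtain ⟨n, ρ, hρ, rfl⟩ := h
  refine ⟨n, ((algebraMap K E).mapMatrix (m := Fin n)).toMonoidHom.comp ρ, ?_, ?_⟩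
  · intro x hx
    show (algebraMap K E).mapMatrix (ρ x) = 1
    rw [hρ x hx, map_one]
  · funext g
    exact AddMonoidHom.map_trace (algebraMap K E) (ρ g)

end Pool.Agent.Y144.DL
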