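import Pool.Agent.Y144.DL.Wk

/-!
# Adjoining square roots
-/

set_option autoImplicit false

namespace Pool.Agent.Y144.DL

open Polynomial IntermediateField

section general

variable {k Ω : Type*} [Field k] [Field Ω] [Algebra k Ω] [PerfectField k]
  (F : IntermediateField k Ω) [FiniteDimensional k F] {I : Type*} (a : I → F)

/-- a generator -/
noncomputable def pgen : F := (Field.exists_primitive_element k F).choose

theorem pgen_spec : IntermediateField.adjoin k {pgen F} = ⊤ :=
  (Field.exists_primitive_element k F).choose_spec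

/-- the polynomial which defines the enlarged field -/
noncomputable def enlPoly : k[X] :=
  minpoly k (pgen F) * ∏ᶠ x : I, (minpoly k (a x)).comp (X ^ 2)

omit [PerfectField k] in
theorem comp_ne_zero (a : F) : (minpoly k a).comp (X ^ 2) ≠ 0 := by
  have hint : IsIntegral k a := Algebra.IsIntegral.isIntegral a
  intro h
  rcases comp_eq_zero_iff.1 h with h1 | ⟨_, h1⟩
  · exact minpoly.ne_zero hint h1
  · have h2 := congrArg natDegree h1
    rw [natDegree_X_pow, natDegree_C] at h2
    omega

variable [Finite I]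

theorem enlPoly_ne_zero : enlPoly F a ≠ 0 := by
  classical
  have := Fintype.ofFinite I
  unfold enlPoly
  rw [finprod_eq_prod_of_fintype]
  refine mul_ne_zero (minpoly.ne_zero (Algebra.IsIntegral.isIntegral _)) ?_
  rw [Finset.prod_ne_zero_iff]
  intro x _
  exact comp_ne_zero F _

/-- the enlarged field -/
noncomputable def enl : IntermediateField k Ω := IntermediateField.adjoin k ((enlPoly F a).rootSet Ω)

omit [Finite I] in
theorem enl_splitting [IsAlgClosed Ω] : (enlPoly F a).IsSplittingField k (enl F a) :=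
  IntermediateField.adjoin_rootSet_isSplittingField (IsAlgClosed.splits _)

omit [Finite I] in
theorem enl_finite [IsAlgClosed Ω] : FiniteDimensional k (enl F a) :=
  have := enl_splitting F a
  IsSplittingField.finiteDimensional _ (enlPoly F a)

omit [Finite I] in
theorem enl_normal [IsAlgClosed Ω] : Normal k (enl F a) :=
  have := enl_splitting F a
  Normal.of_isSplittingField (enlPoly F a)

theorem pgen_mem : (pgen F : Ω) ∈ (enlPoly F a).rootSet Ω := by
  rw [mem_rootSet_of_ne (enlPoly_ne_zero F a)]
  unfold enlPoly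
  rw [map_mul]
  have h1 : aeval (pgen F : Ω) (minpoly k (pgen F)) = 0 := by
    have h2 : aeval (algebraMap F Ω (pgen F)) (minpoly k (pgen F)) = 0 := by
      rw [aeval_algebraMap_apply, minpoly.aeval, map_zero]
    exact h2
  rw [h1, zero_mul]

theorem adjoin_pgen : IntermediateField.adjoin k {(pgen F : Ω)} = F := by
  have h2 := congrArg IntermediateField.lift (pgen_spec F)
  rw [IntermediateField.lift_adjoin_simple, IntermediateField.lift_top] at h2
  exact h2

theorem le_enl : F ≤ enl F a := by
  have h1 : IntermediateField.adjoin k {(pgen F : Ω)} ≤ enl F a := by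
    unfold enl
    rw [IntermediateField.adjoin_le_iff]
    rintro _ rfl
    exact IntermediateField.subset_adjoin k _ (pgen_mem F a)
  rwa [adjoin_pgen F] at h1

theorem sqrt_mem (x : I) {z : Ω} (hz : z * z = a x) : z ∈ enl F a := by
  classical
  have := Fintype.ofFinite I
  refine IntermediateField.subset_adjoin k _ ?_
  rw [mem_rootSet_of_ne (enlPoly_ne_zero F a)]
  unfold enlPoly
  rw [finprod_eq_prod_of_fintype, map_mul, map_prod]
  have h1 : aeval z ((minpoly k (a x)).comp (X ^ 2)) = 0 := by
    rw [aeval_comp, map_pow, aeval_X, sq, hz]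
    have h2 : aeval (algebraMap F Ω (a x)) (minpoly k (a x)) = 0 := by
      rw [aeval_algebraMap_apply, minpoly.aeval, map_zero]
    exact h2
  rw [Finset.prod_eq_zero (Finset.mem_univ x) h1, mul_zero]

/-- the generators of the enlarged field -/
theorem enl_gen [Normal k F] {z : Ω} (hz : z ∈ (enlPoly F a).rootSet Ω) : z ∈ F ∨ z * z ∈ F := by
  classical
  have := Fintype.ofFinite I
  rw [mem_rootSet_of_ne (enlPoly_ne_zero F a)] at hz
  unfold enlPoly at hz
  rw [finprod_eq_prod_of_fintype, map_mul, map_prod] at hz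
  have key : ∀ (b : F) (y : Ω), aeval y (minpoly k b) = 0 → y ∈ F := by
    intro b y hy
    have h1 : ((minpoly k b).map (algebraMap k F)).Splits := Normal.splits inferInstance b
    have h2 : y ∈ (minpoly k b).rootSet Ω := by
      rw [mem_rootSet_of_ne (minpoly.ne_zero (Algebra.IsIntegral.isIntegral b))]
      exact hy
    have h3 := h1.image_rootSet (IntermediateField.val F)
    rw [← h3] at h2
    obtain ⟨w, _, rfl⟩ := h2
    exact w.2
  rcases mul_eq_zero.1 hz with h | h
  · exact Or.inl (key _ _ h)
  · rw [Finset.prod_eq_zero_iff] at h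
    obtain ⟨x, _, hx⟩ := h
    right
    rw [aeval_comp, map_pow, aeval_X, sq] at hx
    exact key _ _ hx

/-- the Galois group of the enlarged field over `F` has exponent two -/
theorem enl_sq [Normal k F] (g : enl F a ≃ₐ[k] enl F a) (hg : ∀ x : enl F a, (x : Ω) ∈ F → g x = x) :
    g * g = 1 := by
  have h1 : ∀ x : enl F a, g (g x) = x := by
    rintro ⟨x, hx⟩
    have hx' := hx
    unfold enl at hx'
    refine IntermediateField.adjoin_induction k
      (p := fun y _ => ∀ h : y ∈ enl F a, g (g ⟨y, h⟩) = ⟨y, h⟩) ?_ ?_ ?_ ?_ ?_ hx' hx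
    · intro y hy h
      rcases enl_gen F a hy with h2 | h2
      · rw [hg ⟨y, h⟩ h2, hg ⟨y, h⟩ h2]
      · have h3 : g ⟨y, h⟩ * g ⟨y, h⟩ = ⟨y, h⟩ * ⟨y, h⟩ := by
          rw [← map_mul]
          exact hg _ h2
        rcases mul_self_eq_mul_self_iff.1 h3 with h4 | h4
        · rw [h4, h4]
        · rw [h4, map_neg, h4, neg_neg]
    · intro y h
      have h2 : (⟨algebraMap k Ω y, h⟩ : enl F a) = algebraMap k (enl F a) y := rfl
      rw [h2, g.commutes, g.commutes]
    · intro y z hy hz h h' hyz
      have h2 : (⟨y + z, hyz⟩ : enl F a) = ⟨y, hy⟩ + ⟨z, hz⟩ := rfl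
      rw [h2, map_add, map_add, h hy, h' hz]
    · intro y hy h hy'
      have h2 : (⟨y⁻¹, hy'⟩ : enl F a) = (⟨y, hy⟩ : enl F a)⁻¹ := rfl
      rw [h2, map_inv₀, map_inv₀, h hy]
    · intro y z hy hz h h' hyz
      have h2 : (⟨y * z, hyz⟩ : enl F a) = ⟨y, hy⟩ * ⟨z, hz⟩ := rfl
      rw [h2, map_mul, map_mul, h hy, h' hz]
  apply AlgEquiv.ext
  intro x
  exact h1 x

end general

end Pool.Agent.Y144.DL
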