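import Pool.Agent.Y144.DL.Thm

/-!
# L-functions over number fields and the ratios of their values at two points
-/

set_option autoImplicit false

namespace Pool.Agent.Y144.DL

universe u

/-- Frobenius traces of a motive over a number field with coefficients in `E`: `P` is the set of primes which
are not left out, `nrm` the norm, and `t p k ∈ E` is the trace of `Frob_p ^ (k + 1)`, such that the Euler
product converges absolutely for `Re s > a`, for all embeddings of `E`. -/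
structure EulerData (E : Type*) [Field E] where
  /-- the primes -/
  P : Type
  /-- the norm of a prime -/
  nrm : P → ℝ
  one_lt : ∀ p, 1 < nrm p
  /-- the traces -/
  t : P → ℕ → E
  /-- the abscissa of convergence -/
  a : ℝ
  summable : ∀ (σ : E →+* ℂ) (x : ℝ), a < x → Summable fun q : P × ℕ =>
    ‖σ (t q.1 q.2)‖ * nrm q.1 ^ (-((q.2 + 1) * x))

variable {E : Type*} [Field E] {G : Type u} [Group G]

/-- The logarithm `∑_p ∑_(k ≥ 1) σ (tr(Frob_p ^ k | M) θ(Frob_p ^ k)) N(p) ^ (-k s) / k` of the Euler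
product of `L(s, M ⊗ θ)`, for a function `θ` on the Galois group and an embedding `σ` of `E`. -/
noncomputable def logE (M : EulerData E) (Fr : M.P → G) (θ : G → E) (σ : E →+* ℂ) (s : ℂ) : ℂ :=
  ∑' q : M.P × ℕ, σ (M.t q.1 q.2 * θ (Fr q.1 ^ (q.2 + 1))) *
    (M.nrm q.1 : ℂ) ^ (-((q.2 + 1) * s)) / (q.2 + 1)

/-- `Λ` is the function `L(s, M ⊗ θ)` for the embedding `σ`: it is meromorphic on `ℂ` and given by the
Euler product on the half plane of absolute convergence. -/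
def IsLE (M : EulerData E) (Fr : M.P → G) (θ : G → E) (σ : E →+* ℂ) (Λ : ℂ → ℂ) : Prop :=
  MeromorphicOn Λ Set.univ ∧ ∀ s : ℂ, M.a < s.re → Λ s = Complex.exp (logE M Fr θ σ s)

theorem summable_logE [Finite G] (M : EulerData E) (Fr : M.P → G) (θ : G → E) (σ : E →+* ℂ) {s : ℂ}
    (hs : M.a < s.re) : Summable fun q : M.P × ℕ => σ (M.t q.1 q.2 * θ (Fr q.1 ^ (q.2 + 1))) *
    (M.nrm q.1 : ℂ) ^ (-((q.2 + 1) * s)) / (q.2 + 1) := by
  obtain ⟨B, hB⟩ : ∃ B : ℝ, ∀ g : G, ‖σ (θ g)‖ ≤ B := by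
    obtain ⟨B, hB⟩ := (Set.finite_range fun g : G => ‖σ (θ g)‖).bddAbove
    exact ⟨B, fun g => hB ⟨g, rfl⟩⟩
  have hB0 : 0 ≤ B := (norm_nonneg _).trans (hB 1)
  refine Summable.of_norm_bounded ((M.summable σ s.re hs).mul_left B) ?_
  rintro ⟨p, k⟩
  simp only [map_mul, norm_mul, norm_div]
  rw [Complex.norm_cpow_eq_rpow_re_of_pos (zero_lt_one.trans (M.one_lt p))]
  have h1 : (-(((k : ℂ) + 1) * s)).re = -((k + 1) * s.re) := by
    rw [Complex.neg_re, Complex.mul_re]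
    simp
  rw [h1]
  have h2 : ‖((k : ℂ) + 1)‖ = k + 1 := by
    have : ((k : ℂ) + 1) = ((k + 1 : ℕ) : ℂ) := by push_cast; rfl
    rw [this, Complex.norm_natCast]
    push_cast
    rfl
  rw [h2]
  have h3 : (0 : ℝ) ≤ M.nrm p ^ (-((k + 1) * s.re)) := Real.rpow_nonneg (zero_lt_one.trans (M.one_lt p)).le _
  have h4 : (1 : ℝ) ≤ k + 1 := by
    have : (0 : ℝ) ≤ k := Nat.cast_nonneg k
    linarith
  calc ‖σ (M.t p k)‖ * ‖σ (θ (Fr p ^ (k + 1)))‖ * M.nrm p ^ (-((k + 1) * s.re)) / (k + 1)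
      ≤ ‖σ (M.t p k)‖ * ‖σ (θ (Fr p ^ (k + 1)))‖ * M.nrm p ^ (-((k + 1) * s.re)) :=
        div_le_self (by positivity) h4
    _ ≤ ‖σ (M.t p k)‖ * B * M.nrm p ^ (-((k + 1) * s.re)) := by
        gcongr
        exact hB _
    _ = B * (‖σ (M.t p k)‖ * M.nrm p ^ (-((k + 1) * s.re))) := by ring

/-- the Artin formalism in the half plane of convergence -/
theorem logE_add [Finite G] (M : EulerData E) (Fr : M.P → G) (θ θ' : G → E) (σ : E →+* ℂ) {s : ℂ}
    (hs : M.a < s.re) : logE M Fr (θ + θ') σ s = logE M Fr θ σ s + logE M Fr θ' σ s := by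
  unfold logE
  rw [← (summable_logE M Fr θ σ hs).tsum_add (summable_logE M Fr θ' σ hs)]
  refine tsum_congr fun q => ?_
  rw [Pi.add_apply, mul_add, map_add]
  ring


theorem IsLE.mul [Finite G] {M : EulerData E} {Fr : M.P → G} {θ θ' : G → E} {σ : E →+* ℂ}
    {Λ Λ' : ℂ → ℂ} (h : IsLE M Fr θ σ Λ) (h' : IsLE M Fr θ' σ Λ') : IsLE M Fr (θ + θ') σ (Λ * Λ') := by
  refine ⟨h.1.mul h'.1, ?_⟩
  intro s hs
  rw [Pi.mul_apply, h.2 s hs, h'.2 s hs, logE_add M Fr θ θ' σ hs, Complex.exp_add]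

theorem logE_neg (M : EulerData E) (Fr : M.P → G) (θ : G → E) (σ : E →+* ℂ) (s : ℂ) :
    logE M Fr (-θ) σ s = -logE M Fr θ σ s := by
  unfold logE
  rw [← tsum_neg]
  refine tsum_congr fun q => ?_
  rw [Pi.neg_apply, mul_neg, map_neg]
  ring

theorem IsLE.inv {M : EulerData E} {Fr : M.P → G} {θ : G → E} {σ : E →+* ℂ}
    {Λ : ℂ → ℂ} (h : IsLE M Fr θ σ Λ) : IsLE M Fr (-θ) σ Λ⁻¹ := by
  refine ⟨h.1.inv, ?_⟩
  intro s hs
  rw [Pi.inv_apply, h.2 s hs, logE_neg, Complex.exp_neg]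

theorem IsLE.zero {M : EulerData E} {Fr : M.P → G} {σ : E →+* ℂ} : IsLE M Fr (0 : G → E) σ 1 := by
  refine ⟨MeromorphicOn.const 1, ?_⟩
  intro s hs
  have h1 : logE M Fr (0 : G → E) σ s = 0 := by
    unfold logE
    simp
  rw [h1, Complex.exp_zero]
  rfl

/-- A function with the Euler product of `M ⊗ θ`, holomorphic and nonzero at the two points, for all
embeddings. -/
structure Good2 (M : EulerData E) (Fr : M.P → G) (m m' : ℂ) (θ : G → E) where
  /-- the function -/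
  L : (E →+* ℂ) → ℂ → ℂ
  isLE : ∀ σ, IsLE M Fr θ σ (L σ)
  an : ∀ σ, AnalyticAt ℂ (L σ) m
  an' : ∀ σ, AnalyticAt ℂ (L σ) m'
  ne : ∀ σ, L σ m ≠ 0
  ne' : ∀ σ, L σ m' ≠ 0

/-- the quotient of the values at the two points -/
noncomputable def Good2.ratio {M : EulerData E} {Fr : M.P → G} {m m' : ℂ} {θ : G → E}
    (f : Good2 M Fr m m' θ) : (E →+* ℂ) → ℂ := fun σ => f.L σ m / f.L σ m'

theorem Good2.ratio_ne {M : EulerData E} {Fr : M.P → G} {m m' : ℂ} {θ : G → E}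
    (f : Good2 M Fr m m' θ) (σ : E →+* ℂ) : f.ratio σ ≠ 0 := div_ne_zero (f.ne σ) (f.ne' σ)

/-- products -/
noncomputable def Good2.mul [Finite G] {M : EulerData E} {Fr : M.P → G} {m m' : ℂ} {θ θ' : G → E}
    (f : Good2 M Fr m m' θ) (f' : Good2 M Fr m m' θ') : Good2 M Fr m m' (θ + θ') where
  L := fun σ => f.L σ * f'.L σ
  isLE := fun σ => (f.isLE σ).mul (f'.isLE σ)
  an := fun σ => (f.an σ).mul (f'.an σ)
  an' := fun σ => (f.an' σ).mul (f'.an' σ)
  ne := fun σ => mul_ne_zero (f.ne σ) (f'.ne σ)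
  ne' := fun σ => mul_ne_zero (f.ne' σ) (f'.ne' σ)

/-- inverses -/
noncomputable def Good2.inv {M : EulerData E} {Fr : M.P → G} {m m' : ℂ} {θ : G → E}
    (f : Good2 M Fr m m' θ) : Good2 M Fr m m' (-θ) where
  L := fun σ => (f.L σ)⁻¹
  isLE := fun σ => (f.isLE σ).inv
  an := fun σ => (f.an σ).inv (f.ne σ)
  an' := fun σ => (f.an' σ).inv (f.ne' σ)
  ne := fun σ => inv_ne_zero (f.ne σ)
  ne' := fun σ => inv_ne_zero (f.ne' σ)

/-- the constant function -/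
noncomputable def Good2.one {M : EulerData E} {Fr : M.P → G} {m m' : ℂ} :
    Good2 M Fr m m' (0 : G → E) where
  L := fun _ => 1
  isLE := fun _ => IsLE.zero
  an := fun _ => analyticAt_const
  an' := fun _ => analyticAt_const
  ne := fun _ => one_ne_zero
  ne' := fun _ => one_ne_zero

theorem Sim.refl (x : (E →+* ℂ) → ℂ) : Sim x x := ⟨1, one_ne_zero, fun σ => by rw [map_one, one_mul]⟩

theorem Sim.mul {x y x' y' : (E →+* ℂ) → ℂ} (h : Sim x y) (h' : Sim x' y') :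
    Sim (x * x') (y * y') := by
  obtain ⟨e, he, h⟩ := h
  obtain ⟨e', he', h'⟩ := h'
  refine ⟨e * e', mul_ne_zero he he', fun σ => ?_⟩
  rw [Pi.mul_apply, Pi.mul_apply, h σ, h' σ, map_mul]
  ring

theorem Sim.inv {x y : (E →+* ℂ) → ℂ} (h : Sim x y) : Sim x⁻¹ y⁻¹ := by
  obtain ⟨e, he, h⟩ := h
  refine ⟨e⁻¹, inv_ne_zero he, fun σ => ?_⟩
  rw [Pi.inv_apply, Pi.inv_apply, h σ, map_inv₀, mul_inv]

theorem Sim.pow {x y : (E →+* ℂ) → ℂ} (h : Sim x y) (n : ℕ) : Sim (x ^ n) (y ^ n) := by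
  obtain ⟨e, he, h⟩ := h
  refine ⟨e ^ n, pow_ne_zero n he, fun σ => ?_⟩
  rw [Pi.pow_apply, Pi.pow_apply, h σ, mul_pow, map_pow]

theorem Sim.trans {x y z : (E →+* ℂ) → ℂ} (h : Sim x y) (h' : Sim y z) : Sim x z := by
  obtain ⟨e, he, h⟩ := h
  obtain ⟨e', he', h'⟩ := h'
  refine ⟨e * e', mul_ne_zero he he', fun σ => ?_⟩
  rw [h σ, h' σ, map_mul]
  ring

/-- the value at a point does not depend on the function -/
theorem IsLE.unique {M : EulerData E} {Fr : M.P → G} {θ : G → E} {σ : E →+* ℂ} {Λ Λ' : ℂ → ℂ}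
    (h : IsLE M Fr θ σ Λ) (h' : IsLE M Fr θ σ Λ') {m : ℂ} (hm : AnalyticAt ℂ Λ m)
    (hm' : AnalyticAt ℂ Λ' m) : Λ m = Λ' m := by
  refine eq_of_eq_halfPlane h.1 h'.1 (a := M.a) ?_ hm hm'
  intro s hs
  rw [h.2 s hs, h'.2 s hs]

variable [CharZero E] [Finite G]

/-- the virtual characters generated by the pairs with the same ratio -/
theorem exists_good {M : EulerData E} {Fr : M.P → G} {m m' : ℂ}
    (f : ∀ (H : Subgroup G) (χ : H →* Eˣ), Good2 M Fr m m' (ind H χ)) (S : Set G) (Z : Subgroup G)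
    (hrel : ∀ H : Subgroup G, Z ≤ H → ∀ χ χ' : H →* Eˣ, (∀ h : H, (h : G) ∈ S → χ h = χ' h) →
      Sim (f H χ).ratio (f H χ').ratio) {D : G → E} (hD : D ∈ SC E S Z ⊤) :
    ∃ F : Good2 M Fr m m' D, Sim F.ratio 1 := by
  classical
  have := Fintype.ofFinite G
  induction hD using AddSubgroup.closure_induction with
  | mem D hD =>
    obtain ⟨K, χ, χ', _, hZ, he, rfl⟩ := hD
    have h1 : avg K ⊤ (ext K χ - ext K χ') = ind K χ + -ind K χ' := by
      rw [avg_sub, sub_eq_add_neg]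
      rfl
    rw [h1]
    refine ⟨(f K χ).mul (f K χ').inv, ?_⟩
    have h2 := hrel K hZ χ χ' (by
      intro h hh
      have h3 := he h hh
      rw [ext_mem K χ h.2, ext_mem K χ' h.2] at h3
      exact Units.ext h3)
    obtain ⟨e, he, h4⟩ := h2
    refine ⟨e, he, fun σ => ?_⟩
    have h5 := h4 σ
    unfold Good2.ratio at h5
    show ((f K χ).L σ m * ((f K χ').L σ m)⁻¹) / ((f K χ).L σ m' * ((f K χ').L σ m')⁻¹) = σ e * 1
    have n1 := (f K χ).ne' σ
    have n2 := (f K χ').ne' σ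
    have n3 := (f K χ').ne σ
    field_simp at h5 ⊢
    linear_combination h5
  | zero =>
    refine ⟨Good2.one, ⟨1, one_ne_zero, fun σ => ?_⟩⟩
    show (1 : ℂ) / 1 = σ 1 * 1
    simp
  | add D D' _ _ h h' =>
    obtain ⟨F, e, he, h⟩ := h
    obtain ⟨F', e', he', h'⟩ := h'
    refine ⟨F.mul F', ⟨e * e', mul_ne_zero he he', fun σ => ?_⟩⟩
    show (F.L σ m * F'.L σ m) / (F.L σ m' * F'.L σ m') = σ (e * e') * 1
    rw [mul_div_mul_comm, map_mul]
    have h1 := h σ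
    have h2 := h' σ
    unfold Good2.ratio at h1 h2
    rw [h1, h2]
    simp
  | neg D _ h =>
    obtain ⟨F, e, he, h⟩ := h
    refine ⟨F.inv, ⟨e⁻¹, inv_ne_zero he, fun σ => ?_⟩⟩
    show ((F.L σ m)⁻¹) / ((F.L σ m')⁻¹) = σ e⁻¹ * 1
    have h1 := h σ
    unfold Good2.ratio at h1
    rw [inv_div_inv, map_inv₀, mul_one, ← inv_div, h1]
    simp

/-- powers -/
theorem exists_good_nsmul {M : EulerData E} {Fr : M.P → G} {m m' : ℂ} {θ : G → E}
    (f : Good2 M Fr m m' θ) (n : ℕ) : ∃ F : Good2 M Fr m m' (n • θ), F.ratio = f.ratio ^ n := by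
  induction n with
  | zero =>
    rw [zero_smul]
    refine ⟨Good2.one, ?_⟩
    funext σ
    show (1 : ℂ) / 1 = (f.ratio σ) ^ 0
    simp
  | succ n ih =>
    obtain ⟨F, hF⟩ := ih
    rw [succ_nsmul]
    refine ⟨F.mul f, ?_⟩
    funext σ
    show (F.L σ m * f.L σ m) / (F.L σ m' * f.L σ m') = (f.ratio ^ (n + 1)) σ
    rw [mul_div_mul_comm, pow_succ, ← hF]
    rfl

/-- The ratio for all twists, from the ratios for the monomial twists. -/
theorem ratios (hE : HasEnoughRootsOfUnity E (Nat.card G)) {M : EulerData E} {Fr : M.P → G} {m m' : ℂ}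
    (f : ∀ (H : Subgroup G) (χ : H →* Eˣ), Good2 M Fr m m' (ind H χ))
    (hrel : ∀ (H : Subgroup G) (χ : H →* Eˣ), Sim (f H χ).ratio (f H 1).ratio)
    (θ : G → E) (hθ : IsChar θ) (d : ℕ) (hd : θ 1 = d) :
    ∃ F : Good2 M Fr m m' θ, Sim F.ratio ((f ⊤ 1).ratio ^ d) := by
  classical
  have := Fintype.ofFinite G
  have hone : IsChar (d • (1 : G → E)) := isChar_nsmul isChar_one d
  have h1 : θ - d • (1 : G → E) ∈ SC E {1} (Subgroup.zpowers (1 : G)) ⊤ :=
    brauer_signature (ψ := 1) hE (c := 1) (fun g => by rw [mul_one, one_mul]) (one_mul 1)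
      (fun h => absurd rfl h) hθ hone (by rw [hd]; simp) (by rw [hd]; simp)
  obtain ⟨F, hF⟩ := exists_good f {1} (Subgroup.zpowers (1 : G)) (by
    intro H _ χ χ' _
    obtain ⟨e, he, h⟩ := hrel H χ
    obtain ⟨e', he', h'⟩ := hrel H χ'
    refine ⟨e * e'⁻¹, mul_ne_zero he (inv_ne_zero he'), fun σ => ?_⟩
    rw [h σ, h' σ, map_mul, map_inv₀]
    have : σ e' ≠ 0 := (map_ne_zero σ).2 he'
    field_simp) h1
  have htop : (ind (⊤ : Subgroup G) 1 : G → E) = 1 := by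
    unfold ind
    rw [avg_self_ext]
    funext g
    rw [ext_mem ⊤ _ (Subgroup.mem_top g), MonoidHom.one_apply, Units.val_one]
    rfl
  obtain ⟨F', hF'⟩ := exists_good_nsmul (f ⊤ 1) d
  have key : ∀ θ' : G → E, θ' = θ → ∀ X : Good2 M Fr m m' θ',
      ∃ F : Good2 M Fr m m' θ, F.ratio = X.ratio := by
    rintro _ rfl X
    exact ⟨X, rfl⟩
  obtain ⟨X, hX⟩ := key _ (by rw [htop]; abel) (F.mul F')
  refine ⟨X, ?_⟩
  obtain ⟨e, he, h⟩ := hF
  refine ⟨e, he, fun σ => ?_⟩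
  rw [hX]
  show (F.L σ m * F'.L σ m) / (F.L σ m' * F'.L σ m') = _
  rw [mul_div_mul_comm, ← hF']
  have h3 := h σ
  unfold Good2.ratio at h3
  rw [h3]
  unfold Good2.ratio
  simp

end Pool.Agent.Y144.DL
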