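import Pool.Agent.Y144.DL.AbnThm
import Pool.Agent.Y144.DL.Ratio

/-!
# Deligne's conjecture for all Artin twists is equivalent to a weak statement on abelian twists
-/

set_option autoImplicit false

namespace Pool.Agent.Y144.DL

universe u

section

variable {E : Type*} [Field E] [CharZero E] {G : Type u} [Group G]

/-- the multiplicities of the eigenvalues of an involution -/
theorem exists_signature {θ : G → E} (hθ : IsChar θ) {c : G} (hc : c * c = 1) :
    ∃ a b : ℕ, θ 1 = a + b ∧ θ c = a - b := by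
  obtain ⟨n, ρ, rfl⟩ := hθ
  have hsq : ρ c * ρ c = 1 := by rw [← map_mul, hc, map_one]
  obtain ⟨p, hp⟩ : ∃ p : Matrix (Fin n) (Fin n) E, p = (1 / 2 : E) • (1 + ρ c) := ⟨_, rfl⟩
  have hpp : p * p = p := by
    rw [hp, Matrix.smul_mul, Matrix.mul_smul, smul_smul, mul_add, add_mul, add_mul, hsq, one_mul,
      mul_one, one_mul]
    have h1 : (1 : Matrix (Fin n) (Fin n) E) + ρ c + (ρ c + 1) = (2 : E) • (1 + ρ c) := by
      rw [two_smul]
      abel
    rw [h1, smul_smul]
    congr 1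
    norm_num
  have hf : IsIdempotentElem (Matrix.toLin' p) := by
    show Matrix.toLin' p * Matrix.toLin' p = Matrix.toLin' p
    rw [Module.End.mul_eq_comp, ← Matrix.toLin'_mul, hpp]
  have htr := (LinearMap.IsIdempotentElem.isProj_range (Matrix.toLin' p) hf).trace
  rw [Matrix.trace_toLin'_eq] at htr
  have hle : Module.finrank E (LinearMap.range (Matrix.toLin' p)) ≤ n := by
    have := Submodule.finrank_le (LinearMap.range (Matrix.toLin' p))
    rwa [Module.finrank_fin_fun] at this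
  obtain ⟨b, hb⟩ := Nat.exists_eq_add_of_le hle
  have hn : (n : E) = Module.finrank E (LinearMap.range (Matrix.toLin' p)) + b := by
    exact_mod_cast congrArg (Nat.cast (R := E)) hb
  refine ⟨Module.finrank E (LinearMap.range (Matrix.toLin' p)), b, ?_, ?_⟩
  · show (ρ 1).trace = _
    rw [map_one, Matrix.trace_one, Fintype.card_fin, hn]
  · show (ρ c).trace = _
    rw [← htr, hp, Matrix.trace_smul, Matrix.trace_add, Matrix.trace_one, Fintype.card_fin, smul_eq_mul]
    rw [← htr, hp, Matrix.trace_smul, Matrix.trace_add, Matrix.trace_one, Fintype.card_fin,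
      smul_eq_mul] at hn
    linear_combination (-1 : E) * hn

omit [CharZero E] in
theorem ind_congr [Finite G] {H : Subgroup G} {χ χ' : H →* Eˣ} {c : G}
    (h : ∀ s : H, IsConj c (s : G) → χ s = χ' s) : ind H χ c = ind H χ' c := by
  unfold ind avg
  congr 1
  refine finsum_congr fun x => ?_
  unfold ext
  by_cases hx : ((x : G))⁻¹ * c * x ∈ H
  · rw [dif_pos hx, dif_pos hx, h ⟨_, hx⟩ (isConj_iff.2 ⟨(x : G)⁻¹, by rw [inv_inv]⟩)]
  · rw [dif_neg hx, dif_neg hx]

omit [CharZero E] in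
theorem ind_one_congr [Finite G] {H : Subgroup G} {χ χ' : H →* Eˣ} : ind H χ 1 = ind H χ' 1 := by
  refine ind_congr fun s hs => ?_
  have h1 : s = 1 := by
    rw [isConj_one_right] at hs
    exact Subtype.ext hs
  rw [h1, map_one, map_one]

variable [Finite G] {M : FrobData E} {Fr : Nat.Primes → G} {m : ℂ} {A : ArtinPeriods E G} {r : ℕ}
  {cP cM : (E →+* ℂ) → ℂ} {c : G}

/-- the assumptions on abelian twists follow from Deligne's conjecture for the twists -/
theorem abelian_of_all (hcc : c * c = 1) (hψ : c ≠ 1 → ∃ ψ : G →* Eˣ, ψ c = -1) (P : Subgroup G → Prop)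
    (hA : ∀ θ : G → E, IsChar θ → ∀ a b : ℕ, θ 1 = a + b → θ c = a - b →
      ∃ X : LAt M Fr θ m, Sim X.value (cP ^ a * cM ^ b * A.δ θ ^ r)) :
    Nonempty (AbelianTwists P c M Fr m A r cP cM) := by
  have hsig : ∀ (H : Subgroup G) (χ : H →* Eˣ), ∃ (a b : ℕ) (X : LAt M Fr (ind H χ) m),
      ind H χ 1 = a + b ∧ ind H χ c = a - b ∧ Sim X.value (cP ^ a * cM ^ b * A.δ (ind H χ) ^ r) := by
    intro H χ
    obtain ⟨a, b, h1, h2⟩ := exists_signature (isChar_ind H χ) hcc
    obtain ⟨X, hX⟩ := hA _ (isChar_ind H χ) a b h1 h2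
    exact ⟨a, b, X, h1, h2, hX⟩
  choose a b X h1 h2 hX using hsig
  obtain ⟨ψ, hψ⟩ : ∃ ψ : G →* Eˣ, c ≠ 1 → ψ c = -1 := by
    by_cases hc1 : c = 1
    · exact ⟨1, fun h => absurd hc1 h⟩
    · obtain ⟨ψ, h⟩ := hψ hc1
      exact ⟨ψ, fun _ => h⟩
  obtain ⟨X₁, hX₁⟩ := hA 1 isChar_one 1 0 (by simp) (by simp)
  obtain ⟨Xψ, hXψ⟩ : ∃ Xψ : LAt M Fr (fun g => (ψ g : E)) m,
      c ≠ 1 → Sim Xψ.value (cM * A.δ (fun g => (ψ g : E)) ^ r) := by
    by_cases hc1 : c = 1
    · obtain ⟨Y, -⟩ := hA (fun g => (ψ g : E)) (isChar_linear ψ) 1 0 (by simp) (by simp [hc1])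
      exact ⟨Y, fun h => absurd hc1 h⟩
    · obtain ⟨Y, hY⟩ := hA (fun g => (ψ g : E)) (isChar_linear ψ) 0 1 (by simp) (by simp [hψ hc1])
      rw [pow_zero, one_mul, pow_one] at hY
      exact ⟨Y, fun _ => hY⟩
  rw [pow_one, pow_zero, mul_one] at hX₁
  refine ⟨⟨fun H _ χ => X H χ, ?_, X₁, hX₁, ψ, hψ, Xψ, hXψ⟩⟩
  intro H _ χ χ' hs
  have e1 : ((a H χ : ℕ) : E) + b H χ = a H χ' + b H χ' := by
    rw [← h1, ← h1, ind_one_congr]
  have e2 : ((a H χ : ℕ) : E) - b H χ = a H χ' - b H χ' := by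
    rw [← h2, ← h2, ind_congr hs]
  have e3 : a H χ = a H χ' := by
    have h3 : ((2 * a H χ : ℕ) : E) = ((2 * a H χ' : ℕ) : E) := by
      push_cast
      linear_combination e1 + e2
    have h4 : 2 * a H χ = 2 * a H χ' := by exact_mod_cast h3
    omega
  have e4 : b H χ = b H χ' := by
    have h3 : ((a H χ + b H χ : ℕ) : E) = ((a H χ' + b H χ' : ℕ) : E) := by
      push_cast
      exact e1
    have h4 : a H χ + b H χ = a H χ' + b H χ' := by exact_mod_cast h3
    omega
  obtain ⟨e, he, h⟩ := hX H χ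
  obtain ⟨e', he', h'⟩ := hX H χ'
  refine ⟨e / e', div_ne_zero he he', fun σ => ?_⟩
  have he'' : σ e' ≠ 0 := (map_ne_zero σ).2 he'
  simp only [Pi.mul_apply, Pi.pow_apply]
  rw [h σ, h' σ, e3, e4, map_div₀]
  simp only [Pi.mul_apply, Pi.pow_apply]
  field_simp

end

section

variable {K E : Type*} [Field K] [CharZero K] [Field E] [Algebra K E] [Algebra.IsAlgebraic K E]

/-- `main_Z` for any representative of the period of the Artin motive -/
theorem main_ZS {G : Type u} [Group G] [Finite G]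
    (hE : HasEnoughRootsOfUnity E (Nat.card G)) {c : G} {N Z : Subgroup G}
    (hN : N.Normal) (hodd : Odd (Nat.card N)) (hcN : ∀ g : G, g * c * g⁻¹ * c⁻¹ ∈ N)
    (hcc : c * c = 1) (hZ : Z.Normal) (hZab : ∀ x ∈ Z, ∀ y ∈ Z, x * y = y * x)
    {M : FrobData K} {Fr : Nat.Primes → G} {m : ℂ}
    {A : ArtinPeriods E G} {r : ℕ} {cP cM : (K →+* ℂ) → ℂ}
    (h : AbelianTwists (fun H : Subgroup G => Group.IsSolvable H ∧ Z ≤ H) c (M.map E) Fr m A r
      (lft E cP) (lft E cM))
    (θ : G → K) (hθ : IsChar θ) (a b : ℕ) (ha : θ 1 = a + b) (hb : θ c = a - b)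
    (d : (K →+* ℂ) → ℂ) (hd : Sim (A.δ (fun g => algebraMap K E (θ g))) (lft E d)) :
    ∃ X : LAt M Fr θ m, Sim X.value (cP ^ a * cM ^ b * d ^ r) := by
  have hE0 : CharZero E := charZero_ext (K := K)
  obtain ⟨e1, e2, e3⟩ := char_vals c h.ψ h.odd θ a b ha hb
  have hθE : IsChar fun g => algebraMap K E (θ g) := isChar_map hθ
  have hD := brauer_Z hE hN hodd hcN hcc hZ hZab h.odd hθE
    (isChar_add (isChar_nsmul isChar_one a) (isChar_nsmul (isChar_linear h.ψ) b)) e1 e2
  obtain ⟨X, hX⟩ := extend (S := {s | IsConj c s}) h.L A r h.rel h.ψ h.L₁ h.Lψ (lft E cP) (lft E cM) h.base b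
    (fun hb0 => h.baseOdd (fun hc1 => hb0 (e3 hc1))) hθE a hD
  have hX' := hX.trans (Sim.mul (Sim.refl (lft E cP ^ a * lft E cM ^ b)) (hd.pow r))
  rw [lft_comb] at hX'
  exact descend_LAt X _ hX'

omit [CharZero K] [Algebra.IsAlgebraic K E] in
theorem lft_lft {K' : Type*} [Field K'] [Algebra K K'] [Algebra K' E] [IsScalarTower K K' E]
    (x : (K →+* ℂ) → ℂ) : lft E (lft K' x) = lft E x :=
  funext fun σ => congrArg x (RingHom.ext fun y =>
    congrArg σ (IsScalarTower.algebraMap_apply K K' E y).symm)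

omit [CharZero K] [Algebra.IsAlgebraic K E] in
theorem map_map {K' : Type*} [Field K'] [Algebra K K'] [Algebra K' E] [IsScalarTower K K' E]
    (M : FrobData K) : (M.map K').map E = M.map E := by
  have h1 : ((M.map K').map E).t = (M.map E).t := by
    funext p k
    exact (IsScalarTower.algebraMap_apply K K' E (M.t p k)).symm
  unfold FrobData.map at h1 ⊢
  simp only at h1
  simp only [h1]

end

section

variable {K : Type} [Field K]

/-- **Deligne's conjecture** (with nonvanishing) at `m` for the twists `M ⊗ θ` by all representations, trivial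
on `N`, of the Galois group `G`, over all fields of coefficients `K'` between `K` and `E`: if `θ` is the
character, `a` and `b` are the dimensions of the eigenspaces of complex conjugation `c` and `d` is a period of the
Artin motive (equal to `A.δ θ` up to a factor in `E`), then `L(s, M ⊗ θ)` has a meromorphic continuation, holomorphic
and nonzero at `m`, and `L(m, M ⊗ θ) ∼ c_P ^ a c_M ^ b d ^ r` up to a factor in `K'`. -/
def DeligneFor (E : Type) [Field E] [Algebra K E] {G : Type} [Group G] (N : Subgroup G) (c : G)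
    (M : FrobData K) (Fr : Nat.Primes → G) (m : ℂ) (A : ArtinPeriods E G) (r : ℕ)
    (cP cM : (K →+* ℂ) → ℂ) : Prop :=
  ∀ (K' : Type) [Field K'] [Algebra K K'] [Algebra K' E] [IsScalarTower K K' E] (θ : G → K'),
    IsCharN N θ → ∀ a b : ℕ, θ 1 = a + b → θ c = a - b → ∀ d : (K' →+* ℂ) → ℂ,
      Sim (A.δ fun g => algebraMap K' E (θ g)) (lft E d) →
        ∃ X : LAt (M.map K') Fr θ m, Sim X.value (lft K' cP ^ a * lft K' cM ^ b * d ^ r)

end

section

variable {K E : Type} [Field K] [CharZero K] [Field E] [Algebra K E] [Algebra.IsAlgebraic K E]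

theorem isCharN_bot {E : Type*} [Field E] {G : Type*} [Group G] {θ : G → E} (h : IsChar θ) :
    IsCharN ⊥ θ := by
  obtain ⟨n, ρ, rfl⟩ := h
  refine ⟨n, ρ, ?_, rfl⟩
  intro g hg
  rw [Subgroup.mem_bot.1 hg, map_one]

omit [CharZero K] [Algebra.IsAlgebraic K E] in
theorem DeligneFor.self {G : Type} [Group G] {c : G}
    {M : FrobData K} {Fr : Nat.Primes → G} {m : ℂ}
    {A : ArtinPeriods E G} {r : ℕ} {cP cM : (K →+* ℂ) → ℂ}
    (h : DeligneFor E ⊥ c M Fr m A r cP cM) (θ : G → E) (hθ : IsChar θ) (a b : ℕ)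
    (ha : θ 1 = a + b) (hb : θ c = a - b) :
    ∃ X : LAt (M.map E) Fr θ m, Sim X.value (lft E cP ^ a * lft E cM ^ b * A.δ θ ^ r) :=
  h E θ (isCharN_bot hθ) a b ha hb (A.δ θ) (Sim.refl _)

/-- the equivalence -/
theorem equiv_Z {G : Type} [Group G] [Finite G]
    (hE : HasEnoughRootsOfUnity E (Nat.card G)) {c : G} {N Z : Subgroup G}
    (hN : N.Normal) (hodd : Odd (Nat.card N)) (hcN : ∀ g : G, g * c * g⁻¹ * c⁻¹ ∈ N)
    (hcc : c * c = 1) (hZ : Z.Normal) (hZab : ∀ x ∈ Z, ∀ y ∈ Z, x * y = y * x)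
    (hψ : c ≠ 1 → ∃ ψ : G →* Eˣ, ψ c = -1)
    (M : FrobData K) (Fr : Nat.Primes → G) (m : ℂ)
    (A : ArtinPeriods E G) (r : ℕ) (cP cM : (K →+* ℂ) → ℂ) :
    DeligneFor E ⊥ c M Fr m A r cP cM ↔
    Nonempty (AbelianTwists (fun H : Subgroup G => Group.IsSolvable H ∧ Z ≤ H) c (M.map E) Fr m A r
      (lft E cP) (lft E cM)) := by
  have hE0 : CharZero E := charZero_ext (K := K)
  constructor
  · intro h
    exact abelian_of_all hcc hψ _ h.self
  · rintro ⟨h⟩ K' _ _ _ _ θ hθ a b ha hb d hd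
    have h0 : CharZero K' := charZero_of_injective_algebraMap (algebraMap K K').injective
    have h1 : Algebra.IsAlgebraic K' E := Algebra.IsAlgebraic.tower_top (K := K) K'
    have h2 : AbelianTwists (fun H : Subgroup G => Group.IsSolvable H ∧ Z ≤ H) c ((M.map K').map E) Fr m
        A r (lft E (lft K' cP)) (lft E (lft K' cM)) := by
      rw [map_map, lft_lft, lft_lft]
      exact h
    exact main_ZS hE hN hodd hcN hcc hZ hZab h2 θ hθ.isChar a b ha hb d hd

end

attribute [local instance high] IntermediateField.algebra'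

/-- the odd sign character -/
theorem exists_odd_big (F₀ : IntermediateField ℚ ℂ) [FiniteDimensional ℚ F₀] [Normal ℚ F₀]
    {E : Type*} [Field E] {c : GQ (big F₀)} (hc : IsConjC c) : ∃ ψ : GQ (big F₀) →* Eˣ, ψ c = -1 := by
  obtain ⟨κ, hκ⟩ := big_signProp F₀ c hc ⊤ (fun g _ => Subgroup.mem_top g) (fun _ => -1)
    (fun _ _ _ _ _ => rfl)
  have h1 := hκ c (Subgroup.mem_top c) (IsConj.refl c)
  refine ⟨((Units.map (Int.castRingHom E : ℤ →* E)).comp κ).comp
    (Subgroup.topEquiv (G := GQ (big F₀))).symm.toMonoidHom, ?_⟩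
  show Units.map (Int.castRingHom E : ℤ →* E) (κ ⟨c, Subgroup.mem_top c⟩) = -1
  rw [h1]
  ext
  simp

section

variable {K E : Type*} [Field K] [CharZero K] [Field E] [Algebra K E] [Algebra.IsAlgebraic K E]

/-- `main_GQ` for any representative of the period of the Artin motive -/
theorem main_GQS (F₀ : IntermediateField ℚ ℂ) [FiniteDimensional ℚ F₀] [Normal ℚ F₀]
    (hE : HasEnoughRootsOfUnity E (Nat.card (GQ (big F₀)))) {c : GQ (big F₀)} (hc : IsConjC c)
    {M : FrobData K} {Fr : Nat.Primes → GQ (big F₀)} {m : ℂ}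
    {A : ArtinPeriods E (GQ (big F₀))} {r : ℕ} {cP cM : (K →+* ℂ) → ℂ}
    (h : AbelianTwists (fun H : Subgroup (GQ (big F₀)) => Group.IsSolvable H) c (M.map E) Fr m A r
      (lft E cP) (lft E cM))
    (θ : GQ (big F₀) → K) (hθ : IsCharN (gal F₀ (big F₀)) θ) (a b : ℕ)
    (ha : θ 1 = a + b) (hb : θ c = a - b)
    (d : (K →+* ℂ) → ℂ) (hd : Sim (A.δ (fun g => algebraMap K E (θ g))) (lft E d)) :
    ∃ X : LAt M Fr θ m, Sim X.value (cP ^ a * cM ^ b * d ^ r) := by
  have hE0 : CharZero E := charZero_ext (K := K)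
  have hc1 : c ≠ 1 := big_ne_one F₀ c hc
  rw [gal_eq] at hθ
  obtain ⟨e1, e2, _⟩ := char_vals c h.ψ h.odd θ a b ha hb
  have hD := brauer_solv hE fixer_normal (solv_exp_two (big_fixer_sq F₀)) (conj_sq hc)
    hc1 (h.odd hc1) (fun U hU => big_signProp F₀ c hc U (fun g hg => hU hg))
    (hθ.map (E := E)) a b e1 e2
  obtain ⟨X, hX⟩ := extend (S := {s | IsConj c s}) h.L A r h.rel h.ψ h.L₁ h.Lψ (lft E cP) (lft E cM) h.base b
    (fun _ => h.baseOdd hc1) hθ.map.isChar a hD
  have hX' := hX.trans (Sim.mul (Sim.refl (lft E cP ^ a * lft E cM ^ b)) (hd.pow r))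
  rw [lft_comb] at hX'
  exact descend_LAt X _ hX'

end

section

variable {K E : Type} [Field K] [CharZero K] [Field E] [Algebra K E] [Algebra.IsAlgebraic K E]

/-- the theorem for all Galois extensions, with the converse -/
theorem equiv_GQ (F₀ : IntermediateField ℚ ℂ) [FiniteDimensional ℚ F₀] [Normal ℚ F₀]
    (hE : HasEnoughRootsOfUnity E (Nat.card (GQ (big F₀)))) {c : GQ (big F₀)} (hc : IsConjC c)
    (M : FrobData K) (Fr : Nat.Primes → GQ (big F₀)) (m : ℂ)
    (A : ArtinPeriods E (GQ (big F₀))) (r : ℕ) (cP cM : (K →+* ℂ) → ℂ) :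
    (Nonempty (AbelianTwists (fun H : Subgroup (GQ (big F₀)) => Group.IsSolvable H) c (M.map E) Fr m A r
        (lft E cP) (lft E cM)) → DeligneFor E (gal F₀ (big F₀)) c M Fr m A r cP cM) ∧
      (DeligneFor E ⊥ c M Fr m A r cP cM →
        Nonempty (AbelianTwists (fun H : Subgroup (GQ (big F₀)) => Group.IsSolvable H) c (M.map E) Fr m A r
          (lft E cP) (lft E cM))) := by
  have hE0 : CharZero E := charZero_ext (K := K)
  constructor
  · rintro ⟨h⟩ K' _ _ _ _ θ hθ a b ha hb d hd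
    have h0 : CharZero K' := charZero_of_injective_algebraMap (algebraMap K K').injective
    have h1 : Algebra.IsAlgebraic K' E := Algebra.IsAlgebraic.tower_top (K := K) K'
    have h2 : AbelianTwists (fun H : Subgroup (GQ (big F₀)) => Group.IsSolvable H) c ((M.map K').map E) Fr
        m A r (lft E (lft K' cP)) (lft E (lft K' cM)) := by
      rw [map_map, lft_lft, lft_lft]
      exact h
    exact main_GQS F₀ hE hc h2 θ hθ a b ha hb d hd
  · intro h
    exact abelian_of_all (conj_sq hc) (fun _ => exists_odd_big F₀ hc) _ h.self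

end

end Pool.Agent.Y144.DL
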