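import Pool.Agent.Y144.DL.RatioZ
import Pool.Agent.Y144.DL.Equi

/-!
# The formula for the ratios for all Artin twists is equivalent to a weak statement on abelian twists
-/

set_option autoImplicit false

namespace Pool.Agent.Y144.DL

universe u

section

variable {K K' E : Type*} [Field K] [Field K'] [Field E] [Algebra K K'] [Algebra K' E] [Algebra K E]
  [IsScalarTower K K' E] {G : Type u} [Group G]

theorem logE_tower (M : EulerData K) (Fr : M.P → G) (θ : G → E) (σ : E →+* ℂ) (s : ℂ) :
    logE ((M.map K').map E) Fr θ σ s = logE (M.map E) Fr θ σ s := by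
  unfold logE EulerData.map
  refine tsum_congr fun q => ?_
  simp only [← IsScalarTower.algebraMap_apply]

/-- the coefficients in two steps -/
noncomputable def Good2.tower {M : EulerData K} {Fr : M.P → G} {m m' : ℂ} {θ : G → E}
    (K' : Type*) [Field K'] [Algebra K K'] [Algebra K' E] [IsScalarTower K K' E]
    (f : Good2 (M.map E) Fr m m' θ) : Good2 ((M.map K').map E) Fr m m' θ where
  L := f.L
  isLE := fun σ => by
    have h := f.isLE σ
    unfold IsLE at h ⊢
    have h1 : ((M.map K').map E).a = (M.map E).a := rfl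
    rw [h1]
    simp only [logE_tower]
    exact h
  an := f.an
  an' := f.an'
  ne := f.ne
  ne' := f.ne'

end

section

variable {E : Type*} [Field E] {G : Type*} [Group G] [Finite G]

/-- The assumptions on the twists of a motive `M` of rank `n` by abelian characters. `P H` says which fields
`F'^H` are used.

* `f H χ` is the function `L(s, M ⊗ Ind_H χ)`, the twist of `M` by `χ` over `F'^H`: it has a meromorphic
  continuation, holomorphic and nonzero at `m` and `m + 1`;
* `rel`: the ratio `L(m) / L(m + 1)` is the same modulo `E^×` for `χ` and for the trivial character of `H`;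
* `base` is the formula of the question for `M` itself, up to a factor in `E`: `γ`, `γ'` are the values of
  the archimedean factor of `M` at `m`, `m + 1`, and `u = i^(d_F / 2) Δ_F`. -/
structure RatioTwists (P : Subgroup G → Prop) (M : EulerData E) (Fr : M.P → G) (m : ℂ)
    (γ γ' : (E →+* ℂ) → ℂ) (u : ℂ) (n : ℕ) where
  /-- the functions of the abelian twists -/
  f : ∀ H : Subgroup G, P H → ∀ χ : H →* Eˣ, Good2 M Fr m (m + 1) (ind H χ)
  rel : ∀ (H : Subgroup G) (h : P H) (χ : H →* Eˣ), Sim (f H h χ).ratio (f H h 1).ratio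
  /-- the function of `M` -/
  f₁ : Good2 M Fr m (m + 1) 1
  base : Sim (fun σ => (γ σ * f₁.L σ m) / (γ' σ * f₁.L σ (m + 1))) fun _ => u ^ n

end

section

variable {K : Type} [Field K]

/-- The formula of the question for `M ⊗ θ`, for the characters `θ` of all representations of the Galois group `G`
over all fields of coefficients `K'` between `K` and `E` (`d` is the dimension): `L(s, M ⊗ θ)` has a meromorphic
continuation, holomorphic and nonzero at `m` and `m + 1`, and the ratio of the values of the completed function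
is `u ^ (n d)` up to a factor in `K'`. -/
def RatioFor (E : Type) [Field E] [Algebra K E] {G : Type} [Group G]
    (M : EulerData K) (Fr : M.P → G) (m : ℂ) (γ γ' : (K →+* ℂ) → ℂ) (u : ℂ) (n : ℕ) : Prop :=
  ∀ (K' : Type) [Field K'] [Algebra K K'] [Algebra K' E] [IsScalarTower K K' E] (θ : G → K'),
    IsChar θ → ∀ d : ℕ, θ 1 = d → ∃ X : Good2 (M.map K') Fr m (m + 1) θ,
      Sim (fun τ => (lft K' γ τ ^ d * X.L τ m) / (lft K' γ' τ ^ d * X.L τ (m + 1)))
        fun _ => u ^ (n * d)

end

section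

variable {K E : Type} [Field K] [CharZero K] [Field E] [Algebra K E] [Algebra.IsAlgebraic K E]

theorem aux_div {g g' x x' w : ℂ} (hg : g ≠ 0) (hg' : g' ≠ 0) (h : g * x / (g' * x') = w) :
    x / x' = w * (g' / g) := by
  rw [← h, mul_div_mul_comm]
  field_simp

/-- the equivalence -/
theorem equiv_ratio {G : Type} [Group G] [Finite G]
    (hE : HasEnoughRootsOfUnity E (Nat.card G)) {Z : Subgroup G} (hZ : Z.Normal)
    (hZab : ∀ x ∈ Z, ∀ y ∈ Z, x * y = y * x)
    (M : EulerData K) (Fr : M.P → G) (m : ℂ) (γ γ' : (K →+* ℂ) → ℂ) (hγ : ∀ τ, γ τ ≠ 0)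
    (hγ' : ∀ τ, γ' τ ≠ 0) (u : ℂ) (n : ℕ) :
    RatioFor E (G := G) M Fr m γ γ' u n ↔
      Nonempty (RatioTwists (fun H : Subgroup G => Group.IsSolvable H ∧ Z ≤ H) (M.map E) Fr m
        (lft E γ) (lft E γ') u n) := by
  have hE0 : CharZero E := charZero_ext (K := K)
  constructor
  · intro h
    have hsig : ∀ (H : Subgroup G) (χ : H →* Eˣ), ∃ (d : ℕ)
        (X : Good2 (M.map E) Fr m (m + 1) (ind H χ)), ind H χ 1 = d ∧
          Sim (fun τ => (lft E γ τ ^ d * X.L τ m) / (lft E γ' τ ^ d * X.L τ (m + 1)))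
            fun _ => u ^ (n * d) := by
      intro H χ
      obtain ⟨a, b, h1, -⟩ := exists_signature (isChar_ind H χ) (one_mul (1 : G))
      have h2 : ind H χ 1 = ((a + b : ℕ) : E) := by
        rw [h1]
        push_cast
        rfl
      obtain ⟨X, hX⟩ := h E _ (isChar_ind H χ) (a + b) h2
      exact ⟨a + b, X, h2, hX⟩
    choose d X h1 hX using hsig
    obtain ⟨X₁, hX₁⟩ := h E 1 isChar_one 1 (by simp)
    refine ⟨⟨fun H _ χ => X H χ, ?_, X₁, ?_⟩⟩
    · intro H _ χ
      have hd : d H χ = d H 1 := by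
        have h3 : ((d H χ : ℕ) : E) = d H 1 := by rw [← h1, ← h1, ind_one_congr]
        exact_mod_cast h3
      obtain ⟨e, he, h3⟩ := hX H χ
      obtain ⟨e', he', h4⟩ := hX H 1
      refine ⟨e / e', div_ne_zero he he', fun σ => ?_⟩
      have n1 : lft E γ σ ≠ 0 := hγ _
      have n2 : lft E γ' σ ≠ 0 := hγ' _
      have n3 : σ e' ≠ 0 := (map_ne_zero σ).2 he'
      have n4 := pow_ne_zero (d H 1) n1
      have n5 := pow_ne_zero (d H 1) n2
      have h5 : lft E γ σ ^ d H 1 * (X H χ).L σ m / (lft E γ' σ ^ d H 1 * (X H χ).L σ (m + 1)) =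
          σ e * u ^ (n * d H 1) := by
        have h9 := h3 σ
        rw [hd] at h9
        exact h9
      have h6 : lft E γ σ ^ d H 1 * (X H 1).L σ m / (lft E γ' σ ^ d H 1 * (X H 1).L σ (m + 1)) =
          σ e' * u ^ (n * d H 1) := h4 σ
      have h7 := aux_div n4 n5 h5
      have h8 := aux_div n4 n5 h6
      show (X H χ).L σ m / (X H χ).L σ (m + 1) = σ (e / e') * ((X H 1).L σ m / (X H 1).L σ (m + 1))
      rw [h7, h8, map_div₀]
      field_simp
    · obtain ⟨e, he, h3⟩ := hX₁
      refine ⟨e, he, fun σ => ?_⟩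
      have h4 := h3 σ
      simp only [pow_one, mul_one] at h4
      exact h4
  · rintro ⟨h⟩ K' _ _ _ _ θ hθ d hd
    have h0 : CharZero K' := charZero_of_injective_algebraMap (algebraMap K K').injective
    have h1 : Algebra.IsAlgebraic K' E := Algebra.IsAlgebraic.tower_top (K := K) K'
    obtain ⟨F, hF⟩ := ratiosZ hE hZ hZab h.f h.rel h.f₁ (fun g => algebraMap K' E (θ g))
      (isChar_map hθ) d (by rw [hd, map_natCast])
    obtain ⟨y, hy⟩ : ∃ y : (K' →+* ℂ) → ℂ,
      y = fun τ => u ^ (n * d) * (lft K' γ' τ / lft K' γ τ) ^ d := ⟨_, rfl⟩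
    have hγE : ∀ σ : E →+* ℂ, lft K' γ (σ.comp (algebraMap K' E)) = lft E γ σ :=
      fun σ => congrFun (lft_lft (K' := K') (E := E) γ) σ
    have hγE' : ∀ σ : E →+* ℂ, lft K' γ' (σ.comp (algebraMap K' E)) = lft E γ' σ :=
      fun σ => congrFun (lft_lft (K' := K') (E := E) γ') σ
    have hsim : Sim F.ratio (lft E y) := by
      obtain ⟨e, he, h2⟩ := hF
      obtain ⟨e', he', h3⟩ := h.base
      refine ⟨e * e' ^ d, mul_ne_zero he (pow_ne_zero d he'), fun σ => ?_⟩
      have n1 : lft E γ σ ≠ 0 := hγ _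
      have n2 : lft E γ' σ ≠ 0 := hγ' _
      have h4 : h.f₁.ratio σ = σ e' * u ^ n * (lft E γ' σ / lft E γ σ) := by
        have h5 : lft E γ σ * h.f₁.L σ m / (lft E γ' σ * h.f₁.L σ (m + 1)) = σ e' * u ^ n := h3 σ
        exact aux_div n1 n2 h5
      have h6 : lft E y σ = u ^ (n * d) * (lft E γ' σ / lft E γ σ) ^ d := by
        rw [← hγE, ← hγE', hy]
        rfl
      rw [h2 σ, h6, Pi.pow_apply, h4, mul_pow, mul_pow, map_mul, map_pow, pow_mul]
      ring
    obtain ⟨X, e, he, hX⟩ := descend_Good2 (F.tower K') y hsim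
    refine ⟨X, e, he, fun τ => ?_⟩
    have n1 : lft K' γ τ ≠ 0 := hγ _
    have n2 : lft K' γ' τ ≠ 0 := hγ' _
    have h5 : X.L τ m / X.L τ (m + 1) = τ e * (u ^ (n * d) * (lft K' γ' τ / lft K' γ τ) ^ d) := by
      have h6 := hX τ
      rw [hy] at h6
      exact h6
    show lft K' γ τ ^ d * X.L τ m / (lft K' γ' τ ^ d * X.L τ (m + 1)) = τ e * u ^ (n * d)
    rw [mul_div_mul_comm, h5, div_pow]
    have n3 := pow_ne_zero d n1
    have n4 := pow_ne_zero d n2
    field_simp

end

end Pool.Agent.Y144.DL
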