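import Pool.Agent.Y144.DL.Sp
import Pool.Agent.Y144.DL.Desc

/-!
# Deligne's conjecture for all Artin twists, exact form
-/

set_option autoImplicit false

namespace Pool.Agent.Y144.DL

universe u

section

variable {E : Type*} [Field E] [CharZero E] {G : Type u} [Group G] [Finite G]

/-- the common part of the theorems, for a single character -/
theorem core1 (c : G) (ψ : G →* Eˣ) (hψ : c ≠ 1 → ψ c = -1) {M : FrobData E} {Fr : Nat.Primes → G}
    {m : ℂ} (F : LFamily M Fr m) (A : ArtinPeriods E G) (r : ℕ) (cP cM : (E →+* ℂ) → ℂ)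
    (hP : ∀ σ, cP σ ≠ 0) (hM : ∀ σ, cM σ ≠ 0) (h1 : Sim (F.value 1) (cP * A.δ 1 ^ r))
    (h2 : c ≠ 1 → Sim (F.value fun g => ψ g) (cM * A.δ (fun g => ψ g) ^ r)) (S : Set G)
    (Z : Subgroup G)
    (hrel : ∀ H : Subgroup G, Z ≤ H → ∀ χ χ' : H →* Eˣ, (∀ h : H, (h : G) ∈ S → χ h = χ' h) →
        Sim (F.value (ind H χ) * A.δ (ind H χ') ^ r) (F.value (ind H χ') * A.δ (ind H χ) ^ r))
    (θ : G → E) (hθ : IsChar θ) (a b : ℕ) (ha : θ 1 = a + b) (hb : θ c = a - b)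
    (hn : θ 1 = (a • (1 : G → E) + b • fun g => (ψ g : E)) 1 →
      θ c = (a • (1 : G → E) + b • fun g => (ψ g : E)) c →
      θ - (a • (1 : G → E) + b • fun g => (ψ g : E)) ∈ SC E S Z ⊤) :
    Sim (F.value θ) (cP ^ a * cM ^ b * A.δ θ ^ r) := by
  have hψc : IsChar (fun g => (ψ g : E)) := isChar_linear ψ
  have hone : IsChar (1 : G → E) := isChar_one
  have hω : IsChar (a • (1 : G → E) + b • fun g => (ψ g : E)) :=
    isChar_add (isChar_nsmul hone a) (isChar_nsmul hψc b)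
  have hY : ∀ θ θ' : G → E, IsChar θ → IsChar θ' → Y F A r (θ + θ') = Y F A r θ * Y F A r θ' :=
    fun θ θ' h h' => Y_add F A r h h'
  have hω1 : θ 1 = (a • (1 : G → E) + b • fun g => (ψ g : E)) 1 := by
    rw [ha]
    simp
  have hbc : c = 1 → b = 0 := by
    rintro rfl
    rw [ha] at hb
    have h3 : ((2 * b : ℕ) : E) = 0 := by
      push_cast
      linear_combination hb
    have h4 : 2 * b = 0 := by exact_mod_cast h3
    omega
  have hωc : θ c = (a • (1 : G → E) + b • fun g => (ψ g : E)) c := by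
    by_cases hc1 : c = 1
    · rw [hc1]
      exact hω1
    · rw [hb]
      simp only [Pi.add_apply, Pi.smul_apply, Pi.one_apply, hψ hc1]
      simp
      ring
  have h3 := Y_of_SC F A r S Z hrel hθ hω 1 (by
    rw [one_smul]
    exact hn hω1 hωc)
  rw [pow_one, pow_one] at h3
  have h4 : Y F A r (a • (1 : G → E) + b • fun g => (ψ g : E)) = cls (cP ^ a * cM ^ b) := by
    rw [hY _ _ (isChar_nsmul hone a) (isChar_nsmul hψc b), hY_nsmul (Y F A r) hY hone,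
      hY_nsmul (Y F A r) hY hψc, (Y_eq_cls_iff F A r hone hP).2 h1,
      cls_mul (ne_zero_pow hP a) (ne_zero_pow hM b), cls_pow hP, cls_pow hM]
    congr 1
    by_cases hc1 : c = 1
    · rw [hbc hc1, pow_zero, pow_zero]
    · rw [(Y_eq_cls_iff F A r hψc hM).2 (h2 hc1)]
  rw [h4] at h3
  exact (Y_eq_cls_iff F A r hθ (ne_zero_mul (ne_zero_pow hP a) (ne_zero_pow hM b))).1 h3

/-- the exact form for groups with all sign patterns -/
theorem exact_group (hE : HasEnoughRootsOfUnity E (Nat.card G)) (c : G) (N : Subgroup G)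
    (hN : N.Normal) (hcc : c * c = 1)
    (hSP : c ≠ 1 → ∀ U : Subgroup G, N ≤ U → SignProp {s | IsConj c s} U)
    (ψ : G →* Eˣ) (hψ : c ≠ 1 → ψ c = -1) {M : FrobData E} {Fr : Nat.Primes → G}
    {m : ℂ} (F : LFamily M Fr m) (A : ArtinPeriods E G) (r : ℕ) (cP cM : (E →+* ℂ) → ℂ)
    (hP : ∀ σ, cP σ ≠ 0) (hM : ∀ σ, cM σ ≠ 0) (h1 : Sim (F.value 1) (cP * A.δ 1 ^ r))
    (h2 : c ≠ 1 → Sim (F.value fun g => ψ g) (cM * A.δ (fun g => ψ g) ^ r))
    (hrel : ∀ (H : Subgroup G) (χ χ' : H →* Eˣ), (∀ h : H, IsConj c (h : G) → χ h = χ' h) →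
        Sim (F.value (ind H χ) * A.δ (ind H χ') ^ r) (F.value (ind H χ') * A.δ (ind H χ) ^ r))
    (θ : G → E) (hθ : IsCharN N θ) (a b : ℕ) (ha : θ 1 = a + b) (hb : θ c = a - b) :
    Sim (F.value θ) (cP ^ a * cM ^ b * A.δ θ ^ r) :=
  core1 c ψ hψ F A r cP cM hP hM h1 h2 {s | IsConj c s} ⊥ (fun H _ χ χ' he => hrel H χ χ' he)
    θ hθ.isChar a b ha hb (fun e1 e2 => brauer_sign hE hN hcc hψ hSP hθ a b e1 e2)

end

attribute [local instance high] IntermediateField.algebra'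

/-- the elements of the Galois group of `F₁` which are trivial on `F₀` -/
def fixer (F₀ F₁ : IntermediateField ℚ ℂ) : Subgroup (F₁ ≃ₐ[ℚ] F₁) where
  carrier := {g | ∀ x : F₁, (x : ℂ) ∈ F₀ → g x = x}
  one_mem' := fun _ _ => rfl
  mul_mem' := by
    intro g h hg hh x hx
    show g (h x) = x
    rw [hh x hx, hg x hx]
  inv_mem' := by
    intro g hg x hx
    show g.symm x = x
    rw [AlgEquiv.symm_apply_eq, hg x hx]

theorem mem_fixer {F₀ F₁ : IntermediateField ℚ ℂ} {g : F₁ ≃ₐ[ℚ] F₁} :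
    g ∈ fixer F₀ F₁ ↔ ∀ x : F₁, (x : ℂ) ∈ F₀ → g x = x := Iff.rfl

/-- elements of a normal subfield are mapped to elements of the subfield -/
theorem map_mem {F₀ F₁ : IntermediateField ℚ ℂ} [FiniteDimensional ℚ F₀] [Normal ℚ F₀]
    (g : F₁ ≃ₐ[ℚ] F₁) (x : F₁) (hx : (x : ℂ) ∈ F₀) : ((g x : F₁) : ℂ) ∈ F₀ := by
  have hint : IsIntegral ℚ (⟨x, hx⟩ : F₀) := Algebra.IsIntegral.isIntegral _
  have h1 : ((minpoly ℚ (⟨x, hx⟩ : F₀)).map (algebraMap ℚ F₀)).Splits := Normal.splits inferInstance _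
  have h3 := h1.image_rootSet (IntermediateField.val F₀)
  have h2 : ((g x : F₁) : ℂ) ∈ (minpoly ℚ (⟨x, hx⟩ : F₀)).rootSet ℂ := by
    rw [Polynomial.mem_rootSet_of_ne (minpoly.ne_zero hint)]
    have h4 : Polynomial.aeval x (minpoly ℚ (⟨x, hx⟩ : F₀)) = 0 := by
      have h5 : Polynomial.aeval (algebraMap F₁ ℂ x) (minpoly ℚ (⟨x, hx⟩ : F₀)) = 0 := by
        have h6 : Polynomial.aeval (algebraMap F₀ ℂ ⟨x, hx⟩) (minpoly ℚ (⟨x, hx⟩ : F₀)) = 0 := by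
          rw [Polynomial.aeval_algebraMap_apply, minpoly.aeval, map_zero]
        exact h6
      rw [Polynomial.aeval_algebraMap_apply] at h5
      exact (map_eq_zero _).1 h5
    have h7 : Polynomial.aeval (algebraMap F₁ ℂ (g x)) (minpoly ℚ (⟨x, hx⟩ : F₀)) = 0 := by
      rw [Polynomial.aeval_algebraMap_apply]
      have h8 : Polynomial.aeval (g x) (minpoly ℚ (⟨x, hx⟩ : F₀)) =
          g (Polynomial.aeval x (minpoly ℚ (⟨x, hx⟩ : F₀))) :=
        Polynomial.aeval_algHom_apply (g : F₁ →ₐ[ℚ] F₁) x _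
      rw [h8, h4, map_zero, map_zero]
    exact h7
  rw [← h3] at h2
  obtain ⟨w, _, hw⟩ := h2
  rw [← hw]
  exact w.2

theorem fixer_normal {F₀ F₁ : IntermediateField ℚ ℂ} [FiniteDimensional ℚ F₀] [Normal ℚ F₀] :
    (fixer F₀ F₁).Normal := by
  refine ⟨?_⟩
  intro n hn g x hx
  show g (n (g⁻¹ x)) = x
  rw [hn (g⁻¹ x) (map_mem g⁻¹ x hx)]
  exact g.apply_symm_apply x

theorem conj_sq {F₁ : IntermediateField ℚ ℂ} {c : F₁ ≃ₐ[ℚ] F₁}
    (hc : ∀ x : F₁, ((c x : F₁) : ℂ) = (starRingEnd ℂ) (x : ℂ)) : c * c = 1 := by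
  apply AlgEquiv.ext
  intro x
  apply Subtype.ext
  show ((c (c x) : F₁) : ℂ) = x
  rw [hc, hc, Complex.conj_conj]

/-- **Deligne's conjecture for all Artin twists from relative rationality.** -/
theorem exact_field (F₀ : IntermediateField ℚ ℂ) [FiniteDimensional ℚ F₀] [Normal ℚ F₀]
    {E : Type*} [Field E] [CharZero E] (hE : HasEnoughRootsOfUnity E (Nat.card (big F₀ ≃ₐ[ℚ] big F₀)))
    (c : big F₀ ≃ₐ[ℚ] big F₀)
    (hc : ∀ x : big F₀, ((c x : big F₀) : ℂ) = (starRingEnd ℂ) (x : ℂ))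
    (ψ : (big F₀ ≃ₐ[ℚ] big F₀) →* Eˣ) (hψ : c ≠ 1 → ψ c = -1) {M : FrobData E}
    {Fr : Nat.Primes → (big F₀ ≃ₐ[ℚ] big F₀)}
    {m : ℂ} (F : LFamily M Fr m) (A : ArtinPeriods E (big F₀ ≃ₐ[ℚ] big F₀)) (r : ℕ)
    (cP cM : (E →+* ℂ) → ℂ)
    (hP : ∀ σ, cP σ ≠ 0) (hM : ∀ σ, cM σ ≠ 0) (h1 : Sim (F.value 1) (cP * A.δ 1 ^ r))
    (h2 : c ≠ 1 → Sim (F.value fun g => ψ g) (cM * A.δ (fun g => ψ g) ^ r))
    (hrel : ∀ (H : Subgroup (big F₀ ≃ₐ[ℚ] big F₀)) (χ χ' : H →* Eˣ),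
        (∀ h : H, IsConj c (h : big F₀ ≃ₐ[ℚ] big F₀) → χ h = χ' h) →
        Sim (F.value (ind H χ) * A.δ (ind H χ') ^ r) (F.value (ind H χ') * A.δ (ind H χ) ^ r))
    (θ : (big F₀ ≃ₐ[ℚ] big F₀) → E) (hθ : IsCharN (fixer F₀ (big F₀)) θ) (a b : ℕ)
    (ha : θ 1 = a + b) (hb : θ c = a - b) :
    Sim (F.value θ) (cP ^ a * cM ^ b * A.δ θ ^ r) :=
  exact_group hE c (fixer F₀ (big F₀)) fixer_normal (conj_sq hc)
    (fun _ U hU => big_signProp F₀ c hc U (fun g hg => hU hg)) ψ hψ F A r cP cM hP hM h1 h2 hrel θ hθ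
    a b ha hb

theorem IsCharN.map {K E : Type*} [Field K] [Field E] [Algebra K E] {G : Type*} [Group G]
    {N : Subgroup G} {θ : G → K} (h : IsCharN N θ) : IsCharN N fun g => algebraMap K E (θ g) := by
  obtain ⟨n, ρ, hρ, rfl⟩ := h
  refine ⟨n, ((algebraMap K E).mapMatrix (m := Fin n)).toMonoidHom.comp ρ, ?_, ?_⟩
  · intro x hx
    show (algebraMap K E).mapMatrix (ρ x) = 1
    rw [hρ x hx, map_one]
  · funext g
    exact AddMonoidHom.map_trace (algebraMap K E) (ρ g)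

/-- the theorem with the optimal field of coefficients -/
theorem exact_descended (F₀ : IntermediateField ℚ ℂ) [FiniteDimensional ℚ F₀] [Normal ℚ F₀]
    {K E : Type*} [Field K] [CharZero K] [Field E] [Algebra K E] [Algebra.IsAlgebraic K E]
    (hE : HasEnoughRootsOfUnity E (Nat.card (big F₀ ≃ₐ[ℚ] big F₀)))
    (c : big F₀ ≃ₐ[ℚ] big F₀)
    (hc : ∀ x : big F₀, ((c x : big F₀) : ℂ) = (starRingEnd ℂ) (x : ℂ))
    (ψ : (big F₀ ≃ₐ[ℚ] big F₀) →* Eˣ) (hψ : c ≠ 1 → ψ c = -1) {M : FrobData K}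
    {Fr : Nat.Primes → (big F₀ ≃ₐ[ℚ] big F₀)}
    {m : ℂ} (F : LFamily (M.map E) Fr m) (A : ArtinPeriods E (big F₀ ≃ₐ[ℚ] big F₀)) (r : ℕ)
    (cP cM : (K →+* ℂ) → ℂ)
    (hP : ∀ σ, cP σ ≠ 0) (hM : ∀ σ, cM σ ≠ 0)
    (h1 : Sim (F.value 1) ((fun σ => cP (σ.comp (algebraMap K E))) * A.δ 1 ^ r))
    (h2 : c ≠ 1 → Sim (F.value fun g => ψ g)
      ((fun σ => cM (σ.comp (algebraMap K E))) * A.δ (fun g => ψ g) ^ r))
    (hrel : ∀ (H : Subgroup (big F₀ ≃ₐ[ℚ] big F₀)) (χ χ' : H →* Eˣ),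
        (∀ h : H, IsConj c (h : big F₀ ≃ₐ[ℚ] big F₀) → χ h = χ' h) →
        Sim (F.value (ind H χ) * A.δ (ind H χ') ^ r) (F.value (ind H χ') * A.δ (ind H χ) ^ r))
    (θ : (big F₀ ≃ₐ[ℚ] big F₀) → K) (hθ : IsCharN (fixer F₀ (big F₀)) θ) (a b : ℕ)
    (ha : θ 1 = a + b) (hb : θ c = a - b) (Λ : (K →+* ℂ) → ℂ → ℂ)
    (hΛ : ∀ τ, IsLFunction M Fr θ τ (Λ τ)) (han : ∀ τ, AnalyticAt ℂ (Λ τ) m)
    (d : (K →+* ℂ) → ℂ)
    (hd : ∀ σ : E →+* ℂ, A.δ (fun g => algebraMap K E (θ g)) σ = d (σ.comp (algebraMap K E))) :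
    Sim (fun τ => Λ τ m) (cP ^ a * cM ^ b * d ^ r) := by
  have : CharZero E := charZero_of_injective_algebraMap (algebraMap K E).injective
  have key := exact_field F₀ hE c hc ψ hψ F A r (fun σ => cP (σ.comp (algebraMap K E)))
    (fun σ => cM (σ.comp (algebraMap K E))) (fun _ => hP _) (fun _ => hM _) h1 h2 hrel
    (fun g => algebraMap K E (θ g)) hθ.map a b
    (by
      show algebraMap K E (θ 1) = _
      rw [ha, map_add, map_natCast, map_natCast])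
    (by
      show algebraMap K E (θ c) = _
      rw [hb, map_sub, map_natCast, map_natCast])
  exact descended F A r cP cM hP hM hθ.isChar a b key Λ hΛ han d hd

/-- the elements of the Galois group over `F₀` have order at most two -/
theorem big_fixer_sq (F₀ : IntermediateField ℚ ℂ) [FiniteDimensional ℚ F₀] [Normal ℚ F₀] :
    ∀ g ∈ fixer F₀ (big F₀), g * g = 1 := fun g hg => big_sq F₀ g hg

end Pool.Agent.Y144.DL
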