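import Pool.Agent.Y144.DL.NF

/-!
# Definitions for the statements, and the main theorem in short form
-/

set_option autoImplicit false

namespace Pool.Agent.Y144.DL

section

variable {E : Type*} [Field E] {G : Type*} [Group G] {M : FrobData E} {Fr : Nat.Primes → G} {m : ℂ}

/-- Deligne's conjecture at `m` for `M` and, if `c ≠ 1`, for the twist by the character `ψ` with `ψ c = -1`:
`L(m, M) ∼_E c_P δ(1) ^ r` and `L(m, M ⊗ ψ) ∼_E c_M δ(ψ) ^ r`, for nonzero periods `c_P`, `c_M`. -/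
def BaseCase (c : G) (ψ : G →* Eˣ) (Λ : LFamily M Fr m) (A : ArtinPeriods E G) (r : ℕ)
    (cP cM : (E →+* ℂ) → ℂ) : Prop :=
  (∀ σ, cP σ ≠ 0) ∧ (∀ σ, cM σ ≠ 0) ∧ Sim (Λ.value 1) (cP * A.δ 1 ^ r) ∧
    (c ≠ 1 → ψ c = -1 ∧ Sim (Λ.value fun g => ψ g) (cM * A.δ (fun g => ψ g) ^ r))

/-- Relative rationality over the fields fixed by the subgroups `H`: for characters `χ`, `χ'` of `H` which
agree on the conjugates of `c` in `H` (the same signs at the real places), the quotient of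
`L(m, M ⊗ Ind_H χ)` and `L(m, M ⊗ Ind_H χ')` is the quotient of `δ(Ind_H χ) ^ r` and `δ(Ind_H χ') ^ r`, up to a
factor in `E`. -/
def RelRat [Finite G] (c : G) (Λ : LFamily M Fr m) (A : ArtinPeriods E G) (r : ℕ) : Prop :=
  ∀ (H : Subgroup G) (χ χ' : H →* Eˣ), (∀ h : H, IsConj c (h : G) → χ h = χ' h) →
    Sim (Λ.value (ind H χ) * A.δ (ind H χ') ^ r) (Λ.value (ind H χ') * A.δ (ind H χ) ^ r)

end

/-- a family over the embeddings of `K`, as a family over the embeddings of `E ⊇ K` -/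
def lft {K : Type*} (E : Type*) [Field K] [Field E] [Algebra K E] (x : (K →+* ℂ) → ℂ) :
    (E →+* ℂ) → ℂ := fun σ => x (σ.comp (algebraMap K E))

/-- `L τ` is the function `L(s, M ⊗ θ)` for the embedding `τ` of `K`, and it is holomorphic at `m`. -/
def IsLAt {K : Type*} [Field K] {G : Type*} [Group G] (M : FrobData K) (Fr : Nat.Primes → G)
    (θ : G → K) (m : ℂ) (L : (K →+* ℂ) → ℂ → ℂ) : Prop :=
  ∀ τ, IsLFunction M Fr θ τ (L τ) ∧ AnalyticAt ℂ (L τ) m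

attribute [local instance high] IntermediateField.algebra'

/-- `c` is the restriction of complex conjugation to `F` -/
def IsCC {F : IntermediateField ℚ ℂ} (c : F ≃ₐ[ℚ] F) : Prop :=
  ∀ x : F, ((c x : F) : ℂ) = (starRingEnd ℂ) (x : ℂ)

/-- the main theorem in short form -/
theorem exact_short (F₀ : IntermediateField ℚ ℂ) [FiniteDimensional ℚ F₀] [Normal ℚ F₀]
    {K E : Type*} [Field K] [CharZero K] [Field E] [Algebra K E] [Algebra.IsAlgebraic K E]
    (hE : HasEnoughRootsOfUnity E (Nat.card (big F₀ ≃ₐ[ℚ] big F₀)))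
    (c : big F₀ ≃ₐ[ℚ] big F₀) (hc : IsCC c)
    (ψ : (big F₀ ≃ₐ[ℚ] big F₀) →* Eˣ) {M : FrobData K}
    {Fr : Nat.Primes → (big F₀ ≃ₐ[ℚ] big F₀)}
    {m : ℂ} (F : LFamily (M.map E) Fr m) (A : ArtinPeriods E (big F₀ ≃ₐ[ℚ] big F₀)) (r : ℕ)
    (cP cM : (K →+* ℂ) → ℂ) (hbase : BaseCase c ψ F A r (lft E cP) (lft E cM))
    (hrel : RelRat c F A r)
    (θ : (big F₀ ≃ₐ[ℚ] big F₀) → K) (hθ : IsCharN (fixer F₀ (big F₀)) θ) (a b : ℕ)
    (ha : θ 1 = a + b) (hb : θ c = a - b) (L : (K →+* ℂ) → ℂ → ℂ) (hL : IsLAt M Fr θ m L)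
    (d : (K →+* ℂ) → ℂ) (hd : A.δ (fun g => algebraMap K E (θ g)) = lft E d) :
    Sim (fun τ => L τ m) (cP ^ a * cM ^ b * d ^ r) := by
  obtain ⟨hP, hM, h1, h2⟩ := hbase
  have : CharZero E := charZero_of_injective_algebraMap (algebraMap K E).injective
  have hlift : ∀ τ : K →+* ℂ, ∃ σ : E →+* ℂ, σ.comp (algebraMap K E) = τ := by
    intro τ
    let _ : Algebra K ℂ := τ.toAlgebra
    have φ : E →ₐ[K] ℂ := IsAlgClosed.lift
    refine ⟨(φ : E →+* ℂ), ?_⟩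
    ext x
    exact φ.commutes x
  have hP' : ∀ τ, cP τ ≠ 0 := by
    intro τ
    obtain ⟨σ, rfl⟩ := hlift τ
    exact hP σ
  have hM' : ∀ τ, cM τ ≠ 0 := by
    intro τ
    obtain ⟨σ, rfl⟩ := hlift τ
    exact hM σ
  exact exact_descended F₀ hE c hc ψ (fun h => (h2 h).1) F A r cP cM hP' hM' h1
    (fun h => (h2 h).2) hrel θ hθ a b ha hb L (fun τ => (hL τ).1) (fun τ => (hL τ).2) d
    (fun σ => congrFun hd σ)

end Pool.Agent.Y144.DL
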