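import Pool.Agent.Y144.DL.Mono
import Pool.Agent.Y144.DL.Ratio
import Pool.Agent.Y144.DL.Stmt

/-!
# Continuation and values of all twists from the abelian twists
-/

set_option autoImplicit false

namespace Pool.Agent.Y144.DL

universe u

section

variable {E : Type*} [Field E] {G : Type u} [Group G]

/-- The function `L(s, M ⊗ θ)`: for every embedding of `E`, a meromorphic function on `ℂ` with the Euler
product of `M ⊗ θ`, which is holomorphic and nonzero at `m`. -/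
structure LAt (M : FrobData E) (Fr : Nat.Primes → G) (θ : G → E) (m : ℂ) where
  /-- the function -/
  L : (E →+* ℂ) → ℂ → ℂ
  isL : ∀ σ, IsLFunction M Fr θ σ (L σ)
  an : ∀ σ, AnalyticAt ℂ (L σ) m
  ne : ∀ σ, L σ m ≠ 0

variable {M : FrobData E} {Fr : Nat.Primes → G} {θ θ' : G → E} {m : ℂ}

/-- The value `L(m, M ⊗ θ) ∈ E ⊗ ℂ = ∏_σ ℂ`. -/
def LAt.value (f : LAt M Fr θ m) : (E →+* ℂ) → ℂ := fun σ => f.L σ m

theorem IsLFunction.mul [Finite G] {σ : E →+* ℂ} {Λ Λ' : ℂ → ℂ} (h : IsLFunction M Fr θ σ Λ)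
    (h' : IsLFunction M Fr θ' σ Λ') : IsLFunction M Fr (θ + θ') σ (Λ * Λ') := by
  refine ⟨h.1.mul h'.1, ?_⟩
  intro s hs
  rw [Pi.mul_apply, h.2 s hs, h'.2 s hs, logL_add M Fr θ θ' σ hs, Complex.exp_add]

theorem logL_neg (M : FrobData E) (Fr : Nat.Primes → G) (θ : G → E) (σ : E →+* ℂ) (s : ℂ) :
    logL M Fr (-θ) σ s = -logL M Fr θ σ s := by
  unfold logL
  rw [← tsum_neg]
  refine tsum_congr fun q => ?_
  rw [Pi.neg_apply, mul_neg, map_neg]
  ring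

theorem IsLFunction.inv {σ : E →+* ℂ} {Λ : ℂ → ℂ} (h : IsLFunction M Fr θ σ Λ) :
    IsLFunction M Fr (-θ) σ Λ⁻¹ := by
  refine ⟨h.1.inv, ?_⟩
  intro s hs
  rw [Pi.inv_apply, h.2 s hs, logL_neg, Complex.exp_neg]

theorem IsLFunction.zero {σ : E →+* ℂ} : IsLFunction M Fr (0 : G → E) σ 1 := by
  refine ⟨MeromorphicOn.const 1, ?_⟩
  intro s hs
  have h1 : logL M Fr (0 : G → E) σ s = 0 := by
    unfold logL
    simp
  rw [h1, Complex.exp_zero]
  rfl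

/-- products -/
noncomputable def LAt.mul [Finite G] (f : LAt M Fr θ m) (f' : LAt M Fr θ' m) : LAt M Fr (θ + θ') m where
  L := fun σ => f.L σ * f'.L σ
  isL := fun σ => (f.isL σ).mul (f'.isL σ)
  an := fun σ => (f.an σ).mul (f'.an σ)
  ne := fun σ => mul_ne_zero (f.ne σ) (f'.ne σ)

/-- inverses -/
noncomputable def LAt.inv (f : LAt M Fr θ m) : LAt M Fr (-θ) m where
  L := fun σ => (f.L σ)⁻¹
  isL := fun σ => (f.isL σ).inv
  an := fun σ => (f.an σ).inv (f.ne σ)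
  ne := fun σ => inv_ne_zero (f.ne σ)

/-- the constant function -/
noncomputable def LAt.one : LAt M Fr (0 : G → E) m where
  L := fun _ => 1
  isL := fun _ => IsLFunction.zero
  an := fun _ => analyticAt_const
  ne := fun _ => one_ne_zero

theorem LAt.value_ne (f : LAt M Fr θ m) : ∀ σ, f.value σ ≠ 0 := f.ne

theorem exists_nsmul [Finite G] (f : LAt M Fr θ m) (n : ℕ) :
    ∃ F : LAt M Fr (n • θ) m, F.value = f.value ^ n := by
  induction n with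
  | zero =>
    rw [zero_smul]
    refine ⟨LAt.one, ?_⟩
    funext σ
    rw [pow_zero]
    rfl
  | succ n ih =>
    obtain ⟨F, hF⟩ := ih
    rw [succ_nsmul]
    refine ⟨F.mul f, ?_⟩
    rw [pow_succ, ← hF]
    rfl

/-- Relative rationality for the subgroups in the family `P`: if `χ` and `χ'` agree on `K ∩ S`, then the
quotient of `L(m, M ⊗ Ind_K χ)` and `L(m, M ⊗ Ind_K χ')` is the quotient of `δ(Ind_K χ) ^ r` and
`δ(Ind_K χ') ^ r`, up to a factor in `E`. -/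
def RelP [Finite G] {P : Subgroup G → Prop} (S : Set G)
    (f : ∀ K : Subgroup G, P K → ∀ χ : K →* Eˣ, LAt M Fr (ind K χ) m) (A : ArtinPeriods E G) (r : ℕ) :
    Prop :=
  ∀ (K : Subgroup G) (hK : P K) (χ χ' : K →* Eˣ), (∀ h : K, (h : G) ∈ S → χ h = χ' h) →
    Sim ((f K hK χ).value * A.δ (ind K χ') ^ r) ((f K hK χ').value * A.δ (ind K χ) ^ r)

variable [Finite G]

omit [Finite G] in
theorem ArtinPeriods.add_iff (A : ArtinPeriods E G) {α β : G → E} (hα : IsChar α) (hβ : IsChar β) :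
    ∃ e : E, e ≠ 0 ∧ ∀ σ : E →+* ℂ, A.δ (α + β) σ = σ e * (A.δ α σ * A.δ β σ) := by
  obtain ⟨e, he, h⟩ := A.add α β hα hβ
  exact ⟨e, he, fun σ => h σ⟩

theorem ArtinPeriods.nsmul_add (A : ArtinPeriods E G) {ρ α : G → E} (hρ : IsChar ρ) (hα : IsChar α)
    (n : ℕ) : ∃ e : E, e ≠ 0 ∧ ∀ σ : E →+* ℂ,
      A.δ (n • ρ + α) σ = σ e * (A.δ ρ σ ^ n * A.δ α σ) := by
  induction n with
  | zero =>
    refine ⟨1, one_ne_zero, fun σ => ?_⟩
    rw [zero_smul, zero_add, pow_zero, one_mul, map_one, one_mul]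
  | succ n ih =>
    obtain ⟨e, he, h⟩ := ih
    obtain ⟨e', he', h'⟩ := A.add_iff hρ (isChar_add (isChar_nsmul hρ n) hα)
    refine ⟨e * e', mul_ne_zero he he', fun σ => ?_⟩
    rw [succ_nsmul', add_assoc, h' σ, h σ, map_mul]
    ring

/-- the functions for the virtual characters generated by the pairs -/
theorem exists_LAt [CharZero E] {P : Subgroup G → Prop} {S : Set G}
    (f : ∀ K : Subgroup G, P K → ∀ χ : K →* Eˣ, LAt M Fr (ind K χ) m) (A : ArtinPeriods E G) (r : ℕ)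
    (hrel : RelP S f A r) {D : G → E} (hD : D ∈ SCT P E S) :
    ∃ (F : LAt M Fr D m) (α β : G → E), IsChar α ∧ IsChar β ∧ D = α - β ∧
      ∃ e : E, e ≠ 0 ∧ ∀ σ, F.L σ m * A.δ β σ ^ r = σ e * A.δ α σ ^ r := by
  classical
  have := Fintype.ofFinite G
  induction hD using AddSubgroup.closure_induction with
  | mem D hD =>
    obtain ⟨K, χ, χ', hK, he, rfl⟩ := hD
    rw [sub_eq_add_neg]
    have hχ := isChar_ind K χ
    have hχ' := isChar_ind K χ'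
    obtain ⟨e, he0, h⟩ := hrel K hK χ χ' he
    refine ⟨(f K hK χ).mul (f K hK χ').inv, ind K χ, ind K χ', hχ, hχ', (sub_eq_add_neg _ _).symm,
      e, he0, fun σ => ?_⟩
    have h1 : (f K hK χ).L σ m * A.δ (ind K χ') σ ^ r =
        σ e * ((f K hK χ').L σ m * A.δ (ind K χ) σ ^ r) := h σ
    show (f K hK χ).L σ m * ((f K hK χ').L σ m)⁻¹ * A.δ (ind K χ') σ ^ r = _
    have h2 := (f K hK χ').ne σ
    field_simp
    linear_combination h1
  | zero =>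
    refine ⟨LAt.one, 0, 0, isChar_zero, isChar_zero, (sub_zero _).symm, 1, one_ne_zero, fun σ => ?_⟩
    rw [map_one]
    rfl
  | add D D' _ _ h h' =>
    obtain ⟨F, α, β, hα, hβ, rfl, e, he, h⟩ := h
    obtain ⟨F', α', β', hα', hβ', rfl, e', he', h'⟩ := h'
    obtain ⟨u, hu, h1⟩ := A.add_iff hα hα'
    obtain ⟨v, hv, h2⟩ := A.add_iff hβ hβ'
    refine ⟨F.mul F', α + α', β + β', isChar_add hα hα', isChar_add hβ hβ', by abel,
      e * e' * v ^ r * (u ^ r)⁻¹, mul_ne_zero (mul_ne_zero (mul_ne_zero he he') (pow_ne_zero r hv))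
        (inv_ne_zero (pow_ne_zero r hu)), fun σ => ?_⟩
    show F.L σ m * F'.L σ m * A.δ (β + β') σ ^ r = _
    have hu' : σ u ^ r ≠ 0 := pow_ne_zero r ((map_ne_zero σ).2 hu)
    rw [h1 σ, h2 σ, map_mul, map_mul, map_mul, map_inv₀, map_pow, map_pow, mul_pow, mul_pow, mul_pow,
      mul_pow]
    have h3 := h σ
    have h4 := h' σ
    calc F.L σ m * F'.L σ m * (σ v ^ r * (A.δ β σ ^ r * A.δ β' σ ^ r))
        = σ v ^ r * (F.L σ m * A.δ β σ ^ r) * (F'.L σ m * A.δ β' σ ^ r) := by ring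
      _ = σ v ^ r * (σ e * A.δ α σ ^ r) * (σ e' * A.δ α' σ ^ r) := by rw [h3, h4]
      _ = _ := by
        field_simp
  | neg D _ h =>
    obtain ⟨F, α, β, hα, hβ, rfl, e, he, h⟩ := h
    refine ⟨F.inv, β, α, hβ, hα, by abel, e⁻¹, inv_ne_zero he, fun σ => ?_⟩
    show (F.L σ m)⁻¹ * A.δ α σ ^ r = σ e⁻¹ * A.δ β σ ^ r
    have h1 := h σ
    have h2 := F.ne σ
    have h3 : σ e ≠ 0 := (map_ne_zero σ).2 he
    rw [map_inv₀]
    field_simp
    linear_combination -h1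

/-- The function and the value for `θ`, from the functions and values for `1`, `ψ` and the pairs. -/
theorem extend [CharZero E] {P : Subgroup G → Prop} {S : Set G}
    (f : ∀ K : Subgroup G, P K → ∀ χ : K →* Eˣ, LAt M Fr (ind K χ) m) (A : ArtinPeriods E G) (r : ℕ)
    (hrel : RelP S f A r) (ψ : G →* Eˣ) (f₁ : LAt M Fr (1 : G → E) m)
    (fψ : LAt M Fr (fun g => (ψ g : E)) m) (cP cM : (E →+* ℂ) → ℂ)
    (h1 : Sim f₁.value (cP * A.δ 1 ^ r)) (b : ℕ)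
    (h2 : b ≠ 0 → Sim fψ.value (cM * A.δ (fun g => ψ g) ^ r))
    (hθ : IsChar θ) (a : ℕ)
    (hD : θ - (a • (1 : G → E) + b • fun g => (ψ g : E)) ∈ SCT P E S) :
    ∃ X : LAt M Fr θ m, Sim X.value (cP ^ a * cM ^ b * A.δ θ ^ r) := by
  classical
  have := Fintype.ofFinite G
  have hψc : IsChar (fun g => (ψ g : E)) := isChar_linear ψ
  have hone : IsChar (1 : G → E) := isChar_one
  obtain ⟨F, α, β, hα, hβ, hDαβ, e, he, hF⟩ := exists_LAt f A r hrel hD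
  obtain ⟨F₁, hF₁⟩ := exists_nsmul f₁ a
  obtain ⟨Fψ, hFψ⟩ := exists_nsmul fψ b
  obtain ⟨e1, he1, h1⟩ := h1
  have h2' : ∃ e2 : E, e2 ≠ 0 ∧ ∀ σ, fψ.value σ ^ b =
      σ e2 * (cM σ ^ b * (A.δ (fun g => (ψ g : E)) σ ^ r) ^ b) := by
    by_cases hb : b = 0
    · refine ⟨1, one_ne_zero, fun σ => ?_⟩
      rw [hb]
      simp
    · obtain ⟨e2, he2, h2⟩ := h2 hb
      refine ⟨e2 ^ b, pow_ne_zero b he2, fun σ => ?_⟩
      rw [h2 σ, mul_pow, map_pow, Pi.mul_apply, Pi.pow_apply, mul_pow]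
  obtain ⟨e2, he2, h2'⟩ := h2'
  -- the periods
  have hsum : θ + β = a • (1 : G → E) + (b • (fun g => (ψ g : E)) + α) := by
    have h4 : θ = (α - β) + (a • (1 : G → E) + b • fun g => (ψ g : E)) := by
      rw [← hDαβ, sub_add_cancel]
    rw [h4]
    abel
  obtain ⟨u, hu, hδ1⟩ := A.nsmul_add hone (isChar_add (isChar_nsmul hψc b) hα) a
  obtain ⟨v, hv, hδ2⟩ := A.nsmul_add hψc hα b
  obtain ⟨w, hw, hδ3⟩ := A.add_iff hθ hβ
  have hkey : ∀ σ : E →+* ℂ, σ w * (A.δ θ σ * A.δ β σ) =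
      σ u * σ v * (A.δ 1 σ ^ a * (A.δ (fun g => (ψ g : E)) σ ^ b * A.δ α σ)) := by
    intro σ
    rw [← hδ3 σ, hsum, hδ1 σ, hδ2 σ]
    ring
  have key : ∀ θ' : G → E, θ' = θ → ∀ X : LAt M Fr θ' m, ∃ X' : LAt M Fr θ m, X'.value = X.value := by
    rintro _ rfl X
    exact ⟨X, rfl⟩
  obtain ⟨X, hX⟩ := key _ (by abel) (F.mul (F₁.mul Fψ))
  refine ⟨X, e * e1 ^ a * e2 * w ^ r * (u ^ r)⁻¹ * (v ^ r)⁻¹, ?_, ?_⟩
  · exact mul_ne_zero (mul_ne_zero (mul_ne_zero (mul_ne_zero (mul_ne_zero he (pow_ne_zero a he1)) he2)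
      (pow_ne_zero r hw)) (inv_ne_zero (pow_ne_zero r hu))) (inv_ne_zero (pow_ne_zero r hv))
  · intro σ
    have hv1 : X.value σ = F.L σ m * (f₁.value σ ^ a * fψ.value σ ^ b) := by
      rw [hX]
      show F.L σ m * (F₁.value σ * Fψ.value σ) = _
      rw [hF₁, hFψ]
      rfl
    have hu' : σ u ^ r ≠ 0 := pow_ne_zero r ((map_ne_zero σ).2 hu)
    have hv' : σ v ^ r ≠ 0 := pow_ne_zero r ((map_ne_zero σ).2 hv)
    have hβ' : A.δ β σ ^ r ≠ 0 := pow_ne_zero r (A.ne_zero β hβ σ)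
    have e3 : f₁.value σ = σ e1 * (cP σ * A.δ 1 σ ^ r) := h1 σ
    have e4 := h2' σ
    have e5 := hF σ
    have e6 : σ w ^ r * (A.δ θ σ ^ r * A.δ β σ ^ r) = σ u ^ r * σ v ^ r * ((A.δ 1 σ ^ a) ^ r *
        ((A.δ (fun g => (ψ g : E)) σ ^ b) ^ r * A.δ α σ ^ r)) := by
      rw [← mul_pow, ← mul_pow, hkey σ, mul_pow, mul_pow, mul_pow, mul_pow]
    have e7 : (A.δ (fun g => (ψ g : E)) σ ^ r) ^ b = (A.δ (fun g => (ψ g : E)) σ ^ b) ^ r :=
      pow_right_comm _ _ _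
    have e8 : (A.δ 1 σ ^ r) ^ a = (A.δ 1 σ ^ a) ^ r := pow_right_comm _ _ _
    rw [hv1, e3, e4, mul_pow, mul_pow, e7, e8]
    simp only [Pi.mul_apply, Pi.pow_apply, map_mul, map_pow, map_inv₀]
    apply mul_right_cancel₀ (mul_ne_zero (mul_ne_zero hβ' hu') hv')
    calc F.L σ m * (σ e1 ^ a * (cP σ ^ a * (A.δ 1 σ ^ a) ^ r) * (σ e2 * (cM σ ^ b *
          (A.δ (fun g => (ψ g : E)) σ ^ b) ^ r))) * (A.δ β σ ^ r * σ u ^ r * σ v ^ r)
        = (F.L σ m * A.δ β σ ^ r) * (σ u ^ r * σ v ^ r * ((A.δ 1 σ ^ a) ^ r *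
          (A.δ (fun g => (ψ g : E)) σ ^ b) ^ r)) * (σ e1 ^ a * cP σ ^ a * σ e2 * cM σ ^ b) := by ring
      _ = (σ e * A.δ α σ ^ r) * (σ u ^ r * σ v ^ r * ((A.δ 1 σ ^ a) ^ r *
          (A.δ (fun g => (ψ g : E)) σ ^ b) ^ r)) * (σ e1 ^ a * cP σ ^ a * σ e2 * cM σ ^ b) := by rw [e5]
      _ = σ e * (σ u ^ r * σ v ^ r * ((A.δ 1 σ ^ a) ^ r *
          ((A.δ (fun g => (ψ g : E)) σ ^ b) ^ r * A.δ α σ ^ r))) *
          (σ e1 ^ a * cP σ ^ a * σ e2 * cM σ ^ b) := by ring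
      _ = σ e * (σ w ^ r * (A.δ θ σ ^ r * A.δ β σ ^ r)) *
          (σ e1 ^ a * cP σ ^ a * σ e2 * cM σ ^ b) := by rw [e6]
      _ = _ := by
        field_simp

omit [Finite G] in
/-- descent of the field of coefficients -/
theorem descend_LAt {K : Type*} [Field K] [CharZero K] [Algebra K E] [Algebra.IsAlgebraic K E]
    {M : FrobData K} {θ : G → K} (X : LAt (M.map E) Fr (fun g => algebraMap K E (θ g)) m)
    (y : (K →+* ℂ) → ℂ) (h : Sim X.value (lft E y)) :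
    ∃ X₀ : LAt M Fr θ m, Sim X₀.value y := by
  classical
  have hlift : ∀ τ : K →+* ℂ, ∃ σ : E →+* ℂ, σ.comp (algebraMap K E) = τ := by
    intro τ
    let _ : Algebra K ℂ := τ.toAlgebra
    have φ : E →ₐ[K] ℂ := IsAlgClosed.lift
    refine ⟨(φ : E →+* ℂ), ?_⟩
    ext x
    exact φ.commutes x
  choose ι hι using hlift
  have hL : ∀ σ : E →+* ℂ, IsLFunction M Fr θ (σ.comp (algebraMap K E)) (X.L σ) := by
    intro σ
    refine ⟨(X.isL σ).1, ?_⟩
    intro s hs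
    rw [(X.isL σ).2 s hs, logL_map]
  let X₀ : LAt M Fr θ m :=
    { L := fun τ => X.L (ι τ)
      isL := fun τ => by
        have h1 := hL (ι τ)
        rwa [hι] at h1
      an := fun τ => X.an _
      ne := fun τ => X.ne _ }
  have hy : ∀ σ, lft E y σ ≠ 0 := by
    intro σ h0
    obtain ⟨e, _, h⟩ := h
    apply X.ne σ
    have h3 := h σ
    rw [h0, mul_zero] at h3
    exact h3
  refine ⟨X₀, Sim.descend h hy X₀.value y ?_ (fun σ => rfl)⟩
  intro σ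
  refine eq_of_eq_halfPlane (X.isL σ).1 (X.isL (ι (σ.comp (algebraMap K E)))).1 (a := M.a) ?_ (X.an _)
    (X.an _)
  intro s hs
  have h1 := hL (ι (σ.comp (algebraMap K E)))
  rw [hι] at h1
  rw [(hL σ).2 s hs, h1.2 s hs]

end

end Pool.Agent.Y144.DL
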