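import Pool.Agent.Y144.DL.LFun

/-!
# Families of L-values and of periods
-/

set_option autoImplicit false

namespace Pool.Agent.Y144.DL

variable {E : Type*} [Field E] {G : Type*} [Group G]

/-- The functions `L(s, M ⊗ θ)`, `θ` a character of `G`, for a motive `M` over `ℚ` with Frobenius traces `M`
and a Galois extension of `ℚ` with group `G` and Frobenius elements `Fr`; they are assumed to have
meromorphic continuations which are holomorphic and different from zero at the point `m`. -/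
structure LFamily (M : FrobData E) (Fr : Nat.Primes → G) (m : ℂ) where
  /-- the functions, for every character and every embedding -/
  L : (G → E) → (E →+* ℂ) → ℂ → ℂ
  isLFunction : ∀ θ, IsChar θ → ∀ σ, IsLFunction M Fr θ σ (L θ σ)
  analytic : ∀ θ, IsChar θ → ∀ σ, AnalyticAt ℂ (L θ σ) m
  ne_zero : ∀ θ, IsChar θ → ∀ σ, L θ σ m ≠ 0

/-- The value `L(m, M ⊗ θ) ∈ E ⊗ ℂ = ∏_σ ℂ`. -/
def LFamily.value {M : FrobData E} {Fr : Nat.Primes → G} {m : ℂ} (F : LFamily M Fr m) (θ : G → E) :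
    (E →+* ℂ) → ℂ := fun σ => F.L θ σ m

theorem LFamily.value_ne {M : FrobData E} {Fr : Nat.Primes → G} {m : ℂ} (F : LFamily M Fr m)
    {θ : G → E} (h : IsChar θ) : ∀ σ, F.value θ σ ≠ 0 := F.ne_zero θ h

/-- The periods `δ(θ) ∈ (E ⊗ ℂ)^×` of the Artin motives, multiplicative up to `E^×`. -/
structure ArtinPeriods (E G : Type*) [Field E] [Group G] where
  /-- the period of the Artin motive with character `θ` -/
  δ : (G → E) → (E →+* ℂ) → ℂ
  ne_zero : ∀ θ, IsChar θ → ∀ σ, δ θ σ ≠ 0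
  add : ∀ θ θ', IsChar θ → IsChar θ' → Sim (δ (θ + θ')) (δ θ * δ θ')

theorem alg1 {A : Type*} [CommGroup A] (a b x y : A) (r : ℕ) :
    a * b * ((x * y) ^ r)⁻¹ = a * (x ^ r)⁻¹ * (b * (y ^ r)⁻¹) := by
  rw [mul_pow, mul_inv]
  exact mul_mul_mul_comm _ _ _ _

theorem alg2 {A : Type*} [CommGroup A] (a b x y : A) : a * x⁻¹ = b * y⁻¹ ↔ a * y = b * x := by
  rw [mul_inv_eq_iff_eq_mul, mul_right_comm, eq_mul_inv_iff_mul_eq]

theorem alg3 {A : Type*} [CommGroup A] (a x y : A) (N : ℕ) :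
    (a * x⁻¹) ^ N = y ^ N ↔ a ^ N = (y * x) ^ N := by
  rw [mul_pow, inv_pow, mul_inv_eq_iff_eq_mul, ← mul_pow]

variable {M : FrobData E} {Fr : Nat.Primes → G} {m : ℂ}

/-- the class of `L(m, M ⊗ θ) / δ(θ) ^ r` -/
noncomputable def Y (F : LFamily M Fr m) (A : ArtinPeriods E G) (r : ℕ) (θ : G → E) : PeriodClass E :=
  cls (F.value θ) * (cls (A.δ θ) ^ r)⁻¹

theorem Y_add [Finite G] (F : LFamily M Fr m) (A : ArtinPeriods E G) (r : ℕ) {θ θ' : G → E}
    (h : IsChar θ) (h' : IsChar θ') : Y F A r (θ + θ') = Y F A r θ * Y F A r θ' := by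
  have hh := isChar_add h h'
  have h1 : F.value (θ + θ') = F.value θ * F.value θ' := by
    funext σ
    exact value_add M Fr (F.isLFunction θ h σ) (F.isLFunction θ' h' σ) (F.isLFunction _ hh σ)
      (F.analytic θ h σ) (F.analytic θ' h' σ) (F.analytic _ hh σ)
  have h2 : cls (A.δ (θ + θ')) = cls (A.δ θ) * cls (A.δ θ') := by
    rw [← cls_mul (A.ne_zero θ h) (A.ne_zero θ' h')]
    refine (cls_eq_iff (A.ne_zero _ hh) ?_).2 (A.add θ θ' h h')
    intro σ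
    exact mul_ne_zero (A.ne_zero θ h σ) (A.ne_zero θ' h' σ)
  unfold Y
  rw [h1, h2, cls_mul (F.value_ne h) (F.value_ne h')]
  exact alg1 (A := PeriodClass E) (cls (F.value θ)) (cls (F.value θ')) (cls (A.δ θ)) (cls (A.δ θ')) r

theorem ne_zero_pow {x : (E →+* ℂ) → ℂ} (hx : ∀ σ, x σ ≠ 0) (n : ℕ) : ∀ σ, (x ^ n) σ ≠ 0 := by
  intro σ
  rw [Pi.pow_apply]
  exact pow_ne_zero n (hx σ)

theorem ne_zero_mul {x y : (E →+* ℂ) → ℂ} (hx : ∀ σ, x σ ≠ 0) (hy : ∀ σ, y σ ≠ 0) :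
    ∀ σ, (x * y) σ ≠ 0 := by
  intro σ
  rw [Pi.mul_apply]
  exact mul_ne_zero (hx σ) (hy σ)

/-- the relation between two values and the classes -/
theorem Y_eq_iff (F : LFamily M Fr m) (A : ArtinPeriods E G) (r : ℕ) {θ θ' : G → E}
    (h : IsChar θ) (h' : IsChar θ') : Y F A r θ = Y F A r θ' ↔
      Sim (F.value θ * A.δ θ' ^ r) (F.value θ' * A.δ θ ^ r) := by
  rw [← cls_eq_iff (ne_zero_mul (F.value_ne h) (ne_zero_pow (A.ne_zero θ' h') r))
    (ne_zero_mul (F.value_ne h') (ne_zero_pow (A.ne_zero θ h) r)),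
    cls_mul (F.value_ne h) (ne_zero_pow (A.ne_zero θ' h') r),
    cls_mul (F.value_ne h') (ne_zero_pow (A.ne_zero θ h) r),
    cls_pow (A.ne_zero θ' h'), cls_pow (A.ne_zero θ h)]
  exact alg2 _ _ _ _

theorem Y_eq_cls_iff (F : LFamily M Fr m) (A : ArtinPeriods E G) (r : ℕ) {θ : G → E}
    (h : IsChar θ) {x : (E →+* ℂ) → ℂ} (hx : ∀ σ, x σ ≠ 0) : Y F A r θ = cls x ↔
      Sim (F.value θ) (x * A.δ θ ^ r) := by
  rw [← cls_eq_iff (F.value_ne h) (ne_zero_mul hx (ne_zero_pow (A.ne_zero θ h) r)),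
    cls_mul hx (ne_zero_pow (A.ne_zero θ h) r), cls_pow (A.ne_zero θ h)]
  unfold Y
  rw [mul_inv_eq_iff_eq_mul]

theorem Y_pow_eq_cls_iff (F : LFamily M Fr m) (A : ArtinPeriods E G) (r N : ℕ) {θ : G → E}
    (h : IsChar θ) {x : (E →+* ℂ) → ℂ} (hx : ∀ σ, x σ ≠ 0) : Y F A r θ ^ N = cls x ^ N ↔
      Sim (F.value θ ^ N) ((x * A.δ θ ^ r) ^ N) := by
  rw [← cls_eq_iff (ne_zero_pow (F.value_ne h) N)
    (ne_zero_pow (ne_zero_mul hx (ne_zero_pow (A.ne_zero θ h) r)) N),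
    cls_pow (F.value_ne h), cls_pow (ne_zero_mul hx (ne_zero_pow (A.ne_zero θ h) r)),
    cls_mul hx (ne_zero_pow (A.ne_zero θ h) r), cls_pow (A.ne_zero θ h)]
  exact alg3 _ _ _ _

end Pool.Agent.Y144.DL
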