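import Pool.Agent.Y144.DL.Ext

/-!
# The main theorems
-/

set_option autoImplicit false

namespace Pool.Agent.Y144.DL

universe u

section

variable {E : Type*} [Field E] [CharZero E] {G : Type u} [Group G] [Finite G]

/-- the case in which `c` is central modulo a normal subgroup of odd order; only solvable subgroups are used -/
theorem brauer_oddT (hE : HasEnoughRootsOfUnity E (Nat.card G)) {c : G} {N : Subgroup G}
    (hN : N.Normal) (hodd : Odd (Nat.card N)) (hcN : ∀ g : G, g * c * g⁻¹ * c⁻¹ ∈ N)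
    (hcc : c * c = 1) {ψ : G →* Eˣ} (hψ : c ≠ 1 → ψ c = -1) {θ ω : G → E}
    (hθ : IsChar θ) (hω : IsChar ω) (h1 : θ 1 = ω 1) (h2 : θ c = ω c) :
    θ - ω ∈ SCT (fun K : Subgroup G => Group.IsSolvable K) E {s | IsConj c s} := by
  have hI : ∀ H : Subgroup G, Isol {s | IsConj c s} ψ H := by
    intro H
    refine ⟨?_, ?_, ?_⟩
    · intro s hs
      obtain ⟨u, hu⟩ := isConj_iff.1 hs
      rw [← hu]
      have h3 : u * c * u⁻¹ * (u * c * u⁻¹) = u * (c * c) * u⁻¹ := by group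
      rw [h3, hcc]
      group
    · intro s hs s' hs' K _ hK hK'
      exact conj_of_odd hN hodd hcN hcc hs hs' hK hK'
    · intro s hs hs1
      obtain ⟨u, hu⟩ := isConj_iff.1 hs
      have hc1 : c ≠ 1 := by
        rintro rfl
        apply hs1
        rw [← hu]
        group
      rw [← hu, map_mul, map_mul, hψ hc1, map_inv, mul_right_comm, mul_inv_cancel, one_mul]
  refine all_primes ?_
  intro p hp
  refine prime_part (Z := ⊥) (P₀ := Hyp ⊥ p) p hp
    (fun H K hH _ => hyp_inf hH bot_le) (fun x => exists_FG_hyp x p hp) ?_ ?_ ?_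
  · intro g x
    rw [Pi.sub_apply, Pi.sub_apply, isChar_conj hθ, isChar_conj hω]
  · intro T hT K hK _
    exact solv_mono (hT.solvable hp) hK
  · intro T hT
    refine hyp_diff hE ?_ hp hT (hI T) hθ hω h1 ?_
    · intro s hs x
      exact hs.trans (isConj_iff.2 ⟨x⁻¹, by rw [inv_inv]⟩)
    · intro s hs
      obtain ⟨u, hu⟩ := isConj_iff.1 hs
      have h5 : s = (u⁻¹)⁻¹ * c * u⁻¹ := by rw [← hu, inv_inv]
      rw [h5, isChar_conj hθ, isChar_conj hω, h2]

/-- The fields `K = F^H` which are used for a Galois extension `F` with group `G`, complex conjugation `c`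
and normal subgroup `N`: `F` is solvable over `K` and, if `N` is trivial, `K` is totally real. -/
def Used {G : Type u} [Group G] (c : G) (N H : Subgroup G) : Prop :=
  Group.IsSolvable H ∧ (N = ⊥ → c ∈ H)

theorem SCT_mono {P P' : Subgroup G → Prop} (h : ∀ K, P K → P' K) {S S' : Set G} (hS : S' ⊆ S) :
    SCT P E S ≤ SCT P' E S' := by
  unfold SCT
  rw [AddSubgroup.closure_le]
  rintro _ ⟨K, χ, χ', hK, he, rfl⟩
  exact AddSubgroup.subset_closure ⟨K, χ, χ', h K hK, fun x hx => he x (hS hx), rfl⟩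

theorem brauer_used (hE : HasEnoughRootsOfUnity E (Nat.card G)) {c : G} {N : Subgroup G}
    (hN : N.Normal) (hodd : Odd (Nat.card N)) (hcN : ∀ g : G, g * c * g⁻¹ * c⁻¹ ∈ N)
    (hcc : c * c = 1) {ψ : G →* Eˣ} (hψ : c ≠ 1 → ψ c = -1) {θ ω : G → E}
    (hθ : IsChar θ) (hω : IsChar ω) (h1 : θ 1 = ω 1) (h2 : θ c = ω c) :
    θ - ω ∈ SCT (Used c N) E {s | IsConj c s} := by
  by_cases hN1 : N = ⊥
  · have hc : ∀ g : G, g * c = c * g := by
      intro g
      have h3 := hcN g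
      rw [hN1, Subgroup.mem_bot] at h3
      have h4 : g * c = (g * c * g⁻¹ * c⁻¹) * (c * g) := by group
      rw [h4, h3, one_mul]
    have h3 := brauer_central hE hc hcc hψ hθ hω h1 h2
    refine SCT_mono (fun K hK => ⟨hK.1, fun _ => hK.2⟩) ?_ h3
    intro s hs
    obtain ⟨u, hu⟩ := isConj_iff.1 hs
    show s = c
    rw [← hu, hc, mul_assoc, mul_inv_cancel, mul_one]
  · refine SCT_mono (fun K hK => ⟨hK, fun h => absurd h hN1⟩) le_rfl
      (brauer_oddT hE hN hodd hcN hcc hψ hθ hω h1 h2)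

omit [CharZero E] in
theorem lft_comb {K : Type*} [Field K] [Algebra K E] (x y z : (K →+* ℂ) → ℂ) (a b r : ℕ) :
    lft E x ^ a * lft E y ^ b * lft E z ^ r = lft E (x ^ a * y ^ b * z ^ r) := rfl

omit [CharZero E] in
theorem charZero_ext {K : Type*} [Field K] [CharZero K] [Algebra K E] : CharZero E :=
  charZero_of_injective_algebraMap (algebraMap K E).injective

omit [CharZero E] in
theorem char_vals {K : Type*} [Field K] [CharZero K] [Algebra K E] (c : G) (ψ : G →* Eˣ)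
    (hψ : c ≠ 1 → ψ c = -1) (θ : G → K) (a b : ℕ) (ha : θ 1 = a + b) (hb : θ c = a - b) :
    (fun g => algebraMap K E (θ g)) 1 = (a • (1 : G → E) + b • fun g => (ψ g : E)) 1 ∧
    (fun g => algebraMap K E (θ g)) c = (a • (1 : G → E) + b • fun g => (ψ g : E)) c ∧
    (c = 1 → b = 0) := by
  have hbc : c = 1 → b = 0 := by
    rintro rfl
    rw [ha] at hb
    have h3 : ((2 * b : ℕ) : K) = 0 := by
      push_cast
      linear_combination hb
    have h4 : 2 * b = 0 := by exact_mod_cast h3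
    omega
  have h1 : (fun g => algebraMap K E (θ g)) 1 = (a • (1 : G → E) + b • fun g => (ψ g : E)) 1 := by
    simp only [ha, map_add, map_natCast]
    simp
  refine ⟨h1, ?_, hbc⟩
  by_cases hc1 : c = 1
  · rw [hc1]
    exact h1
  · simp only [hb, map_sub, map_natCast, Pi.add_apply, Pi.smul_apply, Pi.one_apply, hψ hc1]
    simp
    ring

end

section

variable {K E : Type*} [Field K] [CharZero K] [Field E] [Algebra K E] [Algebra.IsAlgebraic K E]

/-- the main theorem for groups in which `c` is central modulo a normal subgroup of odd order -/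
theorem main_group {G : Type u} [Group G] [Finite G]
    (hE : HasEnoughRootsOfUnity E (Nat.card G)) (c : G) (N : Subgroup G)
    (hN : N.Normal) (hodd : Odd (Nat.card N)) (hcN : ∀ g : G, g * c * g⁻¹ * c⁻¹ ∈ N)
    (hcc : c * c = 1) {M : FrobData K} {Fr : Nat.Primes → G} {m : ℂ}
    (f : ∀ H : Subgroup G, Used c N H → ∀ χ : H →* Eˣ, LAt (M.map E) Fr (ind H χ) m)
    (A : ArtinPeriods E G) (r : ℕ) (hrel : RelP {s | IsConj c s} f A r)
    (ψ : G →* Eˣ) (hψ : c ≠ 1 → ψ c = -1)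
    (f₁ : LAt (M.map E) Fr (1 : G → E) m) (fψ : LAt (M.map E) Fr (fun g => (ψ g : E)) m)
    (cP cM : (K →+* ℂ) → ℂ) (h1 : Sim f₁.value (lft E cP * A.δ 1 ^ r))
    (h2 : c ≠ 1 → Sim fψ.value (lft E cM * A.δ (fun g => ψ g) ^ r))
    (θ : G → K) (hθ : IsChar θ) (a b : ℕ) (ha : θ 1 = a + b) (hb : θ c = a - b)
    (d : (K →+* ℂ) → ℂ) (hd : A.δ (fun g => algebraMap K E (θ g)) = lft E d) :
    ∃ X : LAt M Fr θ m, Sim X.value (cP ^ a * cM ^ b * d ^ r) := by
  have hE0 : CharZero E := charZero_ext (K := K)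
  obtain ⟨e1, e2, e3⟩ := char_vals c ψ hψ θ a b ha hb
  have hθE : IsChar fun g => algebraMap K E (θ g) := isChar_map hθ
  have hD := brauer_used hE hN hodd hcN hcc hψ hθE
    (isChar_add (isChar_nsmul isChar_one a) (isChar_nsmul (isChar_linear ψ) b)) e1 e2
  obtain ⟨X, hX⟩ := extend f A r hrel ψ f₁ fψ (lft E cP) (lft E cM) h1 b
    (fun hb0 => h2 (fun hc1 => hb0 (e3 hc1))) hθE a hD
  rw [hd, lft_comb] at hX
  exact descend_LAt X _ hX

end

attribute [local instance high] IntermediateField.algebra'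

theorem big_ne_one (F₀ : IntermediateField ℚ ℂ) [FiniteDimensional ℚ F₀] (c : big F₀ ≃ₐ[ℚ] big F₀)
    (hc : IsCC c) : c ≠ 1 := by
  intro h
  obtain ⟨κ, hκ⟩ := big_signProp F₀ c hc ⊤ (fun _ _ => Subgroup.mem_top _) (fun _ => -1)
    (fun _ _ _ _ _ => rfl)
  have h1 := hκ 1 (Subgroup.mem_top 1) (by
    show IsConj c 1
    rw [h])
  have h2 : (⟨1, Subgroup.mem_top 1⟩ : (⊤ : Subgroup (big F₀ ≃ₐ[ℚ] big F₀))) = 1 := rfl
  rw [h2, map_one] at h1
  exact absurd h1 (by decide)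

section

variable {K E : Type*} [Field K] [CharZero K] [Field E] [Algebra K E] [Algebra.IsAlgebraic K E]

/-- the main theorem for arbitrary Galois extensions -/
theorem main_field (F₀ : IntermediateField ℚ ℂ) [FiniteDimensional ℚ F₀] [Normal ℚ F₀]
    (hE : HasEnoughRootsOfUnity E (Nat.card (big F₀ ≃ₐ[ℚ] big F₀)))
    (c : big F₀ ≃ₐ[ℚ] big F₀) (hc : IsCC c) {M : FrobData K}
    {Fr : Nat.Primes → (big F₀ ≃ₐ[ℚ] big F₀)} {m : ℂ}
    (f : ∀ H : Subgroup (big F₀ ≃ₐ[ℚ] big F₀), Group.IsSolvable H → ∀ χ : H →* Eˣ,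
      LAt (M.map E) Fr (ind H χ) m)
    (A : ArtinPeriods E (big F₀ ≃ₐ[ℚ] big F₀)) (r : ℕ)
    (hrel : RelP {s | IsConj c s} f A r)
    (ψ : (big F₀ ≃ₐ[ℚ] big F₀) →* Eˣ) (hψ : ψ c = -1)
    (f₁ : LAt (M.map E) Fr (1 : (big F₀ ≃ₐ[ℚ] big F₀) → E) m)
    (fψ : LAt (M.map E) Fr (fun g => (ψ g : E)) m)
    (cP cM : (K →+* ℂ) → ℂ) (h1 : Sim f₁.value (lft E cP * A.δ 1 ^ r))
    (h2 : Sim fψ.value (lft E cM * A.δ (fun g => ψ g) ^ r))
    (θ : (big F₀ ≃ₐ[ℚ] big F₀) → K) (hθ : IsCharN (fixer F₀ (big F₀)) θ) (a b : ℕ)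
    (ha : θ 1 = a + b) (hb : θ c = a - b)
    (d : (K →+* ℂ) → ℂ) (hd : A.δ (fun g => algebraMap K E (θ g)) = lft E d) :
    ∃ X : LAt M Fr θ m, Sim X.value (cP ^ a * cM ^ b * d ^ r) := by
  have hE0 : CharZero E := charZero_ext (K := K)
  obtain ⟨e1, e2, _⟩ := char_vals c ψ (fun _ => hψ) θ a b ha hb
  have hD := brauer_solv hE fixer_normal (solv_exp_two (big_fixer_sq F₀)) (conj_sq hc)
    (big_ne_one F₀ c hc) hψ (fun U hU => big_signProp F₀ c hc U (fun g hg => hU hg))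
    (hθ.map (E := E)) a b e1 e2
  obtain ⟨X, hX⟩ := extend f A r hrel ψ f₁ fψ (lft E cP) (lft E cM) h1 b
    (fun _ => h2) hθ.map.isChar a hD
  rw [hd, lft_comb] at hX
  exact descend_LAt X _ hX

end

end Pool.Agent.Y144.DL
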