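import Pool.Agent.Y144.DL.Dih

/-!
# Brauer's theorem with signatures for all groups
-/

set_option autoImplicit false

namespace Pool.Agent.Y144.DL

universe u

section

variable {E : Type*} [Field E] {G : Type u} [Group G] [Finite G] [CharZero E] {S : Set G}

omit [Finite G] in
theorem Idx.change {V U : Subgroup G} {t : G} (h : Idx V U t) {u : G} (hu : u ∈ U) (huV : u ∉ V) :
    Idx V U u := by
  refine ⟨h.1, hu, huV, ?_⟩
  intro w hw
  by_cases hwV : w ∈ V
  · exact Or.inl hwV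
  · right
    rw [h.mul_mem_iff (U.inv_mem hu) hw, V.inv_mem_iff]
    exact iff_of_false huV hwV

/-- induction from a subgroup of index two -/
theorem index_two (hE : HasEnoughRootsOfUnity E (Nat.card G)) (hS : Invol S) {V U : Subgroup G} {t : G}
    (hV : Idx V U t) (hSV : SignProp S V) (hSU : SignProp S U) (χ : V →* Eˣ) :
    avg V U (ext V χ) ∈ LC E U ⊔ SC E S ⊥ U := by
  classical
  have := Fintype.ofFinite G
  obtain ⟨κ, hκ⟩ := exists_sign (E := E) hSV (ext V χ) (fun s hs hsV u hu => ext_conj V χ s hu)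
  have h1 : avg V U (ext V χ - ext V (sg E κ)) ∈ SC E S ⊥ U := by
    refine AddSubgroup.subset_closure ⟨V, _, _, hV.1, bot_le, ?_, rfl⟩
    intro s hs
    by_cases hsV : s ∈ V
    · exact (hκ s hs hsV (hS.val χ hs hsV)).symm
    · rw [ext_not_mem V _ hsV, ext_not_mem V _ hsV]
  suffices hmain : avg V U (ext V (sg E κ)) ∈ LC E U ⊔ SC E S ⊥ U by
    have h2 := add_mem ((le_sup_right : SC E S ⊥ U ≤ LC E U ⊔ SC E S ⊥ U) h1) hmain
    rwa [← avg_add, sub_add_cancel] at h2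
  by_cases hinv : ∀ s ∈ S, s ∈ V → ∀ u ∈ U, ext V (sg E κ) (u⁻¹ * s * u) = ext V (sg E κ) s
  · exact inv_case hS hV hSU _ hinv
  · push Not at hinv
    obtain ⟨s, hs, hsV, u, hu, hne⟩ := hinv
    have huV : u ∉ V := fun h => hne (ext_conj V _ s h)
    have hVu := hV.change hu huV
    let e : G → ℤˣ := fun g => if h : g ∈ V then κ ⟨g, h⟩ else 1
    have heV : ∀ g (hg : g ∈ V), e g = κ ⟨g, hg⟩ := fun g hg => dif_pos hg
    have he : ∀ a ∈ V, ∀ b ∈ V, e (a * b) = e a * e b := by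
      intro a ha b hb
      rw [heV a ha, heV b hb, heV _ (V.mul_mem ha hb), ← map_mul]
      rfl
    have hη : ∀ g (hg : g ∈ V), (sg E κ ⟨g, hg⟩ : E) = ((e g : ℤ) : E) := by
      intro g hg
      rw [sg_val, heV g hg]
    have hsV' : u⁻¹ * s * u ∈ V := (hV.normal hu (hV.1 hsV)).2 hsV
    have hprod : e s * e (u⁻¹ * s * u) = -1 := by
      have h2 : e (u⁻¹ * s * u) ≠ e s := by
        intro h3
        apply hne
        rw [ext_mem V _ hsV', ext_mem V _ hsV, hη _ hsV', hη s hsV, h3]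
      rcases Int.units_eq_one_or (e s) with h3 | h3 <;>
        rcases Int.units_eq_one_or (e (u⁻¹ * s * u)) with h4 | h4 <;> rw [h3, h4] at h2 ⊢ <;>
        first | rfl | exact absurd rfl h2
    by_cases h2 : e (u * u) = -1
    · obtain ⟨V', hV', ψ, heq, hinv'⟩ := dihedral hE hS hVu e he h2 hsV hprod (sg E κ) hη
      rw [heq]
      exact inv_case hS hV' hSU ψ hinv'
    · have h2' : e (u * u) = 1 := (Int.units_eq_one_or _).resolve_right h2
      have hus : u * s ∉ V := by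
        intro h3
        apply huV
        have h4 : u = u * s * s⁻¹ := by group
        rw [h4]
        exact V.mul_mem h3 (V.inv_mem hsV)
      have huu : u * u ∈ V := (hV.mul_mem_iff hu hu).2 Iff.rfl
      have hVus := hV.change (U.mul_mem hu (hV.1 hsV)) hus
      have h3 : e (u * s * (u * s)) = -1 := by
        have h4 : u * s * (u * s) = (u * u) * ((u⁻¹ * s * u) * s) := by group
        rw [h4, he _ huu _ (V.mul_mem hsV' hsV), he _ hsV' _ hsV, h2', one_mul, mul_comm, hprod]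
      have h5 : e s * e ((u * s)⁻¹ * s * (u * s)) = -1 := by
        have h6 : (u * s)⁻¹ * s * (u * s) = s⁻¹ * ((u⁻¹ * s * u) * s) := by group
        rw [h6, he _ (V.inv_mem hsV) _ (V.mul_mem hsV' hsV), he _ hsV' _ hsV]
        have h7 : e s⁻¹ * e s = 1 := by
          rw [← he _ (V.inv_mem hsV) _ hsV, inv_mul_cancel, heV 1 V.one_mem]
          exact map_one κ
        rw [mul_comm (e (u⁻¹ * s * u)), ← mul_assoc (e s⁻¹), h7, one_mul, hprod]
      obtain ⟨V', hV', ψ, heq, hinv'⟩ := dihedral hE hS hVus e he h3 hsV h5 (sg E κ) hη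
      rw [heq]
      exact inv_case hS hV' hSU ψ hinv'

/-- an intermediate subgroup of index two -/
theorem exists_idx_two {B T H : Subgroup G} (hBT : B ≤ T)
    (hTH : T ≤ H) (hn : ∀ t ∈ H, ∀ b ∈ B, t * b * t⁻¹ ∈ B) (hpow : ∀ t ∈ H, ∃ j : ℕ, t ^ 2 ^ j ∈ B)
    (hne : T ≠ H) : ∃ (K : Subgroup G) (t : G), Idx T K t ∧ K ≤ H := by
  classical
  have : Fact (Nat.Prime 2) := ⟨Nat.prime_two⟩
  obtain ⟨z, hzH, hzT, hz⟩ := exists_normalizing 2 hBT hTH hn hpow hne
  obtain ⟨j, hj⟩ := hpow z hzH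
  have hex : ∃ j : ℕ, z ^ 2 ^ j ∈ T := ⟨j, hBT hj⟩
  let k := Nat.find hex
  have hk : z ^ 2 ^ k ∈ T := Nat.find_spec hex
  have hk0 : k ≠ 0 := by
    intro h
    rw [h, pow_zero, pow_one] at hk
    exact hzT hk
  obtain ⟨l, hl⟩ := Nat.exists_eq_succ_of_ne_zero hk0
  let y := z ^ 2 ^ l
  have hyT : y ∉ T := Nat.find_min hex (m := l) (by show l < k; omega)
  have hyy : y * y ∈ T := by
    have h1 : y * y = z ^ 2 ^ k := by
      show z ^ 2 ^ l * z ^ 2 ^ l = z ^ 2 ^ k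
      rw [← pow_add, hl]
      congr 1
      rw [Nat.succ_eq_add_one, pow_succ]
      ring
    rw [h1]
    exact hk
  have hzz := zpow_conj_mem T z hz
  have hyn : ∀ t ∈ T, y * t * y⁻¹ ∈ T := by
    intro t ht
    have h1 := hzz ((2 ^ l : ℕ) : ℤ) t ht
    rw [zpow_natCast] at h1
    exact h1
  have hy' := zpow_conj_mem T y hyn
  let K := adj T y hy'
  have hTK : T ≤ K := fun t ht => ⟨0, t, ht, by simp⟩
  have hyK : y ∈ K := ⟨1, 1, T.one_mem, by simp⟩
  refine ⟨K, y, ⟨hTK, hyK, hyT, ?_⟩, ?_⟩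
  · rintro _ ⟨i, b, hb, rfl⟩
    rcases Int.even_or_odd' i with ⟨m, hm | hm⟩
    · left
      rw [hm, zpow_mul, zpow_ofNat, sq]
      exact T.mul_mem (T.zpow_mem hyy m) hb
    · right
      have h1 : y⁻¹ * (y ^ i * b) = (y * y) ^ m * b := by
        rw [hm, zpow_add, zpow_mul, zpow_ofNat, sq, zpow_one]
        have h2 : (y * y) ^ m * y = y * (y * y) ^ m := by
          have h3 : Commute (y * y) y := (Commute.refl y).mul_left (Commute.refl y)
          exact (h3.zpow_left m).eq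
        rw [h2]
        group
      rw [h1]
      exact T.mul_mem (T.zpow_mem hyy m) hb
  · rintro _ ⟨i, b, hb, rfl⟩
    exact H.mul_mem (H.zpow_mem (H.pow_mem hzH _) i) (hTH hb)

omit [CharZero E] in
theorem LC_le {T H : Subgroup G} {A : AddSubgroup (G → E)}
    (h : ∀ χ : T →* Eˣ, avg T H (ext T χ) ∈ A) {f : G → E} (hf : f ∈ LC E T) : avg T H f ∈ A := by
  classical
  have := Fintype.ofFinite G
  have h1 : LC E T ≤ A.comap (avgHom T H) := by
    unfold LC
    rw [AddSubgroup.closure_le]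
    rintro _ ⟨χ, rfl⟩
    exact h χ
  exact h1 hf

/-- induction along a tower of subgroups of index two -/
theorem tower (hE : HasEnoughRootsOfUnity E (Nat.card G)) (hS : Invol S) {B H : Subgroup G}
    (hn : ∀ t ∈ H, ∀ b ∈ B, t * b * t⁻¹ ∈ B) (hpow : ∀ t ∈ H, ∃ j : ℕ, t ^ 2 ^ j ∈ B)
    (hSP : ∀ U : Subgroup G, B ≤ U → SignProp S U) (n : ℕ) :
    ∀ T : Subgroup G, B ≤ T → T ≤ H → Nat.card H - Nat.card T ≤ n →
      ∀ χ : T →* Eˣ, avg T H (ext T χ) ∈ LC E H ⊔ SC E S ⊥ H := by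
  classical
  have := Fintype.ofFinite G
  induction n with
  | zero =>
    intro T hBT hTH hcard χ
    have h1 : T = H := by
      by_contra hne
      have := card_lt_of_lt (lt_of_le_of_ne hTH hne)
      omega
    subst h1
    rw [avg_self_ext]
    exact (le_sup_left : LC E T ≤ _) (AddSubgroup.subset_closure ⟨χ, rfl⟩)
  | succ n ih =>
    intro T hBT hTH hcard χ
    by_cases hne : T = H
    · subst hne
      rw [avg_self_ext]
      exact (le_sup_left : LC E T ≤ _) (AddSubgroup.subset_closure ⟨χ, rfl⟩)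
    · obtain ⟨K, t, hK, hKH⟩ := exists_idx_two hBT hTH hn hpow hne
      have h1 := index_two hE hS hK (hSP T hBT) (hSP K (hBT.trans hK.1)) χ
      have hlt : T < K := lt_of_le_of_ne hK.1 (fun h => hK.2.2.1 (h ▸ hK.2.1))
      have h3 : avg T H (ext T χ) = avg K H (avg T K (ext T χ)) := (avg_avg hKH _).symm
      rw [h3]
      obtain ⟨a, ha, b, hb, hab⟩ := AddSubgroup.mem_sup.1 h1
      rw [← hab, avg_add]
      refine add_mem ?_ ((le_sup_right : SC E S ⊥ H ≤ _) (SC_avg hKH hb))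
      refine LC_le ?_ ha
      intro χ'
      refine ih K (hBT.trans hK.1) hKH ?_ χ'
      have h4 := card_lt_of_lt hlt
      have h5 : Nat.card K ≤ Nat.card H := Subgroup.card_le_of_le hKH
      omega

end

/-! ### passage to a quotient -/

section

variable {E : Type*} [Field E] {G : Type u} [Group G] [Finite G] [CharZero E] {S : Set G}

/-- the restriction of a character which is trivial on `N` to an extension of a `2`-group by a subgroup which
is abelian modulo `N` -/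
theorem res_mem (hE : HasEnoughRootsOfUnity E (Nat.card G)) (hS : Invol S) {N B H : Subgroup G}
    (hBH : B ≤ H)
    (hab : ∀ x ∈ B, ∀ y ∈ B, x * y * (y * x)⁻¹ ∈ N)
    (hn : ∀ t ∈ H, ∀ b ∈ B, t * b * t⁻¹ ∈ B) (hpow : ∀ t ∈ H, ∃ j : ℕ, t ^ 2 ^ j ∈ B)
    (hSP : ∀ U : Subgroup G, B ≤ U → SignProp S U) {n : ℕ} (ρ : G →* Matrix (Fin n) (Fin n) E)
    (hρ : ∀ x ∈ N, ρ x = 1) :
    ext H (1 : H →* Eˣ) * (fun g => (ρ g).trace) ∈ LC E H ⊔ SC E S ⊥ H := by
  classical
  have := Fintype.ofFinite G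
  have : Fact (Nat.Prime 2) := ⟨Nat.prime_two⟩
  have hI : Isol (∅ : Set G) (1 : G →* Eˣ) H :=
    ⟨fun s hs => absurd hs (Set.notMem_empty s), fun s hs => absurd hs (Set.notMem_empty s),
      fun s hs => absurd hs (Set.notMem_empty s)⟩
  have hcomm : ∀ x ∈ B, ∀ y ∈ B, ρ (x * y) * 1 = ρ (y * x) * 1 := by
    intro x hx y hy
    have h1 : x * y = (x * y * (y * x)⁻¹) * (y * x) := by group
    rw [mul_one, mul_one, h1, map_mul, hρ _ (hab x hx y hy), one_mul]
  have h3 := clifford (S := (∅ : Set G)) (Z := B) (ψ := (1 : G →* Eˣ)) hE 2 ρ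
    (Nat.card H - Nat.card B + 1) H B 1 (Nat.lt_succ_self _) hI le_rfl hBH hn hpow
    ⟨mul_one 1, fun b _ => by rw [mul_one, one_mul], hcomm⟩ (fun h _ => by rw [mul_one, one_mul])
  simp only [mul_one] at h3
  have hle : GC E (∅ : Set G) B (1 : G →* Eˣ) H ≤ LC E H ⊔ SC E S ⊥ H := by
    have hT := tower (E := E) hE hS hn hpow hSP (Nat.card H)
    refine sup_le ?_ ?_
    · unfold SC
      rw [AddSubgroup.closure_le]
      rintro _ ⟨K, χ, χ', hK, hB, _, rfl⟩
      rw [avg_sub]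
      exact sub_mem (hT K hB hK (Nat.sub_le _ _) χ) (hT K hB hK (Nat.sub_le _ _) χ')
    · rw [AddSubgroup.closure_le]
      rintro _ (rfl | rfl)
      · exact (le_sup_left : LC E H ≤ _) (AddSubgroup.subset_closure ⟨_, rfl⟩)
      · exact (le_sup_left : LC E H ≤ _) (AddSubgroup.subset_closure ⟨_, rfl⟩)
  exact hle h3

/-- the difference restricted to such a subgroup -/
theorem diff_mem (hE : HasEnoughRootsOfUnity E (Nat.card G)) (hS : Invol S) {N B H : Subgroup G}
    (hBH : B ≤ H)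
    (hab : ∀ x ∈ B, ∀ y ∈ B, x * y * (y * x)⁻¹ ∈ N)
    (hn : ∀ t ∈ H, ∀ b ∈ B, t * b * t⁻¹ ∈ B) (hpow : ∀ t ∈ H, ∃ j : ℕ, t ^ 2 ^ j ∈ B)
    (hSP : ∀ U : Subgroup G, B ≤ U → SignProp S U) {n n' : ℕ}
    (ρ : G →* Matrix (Fin n) (Fin n) E) (ρ' : G →* Matrix (Fin n') (Fin n') E)
    (hρ : ∀ x ∈ N, ρ x = 1) (hρ' : ∀ x ∈ N, ρ' x = 1) (h1 : (ρ 1).trace = (ρ' 1).trace)
    (h2 : ∀ s ∈ S, (ρ s).trace = (ρ' s).trace) :
    ext H (1 : H →* Eˣ) * (fun g => (ρ g).trace - (ρ' g).trace) ∈ SC E S ⊥ H := by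
  have h3 : ext H (1 : H →* Eˣ) * (fun g => (ρ g).trace - (ρ' g).trace) ∈ LC E H ⊔ SC E S ⊥ H := by
    have h4 : ext H (1 : H →* Eˣ) * (fun g => (ρ g).trace - (ρ' g).trace) =
        ext H (1 : H →* Eˣ) * (fun g => (ρ g).trace) - ext H (1 : H →* Eˣ) * (fun g => (ρ' g).trace) := by
      funext g
      simp only [Pi.mul_apply, Pi.sub_apply]
      ring
    rw [h4]
    exact sub_mem (res_mem hE hS hBH hab hn hpow hSP ρ hρ) (res_mem hE hS hBH hab hn hpow hSP ρ' hρ')
  obtain ⟨a, ha, b, hb, hab'⟩ := AddSubgroup.mem_sup.1 h3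
  obtain ⟨hb1, hb2⟩ := SC_apply hS.conj hb
  have ha' : a = ext H (1 : H →* Eˣ) * (fun g => (ρ g).trace - (ρ' g).trace) - b := by
    rw [← hab', add_sub_cancel_right]
  rw [← hab']
  refine add_mem (SC_of_LC hS (hSP H hBH) ha ?_ ?_) hb
  · rw [ha', Pi.sub_apply, Pi.mul_apply, h1, sub_self, mul_zero, hb1, sub_zero]
  · intro s hs
    rw [ha', Pi.sub_apply, Pi.mul_apply, h2 s hs, sub_self, mul_zero, hb2 s hs, sub_zero]

end

end Pool.Agent.Y144.DL
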