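import Pool.Agent.Y144.DL.Full

/-!
# Brauer's theorem with signatures for all groups: assembly
-/

set_option autoImplicit false

namespace Pool.Agent.Y144.DL

universe u

/-- extensions of `2`-groups by groups which are abelian modulo `N` -/
def HyN {G : Type*} [Group G] (N H : Subgroup G) : Prop :=
  ∃ B : Subgroup G, N ≤ B ∧ B ≤ H ∧ (∀ x ∈ B, ∀ y ∈ B, x * y * (y * x)⁻¹ ∈ N) ∧
    (∀ t ∈ H, ∀ b ∈ B, t * b * t⁻¹ ∈ B) ∧ ∀ t ∈ H, ∃ j : ℕ, t ^ 2 ^ j ∈ B

theorem HyN.le {G : Type*} [Group G] {N H : Subgroup G} (h : HyN N H) : N ≤ H := by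
  obtain ⟨B, hc, hB, _⟩ := h
  exact hc.trans hB

theorem hyN_inf {G : Type*} [Group G] {N H K : Subgroup G} (h : HyN N H) (hK : N ≤ K) :
    HyN N (H ⊓ K) := by
  obtain ⟨B, hc, hB, hab, hn, hpow⟩ := h
  refine ⟨B ⊓ K, le_inf hc hK, inf_le_inf_right K hB, ?_, ?_, ?_⟩
  · intro x hx y hy
    exact hab x hx.1 y hy.1
  · intro t ht b hb
    exact ⟨hn t ht.1 b hb.1, K.mul_mem (K.mul_mem ht.2 hb.2) (K.inv_mem ht.2)⟩
  · intro t ht
    obtain ⟨j, hj⟩ := hpow t ht.1
    exact ⟨j, hj, K.pow_mem ht.2 _⟩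

variable {G : Type u} [Group G]

/-- hyperelementary subgroups of the quotient -/
theorem exists_FG_N [Finite G] (N : Subgroup G) (hN : N.Normal) (x : G) :
    ∃ f ∈ FG (HyN N), ¬ (2 : ℤ) ∣ f x := by
  classical
  have := Fact.mk Nat.prime_two
  let Q := G ⧸ N
  let π : G →* Q := QuotientGroup.mk' N
  obtain ⟨H, C, hCH, hC, hn, hpow, hdvd⟩ := exists_hyper (π x) 2
  let _ : MulAction G (Q ⧸ H) := MulAction.compHom (Q ⧸ H) π
  have hsmul : ∀ (g : G) (y : Q ⧸ H), g • y = π g • y := fun g y => rfl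
  refine ⟨fun g => Nat.card {y : Q ⧸ H // g • y = y},
    ⟨Q ⧸ H, Fintype.ofFinite _, inferInstance, ?_, fun g => rfl⟩, ?_⟩
  · intro y
    induction y using QuotientGroup.induction_on with
    | H q =>
      let θ : G →* Q := (MulAut.conj q⁻¹).toMonoidHom.comp π
      have hθ : ∀ g : G, θ g = q⁻¹ * π g * q := by
        intro g
        show q⁻¹ * π g * (q⁻¹)⁻¹ = _
        rw [inv_inv]
      have hstab : MulAction.stabilizer G (q : Q ⧸ H) = H.comap θ := by
        ext g
        rw [MulAction.mem_stabilizer_iff, Subgroup.mem_comap, hθ, hsmul]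
        have h1 : π g • (q : Q ⧸ H) = ((π g * q : Q) : Q ⧸ H) := rfl
        rw [h1, eq_comm, QuotientGroup.eq, mul_assoc]
      rw [hstab]
      refine ⟨C.comap θ, ?_, Subgroup.comap_mono hCH, ?_, ?_, ?_⟩
      · intro g hg
        have h1 : π g = 1 := by
          rw [← MonoidHom.mem_ker, QuotientGroup.ker_mk']
          exact hg
        rw [Subgroup.mem_comap, hθ, h1, mul_one, inv_mul_cancel]
        exact C.one_mem
      · intro a ha b hb
        let := hC.commGroup
        have h1 : (⟨θ a, ha⟩ : C) * ⟨θ b, hb⟩ = ⟨θ b, hb⟩ * ⟨θ a, ha⟩ := mul_comm _ _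
        have h2 : θ a * θ b = θ b * θ a := congrArg Subtype.val h1
        have h3 : θ (a * b * (b * a)⁻¹) = 1 := by
          rw [map_mul, map_inv, map_mul, map_mul, h2, mul_inv_cancel]
        rw [hθ] at h3
        have h4 : π (a * b * (b * a)⁻¹) = 1 := by
          have h5 : q * (q⁻¹ * π (a * b * (b * a)⁻¹) * q) * q⁻¹ = π (a * b * (b * a)⁻¹) := by group
          rw [← h5, h3]
          group
        rw [← MonoidHom.mem_ker, QuotientGroup.ker_mk'] at h4
        exact h4
      · intro t ht b hb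
        rw [Subgroup.mem_comap, map_mul, map_mul, map_inv]
        exact hn _ ht _ hb
      · intro t ht
        obtain ⟨j, hj⟩ := hpow (θ t) ht
        refine ⟨j, ?_⟩
        rw [Subgroup.mem_comap, map_pow]
        exact hj
  · intro h1
    apply hdvd
    have h2 : ((2 : ℕ) : ℤ) ∣ (Nat.card {y : Q ⧸ H // x • y = y} : ℤ) := h1
    exact_mod_cast h2

section

variable {E : Type*} [Field E] [CharZero E] [Finite G] {S : Set G} {Z : Subgroup G}

/-- the passage from the subgroups in a family to `G` -/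
theorem glue' (P : Subgroup G → Prop) {D : G → E} (hDconj : ∀ g x : G, D (x⁻¹ * g * x) = D g)
    (hP : ∀ H, P H → ext H (1 : H →* Eˣ) * D ∈ SC E S Z H) :
    ∀ f ∈ AddSubgroup.closure (FG P), (fun g => (f g : E) * D g) ∈ SC E S Z (⊤ : Subgroup G) := by
  classical
  have := Fintype.ofFinite G
  intro f hf
  induction hf using AddSubgroup.closure_induction with
  | mem f hf =>
    obtain ⟨X, _, _, hX, hXf⟩ := hf
    let F : X → G → E := fun x g => if g • x = x then D g else 0
    have hsum : (fun g => (f g : E) * D g) = ∑ x : X, F x := by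
      funext g
      rw [Finset.sum_apply]
      show (f g : E) * D g = ∑ x : X, if g • x = x then D g else 0
      rw [← Finset.sum_filter, Finset.sum_const, hXf, nsmul_eq_mul]
      congr 1
      rw [Nat.card_eq_fintype_card, Fintype.card_subtype]
      push_cast
      rfl
    rw [hsum]
    refine sum_orbits ⊤ F ?_ (SC E S Z ⊤) _ Finset.univ le_rfl (fun _ _ _ _ => Finset.mem_univ _) ?_
    · intro h _ x g
      have h3 : (g • h • x = h • x) ↔ (h⁻¹ * g * h) • x = x := by
        rw [mul_smul, mul_smul, inv_smul_eq_iff]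
      show (if g • h • x = h • x then D g else 0) = if (h⁻¹ * g * h) • x = x then D (h⁻¹ * g * h) else 0
      simp only [h3, hDconj]
    · intro x _
      let T := MulAction.stabilizer G x
      have hT : (⊤ : Subgroup G) ⊓ MulAction.stabilizer G x = T := top_inf_eq _
      rw [hT]
      have hF : F x = ext T (1 : T →* Eˣ) * D := by
        funext g
        rw [Pi.mul_apply]
        show (if g • x = x then D g else 0) = _
        by_cases hg : g • x = x
        · rw [if_pos hg, ext_mem T _ (show g ∈ T from hg), MonoidHom.one_apply, Units.val_one, one_mul]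
        · rw [if_neg hg, ext_not_mem T _ (show g ∉ T from hg), zero_mul]
      rw [hF]
      exact SC_avg le_top (hP T (hX x))
  | zero =>
    have h3 : (fun g => (((0 : G → ℤ) g : ℤ) : E) * D g) = 0 := by
      funext g
      simp
    rw [h3]
    exact zero_mem _
  | add a b _ _ ha hb =>
    have h3 : (fun g => (((a + b : G → ℤ) g : ℤ) : E) * D g) =
        (fun g => (a g : E) * D g) + fun g => (b g : E) * D g := by
      funext g
      simp only [Pi.add_apply, Int.cast_add]
      ring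
    rw [h3]
    exact add_mem ha hb
  | neg a _ ha =>
    have h3 : (fun g => (((-a : G → ℤ) g : ℤ) : E) * D g) = -fun g => (a g : E) * D g := by
      funext g
      simp only [Pi.neg_apply, Int.cast_neg]
      ring
    rw [h3]
    exact neg_mem ha

/-- subgroups of `ℤ` which contain for each prime an element prime to it -/
theorem one_mem_of_primes (A : AddSubgroup ℤ) (h : ∀ p : ℕ, p.Prime → ∃ l ∈ A, ¬ (p : ℤ) ∣ l) :
    (1 : ℤ) ∈ A := by
  obtain ⟨a, ha⟩ := Int.subgroup_cyclic A
  have hAa : ∀ n : ℤ, n ∈ A ↔ a ∣ n := by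
    intro n
    rw [ha, AddSubgroup.mem_closure_singleton]
    constructor
    · rintro ⟨k, rfl⟩
      exact ⟨k, by rw [smul_eq_mul, mul_comm]⟩
    · rintro ⟨k, rfl⟩
      exact ⟨k, by rw [smul_eq_mul, mul_comm]⟩
  have ha1 : a.natAbs = 1 := by
    by_contra hne
    obtain ⟨p, hp, hpa⟩ := Nat.exists_prime_and_dvd hne
    obtain ⟨l, hl, hlp⟩ := h p hp
    exact hlp ((Int.natCast_dvd.2 hpa).trans ((hAa l).1 hl))
  rw [hAa]
  exact Int.isUnit_iff_natAbs_eq.2 ha1 |>.dvd

/-- characters which are trivial on `N` -/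
def IsCharN (N : Subgroup G) (θ : G → E) : Prop :=
  ∃ (n : ℕ) (ρ : G →* Matrix (Fin n) (Fin n) E), (∀ x ∈ N, ρ x = 1) ∧ θ = fun g => (ρ g).trace

omit [CharZero E] [Finite G] in
theorem IsCharN.isChar {N : Subgroup G} {θ : G → E} (h : IsCharN N θ) : IsChar θ := by
  obtain ⟨n, ρ, _, h⟩ := h
  exact ⟨n, ρ, h⟩

omit [Finite G] in
theorem invol_of {c : G} (hcc : c * c = 1) (hc1 : c ≠ 1) : Invol {s | IsConj c s} := by
  refine ⟨?_, ?_, ?_⟩
  · intro s hs
    obtain ⟨u, hu⟩ := isConj_iff.1 hs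
    rw [← hu]
    have h3 : u * c * u⁻¹ * (u * c * u⁻¹) = u * (c * c) * u⁻¹ := by group
    rw [h3, hcc]
    group
  · intro s hs hs1
    obtain ⟨u, hu⟩ := isConj_iff.1 hs
    apply hc1
    have h3 : c = u⁻¹ * (u * c * u⁻¹) * u := by group
    rw [h3, hu, hs1]
    group
  · intro s hs x
    exact hs.trans (isConj_iff.2 ⟨x⁻¹, by rw [inv_inv]⟩)

/-- the restrictions of `θ` to the subgroups in the family are combinations of linear characters up to `SC` -/
def Nice (S : Set G) (N : Subgroup G) (θ : G → E) : Prop :=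
  ∀ H, HyN N H → ext H (1 : H →* Eˣ) * θ ∈ LC E H ⊔ SC E S ⊥ H

omit [CharZero E] in
theorem Nice.add {N : Subgroup G} {θ θ' : G → E} (h : Nice S N θ) (h' : Nice S N θ') :
    Nice S N (θ + θ') := by
  intro H hH
  rw [mul_add]
  exact add_mem (h H hH) (h' H hH)

omit [CharZero E] in
theorem Nice.sub {N : Subgroup G} {θ θ' : G → E} (h : Nice S N θ) (h' : Nice S N θ') :
    Nice S N (θ - θ') := by
  intro H hH
  rw [mul_sub]
  exact sub_mem (h H hH) (h' H hH)

omit [CharZero E] in
theorem Nice.nsmul {N : Subgroup G} {θ : G → E} (h : Nice S N θ) (n : ℕ) : Nice S N (n • θ) := by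
  intro H hH
  rw [mul_smul_comm]
  exact nsmul_mem (h H hH) n

omit [CharZero E] in
theorem nice_linear {N : Subgroup G} (ψ : G →* Eˣ) : Nice S N (fun g => (ψ g : E)) := by
  intro H _
  have h1 : ext H (1 : H →* Eˣ) * (fun g => (ψ g : E)) = ext H (ψ.comp H.subtype) := by
    funext g
    rw [Pi.mul_apply]
    by_cases hg : g ∈ H
    · rw [ext_mem H _ hg, ext_mem H _ hg, MonoidHom.one_apply, Units.val_one, one_mul]
      rfl
    · rw [ext_not_mem H _ hg, ext_not_mem H _ hg, zero_mul]
  rw [h1]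
  exact (le_sup_left : LC E H ≤ _) (AddSubgroup.subset_closure ⟨_, rfl⟩)

omit [CharZero E] in
theorem nice_one {N : Subgroup G} : Nice S N (1 : G → E) := by
  have h := nice_linear (S := S) (N := N) (1 : G →* Eˣ)
  have h1 : (fun g => ((1 : G →* Eˣ) g : E)) = (1 : G → E) := by
    funext g
    simp
  rwa [h1] at h

theorem IsCharN.nice (hE : HasEnoughRootsOfUnity E (Nat.card G)) (hS : Invol S) {N : Subgroup G}
    (hSP : ∀ U : Subgroup G, N ≤ U → SignProp S U) {θ : G → E} (h : IsCharN N θ) : Nice S N θ := by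
  rintro H ⟨B, hNB, hBH, hab, hn, hpow⟩
  obtain ⟨n, ρ, hρ, rfl⟩ := h
  exact res_mem hE hS hBH hab hn hpow (fun U hU => hSP U (hNB.trans hU)) ρ hρ

/-- **Brauer's theorem with signatures, general case.** Let `N` be a normal subgroup of `G` such that for every
`U ≥ N` all sign patterns on the `U`-conjugacy classes of conjugates of `c` in `U` are given by sign
characters of `U`. Let `θ` be a character which is trivial on `N` and `ω` a combination of linear characters of
`G` which agrees with `θ` at `1` and `c`. Then `θ - ω` is an integral combination of differences of characters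
induced by linear characters of the same subgroup `K` which agree on the conjugates of `c` in `K`. -/
theorem brauer_nice (hE : HasEnoughRootsOfUnity E (Nat.card G)) {c : G} {N : Subgroup G} (hN : N.Normal)
    (hcc : c * c = 1) {ψ : G →* Eˣ} (hψ : c ≠ 1 → ψ c = -1)
    (hSP : c ≠ 1 → ∀ U : Subgroup G, N ≤ U → SignProp {s | IsConj c s} U)
    {θ ω : G → E} (hθ : IsChar θ) (hω : IsChar ω) (hn : c ≠ 1 → Nice {s | IsConj c s} N (θ - ω))
    (h1 : θ 1 = ω 1) (h2 : θ c = ω c) :
    θ - ω ∈ SC E {s | IsConj c s} ⊥ ⊤ := by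
  classical
  by_cases hc1 : c = 1
  · refine brauer_odd hE (N := ⊥) inferInstance (by simp) ?_ hcc hψ hθ hω h1 h2
    intro g
    rw [hc1]
    simp
  · have hS := invol_of hcc hc1
    let D : G → E := θ - ω
    have hDconj : ∀ g x : G, D (x⁻¹ * g * x) = D g := by
      intro g x
      show θ (x⁻¹ * g * x) - ω (x⁻¹ * g * x) = θ g - ω g
      rw [isChar_conj hθ, isChar_conj hω]
    let A : AddSubgroup ℤ := (SC E {s | IsConj c s} ⊥ (⊤ : Subgroup G)).comap
      ((smulAddHom ℤ (G → E)).flip D)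
    have hA : ∀ n : ℤ, n ∈ A ↔ n • D ∈ SC E {s | IsConj c s} ⊥ (⊤ : Subgroup G) := fun n => Iff.rfl
    have hDS : ∀ s ∈ {s | IsConj c s}, θ s = ω s := by
      intro s hs
      obtain ⟨u, hu⟩ := isConj_iff.1 hs
      have h5 : s = (u⁻¹)⁻¹ * c * u⁻¹ := by rw [← hu, inv_inv]
      rw [h5, isChar_conj hθ, isChar_conj hω, h2]
    have htwo : ∃ l ∈ A, ¬ ((2 : ℕ) : ℤ) ∣ l := by
      obtain ⟨l, hl, hlR⟩ := banaschewski_p (AddSubgroup.closure (FG (HyN N)))
        (closure_FG_mul (fun H K hH hK => hyN_inf hH hK.le)) 2 Nat.prime_two (fun x => by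
          obtain ⟨f, hf, h⟩ := exists_FG_N N hN x
          exact ⟨f, AddSubgroup.subset_closure hf, h⟩)
      refine ⟨l, ?_, hl⟩
      rw [hA]
      have h3 := glue' (S := {s | IsConj c s}) (Z := (⊥ : Subgroup G)) (HyN N) hDconj (by
        intro H hH
        obtain ⟨a, ha, b, hb, hab'⟩ := AddSubgroup.mem_sup.1 (hn hc1 H hH)
        obtain ⟨hb1, hb2⟩ := SC_apply hS.conj hb
        have ha' : a = ext H (1 : H →* Eˣ) * D - b := by
          show a = ext H (1 : H →* Eˣ) * (θ - ω) - b
          rw [← hab', add_sub_cancel_right]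
        show ext H (1 : H →* Eˣ) * (θ - ω) ∈ _
        rw [← hab']
        refine add_mem (SC_of_LC hS (hSP hc1 H hH.le) ha ?_ ?_) hb
        · rw [ha', Pi.sub_apply, Pi.mul_apply, hb1]
          show _ * (θ 1 - ω 1) - 0 = 0
          rw [h1, sub_self, mul_zero, sub_zero]
        · intro s hs
          rw [ha', Pi.sub_apply, Pi.mul_apply, hb2 s hs]
          show _ * (θ s - ω s) - 0 = 0
          rw [hDS s hs, sub_self, mul_zero, sub_zero])
        _ hlR
      have h4 : (fun g => (((fun _ => l : G → ℤ) g : ℤ) : E) * D g) = l • D := by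
        funext g
        rw [Pi.smul_apply, zsmul_eq_mul]
      rwa [h4] at h3
    have h3 : (1 : ℤ) ∈ A := by
      refine one_mem_of_primes A ?_
      intro p hp
      by_cases hp2 : p = 2
      · subst hp2
        exact htwo
      · obtain ⟨l, hl, hlD⟩ := odd_part hE hcc hψ hθ hω h1 h2 p hp (hp.odd_of_ne_two hp2)
        exact ⟨l, hlD, hl⟩
    rw [hA, one_smul] at h3
    exact h3

/-- the version for two characters which are trivial on `N` -/
theorem brauer_full (hE : HasEnoughRootsOfUnity E (Nat.card G)) {c : G} {N : Subgroup G} (hN : N.Normal)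
    (hcc : c * c = 1) {ψ : G →* Eˣ} (hψ : c ≠ 1 → ψ c = -1)
    (hSP : c ≠ 1 → ∀ U : Subgroup G, N ≤ U → SignProp {s | IsConj c s} U)
    {θ ω : G → E} (hθ : IsCharN N θ) (hω : IsCharN N ω) (h1 : θ 1 = ω 1) (h2 : θ c = ω c) :
    θ - ω ∈ SC E {s | IsConj c s} ⊥ ⊤ :=
  brauer_nice hE hN hcc hψ hSP hθ.isChar hω.isChar (fun hc1 =>
    (hθ.nice hE (invol_of hcc hc1) (hSP hc1)).sub (hω.nice hE (invol_of hcc hc1) (hSP hc1))) h1 h2

/-- the version for a combination of the trivial character and `ψ` -/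
theorem brauer_sign (hE : HasEnoughRootsOfUnity E (Nat.card G)) {c : G} {N : Subgroup G} (hN : N.Normal)
    (hcc : c * c = 1) {ψ : G →* Eˣ} (hψ : c ≠ 1 → ψ c = -1)
    (hSP : c ≠ 1 → ∀ U : Subgroup G, N ≤ U → SignProp {s | IsConj c s} U)
    {θ : G → E} (hθ : IsCharN N θ) (a b : ℕ)
    (h1 : θ 1 = (a • (1 : G → E) + b • fun g => (ψ g : E)) 1)
    (h2 : θ c = (a • (1 : G → E) + b • fun g => (ψ g : E)) c) :
    θ - (a • (1 : G → E) + b • fun g => (ψ g : E)) ∈ SC E {s | IsConj c s} ⊥ ⊤ :=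
  brauer_nice hE hN hcc hψ hSP hθ.isChar
    (isChar_add (isChar_nsmul isChar_one a) (isChar_nsmul (isChar_linear ψ) b)) (fun hc1 =>
    (hθ.nice hE (invol_of hcc hc1) (hSP hc1)).sub
      ((nice_one.nsmul a).add ((nice_linear ψ).nsmul b))) h1 h2

end

end Pool.Agent.Y144.DL
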