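import Pool.Agent.Y144.DL.Basic

/-!
# L-functions of motives twisted by Artin representations
-/

set_option autoImplicit false

namespace Pool.Agent.Y144.DL

open Filter Topology

/-- Frobenius traces of a motive over `ℚ` with coefficients in `E`: `t p k ∈ E` is the trace of
`Frob_p ^ (k + 1)` (zero at the primes which are left out), such that the Euler product converges
absolutely for `Re s > a`, for all embeddings of `E`. -/
structure FrobData (E : Type*) [Field E] where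
  /-- the traces -/
  t : Nat.Primes → ℕ → E
  /-- the abscissa of convergence -/
  a : ℝ
  summable : ∀ (σ : E →+* ℂ) (x : ℝ), a < x → Summable fun q : Nat.Primes × ℕ =>
    ‖σ (t q.1 q.2)‖ * ((q.1 : ℕ) : ℝ) ^ (-((q.2 + 1) * x))

variable {E : Type*} [Field E] {G : Type*} [Group G]

/-- The logarithm `∑_p ∑_(k ≥ 1) σ (tr(Frob_p ^ k | M) θ(Frob_p ^ k)) p ^ (-k s) / k` of the Euler product
of `L(s, M ⊗ θ)`, for a function `θ` on the Galois group and an embedding `σ` of `E`. -/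
noncomputable def logL (M : FrobData E) (Fr : Nat.Primes → G) (θ : G → E) (σ : E →+* ℂ) (s : ℂ) : ℂ :=
  ∑' q : Nat.Primes × ℕ, σ (M.t q.1 q.2 * θ (Fr q.1 ^ (q.2 + 1))) *
    ((q.1 : ℕ) : ℂ) ^ (-((q.2 + 1) * s)) / (q.2 + 1)

/-- `Λ` is the function `L(s, M ⊗ θ)` for the embedding `σ`: it is meromorphic on `ℂ` and given by the
Euler product on the half plane of absolute convergence. -/
def IsLFunction (M : FrobData E) (Fr : Nat.Primes → G) (θ : G → E) (σ : E →+* ℂ) (Λ : ℂ → ℂ) : Prop :=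
  MeromorphicOn Λ Set.univ ∧ ∀ s : ℂ, M.a < s.re → Λ s = Complex.exp (logL M Fr θ σ s)

theorem norm_prime_cpow (p : Nat.Primes) (s : ℂ) :
    ‖((p : ℕ) : ℂ) ^ s‖ = ((p : ℕ) : ℝ) ^ s.re :=
  Complex.norm_natCast_cpow_of_pos p.2.pos s

theorem summable_logL [Finite G] (M : FrobData E) (Fr : Nat.Primes → G) (θ : G → E) (σ : E →+* ℂ) {s : ℂ}
    (hs : M.a < s.re) : Summable fun q : Nat.Primes × ℕ => σ (M.t q.1 q.2 * θ (Fr q.1 ^ (q.2 + 1))) *
    ((q.1 : ℕ) : ℂ) ^ (-((q.2 + 1) * s)) / (q.2 + 1) := by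
  obtain ⟨B, hB⟩ : ∃ B : ℝ, ∀ g : G, ‖σ (θ g)‖ ≤ B := by
    obtain ⟨B, hB⟩ := (Set.finite_range fun g : G => ‖σ (θ g)‖).bddAbove
    exact ⟨B, fun g => hB ⟨g, rfl⟩⟩
  have hB0 : 0 ≤ B := (norm_nonneg _).trans (hB 1)
  refine Summable.of_norm_bounded ((M.summable σ s.re hs).mul_left B) ?_
  rintro ⟨p, k⟩
  simp only [map_mul, norm_mul, norm_div]
  rw [norm_prime_cpow]
  have h1 : (-(((k : ℂ) + 1) * s)).re = -((k + 1) * s.re) := by
    rw [Complex.neg_re, Complex.mul_re]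
    simp
  rw [h1]
  have h2 : ‖((k : ℂ) + 1)‖ = k + 1 := by
    have : ((k : ℂ) + 1) = ((k + 1 : ℕ) : ℂ) := by push_cast; rfl
    rw [this, Complex.norm_natCast]
    push_cast
    rfl
  rw [h2]
  have h3 : (0 : ℝ) ≤ ((p : ℕ) : ℝ) ^ (-((k + 1) * s.re)) := by positivity
  have h4 : (1 : ℝ) ≤ k + 1 := by
    have : (0 : ℝ) ≤ k := Nat.cast_nonneg k
    linarith
  calc ‖σ (M.t p k)‖ * ‖σ (θ (Fr p ^ (k + 1)))‖ * ((p : ℕ) : ℝ) ^ (-((k + 1) * s.re)) / (k + 1)
      ≤ ‖σ (M.t p k)‖ * ‖σ (θ (Fr p ^ (k + 1)))‖ * ((p : ℕ) : ℝ) ^ (-((k + 1) * s.re)) :=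
        div_le_self (by positivity) h4
    _ ≤ ‖σ (M.t p k)‖ * B * ((p : ℕ) : ℝ) ^ (-((k + 1) * s.re)) := by
        gcongr
        exact hB _
    _ = B * (‖σ (M.t p k)‖ * ((p : ℕ) : ℝ) ^ (-((k + 1) * s.re))) := by ring

/-- the Artin formalism in the half plane of convergence -/
theorem logL_add [Finite G] (M : FrobData E) (Fr : Nat.Primes → G) (θ θ' : G → E) (σ : E →+* ℂ) {s : ℂ}
    (hs : M.a < s.re) : logL M Fr (θ + θ') σ s = logL M Fr θ σ s + logL M Fr θ' σ s := by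
  unfold logL
  rw [← (summable_logL M Fr θ σ hs).tsum_add (summable_logL M Fr θ' σ hs)]
  refine tsum_congr fun q => ?_
  rw [Pi.add_apply, mul_add, map_add]
  ring

/-- two meromorphic functions which agree on a half plane agree at each point where they are analytic -/
theorem eq_of_eq_halfPlane {f g : ℂ → ℂ} (hf : MeromorphicOn f Set.univ) (hg : MeromorphicOn g Set.univ)
    {a : ℝ} (h : ∀ s : ℂ, a < s.re → f s = g s) {m : ℂ} (hfm : AnalyticAt ℂ f m)
    (hgm : AnalyticAt ℂ g m) : f m = g m := by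
  have hfg : MeromorphicOn (f - g) Set.univ := hf.sub hg
  have htop : meromorphicOrderAt (f - g) ((a + 1 : ℝ) : ℂ) = ⊤ := by
    rw [meromorphicOrderAt_eq_top_iff]
    apply eventually_nhdsWithin_of_eventually_nhds
    have hopen : IsOpen {s : ℂ | a < s.re} := isOpen_lt continuous_const Complex.continuous_re
    have hmem : ((a + 1 : ℝ) : ℂ) ∈ {s : ℂ | a < s.re} := by
      show a < ((a + 1 : ℝ) : ℂ).re
      rw [Complex.ofReal_re]
      linarith
    filter_upwards [hopen.mem_nhds hmem] with s hs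
    rw [Pi.sub_apply, h s hs, sub_self]
  have htop' : meromorphicOrderAt (f - g) m = ⊤ := by
    by_contra hne
    exact (hfg.meromorphicOrderAt_ne_top_of_isPreconnected (x := m) (y := ((a + 1 : ℝ) : ℂ))
      isPreconnected_univ (Set.mem_univ _) (Set.mem_univ _) hne) htop
  rw [meromorphicOrderAt_eq_top_iff] at htop'
  have hc : ContinuousAt (f - g) m := (hfm.sub hgm).continuousAt
  have h1 : Tendsto (f - g) (𝓝[≠] m) (𝓝 ((f - g) m)) := hc.tendsto.mono_left nhdsWithin_le_nhds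
  have h2 : Tendsto (f - g) (𝓝[≠] m) (𝓝 0) := by
    refine Tendsto.congr' ?_ tendsto_const_nhds
    filter_upwards [htop'] with s hs
    exact hs.symm
  have h3 := tendsto_nhds_unique h1 h2
  rw [Pi.sub_apply] at h3
  exact sub_eq_zero.1 h3

/-- the Artin formalism for the values -/
theorem value_add [Finite G] (M : FrobData E) (Fr : Nat.Primes → G) {θ θ' : G → E} {σ : E →+* ℂ}
    {Λ Λ' Λ'' : ℂ → ℂ} (h : IsLFunction M Fr θ σ Λ) (h' : IsLFunction M Fr θ' σ Λ')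
    (h'' : IsLFunction M Fr (θ + θ') σ Λ'') {m : ℂ} (hm : AnalyticAt ℂ Λ m) (hm' : AnalyticAt ℂ Λ' m)
    (hm'' : AnalyticAt ℂ Λ'' m) : Λ'' m = Λ m * Λ' m := by
  refine eq_of_eq_halfPlane (f := Λ'') (g := Λ * Λ') (a := M.a) h''.1 (h.1.mul h'.1) ?_ hm''
    (hm.mul hm')
  intro s hs
  rw [Pi.mul_apply, h''.2 s hs, h.2 s hs, h'.2 s hs, logL_add M Fr θ θ' σ hs, Complex.exp_add]

/-! ### the relation `∼_E` -/

/-- `x ∼_E y` for nonzero elements of `E ⊗ ℂ = ∏_σ ℂ`, the product over the embeddings `σ` of `E` in `ℂ`: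
`x = e y` for some `e ∈ E`. -/
def Sim (x y : (E →+* ℂ) → ℂ) : Prop := ∃ e : E, e ≠ 0 ∧ ∀ σ, x σ = σ e * y σ

/-- the diagonal embedding of `E^×` in `∏_σ ℂ^×` -/
def scalars (E : Type*) [Field E] : Subgroup ((E →+* ℂ) → ℂˣ) :=
  (MonoidHom.pi fun σ : E →+* ℂ => Units.map (σ : E →* ℂ)).range

/-- `(E ⊗ ℂ)^×` modulo `E^×` -/
abbrev PeriodClass (E : Type*) [Field E] : Type _ := ((E →+* ℂ) → ℂˣ) ⧸ scalars E

/-- the class of a family of nonzero numbers -/
noncomputable def cls (x : (E →+* ℂ) → ℂ) : PeriodClass E :=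
  QuotientGroup.mk (fun σ => by classical exact if h : x σ = 0 then 1 else Units.mk0 (x σ) h)

theorem cls_mul {x y : (E →+* ℂ) → ℂ} (hx : ∀ σ, x σ ≠ 0) (hy : ∀ σ, y σ ≠ 0) :
    cls (x * y) = cls x * cls y := by
  unfold cls
  rw [← QuotientGroup.mk_mul]
  congr 1
  funext σ
  simp only [Pi.mul_apply]
  rw [dif_neg (hx σ), dif_neg (hy σ), dif_neg (mul_ne_zero (hx σ) (hy σ))]
  apply Units.ext
  simp

theorem cls_pow {x : (E →+* ℂ) → ℂ} (hx : ∀ σ, x σ ≠ 0) (n : ℕ) : cls (x ^ n) = cls x ^ n := by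
  unfold cls
  rw [← QuotientGroup.mk_pow]
  congr 1
  funext σ
  simp only [Pi.pow_apply]
  rw [dif_neg (hx σ), dif_neg (pow_ne_zero n (hx σ))]
  apply Units.ext
  simp

/-- Equality of classes is the relation `∼_E`. -/
theorem cls_eq_iff {x y : (E →+* ℂ) → ℂ} (hx : ∀ σ, x σ ≠ 0) (hy : ∀ σ, y σ ≠ 0) :
    cls x = cls y ↔ Sim x y := by
  unfold cls Sim
  rw [eq_comm, QuotientGroup.eq]
  constructor
  · rintro ⟨e, he⟩
    refine ⟨(e : E), e.ne_zero, fun σ => ?_⟩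
    have h1 := congrFun he σ
    rw [Pi.mul_apply, Pi.inv_apply, dif_neg (hx σ), dif_neg (hy σ)] at h1
    have h2 : σ (e : E) = (y σ)⁻¹ * x σ := congrArg Units.val h1
    rw [h2]
    field_simp [hy σ]
  · rintro ⟨e, he, h⟩
    refine ⟨Units.mk0 e he, ?_⟩
    funext σ
    rw [Pi.mul_apply, Pi.inv_apply, dif_neg (hx σ), dif_neg (hy σ)]
    apply Units.ext
    show σ e = (y σ)⁻¹ * x σ
    rw [h σ]
    field_simp [hy σ]

end Pool.Agent.Y144.DL
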