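import Pool.Agent.Y144.DL.NF

/-!
# Induction from solvable subgroups only
-/

set_option autoImplicit false

namespace Pool.Agent.Y144.DL

universe u

/-! ### solvable subgroups -/

section

variable {G : Type u} [Group G]

theorem solv_mono {H K : Subgroup G} (h : Group.IsSolvable H) (hK : K ≤ H) : Group.IsSolvable K :=
  Group.isSolvable_of_isSolvable_injective (Subgroup.inclusion_injective hK)

theorem solv_ext {B T : Subgroup G} (hB : Group.IsSolvable B)
    (hn : ∀ t ∈ T, ∀ b ∈ B, t * b * t⁻¹ ∈ B)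
    (hq : ∀ (h : (B.subgroupOf T).Normal), Group.IsSolvable (T ⧸ B.subgroupOf T)) : Group.IsSolvable T := by
  have hN : (B.subgroupOf T).Normal := by
    refine ⟨?_⟩
    intro b hb t
    exact hn t t.2 b hb
  have h1 : Group.IsSolvable (B.subgroupOf T) := by
    let f : B.subgroupOf T →* B :=
      { toFun := fun x => ⟨x, x.2⟩
        map_one' := rfl
        map_mul' := fun _ _ => rfl }
    have hf : Function.Injective f := by
      intro x y hxy
      apply Subtype.ext
      apply Subtype.ext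
      exact congrArg (fun z : B => (z : G)) hxy
    exact Group.isSolvable_of_isSolvable_injective hf
  have h2 := hq hN
  exact Group.isSolvable_of_ker_le_range (B.subgroupOf T).subtype (QuotientGroup.mk' (B.subgroupOf T))
    (by rw [QuotientGroup.ker_mk', Subgroup.range_subtype])

theorem solv_pow [Finite G] {B T : Subgroup G} (p : ℕ) (hp : p.Prime) (hB : Group.IsSolvable B)
    (hn : ∀ t ∈ T, ∀ b ∈ B, t * b * t⁻¹ ∈ B) (hpow : ∀ t ∈ T, ∃ j : ℕ, t ^ p ^ j ∈ B) :
    Group.IsSolvable T := by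
  have := Fact.mk hp
  refine solv_ext hB hn ?_
  intro h
  have h1 : IsPGroup p (T ⧸ B.subgroupOf T) := by
    intro x
    induction x using QuotientGroup.induction_on with
    | H t =>
      obtain ⟨j, hj⟩ := hpow t t.2
      refine ⟨j, ?_⟩
      rw [← QuotientGroup.mk_pow, QuotientGroup.eq_one_iff]
      exact hj
  have h2 : Group.IsNilpotent (T ⧸ B.subgroupOf T) := h1.isNilpotent
  infer_instance

theorem solv_comm {B : Subgroup G} (h : ∀ x ∈ B, ∀ y ∈ B, x * y = y * x) : Group.IsSolvable B :=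
  Group.isSolvable_of_comm fun a b => Subtype.ext (h a a.2 b b.2)

theorem solv_comm_mod {N B : Subgroup G} (hN : N.Normal) (hNs : Group.IsSolvable N)
    (h : ∀ x ∈ B, ∀ y ∈ B, x * y * (y * x)⁻¹ ∈ N) : Group.IsSolvable B := by
  refine solv_ext hNs (fun t _ b hb => hN.conj_mem b hb t) ?_
  intro h'
  refine Group.isSolvable_of_comm ?_
  intro a b
  induction a using QuotientGroup.induction_on with
  | H x =>
    induction b using QuotientGroup.induction_on with
    | H y =>
      rw [← QuotientGroup.mk_mul, ← QuotientGroup.mk_mul, QuotientGroup.eq]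
      show (((x * y)⁻¹ * (y * x) : B) : G) ∈ N
      have h1 := h _ (B.inv_mem y.2) _ (B.inv_mem x.2)
      have h2 : ((x : G) * y)⁻¹ * (y * x) = (y : G)⁻¹ * (x : G)⁻¹ * ((x : G)⁻¹ * (y : G)⁻¹)⁻¹ := by group
      show ((x : G) * y)⁻¹ * (y * x) ∈ N
      rw [h2]
      exact h1

theorem solv_exp_two {N : Subgroup G} (h : ∀ g ∈ N, g * g = 1) : Group.IsSolvable N := by
  refine solv_comm ?_
  intro x hx y hy
  have h1 := h _ (N.mul_mem hx hy)
  have h2 := h x hx
  have h3 := h y hy
  have e1 : x⁻¹ = x := inv_eq_of_mul_eq_one_left h2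
  have e2 : y⁻¹ = y := inv_eq_of_mul_eq_one_left h3
  have e3 : (x * y)⁻¹ = x * y := inv_eq_of_mul_eq_one_left h1
  rw [← e3, mul_inv_rev, e1, e2]

theorem Hyp.solvable [Finite G] {Z : Subgroup G} {p : ℕ} (hp : p.Prime) {H : Subgroup G}
    (h : Hyp Z p H) : Group.IsSolvable H := by
  obtain ⟨B, _, _, hab, hn, hpow⟩ := h
  exact solv_pow p hp (solv_comm hab) hn hpow

theorem HyN.solvable [Finite G] {N H : Subgroup G} (hN : N.Normal) (hNs : Group.IsSolvable N)
    (h : HyN N H) : Group.IsSolvable H := by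
  obtain ⟨B, _, _, hab, hn, hpow⟩ := h
  exact solv_pow 2 Nat.prime_two (solv_comm_mod hN hNs hab) hn hpow

end

/-! ### the group generated by the differences of pairs -/

section

variable {G : Type u} [Group G] {E : Type*} [Field E] [Finite G]

/-- the group generated by the differences `Ind_K χ - Ind_K χ'`, for subgroups `K` in the family `P` and
characters `χ`, `χ'` of `K` which agree on `K ∩ S` -/
def SCT (P : Subgroup G → Prop) (E : Type*) [Field E] (S : Set G) : AddSubgroup (G → E) :=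
  AddSubgroup.closure {f | ∃ (K : Subgroup G) (χ χ' : K →* Eˣ), P K ∧
    (∀ h : K, (h : G) ∈ S → χ h = χ' h) ∧ f = ind K χ - ind K χ'}

variable [CharZero E] {S : Set G} {Z : Subgroup G}

theorem SCT_of_SC {P : Subgroup G → Prop} {T : Subgroup G} (hT : ∀ K ≤ T, Z ≤ K → P K) {f : G → E}
    (hf : f ∈ SC E S Z T) : avg T ⊤ f ∈ SCT P E S := by
  classical
  have := Fintype.ofFinite G
  have h1 : SC E S Z T ≤ (SCT P E S).comap (avgHom T ⊤) := by
    unfold SC
    rw [AddSubgroup.closure_le]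
    rintro _ ⟨K, χ, χ', hK, hc, he, rfl⟩
    have h2 : avgHom T ⊤ (avg K T (ext K χ - ext K χ')) = ind K χ - ind K χ' := by
      rw [avgHom_apply, avg_avg le_top, avg_sub]
      rfl
    rw [SetLike.mem_coe, AddSubgroup.mem_comap, h2]
    refine AddSubgroup.subset_closure ⟨K, χ, χ', hT K hK hc, ?_, rfl⟩
    intro h hh
    have h3 := he h hh
    rw [ext_mem K χ h.2, ext_mem K χ' h.2] at h3
    exact Units.ext h3
  exact h1 hf

/-- the passage from the subgroups in a family to `G` -/
theorem glueT {P P₀ : Subgroup G → Prop} {D : G → E} (hDconj : ∀ g x : G, D (x⁻¹ * g * x) = D g)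
    (hP₀ : ∀ T, P₀ T → ∀ K ≤ T, Z ≤ K → P K)
    (hP : ∀ T, P₀ T → ext T (1 : T →* Eˣ) * D ∈ SC E S Z T) :
    ∀ f ∈ AddSubgroup.closure (FG P₀), (fun g => (f g : E) * D g) ∈ SCT P E S := by
  classical
  have := Fintype.ofFinite G
  intro f hf
  induction hf using AddSubgroup.closure_induction with
  | mem f hf =>
    obtain ⟨X, _, _, hX, hXf⟩ := hf
    let F : X → G → E := fun x g => if g • x = x then D g else 0
    have hsum : (fun g => (f g : E) * D g) = ∑ x : X, F x := by
      funext g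
      rw [Finset.sum_apply]
      show (f g : E) * D g = ∑ x : X, if g • x = x then D g else 0
      rw [← Finset.sum_filter, Finset.sum_const, hXf, nsmul_eq_mul]
      congr 1
      rw [Nat.card_eq_fintype_card, Fintype.card_subtype]
      push_cast
      rfl
    rw [hsum]
    refine sum_orbits ⊤ F ?_ (SCT P E S) _ Finset.univ le_rfl (fun _ _ _ _ => Finset.mem_univ _) ?_
    · intro h _ x g
      have h3 : (g • h • x = h • x) ↔ (h⁻¹ * g * h) • x = x := by
        rw [mul_smul, mul_smul, inv_smul_eq_iff]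
      show (if g • h • x = h • x then D g else 0) = if (h⁻¹ * g * h) • x = x then D (h⁻¹ * g * h) else 0
      simp only [h3, hDconj]
    · intro x _
      let T := MulAction.stabilizer G x
      have hT : (⊤ : Subgroup G) ⊓ MulAction.stabilizer G x = T := top_inf_eq _
      rw [hT]
      have hF : F x = ext T (1 : T →* Eˣ) * D := by
        funext g
        rw [Pi.mul_apply]
        show (if g • x = x then D g else 0) = _
        by_cases hg : g • x = x
        · rw [if_pos hg, ext_mem T _ (show g ∈ T from hg), MonoidHom.one_apply, Units.val_one, one_mul]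
        · rw [if_neg hg, ext_not_mem T _ (show g ∉ T from hg), zero_mul]
      rw [hF]
      exact SCT_of_SC (hP₀ T (hX x)) (hP T (hX x))
  | zero =>
    have h3 : (fun g => (((0 : G → ℤ) g : ℤ) : E) * D g) = 0 := by
      funext g
      simp
    rw [h3]
    exact zero_mem _
  | add a b _ _ ha hb =>
    have h3 : (fun g => (((a + b : G → ℤ) g : ℤ) : E) * D g) =
        (fun g => (a g : E) * D g) + fun g => (b g : E) * D g := by
      funext g
      simp only [Pi.add_apply, Int.cast_add]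
      ring
    rw [h3]
    exact add_mem ha hb
  | neg a _ ha =>
    have h3 : (fun g => (((-a : G → ℤ) g : ℤ) : E) * D g) = -fun g => (a g : E) * D g := by
      funext g
      simp only [Pi.neg_apply, Int.cast_neg]
      ring
    rw [h3]
    exact neg_mem ha

/-- one prime, from a family of subgroups -/
theorem prime_part {P P₀ : Subgroup G → Prop} (p : ℕ) (hp : p.Prime)
    (hP₀ : ∀ H K, P₀ H → P₀ K → P₀ (H ⊓ K)) (hFG : ∀ x : G, ∃ f ∈ FG P₀, ¬ (p : ℤ) ∣ f x)
    {D : G → E} (hDconj : ∀ g x : G, D (x⁻¹ * g * x) = D g) (hP₁ : ∀ T, P₀ T → ∀ K ≤ T, Z ≤ K → P K)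
    (hP : ∀ T, P₀ T → ext T (1 : T →* Eˣ) * D ∈ SC E S Z T) :
    ∃ l : ℤ, ¬ (p : ℤ) ∣ l ∧ l • D ∈ SCT P E S := by
  obtain ⟨l, hl, hlR⟩ := banaschewski_p (AddSubgroup.closure (FG P₀)) (closure_FG_mul hP₀) p hp
    (fun x => by
      obtain ⟨f, hf, h⟩ := hFG x
      exact ⟨f, AddSubgroup.subset_closure hf, h⟩)
  refine ⟨l, hl, ?_⟩
  have h3 := glueT (S := S) (Z := Z) (P := P) hDconj hP₁ hP _ hlR
  have h4 : (fun g => (((fun _ => l : G → ℤ) g : ℤ) : E) * D g) = l • D := by
    funext g
    rw [Pi.smul_apply, zsmul_eq_mul]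
  rwa [h4] at h3

omit [CharZero E] in
theorem all_primes {P : Subgroup G → Prop} {D : G → E}
    (h : ∀ p : ℕ, p.Prime → ∃ l : ℤ, ¬ (p : ℤ) ∣ l ∧ l • D ∈ SCT P E S) : D ∈ SCT P E S := by
  let A : AddSubgroup ℤ := (SCT P E S).comap ((smulAddHom ℤ (G → E)).flip D)
  have hA : ∀ n : ℤ, n ∈ A ↔ n • D ∈ SCT P E S := fun n => Iff.rfl
  have h3 : (1 : ℤ) ∈ A := by
    refine one_mem_of_primes A ?_
    intro p hp
    obtain ⟨l, hl, hlD⟩ := h p hp
    exact ⟨l, hlD, hl⟩
  rw [hA, one_smul] at h3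
  exact h3

/-- the restriction of the difference to a hyperelementary subgroup -/
theorem hyp_diff {ψ : G →* Eˣ} (hE : HasEnoughRootsOfUnity E (Nat.card G))
    (hS : ∀ s ∈ S, ∀ x : G, x⁻¹ * s * x ∈ S) {p : ℕ} (hp : p.Prime) {H : Subgroup G}
    (hH : Hyp Z p H) (hI : Isol S ψ H) {θ ω : G → E} (hθ : IsChar θ) (hω : IsChar ω)
    (h1 : θ 1 = ω 1) (h2 : ∀ s ∈ S, θ s = ω s) : ext H (1 : H →* Eˣ) * (θ - ω) ∈ SC E S Z H := by
  refine SC_of_GC hS hI hH.le ?_ ?_ ?_
  · rw [mul_sub]
    exact sub_mem (hyp_mem hE hp hH hI hθ) (hyp_mem hE hp hH hI hω)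
  · rw [Pi.mul_apply, Pi.sub_apply, h1, sub_self, mul_zero]
  · intro s hs
    rw [Pi.mul_apply, Pi.sub_apply, h2 s hs, sub_self, mul_zero]

/-- **The central case**: only solvable subgroups which contain `c` are used. -/
theorem brauer_central (hE : HasEnoughRootsOfUnity E (Nat.card G)) {c : G}
    (hc : ∀ g : G, g * c = c * g) (hcc : c * c = 1) {ψ : G →* Eˣ} (hψ : c ≠ 1 → ψ c = -1)
    {θ ω : G → E} (hθ : IsChar θ) (hω : IsChar ω) (h1 : θ 1 = ω 1) (h2 : θ c = ω c) :
    θ - ω ∈ SCT (fun K : Subgroup G => Group.IsSolvable K ∧ c ∈ K) E {c} := by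
  have hI : ∀ H : Subgroup G, Isol {c} ψ H := by
    intro H
    refine ⟨?_, ?_, ?_⟩
    · rintro s rfl
      exact hcc
    · rintro s rfl s' rfl K _ _ _
      exact ⟨1, K.one_mem, by group⟩
    · rintro s rfl
      exact hψ
  refine all_primes ?_
  intro p hp
  refine prime_part (Z := Subgroup.zpowers c) (P₀ := Hyp (Subgroup.zpowers c) p) p hp
    (fun H K hH hK => hyp_inf hH hK.le) (fun x => exists_FG hc x p hp) ?_ ?_ ?_
  · intro g x
    rw [Pi.sub_apply, Pi.sub_apply, isChar_conj hθ, isChar_conj hω]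
  · intro T hT K hK hZ
    exact ⟨solv_mono (hT.solvable hp) hK, hZ (Subgroup.mem_zpowers c)⟩
  · intro T hT
    refine hyp_diff hE ?_ hp hT (hI T) hθ hω h1 ?_
    · rintro s rfl x
      show x⁻¹ * s * x = s
      rw [mul_assoc, ← hc x, ← mul_assoc, inv_mul_cancel, one_mul]
    · rintro s rfl
      exact h2

/-- **The general case**: only solvable subgroups are used. -/
theorem brauer_solv (hE : HasEnoughRootsOfUnity E (Nat.card G)) {c : G} {N : Subgroup G} (hN : N.Normal)
    (hNs : Group.IsSolvable N) (hcc : c * c = 1) (hc1 : c ≠ 1) {ψ : G →* Eˣ} (hψ : ψ c = -1)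
    (hSP : ∀ U : Subgroup G, N ≤ U → SignProp {s | IsConj c s} U)
    {θ : G → E} (hθ : IsCharN N θ) (a b : ℕ)
    (h1 : θ 1 = (a • (1 : G → E) + b • fun g => (ψ g : E)) 1)
    (h2 : θ c = (a • (1 : G → E) + b • fun g => (ψ g : E)) c) :
    θ - (a • (1 : G → E) + b • fun g => (ψ g : E)) ∈
      SCT (fun K : Subgroup G => Group.IsSolvable K) E {s | IsConj c s} := by
  have hS := invol_of hcc hc1
  have hω : IsChar (a • (1 : G → E) + b • fun g => (ψ g : E)) :=
    isChar_add (isChar_nsmul isChar_one a) (isChar_nsmul (isChar_linear ψ) b)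
  have hnice : Nice {s | IsConj c s} N (θ - (a • (1 : G → E) + b • fun g => (ψ g : E))) :=
    (hθ.nice hE hS hSP).sub ((nice_one.nsmul a).add ((nice_linear ψ).nsmul b))
  generalize a • (1 : G → E) + b • (fun g => (ψ g : E)) = ω at *
  have hDconj : ∀ g x : G, (θ - ω) (x⁻¹ * g * x) = (θ - ω) g := by
    intro g x
    rw [Pi.sub_apply, Pi.sub_apply, isChar_conj hθ.isChar, isChar_conj hω]
  have hDS : ∀ s ∈ {s | IsConj c s}, θ s = ω s := by
    intro s hs
    obtain ⟨u, hu⟩ := isConj_iff.1 hs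
    have h5 : s = (u⁻¹)⁻¹ * c * u⁻¹ := by rw [← hu, inv_inv]
    rw [h5, isChar_conj hθ.isChar, isChar_conj hω, h2]
  refine all_primes ?_
  intro p hp
  by_cases hp2 : p = 2
  · subst hp2
    refine prime_part (Z := ⊥) (P₀ := HyN N) 2 hp
      (fun H K hH hK => hyN_inf hH hK.le) (fun x => exists_FG_N N hN x) hDconj ?_ ?_
    · intro T hT K hK _
      exact solv_mono (hT.solvable hN hNs) hK
    · intro T hT
      obtain ⟨a, ha, b, hb, hab'⟩ := AddSubgroup.mem_sup.1 (hnice T hT)
      obtain ⟨hb1, hb2⟩ := SC_apply hS.conj hb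
      have ha' : a = ext T (1 : T →* Eˣ) * (θ - ω) - b := by
        rw [← hab', add_sub_cancel_right]
      rw [← hab']
      refine add_mem (SC_of_LC hS (hSP T hT.le) ha ?_ ?_) hb
      · rw [ha', Pi.sub_apply, Pi.mul_apply, hb1, Pi.sub_apply, h1, sub_self, mul_zero, sub_zero]
      · intro s hs
        rw [ha', Pi.sub_apply, Pi.mul_apply, hb2 s hs, Pi.sub_apply, hDS s hs, sub_self, mul_zero,
          sub_zero]
  · have hodd := hp.odd_of_ne_two hp2
    refine prime_part (Z := ⊥) (P₀ := Hyc p) p hp (fun H K hH _ => hyc_inf hH)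
      (fun x => exists_FG_hyc x p hp) hDconj ?_ ?_
    · intro T hT K hK _
      exact solv_mono (hT.hyp.solvable hp) hK
    · intro T hT
      refine hyp_diff (ψ := ψ) hE hS.conj hp hT.hyp ?_ hθ.isChar hω h1 hDS
      refine ⟨hS.sq, ?_, ?_⟩
      · intro s hs s' hs' K hKH hK hK'
        refine ⟨1, K.one_mem, ?_⟩
        have h3 : s = s' := hT.unique hodd (hKH hK) (hKH hK') (hS.sq s hs) (hS.sq s' hs')
          (hS.ne s hs) (hS.ne s' hs')
        rw [h3]
        group
      · intro s hs _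
        obtain ⟨u, hu⟩ := isConj_iff.1 hs
        rw [← hu, map_mul, map_mul, hψ, map_inv, mul_right_comm, mul_inv_cancel, one_mul]

end

end Pool.Agent.Y144.DL
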