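import Pool.Agent.Y144.DL.Desc

/-!
# Permutation characters and the rational form over subfields
-/

set_option autoImplicit false

namespace Pool.Agent.Y144.DL

universe u

/-- the permutation character of `G ⧸ H` -/
noncomputable def perm (K : Type*) [Field K] {G : Type*} [Group G] (H : Subgroup G) : G → K :=
  fun g => (Nat.card {x : G ⧸ H // g • x = x} : K)

section

variable {K : Type*} [Field K] [CharZero K] {G : Type*} [Group G] [Finite G]

theorem perm_eq_ind (H : Subgroup G) : perm K H = ind H 1 := by
  classical
  have := Fintype.ofFinite G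
  have : Fintype (G ⧸ H) := Fintype.ofFinite _
  funext g
  rw [ind_eq_sum_cosets]
  have h1 : ∀ x : G ⧸ H, ext H (1 : H →* Kˣ) (x.out⁻¹ * g * x.out) = if g • x = x then 1 else 0 := by
    intro x
    split_ifs with h
    · rw [ext_mem H _ ((smul_out_mem H g x x).2 h), MonoidHom.one_apply, Units.val_one]
    · rw [ext_not_mem H _ (fun h' => h ((smul_out_mem H g x x).1 h'))]
  rw [Finset.sum_congr rfl fun x _ => h1 x, Finset.sum_boole]
  unfold perm
  rw [Nat.card_eq_fintype_card, Fintype.card_subtype]

theorem isChar_perm (H : Subgroup G) : IsChar (perm K H) := by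
  rw [perm_eq_ind]
  exact isChar_ind H 1

omit [CharZero K] [Finite G] in
theorem perm_map {E : Type*} [Field E] [Algebra K E] (H : Subgroup G) :
    (fun g => algebraMap K E (perm K H g)) = perm E H := by
  funext g
  show algebraMap K E (Nat.card {x : G ⧸ H // g • x = x} : K) = _
  rw [map_natCast]
  rfl

omit [CharZero K] [Finite G] in
theorem perm_one (H : Subgroup G) : perm K H 1 = (Nat.card (G ⧸ H) : K) := by
  unfold perm
  congr 1
  refine Nat.card_congr ?_
  exact
    { toFun := fun x => x.1
      invFun := fun x => ⟨x, one_smul G x⟩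
      left_inv := fun x => rfl
      right_inv := fun x => rfl }

end

end Pool.Agent.Y144.DL
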