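import Pool.Agent.Y144.DL.Exact
import Pool.Agent.Y144.DL.Perm

/-!
# Number fields and permutation characters
-/

set_option autoImplicit false

namespace Pool.Agent.Y144.DL

section general

variable {k₀ Ω : Type*} [Field k₀] [Field Ω] [Algebra k₀ Ω] [IsAlgClosed Ω]

theorem normalClosure_normal (k : IntermediateField k₀ Ω) [Algebra.IsAlgebraic k₀ k] :
    Normal k₀ (IntermediateField.normalClosure k₀ k Ω) := by
  have h := Algebra.IsAlgebraic.isNormalClosure_normalClosure (F := k₀) (K := k) (L := Ω)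
    (fun x => IsAlgClosed.splits _)
  exact h.normal

/-- extension of embeddings -/
theorem exists_lift_emb {k' F' : Type*} [Field k'] [Field F'] [Algebra k₀ k'] [Algebra k₀ F']
    [Algebra.IsAlgebraic k₀ F'] (j : k' →ₐ[k₀] F') (τ : k' →ₐ[k₀] Ω) :
    ∃ φ : F' →ₐ[k₀] Ω, φ.comp j = τ := by
  let _ : Algebra k' F' := j.toRingHom.toAlgebra
  let _ : Algebra k' Ω := τ.toRingHom.toAlgebra
  have : IsScalarTower k₀ k' F' := IsScalarTower.of_algebraMap_eq fun x => (j.commutes x).symm
  have : IsScalarTower k₀ k' Ω := IsScalarTower.of_algebraMap_eq fun x => (τ.commutes x).symm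
  have : Algebra.IsAlgebraic k' F' := Algebra.IsAlgebraic.tower_top (K := k₀) k'
  let φ : F' →ₐ[k'] Ω := IsAlgClosed.lift
  refine ⟨φ.restrictScalars k₀, ?_⟩
  apply AlgHom.ext
  intro x
  exact φ.commutes x

variable {k F : IntermediateField k₀ Ω} (h : k ≤ F) [FiniteDimensional k₀ F] [Normal k₀ F]

/-- the restriction of an element of the Galois group of `F` to `k` -/
def toEmb (g : F ≃ₐ[k₀] F) : k →ₐ[k₀] Ω :=
  (F.val.comp (g : F →ₐ[k₀] F)).comp (IntermediateField.inclusion h)

omit [IsAlgClosed Ω] [FiniteDimensional k₀ F] [Normal k₀ F] in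
theorem toEmb_apply (g : F ≃ₐ[k₀] F) (x : k) : toEmb h g x = (g ⟨x, h x.2⟩ : F) := rfl

theorem toEmb_surj : Function.Surjective (toEmb h) := by
  intro τ
  obtain ⟨φ₀, hφ⟩ := exists_lift_emb (IntermediateField.inclusion h) τ
  have hr : φ₀.fieldRange = F := AlgHom.fieldRange_of_normal φ₀
  have hmem : ∀ x : F, φ₀ x ∈ F := by
    intro x
    have h1 : φ₀ x ∈ φ₀.fieldRange := ⟨x, rfl⟩
    rwa [hr] at h1
  let f : F →ₐ[k₀] F := φ₀.codRestrict F.toSubalgebra hmem
  let g : F ≃ₐ[k₀] F := AlgEquiv.ofBijective f (Algebra.IsAlgebraic.algHom_bijective f)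
  refine ⟨g, ?_⟩
  rw [← hφ]
  rfl

/-- cosets and embeddings -/
theorem exists_equiv (H : Subgroup (F ≃ₐ[k₀] F))
    (hH : ∀ g, g ∈ H ↔ ∀ x : F, (x : Ω) ∈ k → g x = x) :
    ∃ e : ((F ≃ₐ[k₀] F) ⧸ H) ≃ (k →ₐ[k₀] Ω), ∀ g : F ≃ₐ[k₀] F, e (g : (F ≃ₐ[k₀] F) ⧸ H) = toEmb h g := by
  have hinj : ∀ g g' : F ≃ₐ[k₀] F, g⁻¹ * g' ∈ H ↔ toEmb h g = toEmb h g' := by
    intro g g'
    rw [hH]
    constructor
    · intro h1
      apply AlgHom.ext
      intro x
      have h2 := h1 ⟨x, h x.2⟩ x.2
      have h3 : g (g⁻¹ (g' ⟨x, h x.2⟩)) = g ⟨x, h x.2⟩ := congrArg g h2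
      have h4 : g (g⁻¹ (g' ⟨x, h x.2⟩)) = g' ⟨x, h x.2⟩ := g.apply_symm_apply _
      rw [h4] at h3
      exact congrArg Subtype.val h3.symm
    · intro h1 x hx
      have h2 : toEmb h g ⟨x, hx⟩ = toEmb h g' ⟨x, hx⟩ := by rw [h1]
      have h3 : g x = g' x := Subtype.ext h2
      show g⁻¹ (g' x) = x
      rw [← h3]
      exact g.symm_apply_apply x
  refine ⟨Equiv.ofBijective (Quotient.lift (toEmb h) ?_) ⟨?_, ?_⟩, fun g => rfl⟩
  · intro g g' hg
    exact (hinj g g').1 (QuotientGroup.leftRel_apply.1 hg)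
  · intro x y
    induction x using QuotientGroup.induction_on with
    | H g =>
      induction y using QuotientGroup.induction_on with
      | H g' =>
        intro h1
        exact QuotientGroup.eq.2 ((hinj g g').2 h1)
  · intro τ
    obtain ⟨g, rfl⟩ := toEmb_surj h τ
    exact ⟨(g : (F ≃ₐ[k₀] F) ⧸ H), rfl⟩

end general

/-! ### permutation characters which are trivial on a normal subgroup -/

section perm

variable {K : Type*} [Field K] {G : Type*} [Group G]

theorem isCharN_of_fintype {N : Subgroup G} {ι : Type*} [Fintype ι] [DecidableEq ι]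
    (ρ : G →* Matrix ι ι K) (hρ : ∀ x ∈ N, ρ x = 1) : IsCharN N (fun g => (ρ g).trace) := by
  refine ⟨Fintype.card ι,
    (Matrix.reindexAlgEquiv K K (Fintype.equivFin ι)).toMulEquiv.toMonoidHom.comp ρ, ?_, ?_⟩
  · intro x hx
    show (Matrix.reindexAlgEquiv K K (Fintype.equivFin ι)) (ρ x) = 1
    rw [hρ x hx, map_one]
  · funext g
    simp only [Matrix.trace, Matrix.diag_apply]
    exact Fintype.sum_equiv (Fintype.equivFin ι) _ _ (fun x => by simp)

theorem isCharN_perm [Finite G] {N H : Subgroup G} (hN : N.Normal) (hNH : N ≤ H) :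
    IsCharN N (perm K H) := by
  classical
  have : Fintype (G ⧸ H) := Fintype.ofFinite _
  let ρ : G →* Matrix (G ⧸ H) (G ⧸ H) K :=
    { toFun := fun g => fun i j => if i = g • j then 1 else 0
      map_one' := by
        ext i j
        simp [Matrix.one_apply]
      map_mul' := by
        intro g h
        ext i j
        rw [Matrix.mul_apply, Finset.sum_eq_single (h • j)]
        · rw [if_pos rfl, mul_one, mul_smul]
        · intro x _ hx
          rw [if_neg hx, mul_zero]
        · intro h'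
          exact absurd (Finset.mem_univ _) h' }
  have h1 : (fun g => (ρ g).trace) = perm K H := by
    funext g
    unfold perm Matrix.trace
    simp only [Matrix.diag_apply]
    show ∑ i, (if i = g • i then (1 : K) else 0) = _
    rw [Finset.sum_boole, Nat.card_eq_fintype_card, Fintype.card_subtype]
    congr 2
    ext i
    simp only [Finset.mem_filter, Finset.mem_univ, true_and]
    exact eq_comm
  rw [← h1]
  refine isCharN_of_fintype ρ ?_
  intro x hx
  ext i j
  have h2 : x • j = j := by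
    induction j using QuotientGroup.induction_on with
    | H u =>
      have h3 : x • (u : G ⧸ H) = ((x * u : G) : G ⧸ H) := rfl
      rw [h3, eq_comm, QuotientGroup.eq]
      have h4 := hN.conj_mem x hx u⁻¹
      rw [inv_inv, mul_assoc] at h4
      exact hNH h4
  show (if i = x • j then (1 : K) else 0) = (1 : Matrix (G ⧸ H) (G ⧸ H) K) i j
  rw [h2, Matrix.one_apply]

end perm

attribute [local instance high] IntermediateField.algebra'

/-- the number of cosets is the degree -/
theorem card_cosets {k F : IntermediateField ℚ ℂ} (h : k ≤ F) [FiniteDimensional ℚ k]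
    [FiniteDimensional ℚ F] [Normal ℚ F] :
    Nat.card ((F ≃ₐ[ℚ] F) ⧸ fixer k F) = Module.finrank ℚ k := by
  obtain ⟨e, _⟩ := exists_equiv h (fixer k F) (fun g => Iff.rfl)
  rw [Nat.card_congr e, Nat.card_eq_fintype_card, AlgHom.card]

/-- the number of cosets fixed by complex conjugation is the number of real embeddings -/
theorem card_fixed {k F : IntermediateField ℚ ℂ} (h : k ≤ F)
    [FiniteDimensional ℚ F] [Normal ℚ F] {c : F ≃ₐ[ℚ] F}
    (hc : ∀ x : F, ((c x : F) : ℂ) = (starRingEnd ℂ) (x : ℂ)) :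
    Nat.card {x : (F ≃ₐ[ℚ] F) ⧸ fixer k F // c • x = x} =
      Nat.card {τ : k →ₐ[ℚ] ℂ // ∀ x, (starRingEnd ℂ) (τ x) = τ x} := by
  obtain ⟨e, he⟩ := exists_equiv h (fixer k F) (fun g => Iff.rfl)
  refine Nat.card_congr (e.subtypeEquiv ?_)
  intro x
  induction x using QuotientGroup.induction_on with
  | H g =>
    have h1 : c • (g : (F ≃ₐ[ℚ] F) ⧸ fixer k F) = ((c * g : F ≃ₐ[ℚ] F) : (F ≃ₐ[ℚ] F) ⧸ fixer k F) := rfl
    rw [← e.apply_eq_iff_eq, h1, he, he]
    constructor
    · intro h2 x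
      have h3 := congrArg (fun τ : k →ₐ[ℚ] ℂ => τ x) h2
      simp only [toEmb_apply] at h3 ⊢
      rw [← hc]
      exact h3
    · intro h2
      apply AlgHom.ext
      intro x
      have h3 := h2 x
      simp only [toEmb_apply] at h3 ⊢
      rw [← hc] at h3
      exact h3

theorem fixer_mono {F₀ k F : IntermediateField ℚ ℂ} (h : k ≤ F₀) : fixer F₀ F ≤ fixer k F :=
  fun _ hg x hx => hg x (h hx)

end Pool.Agent.Y144.DL
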