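import Pool.Agent.Y144.DL.Sgn

/-!
# Normal form of combinations of linear characters
-/

set_option autoImplicit false

namespace Pool.Agent.Y144.DL

universe u

variable {E : Type*} [Field E] {G : Type u} [Group G] [Finite G] [CharZero E] {S : Set G}

/-- combinations of linear characters of `U` -/
def LC (E : Type*) [Field E] {G : Type*} [Group G] (U : Subgroup G) : AddSubgroup (G → E) :=
  AddSubgroup.closure {f | ∃ χ : U →* Eˣ, f = ext U χ}

/-- A combination of linear characters of `U` which vanishes at `1` and on `S` is in `SC`. -/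
theorem SC_of_LC (hS : Invol S) {U : Subgroup G} (hU : SignProp S U) {f : G → E} (hf : f ∈ LC E U)
    (h1 : f 1 = 0) (h2 : ∀ s ∈ S, f s = 0) : f ∈ SC E S ⊥ U := by
  classical
  have := Fintype.ofFinite G
  -- classes
  let X := {s : G // s ∈ S ∧ s ∈ U}
  let R : Setoid X :=
    { r := fun a b => ∃ u ∈ U, b.1 = u⁻¹ * a.1 * u
      iseqv :=
        { refl := fun a => ⟨1, U.one_mem, by group⟩
          symm := by
            rintro a b ⟨u, hu, h⟩
            exact ⟨u⁻¹, U.inv_mem hu, by rw [h]; group⟩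
          trans := by
            rintro a b c ⟨u, hu, h⟩ ⟨v, hv, h'⟩
            exact ⟨u * v, U.mul_mem hu hv, by rw [h', h]; group⟩ } }
  let C := Quotient R
  have : Fintype C := Fintype.ofFinite _
  let cl : ∀ s : G, s ∈ S → s ∈ U → C := fun s hs hsU => Quotient.mk R ⟨s, hs, hsU⟩
  have hcl : ∀ s (hs : s ∈ S) (hsU : s ∈ U) u (hu : u ∈ U) (hs' : u⁻¹ * s * u ∈ S)
      (hsU' : u⁻¹ * s * u ∈ U), cl _ hs' hsU' = cl s hs hsU := by
    intro s hs hsU u hu hs' hsU'
    exact (Quotient.sound (s := R) ⟨u, hu, rfl⟩).symm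
  have hchoose : ∀ D : Finset C, ∃ κ : U →* ℤˣ, ∀ s (hsU : s ∈ U) (hs : s ∈ S),
      κ ⟨s, hsU⟩ = if cl s hs hsU ∈ D then -1 else 1 := by
    intro D
    obtain ⟨κ, hκ⟩ := hU (fun s => if h : s ∈ S ∧ s ∈ U then (if cl s h.1 h.2 ∈ D then -1 else 1) else 1)
      (by
        intro s hs hsU u hu
        have hs' := hS.conj s hs u
        have hsU' : u⁻¹ * s * u ∈ U := U.mul_mem (U.mul_mem (U.inv_mem hu) hsU) hu
        beta_reduce
        rw [dif_pos ⟨hs', hsU'⟩, dif_pos ⟨hs, hsU⟩, hcl s hs hsU u hu hs' hsU'])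
    refine ⟨κ, ?_⟩
    intro s hsU hs
    rw [hκ s hsU hs, dif_pos ⟨hs, hsU⟩]
  choose κ hκ using hchoose
  let Φ : Finset C → G → E := fun D => ext U (sg E (κ D))
  have hΦ : ∀ D s (hs : s ∈ S) (hsU : s ∈ U), Φ D s = if cl s hs hsU ∈ D then -1 else 1 := by
    intro D s hs hsU
    show ext U (sg E (κ D)) s = _
    rw [ext_mem U _ hsU, sg_val, hκ D s hsU hs]
    split_ifs <;> simp
  have hΦ' : ∀ D s, s ∉ U → Φ D s = 0 := fun D s hsU => ext_not_mem U _ hsU
  have hΦ1 : ∀ D, Φ D 1 = 1 := by
    intro D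
    show ext U (sg E (κ D)) 1 = 1
    have h3 : (⟨1, U.one_mem⟩ : U) = 1 := rfl
    rw [ext_mem U _ U.one_mem, h3, map_one, Units.val_one]
  -- insertion
  have hins : ∀ (v : C) (D : Finset C), v ∉ D →
      Φ (insert v D) + Φ ∅ - (Φ D + Φ {v}) ∈ SC E S ⊥ U := by
    intro v D hv
    refine sign_swap hS hU _ _ _ _ ?_
    intro s hs
    by_cases hsU : s ∈ U
    · have e1 := hΦ (insert v D) s hs hsU
      have e2 := hΦ ∅ s hs hsU
      have e3 := hΦ D s hs hsU
      have e4 := hΦ {v} s hs hsU
      show Φ (insert v D) s + Φ ∅ s = Φ D s + Φ {v} s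
      rw [e1, e2, e3, e4]
      simp only [Finset.mem_insert, Finset.notMem_empty, Finset.mem_singleton, if_false]
      by_cases hc : cl s hs hsU = v
      · have hc' : cl s hs hsU ∉ D := by
          rw [hc]
          exact hv
        rw [if_pos (Or.inl hc), if_neg hc', if_pos hc]
        ring
      · rw [if_neg hc]
        by_cases hd : cl s hs hsU ∈ D
        · rw [if_pos (Or.inr hd), if_pos hd]
        · rw [if_neg (fun h => h.elim hc hd), if_neg hd]
    · show Φ (insert v D) s + Φ ∅ s = Φ D s + Φ {v} s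
      rw [hΦ' _ s hsU, hΦ' _ s hsU, hΦ' _ s hsU, hΦ' _ s hsU]
  have hD : ∀ D : Finset C, Φ D - (Φ ∅ + ∑ v ∈ D, (Φ {v} - Φ ∅)) ∈ SC E S ⊥ U := by
    intro D
    induction D using Finset.induction_on with
    | empty =>
      rw [Finset.sum_empty, add_zero, sub_self]
      exact zero_mem _
    | insert v D hv ih =>
      rw [Finset.sum_insert hv]
      have h3 := add_mem (hins v D hv) ih
      convert h3 using 1
      abel
  -- normal form
  have hnf : ∀ f ∈ LC E U, ∃ (n : ℤ) (m : C → ℤ),
      f - (n • Φ ∅ + ∑ v, m v • (Φ {v} - Φ ∅)) ∈ SC E S ⊥ U := by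
    intro f hf
    induction hf using AddSubgroup.closure_induction with
    | mem f hf =>
      obtain ⟨χ, rfl⟩ := hf
      let D : Finset C := Finset.univ.filter fun v => ∃ s, ∃ (hs : s ∈ S) (hsU : s ∈ U),
        cl s hs hsU = v ∧ ext U χ s = -1
      have h3 : ext U χ - Φ D ∈ SC E S ⊥ U := by
        apply SC_ext bot_le
        intro s hs
        by_cases hsU : s ∈ U
        · have e1 := hΦ D s hs hsU
          show ext U χ s = Φ D s
          rw [e1]
          by_cases hd : cl s hs hsU ∈ D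
          · rw [if_pos hd]
            obtain ⟨s', hs', hsU', hcl', hv⟩ := (Finset.mem_filter.1 hd).2
            obtain ⟨u, hu, hsu⟩ := Quotient.exact (s := R) hcl'
            have h4 : s = u⁻¹ * s' * u := hsu
            rw [h4, ext_conj U χ s' hu, hv]
          · rw [if_neg hd]
            refine (hS.val χ hs hsU).resolve_right (fun h5 => hd ?_)
            exact Finset.mem_filter.2 ⟨Finset.mem_univ _, s, hs, hsU, rfl, h5⟩
        · show ext U χ s = Φ D s
          rw [hΦ' _ s hsU, ext_not_mem U _ hsU]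
      refine ⟨1, fun v => if v ∈ D then 1 else 0, ?_⟩
      have h4 := add_mem h3 (hD D)
      convert h4 using 1
      have h5 : (∑ v, (if v ∈ D then (1 : ℤ) else 0) • (Φ {v} - Φ ∅)) = ∑ v ∈ D, (Φ {v} - Φ ∅) := by
        simp only [ite_smul, one_smul, zero_smul]
        rw [Finset.sum_ite_mem, Finset.univ_inter]
      rw [h5, one_smul]
      abel
    | zero =>
      refine ⟨0, fun _ => 0, ?_⟩
      simp only [zero_smul, Finset.sum_const_zero, add_zero, sub_self]
      exact zero_mem _
    | add a b _ _ ha hb =>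
      obtain ⟨n, m, ha⟩ := ha
      obtain ⟨n', m', hb⟩ := hb
      refine ⟨n + n', fun v => m v + m' v, ?_⟩
      have h4 := add_mem ha hb
      convert h4 using 1
      simp only [add_smul, Finset.sum_add_distrib]
      abel
    | neg a _ ha =>
      obtain ⟨n, m, ha⟩ := ha
      refine ⟨-n, fun v => -m v, ?_⟩
      have h4 := neg_mem ha
      convert h4 using 1
      simp only [neg_smul, Finset.sum_neg_distrib]
      abel
  obtain ⟨n, m, h3⟩ := hnf f hf
  obtain ⟨h4, h5⟩ := SC_apply hS.conj h3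
  have e1 : n = 0 := by
    rw [Pi.sub_apply, h1, Pi.add_apply, Pi.smul_apply, hΦ1, Finset.sum_apply] at h4
    have h6 : ∀ v ∈ (Finset.univ : Finset C), (m v • (Φ {v} - Φ ∅)) 1 = 0 := by
      intro v _
      rw [Pi.smul_apply, Pi.sub_apply, hΦ1, hΦ1, sub_self, smul_zero]
    rw [Finset.sum_eq_zero h6, add_zero, zero_sub, neg_eq_zero, zsmul_eq_mul, mul_one] at h4
    exact_mod_cast h4
  have e2 : ∀ v, m v = 0 := by
    intro v
    induction v using Quotient.inductionOn with
    | h a =>
      obtain ⟨s, hs, hsU⟩ := a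
      have h6 := h5 s hs
      rw [Pi.sub_apply, h2 s hs, Pi.add_apply, Pi.smul_apply, e1, zero_smul, zero_add,
        Finset.sum_apply] at h6
      have h7 : ∀ v ∈ (Finset.univ : Finset C), v ≠ cl s hs hsU → (m v • (Φ {v} - Φ ∅)) s = 0 := by
        intro v _ hne
        rw [Pi.smul_apply, Pi.sub_apply, hΦ _ s hs hsU, hΦ _ s hs hsU,
          if_neg (fun h => hne (Finset.mem_singleton.1 h).symm), if_neg (Finset.notMem_empty _),
          sub_self, smul_zero]
      rw [Finset.sum_eq_single (cl s hs hsU) h7 (fun h => absurd (Finset.mem_univ _) h),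
        Pi.smul_apply, Pi.sub_apply, hΦ _ s hs hsU, hΦ _ s hs hsU,
        if_pos (Finset.mem_singleton_self _), if_neg (Finset.notMem_empty _), zsmul_eq_mul] at h6
      have h8 : (((2 * m (cl s hs hsU) : ℤ)) : E) = 0 := by
        push_cast
        linear_combination h6
      have h9 : 2 * m (cl s hs hsU) = 0 := by exact_mod_cast h8
      have h10 : m (cl s hs hsU) = 0 := by omega
      exact h10
  rw [e1, zero_smul, zero_add] at h3
  have h6 : ∑ v, m v • (Φ {v} - Φ ∅) = 0 := by
    refine Finset.sum_eq_zero fun v _ => ?_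
    rw [e2 v, zero_smul]
  rwa [h6, sub_zero] at h3

end Pool.Agent.Y144.DL
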