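import Pool.Agent.Y144.DL.Basic

/-!
# Sums over orbits
-/

set_option autoImplicit false

namespace Pool.Agent.Y144.DL

variable {E : Type*} [Field E] {G : Type*} [Group G]

theorem sum_orbit [Finite G] [CharZero E] {X : Type*} [MulAction G X] [DecidableEq X] (H : Subgroup G)
    (f : X → G → E) (hf : ∀ h ∈ H, ∀ z g, f (h • z) g = f z (h⁻¹ * g * h)) (Z : Finset X)
    (hZ : ∀ h ∈ H, ∀ z ∈ Z, h • z ∈ Z) (z : X) (hz : z ∈ Z) [DecidablePred fun y => ∃ h ∈ H, h • z = y] :
    ∑ y ∈ Z.filter (fun y => ∃ h ∈ H, h • z = y), f y =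
      avg (H ⊓ MulAction.stabilizer G z) H (f z) := by
  classical
  have := Fintype.ofFinite G
  funext g
  let T : Subgroup G := H ⊓ MulAction.stabilizer G z
  have hne : (Nat.card T : E) ≠ 0 := by
    rw [Nat.cast_ne_zero]
    exact Nat.card_pos.ne'
  rw [Finset.sum_apply, avg_eq', eq_inv_mul_iff_mul_eq₀ hne, Finset.mul_sum]
  have h1 : ∀ h : H, f z ((h : G)⁻¹ * g * h) = f ((h : G) • z) g := fun h => (hf h h.2 z g).symm
  rw [Finset.sum_congr rfl fun h _ => h1 h]
  have h2 : ∀ h ∈ (Finset.univ : Finset H), (h : G) • z ∈ Z.filter (fun y => ∃ h ∈ H, h • z = y) := by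
    intro h _
    rw [Finset.mem_filter]
    exact ⟨hZ h h.2 z hz, h, h.2, rfl⟩
  rw [← Finset.sum_fiberwise_of_maps_to h2]
  refine Finset.sum_congr rfl fun y hy => ?_
  obtain ⟨_, h0, hh0, rfl⟩ := Finset.mem_filter.1 hy
  have h3 : ∀ h ∈ Finset.univ.filter (fun h : H => (h : G) • z = h0 • z),
      f ((h : G) • z) g = f (h0 • z) g := by
    intro h hh
    rw [(Finset.mem_filter.1 hh).2]
  rw [Finset.sum_congr rfl h3, Finset.sum_const, nsmul_eq_mul]
  congr 2
  rw [Nat.card_eq_fintype_card, ← Finset.card_univ]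
  refine Finset.card_bij (fun (t : T) _ => (⟨h0 * t, H.mul_mem hh0 t.2.1⟩ : H)) ?_ ?_ ?_
  · intro t _
    rw [Finset.mem_filter]
    refine ⟨Finset.mem_univ _, ?_⟩
    show (h0 * (t : G)) • z = h0 • z
    rw [mul_smul]
    congr 1
    exact t.2.2
  · intro a _ b _ hab
    apply Subtype.ext
    exact mul_left_cancel (congrArg Subtype.val hab)
  · intro h hh
    have h4 : (h : G) • z = h0 • z := (Finset.mem_filter.1 hh).2
    refine ⟨⟨h0⁻¹ * h, H.mul_mem (H.inv_mem hh0) h.2, ?_⟩, Finset.mem_univ _, ?_⟩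
    · show (h0⁻¹ * (h : G)) • z = z
      rw [mul_smul, h4, ← mul_smul, inv_mul_cancel, one_smul]
    · apply Subtype.ext
      show h0 * (h0⁻¹ * (h : G)) = h
      group

/-- sums of functions over a set with an action -/
theorem sum_orbits [Finite G] [CharZero E] {X : Type*} [MulAction G X] (H : Subgroup G)
    (f : X → G → E) (hf : ∀ h ∈ H, ∀ z g, f (h • z) g = f z (h⁻¹ * g * h)) (S : AddSubgroup (G → E))
    (n : ℕ) : ∀ Z : Finset X, Z.card ≤ n → (∀ h ∈ H, ∀ z ∈ Z, h • z ∈ Z) →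
      (∀ z ∈ Z, avg (H ⊓ MulAction.stabilizer G z) H (f z) ∈ S) → ∑ z ∈ Z, f z ∈ S := by
  classical
  induction n with
  | zero =>
    intro Z hZ _ _
    rw [Finset.card_eq_zero.1 (Nat.le_zero.1 hZ), Finset.sum_empty]
    exact zero_mem _
  | succ n ih =>
    intro Z hZn hZ hS
    rcases Z.eq_empty_or_nonempty with rfl | ⟨z, hz⟩
    · rw [Finset.sum_empty]
      exact zero_mem _
    · rw [← Finset.sum_filter_add_sum_filter_not Z (fun y => ∃ h ∈ H, h • z = y)]
      refine add_mem ?_ (ih _ ?_ ?_ ?_)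
      · rw [sum_orbit H f hf Z hZ z hz]
        exact hS z hz
      · have h1 : Z.filter (fun y => ¬ ∃ h ∈ H, h • z = y) ⊂ Z := by
          refine Finset.filter_ssubset.2 ⟨z, hz, ?_⟩
          rw [not_not]
          exact ⟨1, H.one_mem, one_smul _ _⟩
        have h2 := Finset.card_lt_card h1
        omega
      · intro h hh y hy
        rw [Finset.mem_filter] at hy ⊢
        refine ⟨hZ h hh y hy.1, ?_⟩
        rintro ⟨h', hh', he⟩
        apply hy.2
        refine ⟨h⁻¹ * h', H.mul_mem (H.inv_mem hh) hh', ?_⟩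
        rw [mul_smul, he, ← mul_smul, inv_mul_cancel, one_smul]
      · intro y hy
        exact hS y (Finset.mem_filter.1 hy).1

end Pool.Agent.Y144.DL
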