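import Pool.Agent.Y144.DL.EquiR

/-!
# Motives over arbitrary number fields: Brauer's theorem with signatures at all real places
-/

set_option autoImplicit false

namespace Pool.Agent.Y144.DL

universe u

section

variable {E : Type*} [Field E] [CharZero E] {G : Type u} [Group G] [Finite G]

/-- **Brauer's theorem with signatures for a set `S` of involutions** (several classes) -/
theorem brauer_S (hE : HasEnoughRootsOfUnity E (Nat.card G)) {S : Set G} (hS : Invol S)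
    {N : Subgroup G} (hN : N.Normal) (hNs : Group.IsSolvable N) {ψ : G →* Eˣ}
    (hψ : ∀ s ∈ S, ψ s = -1) (hSP : ∀ U : Subgroup G, N ≤ U → SignProp S U)
    {θ ω : G → E} (hθ : IsChar θ) (hω : IsChar ω) (hnice : Nice S N (θ - ω))
    (h1 : θ 1 = ω 1) (hDS : ∀ s ∈ S, θ s = ω s) :
    θ - ω ∈ SCT (fun K : Subgroup G => Group.IsSolvable K) E S := by
  have hDconj : ∀ g x : G, (θ - ω) (x⁻¹ * g * x) = (θ - ω) g := by
    intro g x
    rw [Pi.sub_apply, Pi.sub_apply, isChar_conj hθ, isChar_conj hω]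
  refine all_primes ?_
  intro p hp
  by_cases hp2 : p = 2
  · subst hp2
    refine prime_part (Z := ⊥) (P₀ := HyN N) 2 hp
      (fun H K hH hK => hyN_inf hH hK.le) (fun x => exists_FG_N N hN x) hDconj ?_ ?_
    · intro T hT K hK _
      exact solv_mono (hT.solvable hN hNs) hK
    · intro T hT
      obtain ⟨a, ha, b, hb, hab'⟩ := AddSubgroup.mem_sup.1 (hnice T hT)
      obtain ⟨hb1, hb2⟩ := SC_apply hS.conj hb
      have ha' : a = ext T (1 : T →* Eˣ) * (θ - ω) - b := by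
        rw [← hab', add_sub_cancel_right]
      rw [← hab']
      refine add_mem (SC_of_LC hS (hSP T hT.le) ha ?_ ?_) hb
      · rw [ha', Pi.sub_apply, Pi.mul_apply, hb1, Pi.sub_apply, h1, sub_self, mul_zero, sub_zero]
      · intro s hs
        rw [ha', Pi.sub_apply, Pi.mul_apply, hb2 s hs, Pi.sub_apply, hDS s hs, sub_self, mul_zero,
          sub_zero]
  · have hodd := hp.odd_of_ne_two hp2
    refine prime_part (Z := ⊥) (P₀ := Hyc p) p hp (fun H K hH _ => hyc_inf hH)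
      (fun x => exists_FG_hyc x p hp) hDconj ?_ ?_
    · intro T hT K hK _
      exact solv_mono (hT.hyp.solvable hp) hK
    · intro T hT
      refine hyp_diff (ψ := ψ) hE hS.conj hp hT.hyp ?_ hθ hω h1 hDS
      refine ⟨hS.sq, ?_, ?_⟩
      · intro s hs s' hs' K hKH hK hK'
        refine ⟨1, K.one_mem, ?_⟩
        have h3 : s = s' := hT.unique hodd (hKH hK) (hKH hK') (hS.sq s hs) (hS.sq s' hs')
          (hS.ne s hs) (hS.ne s' hs')
        rw [h3]
        group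
      · intro s hs _
        exact hψ s hs

end

section

variable {E : Type*} [Field E] {G : Type u} [Group G]

/-- A term is the function `L(s, M ⊗ θ)` of the twist of a motive `M` over a number field: for every
embedding of the coefficients, a meromorphic function on `ℂ` with the Euler product of `M ⊗ θ`, holomorphic and
nonzero at `m`. -/
abbrev LOver (M : EulerData E) (Fr : M.P → G) (θ : G → E) (m : ℂ) : Type _ := Good2 M Fr m m θ

/-- The value `L(m, M ⊗ θ) ∈ E ⊗ ℂ = ∏_σ ℂ`. -/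
def valueOver {M : EulerData E} {Fr : M.P → G} {θ : G → E} {m : ℂ} (f : LOver M Fr θ m) :
    (E →+* ℂ) → ℂ := fun σ => f.L σ m

variable [Finite G] [CharZero E] {M : EulerData E} {Fr : M.P → G} {m : ℂ}

/-- the functions for the virtual characters generated by the pairs -/
theorem exists_LOver {P : Subgroup G → Prop} {S : Set G}
    (f : ∀ K : Subgroup G, P K → ∀ χ : K →* Eˣ, LOver M Fr (ind K χ) m) (A : ArtinPeriods E G) (r : ℕ)
    (hrel : ∀ (K : Subgroup G) (hK : P K) (χ χ' : K →* Eˣ), (∀ h : K, (h : G) ∈ S → χ h = χ' h) →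
      Sim (valueOver (f K hK χ) * A.δ (ind K χ') ^ r) (valueOver (f K hK χ') * A.δ (ind K χ) ^ r))
    {D : G → E} (hD : D ∈ SCT P E S) :
    ∃ (F : LOver M Fr D m) (α β : G → E), IsChar α ∧ IsChar β ∧ D = α - β ∧
      ∃ e : E, e ≠ 0 ∧ ∀ σ, F.L σ m * A.δ β σ ^ r = σ e * A.δ α σ ^ r := by
  classical
  have := Fintype.ofFinite G
  induction hD using AddSubgroup.closure_induction with
  | mem D hD =>
    obtain ⟨K, χ, χ', hK, he, rfl⟩ := hD
    rw [sub_eq_add_neg]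
    have hχ := isChar_ind K χ
    have hχ' := isChar_ind K χ'
    obtain ⟨e, he0, h⟩ := hrel K hK χ χ' he
    refine ⟨(f K hK χ).mul (f K hK χ').inv, ind K χ, ind K χ', hχ, hχ', (sub_eq_add_neg _ _).symm,
      e, he0, fun σ => ?_⟩
    have h1 : (f K hK χ).L σ m * A.δ (ind K χ') σ ^ r =
        σ e * ((f K hK χ').L σ m * A.δ (ind K χ) σ ^ r) := h σ
    show (f K hK χ).L σ m * ((f K hK χ').L σ m)⁻¹ * A.δ (ind K χ') σ ^ r = _
    have h2 := (f K hK χ').ne σ
    field_simp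
    linear_combination h1
  | zero =>
    refine ⟨Good2.one, 0, 0, isChar_zero, isChar_zero, (sub_zero _).symm, 1, one_ne_zero, fun σ => ?_⟩
    rw [map_one]
    rfl
  | add D D' _ _ h h' =>
    obtain ⟨F, α, β, hα, hβ, rfl, e, he, h⟩ := h
    obtain ⟨F', α', β', hα', hβ', rfl, e', he', h'⟩ := h'
    obtain ⟨u, hu, h1⟩ := A.add_iff hα hα'
    obtain ⟨v, hv, h2⟩ := A.add_iff hβ hβ'
    refine ⟨F.mul F', α + α', β + β', isChar_add hα hα', isChar_add hβ hβ', by abel,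
      e * e' * v ^ r * (u ^ r)⁻¹, mul_ne_zero (mul_ne_zero (mul_ne_zero he he') (pow_ne_zero r hv))
        (inv_ne_zero (pow_ne_zero r hu)), fun σ => ?_⟩
    show F.L σ m * F'.L σ m * A.δ (β + β') σ ^ r = _
    have hu' : σ u ^ r ≠ 0 := pow_ne_zero r ((map_ne_zero σ).2 hu)
    rw [h1 σ, h2 σ, map_mul, map_mul, map_mul, map_inv₀, map_pow, map_pow, mul_pow, mul_pow, mul_pow,
      mul_pow]
    have h3 := h σ
    have h4 := h' σ
    calc F.L σ m * F'.L σ m * (σ v ^ r * (A.δ β σ ^ r * A.δ β' σ ^ r))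
        = σ v ^ r * (F.L σ m * A.δ β σ ^ r) * (F'.L σ m * A.δ β' σ ^ r) := by ring
      _ = σ v ^ r * (σ e * A.δ α σ ^ r) * (σ e' * A.δ α' σ ^ r) := by rw [h3, h4]
      _ = _ := by
        field_simp
  | neg D _ h =>
    obtain ⟨F, α, β, hα, hβ, rfl, e, he, h⟩ := h
    refine ⟨F.inv, β, α, hβ, hα, by abel, e⁻¹, inv_ne_zero he, fun σ => ?_⟩
    show (F.L σ m)⁻¹ * A.δ α σ ^ r = σ e⁻¹ * A.δ β σ ^ r
    have h1 := h σ
    have h2 := F.ne σ
    have h3 : σ e ≠ 0 := (map_ne_zero σ).2 he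
    rw [map_inv₀]
    field_simp
    linear_combination -h1

/-- the value of `M ⊗ θ` has the expected form, with the factor `q` -/
def Has (M : EulerData E) (Fr : M.P → G) (m : ℂ) (A : ArtinPeriods E G) (r : ℕ) (θ : G → E)
    (q : (E →+* ℂ) → ℂ) : Prop :=
  IsChar θ ∧ ∃ X : LOver M Fr θ m, Sim (valueOver X) (q * A.δ θ ^ r)

variable {A : ArtinPeriods E G} {r : ℕ}

theorem Has.add {θ θ' : G → E} {q q' : (E →+* ℂ) → ℂ} (h : Has M Fr m A r θ q)
    (h' : Has M Fr m A r θ' q') : Has M Fr m A r (θ + θ') (q * q') := by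
  obtain ⟨hθ, X, e, he, h⟩ := h
  obtain ⟨hθ', X', e', he', h'⟩ := h'
  have := Fintype.ofFinite G
  refine ⟨isChar_add hθ hθ', X.mul X', ?_⟩
  obtain ⟨u, hu, h1⟩ := A.add_iff hθ hθ'
  refine ⟨e * e' * (u ^ r)⁻¹, mul_ne_zero (mul_ne_zero he he') (inv_ne_zero (pow_ne_zero r hu)),
    fun σ => ?_⟩
  have hu' : σ u ^ r ≠ 0 := pow_ne_zero r ((map_ne_zero σ).2 hu)
  have h2 := h σ
  have h3 := h' σ
  show valueOver X σ * valueOver X' σ = _
  rw [h2, h3]
  simp only [Pi.mul_apply, Pi.pow_apply, map_mul, map_inv₀, map_pow]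
  rw [h1 σ, mul_pow, mul_pow]
  field_simp

theorem Has.zero : Has M Fr m A r 0 1 := by
  refine ⟨isChar_zero, Good2.one, ?_⟩
  obtain ⟨u, hu, h1⟩ := A.add_iff (E := E) (G := G) (α := 0) (β := 0) isChar_zero isChar_zero
  refine ⟨u ^ r, pow_ne_zero r hu, fun σ => ?_⟩
  have h2 := h1 σ
  rw [add_zero] at h2
  have h3 := A.ne_zero 0 isChar_zero σ
  have h4 : σ u * A.δ 0 σ = 1 := by
    have h5 : A.δ 0 σ * (σ u * A.δ 0 σ) = A.δ 0 σ * 1 := by
      rw [mul_one]
      nth_rewrite 3 [h2]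
      ring
    exact mul_left_cancel₀ h3 h5
  show (1 : ℂ) = σ (u ^ r) * ((1 : (E →+* ℂ) → ℂ) σ * A.δ 0 σ ^ r)
  rw [Pi.one_apply, one_mul, map_pow, ← mul_pow, h4, one_pow]

theorem Has.nsmul {θ : G → E} {q : (E →+* ℂ) → ℂ} (h : Has M Fr m A r θ q) (n : ℕ) :
    Has M Fr m A r (n • θ) (q ^ n) := by
  induction n with
  | zero =>
    rw [zero_smul, pow_zero]
    exact Has.zero
  | succ n ih =>
    rw [succ_nsmul, pow_succ]
    exact ih.add h

theorem Has.sum {V : Type*} (s : Finset V) {θ : V → G → E} {q : V → (E →+* ℂ) → ℂ}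
    (h : ∀ v, Has M Fr m A r (θ v) (q v)) : Has M Fr m A r (∑ v ∈ s, θ v) (∏ v ∈ s, q v) := by
  classical
  induction s using Finset.induction_on with
  | empty =>
    rw [Finset.sum_empty, Finset.prod_empty]
    exact Has.zero
  | insert a s ha ih =>
    rw [Finset.sum_insert ha, Finset.prod_insert ha]
    exact (h a).add ih

/-- cancellation -/
theorem Has.cancel {θ η : G → E} {q p : (E →+* ℂ) → ℂ} (hθ : IsChar θ)
    (h : Has M Fr m A r (θ + η) (q * p)) (h' : Has M Fr m A r η p) : Has M Fr m A r θ q := by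
  obtain ⟨_, X, e, he, h⟩ := h
  obtain ⟨hη, Y, e', he', h'⟩ := h'
  have := Fintype.ofFinite G
  have key : ∀ θ' : G → E, θ' = θ → ∀ X : LOver M Fr θ' m, ∃ X' : LOver M Fr θ m,
      valueOver X' = valueOver X := by
    rintro _ rfl X
    exact ⟨X, rfl⟩
  obtain ⟨Z, hZ⟩ := key _ (by abel) (X.mul Y.inv)
  obtain ⟨u, hu, h1⟩ := A.add_iff hθ hη
  refine ⟨hθ, Z, e * u ^ r * e'⁻¹, mul_ne_zero (mul_ne_zero he (pow_ne_zero r hu)) (inv_ne_zero he'),
    fun σ => ?_⟩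
  have h2 := h σ
  have h3 := h' σ
  have h4 : valueOver Y σ ≠ 0 := Y.ne σ
  have h5 : σ e' ≠ 0 := (map_ne_zero σ).2 he'
  simp only [Pi.mul_apply, Pi.pow_apply] at h2 h3
  rw [h3] at h4
  have h6 : p σ ≠ 0 := fun h0 => h4 (by rw [h0]; ring)
  have h7 : A.δ η σ ^ r ≠ 0 := pow_ne_zero r (A.ne_zero η hη σ)
  rw [hZ]
  show valueOver X σ * (valueOver Y σ)⁻¹ = _
  rw [h2, h3, h1 σ]
  simp only [Pi.mul_apply, Pi.pow_apply, map_mul, map_inv₀, map_pow]
  rw [mul_pow, mul_pow]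
  field_simp

/-- transfer along differences of the pairs -/
theorem Has.transfer {P : Subgroup G → Prop} {S : Set G}
    (f : ∀ K : Subgroup G, P K → ∀ χ : K →* Eˣ, LOver M Fr (ind K χ) m)
    (hrel : ∀ (K : Subgroup G) (hK : P K) (χ χ' : K →* Eˣ), (∀ h : K, (h : G) ∈ S → χ h = χ' h) →
      Sim (valueOver (f K hK χ) * A.δ (ind K χ') ^ r) (valueOver (f K hK χ') * A.δ (ind K χ) ^ r))
    {θ ω : G → E} {q : (E →+* ℂ) → ℂ} (hθ : IsChar θ) (h : Has M Fr m A r ω q)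
    (hD : θ - ω ∈ SCT P E S) : Has M Fr m A r θ q := by
  obtain ⟨hω, X, x, hx, h⟩ := h
  have := Fintype.ofFinite G
  obtain ⟨F, α, β, hα, hβ, hαβ, e, he, hF⟩ := exists_LOver f A r hrel hD
  have key : ∀ θ' : G → E, θ' = θ → ∀ X : LOver M Fr θ' m, ∃ X' : LOver M Fr θ m,
      valueOver X' = valueOver X := by
    rintro _ rfl X
    exact ⟨X, rfl⟩
  obtain ⟨Z, hZ⟩ := key _ (by abel) (F.mul X)
  obtain ⟨u, hu, h1⟩ := A.add_iff hθ hβ
  obtain ⟨v, hv, h2⟩ := A.add_iff hω hα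
  have hsum : θ + β = ω + α := by
    have h4 : θ = α - β + ω := by rw [← hαβ, sub_add_cancel]
    rw [h4]
    abel
  refine ⟨hθ, Z, e * x * u ^ r * (v ^ r)⁻¹, mul_ne_zero (mul_ne_zero (mul_ne_zero he hx)
    (pow_ne_zero r hu)) (inv_ne_zero (pow_ne_zero r hv)), fun σ => ?_⟩
  have h3 := h σ
  simp only [Pi.mul_apply, Pi.pow_apply] at h3
  have h4 := hF σ
  have h5 : σ u * (A.δ θ σ * A.δ β σ) = σ v * (A.δ ω σ * A.δ α σ) := by
    rw [← h1 σ, ← h2 σ, hsum]
  have h6 : σ u ^ r * (A.δ θ σ ^ r * A.δ β σ ^ r) = σ v ^ r * (A.δ ω σ ^ r * A.δ α σ ^ r) := by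
    rw [← mul_pow, ← mul_pow, h5, mul_pow, mul_pow]
  have hv' : σ v ^ r ≠ 0 := pow_ne_zero r ((map_ne_zero σ).2 hv)
  have hβ' : A.δ β σ ^ r ≠ 0 := pow_ne_zero r (A.ne_zero β hβ σ)
  rw [hZ]
  show F.L σ m * valueOver X σ = _
  simp only [Pi.mul_apply, Pi.pow_apply, map_mul, map_inv₀, map_pow]
  apply mul_right_cancel₀ (mul_ne_zero hβ' hv')
  calc F.L σ m * valueOver X σ * (A.δ β σ ^ r * σ v ^ r)
      = (F.L σ m * A.δ β σ ^ r) * (valueOver X σ * σ v ^ r) := by ring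
    _ = (σ e * A.δ α σ ^ r) * (σ x * (q σ * A.δ ω σ ^ r) * σ v ^ r) := by rw [h4, h3]
    _ = σ e * σ x * q σ * (σ v ^ r * (A.δ ω σ ^ r * A.δ α σ ^ r)) := by ring
    _ = σ e * σ x * q σ * (σ u ^ r * (A.δ θ σ ^ r * A.δ β σ ^ r)) := by rw [h6]
    _ = _ := by
      field_simp

end

end Pool.Agent.Y144.DL
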