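import Pool.Agent.Y144.DL.Over

/-!
# Motives over arbitrary number fields: the theorem for groups
-/

set_option autoImplicit false

namespace Pool.Agent.Y144.DL

universe u

section

variable {E : Type*} [Field E] {G : Type u} [Group G] [Finite G]

/-- The assumptions on the twists of a motive `M` over `k₀` by abelian characters. Here `G` is the Galois group
of `F / k₀`, `c v` is complex conjugation at the real place `v` of `k₀` and `P H` says which fields `k = F^H`
are used.

* `L H χ` is the function `L(M_k ⊗ χ, s) = L(M ⊗ Ind_H χ, s)`: it has a meromorphic continuation which is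
  holomorphic and nonzero at `m`;
* `rel` is relative rationality: for characters `χ`, `χ'` of `H` with the same signs at the real places of `k`
  (the same values at the complex conjugations in `H`), `L(M_k ⊗ χ, m)` and `L(M_k ⊗ χ', m)` have the quotient
  `δ(Ind_H χ) ^ r / δ(Ind_H χ') ^ r`, up to a factor in `E`;
* `base` and `baseψ` are Deligne's conjecture at `m`, up to a factor in `E`, for `M`, with the period `q`, and for
  ONE twist `M ⊗ ψ_v` for each real place `v` of `k₀`, by a character which is odd at `v` and even at the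
  other real places, with the period `q ρ_v` (`ρ_v` is the quotient of the periods `c^∓` of `M` at `v`). -/
structure TwistsOver {V : Type*} (P : Subgroup G → Prop) (c : V → G) (M : EulerData E) (Fr : M.P → G)
    (m : ℂ) (A : ArtinPeriods E G) (r : ℕ) (q : (E →+* ℂ) → ℂ) (ρ : V → (E →+* ℂ) → ℂ) where
  /-- the functions `L(M_k ⊗ χ, s)` -/
  L : ∀ H : Subgroup G, P H → ∀ χ : H →* Eˣ, LOver M Fr (ind H χ) m
  rel : ∀ (H : Subgroup G) (h : P H) (χ χ' : H →* Eˣ),
    (∀ s : H, (∃ v, IsConj (c v) (s : G)) → χ s = χ' s) →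
    Sim (valueOver (L H h χ) * A.δ (ind H χ') ^ r) (valueOver (L H h χ') * A.δ (ind H χ) ^ r)
  /-- the function `L(M, s)` -/
  L₁ : LOver M Fr 1 m
  base : Sim (valueOver L₁) (q * A.δ 1 ^ r)
  /-- the characters `ψ_v` -/
  ψ : V → G →* Eˣ
  odd : ∀ v, ψ v (c v) = -1
  even : ∀ v w, v ≠ w → ψ v (c w) = 1
  /-- the functions `L(M ⊗ ψ_v, s)` -/
  Lψ : ∀ v, LOver M Fr (fun g => ψ v g) m
  baseψ : ∀ v, Sim (valueOver (Lψ v)) (q * ρ v * A.δ (fun g => ψ v g) ^ r)

variable [CharZero E]

omit [CharZero E] in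
theorem Nice.sum {S : Set G} {N : Subgroup G} {V : Type*} (s : Finset V) {θ : V → G → E}
    (h : ∀ v, Nice S N (θ v)) : Nice S N (∑ v ∈ s, θ v) := by
  classical
  induction s using Finset.induction_on with
  | empty =>
    rw [Finset.sum_empty]
    have h1 := (nice_one (S := S) (N := N) (E := E)).nsmul 0
    rwa [zero_smul] at h1
  | insert a s ha ih =>
    rw [Finset.sum_insert ha]
    exact (h a).add ih

omit [Finite G] [CharZero E] in
theorem isChar_sum {V : Type*} (s : Finset V) {θ : V → G → E} (h : ∀ v, IsChar (θ v)) :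
    IsChar (∑ v ∈ s, θ v) := by
  classical
  induction s using Finset.induction_on with
  | empty =>
    rw [Finset.sum_empty]
    exact isChar_zero
  | insert a s ha ih =>
    rw [Finset.sum_insert ha]
    exact isChar_add (h a) ih

/-- the theorem for groups -/
theorem over_group {V : Type*} [Fintype V] (hE : HasEnoughRootsOfUnity E (Nat.card G)) {c : V → G}
    (hS : Invol {s : G | ∃ v, IsConj (c v) s}) {N : Subgroup G} (hN : N.Normal)
    (hNs : Group.IsSolvable N)
    (hSP : ∀ U : Subgroup G, N ≤ U → SignProp {s : G | ∃ v, IsConj (c v) s} U)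
    {M : EulerData E} {Fr : M.P → G} {m : ℂ} {A : ArtinPeriods E G} {r : ℕ} {q : (E →+* ℂ) → ℂ}
    {ρ : V → (E →+* ℂ) → ℂ}
    (h : TwistsOver (fun H : Subgroup G => Group.IsSolvable H) c M Fr m A r q ρ)
    {θ : G → E} (hθ : IsCharN N θ) (d : ℕ) (b : V → ℕ) (hd : θ 1 = d)
    (hb : ∀ v, θ (c v) = d - 2 * b v) : Has M Fr m A r θ (q ^ d * ∏ v, ρ v ^ b v) := by
  classical
  have h1 : Has M Fr m A r (1 : G → E) q := ⟨isChar_one, h.L₁, h.base⟩
  have hψ : ∀ v, Has M Fr m A r (fun g => (h.ψ v g : E)) (q * ρ v) :=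
    fun v => ⟨isChar_linear (h.ψ v), h.Lψ v, h.baseψ v⟩
  obtain ⟨ω, hω⟩ : ∃ ω : G → E, ω = d • (1 : G → E) + ∑ v, b v • fun g => (h.ψ v g : E) := ⟨_, rfl⟩
  have hωHas : Has M Fr m A r ω (q ^ d * ∏ v, (q * ρ v) ^ b v) := by
    rw [hω]
    exact (h1.nsmul d).add (Has.sum Finset.univ fun v => (hψ v).nsmul (b v))
  obtain ⟨Θ, hΘ⟩ : ∃ Θ : G → E, Θ = θ + (∑ v, b v) • (1 : G → E) := ⟨_, rfl⟩
  have hΘc : IsChar Θ := by
    rw [hΘ]
    exact isChar_add hθ.isChar (isChar_nsmul isChar_one _)
  have hnice : Nice {s : G | ∃ v, IsConj (c v) s} N (Θ - ω) := by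
    rw [hΘ, hω]
    exact ((hθ.nice hE hS hSP).add (nice_one.nsmul _)).sub
      ((nice_one.nsmul d).add (Nice.sum Finset.univ fun v => (nice_linear (h.ψ v)).nsmul (b v)))
  have hωg : ∀ g, ω g = d + ∑ v, (b v : E) * (h.ψ v g : E) := by
    intro g
    rw [hω, Pi.add_apply, Finset.sum_apply]
    show d • (1 : E) + ∑ v, b v • (h.ψ v g : E) = _
    simp only [nsmul_eq_mul, mul_one]
  have hΘg : ∀ g, Θ g = θ g + ∑ v, (b v : E) := by
    intro g
    rw [hΘ]
    show θ g + (∑ v, b v) • (1 : E) = _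
    rw [nsmul_eq_mul, mul_one, Nat.cast_sum]
  have hval1 : Θ 1 = ω 1 := by
    rw [hΘg, hωg, hd]
    simp only [map_one, Units.val_one, mul_one]
  have hvalc : ∀ w, Θ (c w) = ω (c w) := by
    intro w
    rw [hΘg, hωg, hb]
    have h2 : ∀ v, ((b v : ℕ) : E) * (h.ψ v (c w) : E) = b v - if v = w then 2 * (b v : E) else 0 := by
      intro v
      by_cases hvw : v = w
      · rw [if_pos hvw, ← hvw, h.odd v, Units.val_neg, Units.val_one]
        ring
      · rw [if_neg hvw, h.even v w hvw, Units.val_one]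
        ring
    rw [Finset.sum_congr rfl fun v _ => h2 v, Finset.sum_sub_distrib, Finset.sum_ite_eq' Finset.univ w,
      if_pos (Finset.mem_univ w)]
    ring
  have hDS : ∀ s ∈ {s : G | ∃ v, IsConj (c v) s}, Θ s = ω s := by
    rintro s ⟨w, hw⟩
    obtain ⟨u, hu⟩ := isConj_iff.1 hw
    have h5 : s = (u⁻¹)⁻¹ * c w * u⁻¹ := by rw [← hu, inv_inv]
    rw [h5, isChar_conj hΘc, isChar_conj hωHas.1, hvalc]
  -- a character which is `-1` at all complex conjugations
  have hprod : ∀ s ∈ {s : G | ∃ v, IsConj (c v) s}, (∏ v, h.ψ v) s = -1 := by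
    rintro s ⟨w, hw⟩
    obtain ⟨u, hu⟩ := isConj_iff.1 hw
    rw [← hu, map_mul, map_mul, map_inv, mul_right_comm, mul_inv_cancel, one_mul,
      MonoidHom.finsetProd_apply, Finset.prod_eq_single w]
    · exact h.odd w
    · intro v _ hvw
      exact h.even v w hvw
    · intro h9
      exact absurd (Finset.mem_univ w) h9
  have hD := brauer_S hE hS hN hNs hprod hSP hΘc hωHas.1 hnice hval1 hDS
  have hΘHas : Has M Fr m A r Θ (q ^ d * ∏ v, (q * ρ v) ^ b v) :=
    Has.transfer (S := {s : G | ∃ v, IsConj (c v) s}) h.L (fun K hK χ χ' he => h.rel K hK χ χ' he)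
      hΘc hωHas hD
  have hη : Has M Fr m A r ((∑ v, b v) • (1 : G → E)) (q ^ ∑ v, b v) := h1.nsmul _
  refine Has.cancel hθ.isChar ?_ hη
  rw [hΘ] at hΘHas
  have h6 : q ^ d * ∏ v, (q * ρ v) ^ b v = q ^ d * (∏ v, ρ v ^ b v) * q ^ ∑ v, b v := by
    have h7 : ∏ v, (q * ρ v) ^ b v = q ^ (∑ v, b v) * ∏ v, ρ v ^ b v := by
      rw [← Finset.prod_pow_eq_pow_sum, ← Finset.prod_mul_distrib]
      refine Finset.prod_congr rfl fun v _ => ?_
      rw [mul_pow]
    rw [h7]
    ring
  rwa [h6] at hΘHas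

end

section

variable {K E : Type*} [Field K] [Field E] [Algebra K E] {G : Type u} [Group G]

/-- descent of the field of coefficients -/
theorem descend_val [CharZero K] [Algebra.IsAlgebraic K E]
    {M : EulerData K} {Fr : M.P → G} {m : ℂ} {θ : G → K}
    (X : LOver (M.map E) Fr (fun g => algebraMap K E (θ g)) m)
    (y : (K →+* ℂ) → ℂ) (h : Sim (valueOver X) (lft E y)) :
    ∃ X₀ : LOver M Fr θ m, Sim (valueOver X₀) y := by
  classical
  have : CharZero E := charZero_ext (K := K)
  have hlift : ∀ τ : K →+* ℂ, ∃ σ : E →+* ℂ, σ.comp (algebraMap K E) = τ := by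
    intro τ
    let _ : Algebra K ℂ := τ.toAlgebra
    have φ : E →ₐ[K] ℂ := IsAlgClosed.lift
    refine ⟨(φ : E →+* ℂ), ?_⟩
    ext x
    exact φ.commutes x
  choose ι hι using hlift
  have hL : ∀ σ : E →+* ℂ, IsLE M Fr θ (σ.comp (algebraMap K E)) (X.L σ) :=
    fun σ => IsLE.map.1 (X.isLE σ)
  let X₀ : LOver M Fr θ m :=
    { L := fun τ => X.L (ι τ)
      isLE := fun τ => by
        have h1 := hL (ι τ)
        rwa [hι] at h1
      an := fun τ => X.an _
      an' := fun τ => X.an' _
      ne := fun τ => X.ne _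
      ne' := fun τ => X.ne' _ }
  have hy : ∀ σ, lft E y σ ≠ 0 := by
    intro σ h0
    obtain ⟨e, _, h⟩ := h
    apply X.ne σ
    have h3 := h σ
    rw [h0, mul_zero] at h3
    exact h3
  refine ⟨X₀, Sim.descend h hy (valueOver X₀) y ?_ (fun σ => rfl)⟩
  intro σ
  have h1 := hL (ι (σ.comp (algebraMap K E)))
  rw [hι] at h1
  show X.L σ m = X.L (ι (σ.comp (algebraMap K E))) m
  rw [(hL σ).unique h1 (X.an _) (X.an _)]

end

section

variable {K : Type} [Field K]

/-- **Deligne's conjecture** (with nonvanishing) at `m` for the twists `M ⊗ θ` of a motive `M` over `k₀` by all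
representations, trivial on `N`, of the Galois group `G` of an extension of `k₀`, over all fields of coefficients
`K'` between `K` and `E`: if `θ` is the character, `d` its dimension, `b v` the dimension of the `(-1)`-eigenspace of
complex conjugation `c v` at the real place `v` of `k₀`, and `δ` a period of the Artin motive (equal to `A.δ θ`
up to a factor in `E`), then `L(s, M ⊗ θ)` has a meromorphic continuation, holomorphic and nonzero at `m`, and
`L(m, M ⊗ θ) ∼ q ^ d ∏_v ρ_v ^ (b v) δ ^ r` up to a factor in `K'`. -/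
def DeligneOver (E : Type) [Field E] [Algebra K E] {G : Type} [Group G] (N : Subgroup G) {V : Type}
    [Fintype V] (c : V → G) (M : EulerData K) (Fr : M.P → G) (m : ℂ) (A : ArtinPeriods E G) (r : ℕ)
    (q : (K →+* ℂ) → ℂ) (ρ : V → (K →+* ℂ) → ℂ) : Prop :=
  ∀ (K' : Type) [Field K'] [Algebra K K'] [Algebra K' E] [IsScalarTower K K' E] (θ : G → K'),
    IsCharN N θ → ∀ (d : ℕ) (b : V → ℕ), θ 1 = d → (∀ v, θ (c v) = d - 2 * b v) →
      ∀ δ : (K' →+* ℂ) → ℂ, Sim (A.δ fun g => algebraMap K' E (θ g)) (lft E δ) →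
        ∃ X : LOver (M.map K') Fr θ m,
          Sim (valueOver X) (lft K' q ^ d * (∏ v, lft K' (ρ v) ^ b v) * δ ^ r)

end

section

variable {K E : Type} [Field K] [CharZero K] [Field E] [Algebra K E] [Algebra.IsAlgebraic K E]

/-- the theorem for groups, with all fields of coefficients -/
theorem deligne_group {G : Type} [Group G] [Finite G] {V : Type} [Fintype V]
    (hE : HasEnoughRootsOfUnity E (Nat.card G)) {c : V → G}
    (hS : Invol {s : G | ∃ v, IsConj (c v) s}) {N : Subgroup G} (hN : N.Normal)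
    (hNs : Group.IsSolvable N)
    (hSP : ∀ U : Subgroup G, N ≤ U → SignProp {s : G | ∃ v, IsConj (c v) s} U)
    {M : EulerData K} {Fr : M.P → G} {m : ℂ} {A : ArtinPeriods E G} {r : ℕ} {q : (K →+* ℂ) → ℂ}
    {ρ : V → (K →+* ℂ) → ℂ}
    (h : TwistsOver (fun H : Subgroup G => Group.IsSolvable H) c (M.map E) Fr m A r (lft E q)
      (fun v => lft E (ρ v))) : DeligneOver E N c M Fr m A r q ρ := by
  have hE0 : CharZero E := charZero_ext (K := K)
  intro K' _ _ _ _ θ hθ d b hd hb δ hδ
  have h0 : CharZero K' := charZero_of_injective_algebraMap (algebraMap K K').injective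
  have h1 : Algebra.IsAlgebraic K' E := Algebra.IsAlgebraic.tower_top (K := K) K'
  obtain ⟨_, X, hX⟩ := over_group hE hS hN hNs hSP h (hθ.map (E := E)) d b
    (by rw [hd, map_natCast])
    (fun v => by
      rw [hb, map_sub, map_mul, map_natCast, map_natCast, map_ofNat])
  have hX' : Sim (valueOver (X.tower K'))
      (lft E (lft K' q ^ d * (∏ v, lft K' (ρ v) ^ b v) * δ ^ r)) := by
    have h2 : lft E (lft K' q ^ d * (∏ v, lft K' (ρ v) ^ b v) * δ ^ r) =
        lft E q ^ d * (∏ v, lft E (ρ v) ^ b v) * lft E δ ^ r := by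
      funext σ
      show (lft K' q ^ d * (∏ v, lft K' (ρ v) ^ b v) * δ ^ r) (σ.comp (algebraMap K' E)) = _
      simp only [Pi.mul_apply, Pi.pow_apply, Finset.prod_apply]
      have h3 : ∀ x : (K →+* ℂ) → ℂ, lft K' x (σ.comp (algebraMap K' E)) = lft E x σ :=
        fun x => congrFun (lft_lft (K' := K') (E := E) x) σ
      simp only [h3]
      rfl
    rw [h2]
    exact hX.trans (Sim.mul (Sim.refl _) (hδ.pow r))
  exact descend_val (X.tower K') _ hX'

end

end Pool.Agent.Y144.DL
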