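import Pool.Agent.Y144.DL.Over2

/-!
# Motives over arbitrary number fields: Galois groups
-/

set_option autoImplicit false

namespace Pool.Agent.Y144.DL

section transport

variable {G' : Type*} [Group G']

theorem signProp_sub {S' : Set G'} {H N' : Subgroup G'} (hNH : N' ≤ H)
    (hSP : ∀ U' : Subgroup G', N' ≤ U' → SignProp S' U') (U : Subgroup H)
    (hU : N'.subgroupOf H ≤ U) : SignProp {s : H | (s : G') ∈ S'} U := by
  classical
  intro h hinv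
  have hU' : N' ≤ U.map H.subtype := by
    intro x hx
    exact ⟨⟨x, hNH hx⟩, hU (Subgroup.mem_subgroupOf.2 hx), rfl⟩
  obtain ⟨κ, hκ⟩ := hSP (U.map H.subtype) hU'
    (fun s => if hs : s ∈ H then h ⟨s, hs⟩ else 1) (by
      rintro s hsS ⟨s0, hs0, rfl⟩ u ⟨u0, hu0, rfl⟩
      have h1 : ((H.subtype u0)⁻¹ * H.subtype s0 * H.subtype u0) ∈ H := (u0⁻¹ * s0 * u0).2
      have h2 : H.subtype s0 ∈ H := s0.2
      rw [dif_pos h1, dif_pos h2]
      exact hinv s0 hsS hs0 u0 hu0)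
  refine ⟨κ.comp (H.subtype.subgroupMap U), ?_⟩
  intro s hs hsS
  have h3 := hκ (s : G') ⟨s, hs, rfl⟩ hsS
  rw [dif_pos s.2] at h3
  exact h3

theorem invol_sub {S' : Set G'} (hS : Invol S') (H : Subgroup G') :
    Invol {s : H | (s : G') ∈ S'} := by
  refine ⟨?_, ?_, ?_⟩
  · intro s hs
    exact Subtype.ext (hS.sq s hs)
  · intro s hs h1
    exact hS.ne s hs (by rw [h1]; rfl)
  · intro s hs x
    exact hS.conj s hs x

end transport

attribute [local instance high] IntermediateField.algebra'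

/-- The real places of `k`: the real embeddings. -/
def RealPlace (k : IntermediateField ℚ ℂ) : Type :=
  {τ : k →ₐ[ℚ] ℂ // ∀ x, (starRingEnd ℂ) (τ x) = τ x}

noncomputable instance RealPlace.fintype (k : IntermediateField ℚ ℂ) [FiniteDimensional ℚ k] :
    Fintype (RealPlace k) :=
  have h1 : Finite (k →ₐ[ℚ] ℂ) := inferInstance
  have h2 : Finite (RealPlace k) := Subtype.finite
  Fintype.ofFinite _

/-- The automorphism `c` of `F` is complex conjugation at the real place `v` of `k ≤ F`: for an embedding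
`g` of `F` in `ℂ` (with image `F`, since `F / ℚ` is normal) which extends `v`, it corresponds to complex
conjugation. -/
def IsConjAt {k F : IntermediateField ℚ ℂ} (h : k ≤ F) (v : RealPlace k) (c : F ≃ₐ[ℚ] F) : Prop :=
  ∃ g : F ≃ₐ[ℚ] F, (∀ x : k, ((g ⟨x, h x.2⟩ : F) : ℂ) = v.1 x) ∧
    ∀ x : F, ((g (c x) : F) : ℂ) = (starRingEnd ℂ) ((g x : F) : ℂ)

section

variable {k F : IntermediateField ℚ ℂ} (hk : k ≤ F)

/-- complex conjugation -/
theorem conj_of_at {v : RealPlace k} {c : F ≃ₐ[ℚ] F} {g : F ≃ₐ[ℚ] F}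
    (hg : ∀ x : F, ((g (c x) : F) : ℂ) = (starRingEnd ℂ) ((g x : F) : ℂ)) :
    IsCC (g * c * g⁻¹) := by
  intro y
  show ((g (c (g⁻¹ y)) : F) : ℂ) = _
  rw [hg]
  congr 2
  exact g.apply_symm_apply y

theorem cc_unique {c c' : F ≃ₐ[ℚ] F} (h : IsCC c) (h' : IsCC c') : c = c' :=
  AlgEquiv.ext fun x => Subtype.ext ((h x).trans (h' x).symm)

theorem conj_iff {c : RealPlace k → fixer k F} (hc : ∀ v, IsConjAt hk v (c v).1)
    {c₀ : F ≃ₐ[ℚ] F} (hc₀ : IsCC c₀) (s : fixer k F) :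
    (∃ v, IsConj (c v) s) ↔ IsConj c₀ (s : F ≃ₐ[ℚ] F) := by
  constructor
  · rintro ⟨v, hv⟩
    obtain ⟨u, hu⟩ := isConj_iff.1 hv
    obtain ⟨g, hg1, hg2⟩ := hc v
    have h1 : g * (c v).1 * g⁻¹ = c₀ := cc_unique (conj_of_at (v := v) hg2) hc₀
    refine isConj_iff.2 ⟨(u : F ≃ₐ[ℚ] F) * g⁻¹, ?_⟩
    rw [← h1, ← hu]
    show (u : F ≃ₐ[ℚ] F) * g⁻¹ * (g * (c v).1 * g⁻¹) * ((u : F ≃ₐ[ℚ] F) * g⁻¹)⁻¹ =
      (u : F ≃ₐ[ℚ] F) * (c v).1 * (u : F ≃ₐ[ℚ] F)⁻¹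
    group
  · intro hs
    obtain ⟨w, hw⟩ := isConj_iff.1 hs
    obtain ⟨u, hu⟩ : ∃ u : F ≃ₐ[ℚ] F, u = w⁻¹ := ⟨_, rfl⟩
    have hus : u * (s : F ≃ₐ[ℚ] F) = c₀ * u := by
      rw [← hw, hu]
      group
    let τ : k →ₐ[ℚ] ℂ := (F.val).comp ((u : F →ₐ[ℚ] F).comp (IntermediateField.inclusion hk))
    have hτ : ∀ x : k, τ x = ((u ⟨x, hk x.2⟩ : F) : ℂ) := fun x => rfl
    have hsx : ∀ x : k, (s : F ≃ₐ[ℚ] F) ⟨x, hk x.2⟩ = ⟨x, hk x.2⟩ := fun x => s.2 _ x.2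
    have hreal : ∀ x, (starRingEnd ℂ) (τ x) = τ x := by
      intro x
      rw [hτ, ← hc₀]
      have h2 : c₀ (u ⟨x, hk x.2⟩) = u ((s : F ≃ₐ[ℚ] F) ⟨x, hk x.2⟩) :=
        (congrArg (fun f : F ≃ₐ[ℚ] F => f ⟨x, hk x.2⟩) hus).symm
      rw [h2, hsx]
    obtain ⟨g, hg1, hg2⟩ := hc ⟨τ, hreal⟩
    have h1 : g * (c ⟨τ, hreal⟩).1 * g⁻¹ = c₀ := cc_unique (conj_of_at (v := ⟨τ, hreal⟩) hg2) hc₀
    have hfix : u⁻¹ * g ∈ fixer k F := by
      rw [mem_fixer]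
      intro x hx
      have h3 : g x = u x := by
        apply Subtype.ext
        have h4 := hg1 ⟨x, hx⟩
        exact h4
      show u⁻¹ (g x) = x
      rw [h3]
      exact u.symm_apply_apply x
    refine ⟨⟨τ, hreal⟩, isConj_iff.2 ⟨⟨u⁻¹ * g, hfix⟩, Subtype.ext ?_⟩⟩
    show u⁻¹ * g * (c ⟨τ, hreal⟩).1 * (u⁻¹ * g)⁻¹ = (s : F ≃ₐ[ℚ] F)
    have h5 : u⁻¹ * g * (c ⟨τ, hreal⟩).1 * (u⁻¹ * g)⁻¹ = u⁻¹ * (g * (c ⟨τ, hreal⟩).1 * g⁻¹) * u := by
      group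
    rw [h5, h1, mul_assoc, ← hus, inv_mul_cancel_left]

end

section

variable {K E : Type} [Field K] [CharZero K] [Field E] [Algebra K E] [Algebra.IsAlgebraic K E]

/-- the theorem over `k₀` -/
theorem deligne_fixer (F₀ k₀ : IntermediateField ℚ ℂ) [FiniteDimensional ℚ F₀] [Normal ℚ F₀]
    [FiniteDimensional ℚ k₀] (hk : k₀ ≤ F₀)
    (hE : HasEnoughRootsOfUnity E (Nat.card (fixer k₀ (big F₀))))
    {c : RealPlace k₀ → fixer k₀ (big F₀)} (hc : ∀ v, IsConjAt (hk.trans (le_big F₀)) v (c v).1)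
    {M : EulerData K} {Fr : M.P → fixer k₀ (big F₀)} {m : ℂ} {A : ArtinPeriods E (fixer k₀ (big F₀))}
    {r : ℕ} {q : (K →+* ℂ) → ℂ} {ρ : RealPlace k₀ → (K →+* ℂ) → ℂ}
    (h : TwistsOver (fun H : Subgroup (fixer k₀ (big F₀)) => Group.IsSolvable H) c (M.map E) Fr m A r
      (lft E q) (fun v => lft E (ρ v))) :
    DeligneOver E ((fixer F₀ (big F₀)).subgroupOf (fixer k₀ (big F₀))) c M Fr m A r q ρ := by
  have hN : ((fixer F₀ (big F₀)).subgroupOf (fixer k₀ (big F₀))).Normal :=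
    have := fixer_normal (F₀ := F₀) (F₁ := big F₀)
    inferInstance
  have hNs : Group.IsSolvable ((fixer F₀ (big F₀)).subgroupOf (fixer k₀ (big F₀))) :=
    solv_exp_two fun g hg => Subtype.ext (big_fixer_sq F₀ g.1 (Subgroup.mem_subgroupOf.1 hg))
  have hle : fixer F₀ (big F₀) ≤ fixer k₀ (big F₀) := fixer_mono hk
  by_cases hex : ∃ c₀ : big F₀ ≃ₐ[ℚ] big F₀, IsCC c₀
  · obtain ⟨c₀, hc₀⟩ := hex
    have hSeq : {s : fixer k₀ (big F₀) | ∃ v, IsConj (c v) s} =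
        {s : fixer k₀ (big F₀) | (s : big F₀ ≃ₐ[ℚ] big F₀) ∈ {s | IsConj c₀ s}} :=
      Set.ext fun s => conj_iff (hk.trans (le_big F₀)) hc hc₀ s
    refine deligne_group hE ?_ hN hNs ?_ h
    · rw [hSeq]
      exact invol_sub (invol_of (conj_sq hc₀) (big_ne_one F₀ c₀ hc₀)) _
    · intro U hU
      rw [hSeq]
      exact signProp_sub hle (fun U' hU' => big_signProp F₀ c₀ hc₀ U' (fun g hg => hU' hg)) U hU
  · have hV : IsEmpty (RealPlace k₀) := by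
      refine ⟨fun v => hex ?_⟩
      obtain ⟨g, hg1, hg2⟩ := hc v
      exact ⟨_, conj_of_at (v := v) hg2⟩
    refine deligne_group hE ?_ hN hNs ?_ h
    · refine ⟨?_, ?_, ?_⟩
      · rintro s ⟨v, _⟩
        exact hV.elim v
      · rintro s ⟨v, _⟩
        exact hV.elim v
      · rintro s ⟨v, _⟩
        exact hV.elim v
    · intro U hU f hf
      refine ⟨1, ?_⟩
      rintro s hs ⟨v, _⟩
      exact hV.elim v

end

end Pool.Agent.Y144.DL
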