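import Pool.Agent.Y144.DL.Over3

/-!
# Motives over arbitrary number fields: sign characters at the real places, and the converse
-/

set_option autoImplicit false

namespace Pool.Agent.Y144.DL

universe u

section converse

variable {E : Type*} [Field E] [CharZero E] {G : Type u} [Group G] [Finite G] {V : Type*} [Fintype V]
  {M : EulerData E} {Fr : M.P → G} {m : ℂ} {A : ArtinPeriods E G} {r : ℕ} {q : (E →+* ℂ) → ℂ}
  {ρ : V → (E →+* ℂ) → ℂ} {c : V → G}

/-- the assumptions on abelian twists follow from Deligne's conjecture for the twists -/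
theorem twists_of_all (hcc : ∀ v, c v * c v = 1)
    (hψ : ∀ v, ∃ ψ : G →* Eˣ, ψ (c v) = -1 ∧ ∀ w, v ≠ w → ψ (c w) = 1) (P : Subgroup G → Prop)
    (hA : ∀ θ : G → E, IsChar θ → ∀ (d : ℕ) (b : V → ℕ), θ 1 = d → (∀ v, θ (c v) = d - 2 * b v) →
      ∃ X : LOver M Fr θ m, Sim (valueOver X) (q ^ d * (∏ v, ρ v ^ b v) * A.δ θ ^ r)) :
    Nonempty (TwistsOver P c M Fr m A r q ρ) := by
  classical
  have hval : ∀ θ : G → E, IsChar θ → ∃ (d : ℕ) (b : V → ℕ), θ 1 = d ∧ ∀ v, θ (c v) = d - 2 * b v := by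
    intro θ hθ
    obtain ⟨d, z, h1, -⟩ := exists_signature hθ (one_mul (1 : G))
    have h2 : θ 1 = ((d + z : ℕ) : E) := by
      rw [h1]
      push_cast
      rfl
    have h3 : ∀ v, ∃ b : ℕ, θ (c v) = ((d + z : ℕ) : E) - 2 * b := by
      intro v
      obtain ⟨a, b, h4, h5⟩ := exists_signature hθ (hcc v)
      refine ⟨b, ?_⟩
      rw [← h2, h4, h5]
      ring
    choose b hb using h3
    exact ⟨d + z, b, h2, hb⟩
  have hsig : ∀ (H : Subgroup G) (χ : H →* Eˣ), ∃ (d : ℕ) (b : V → ℕ) (X : LOver M Fr (ind H χ) m),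
      ind H χ 1 = d ∧ (∀ v, ind H χ (c v) = d - 2 * b v) ∧
        Sim (valueOver X) (q ^ d * (∏ v, ρ v ^ b v) * A.δ (ind H χ) ^ r) := by
    intro H χ
    obtain ⟨d, b, h1, h2⟩ := hval _ (isChar_ind H χ)
    obtain ⟨X, hX⟩ := hA _ (isChar_ind H χ) d b h1 h2
    exact ⟨d, b, X, h1, h2, hX⟩
  choose d b X h1 h2 hX using hsig
  choose ψ hψ1 hψ2 using hψ
  obtain ⟨X₁, hX₁⟩ := hA 1 isChar_one 1 (fun _ => 0) (by simp) (by simp)
  have hXψ : ∀ v, ∃ Y : LOver M Fr (fun g => (ψ v g : E)) m,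
      Sim (valueOver Y) (q * ρ v * A.δ (fun g => (ψ v g : E)) ^ r) := by
    intro v
    obtain ⟨Y, hY⟩ := hA (fun g => (ψ v g : E)) (isChar_linear (ψ v)) 1 (fun w => if w = v then 1 else 0)
      (by simp) (by
        intro w
        show ((ψ v (c w) : Eˣ) : E) = _
        by_cases hw : w = v
        · rw [if_pos hw, hw, hψ1]
          push_cast
          ring
        · rw [if_neg hw, hψ2 v w (Ne.symm hw)]
          simp)
    refine ⟨Y, ?_⟩
    have h3 : (∏ w, ρ w ^ (if w = v then 1 else 0)) = ρ v := by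
      rw [Finset.prod_eq_single v]
      · rw [if_pos rfl, pow_one]
      · intro w _ hw
        rw [if_neg hw, pow_zero]
      · intro h
        exact absurd (Finset.mem_univ v) h
    rw [h3, pow_one] at hY
    exact hY
  choose Y hY using hXψ
  rw [pow_one] at hX₁
  simp only [pow_zero, Finset.prod_const_one, mul_one] at hX₁
  refine ⟨⟨fun H _ χ => X H χ, ?_, X₁, hX₁, ψ, hψ1, hψ2, Y, hY⟩⟩
  intro H _ χ χ' hs
  have e1 : d H χ = d H χ' := by
    have h3 : ((d H χ : ℕ) : E) = d H χ' := by rw [← h1, ← h1, ind_one_congr]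
    exact_mod_cast h3
  have e2 : b H χ = b H χ' := by
    funext v
    have h3 : ind H χ (c v) = ind H χ' (c v) := ind_congr fun s hs' => hs s ⟨v, hs'⟩
    rw [h2, h2, e1] at h3
    have h4 : ((2 * b H χ v : ℕ) : E) = ((2 * b H χ' v : ℕ) : E) := by
      push_cast
      linear_combination -h3
    have h5 : 2 * b H χ v = 2 * b H χ' v := by exact_mod_cast h4
    omega
  obtain ⟨e, he, h⟩ := hX H χ
  obtain ⟨e', he', h'⟩ := hX H χ'
  refine ⟨e / e', div_ne_zero he he', fun σ => ?_⟩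
  have he'' : σ e' ≠ 0 := (map_ne_zero σ).2 he'
  simp only [Pi.mul_apply, Pi.pow_apply]
  rw [h σ, h' σ, e1, e2, map_div₀]
  simp only [Pi.mul_apply, Pi.pow_apply]
  field_simp

end converse

theorem conj_of_mul_self_pos {z : ℂ} {t : ℝ} (hz : z * z = t) (ht : 0 < t) : (starRingEnd ℂ) z = z := by
  have h1 := congrArg Complex.re hz
  have h2 := congrArg Complex.im hz
  simp only [Complex.mul_re, Complex.mul_im, Complex.ofReal_re, Complex.ofReal_im] at h1 h2
  have h3 : z.re * z.im = 0 := by linarith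
  have h4 : z.im = 0 := by
    rcases mul_eq_zero.1 h3 with h | h
    · rw [h] at h1
      nlinarith [mul_self_nonneg z.im]
    · exact h
  exact Complex.conj_eq_iff_im.2 h4

theorem conj_of_mul_self_neg {z : ℂ} {t : ℝ} (hz : z * z = t) (ht : t < 0) : (starRingEnd ℂ) z = -z := by
  have h1 := congrArg Complex.re hz
  have h2 := congrArg Complex.im hz
  simp only [Complex.mul_re, Complex.mul_im, Complex.ofReal_re, Complex.ofReal_im] at h1 h2
  have h3 : z.re * z.im = 0 := by linarith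
  have h4 : z.re = 0 := by
    rcases mul_eq_zero.1 h3 with h | h
    · exact h
    · rw [h] at h1
      nlinarith [mul_self_nonneg z.re]
  apply Complex.ext
  · rw [Complex.conj_re, Complex.neg_re, h4, neg_zero]
  · rw [Complex.conj_im, Complex.neg_im]

attribute [local instance high] IntermediateField.algebra'

section

theorem RealPlace.re {k : IntermediateField ℚ ℂ} (v : RealPlace k) (x : k) :
    (((v.1 x).re : ℝ) : ℂ) = v.1 x := Complex.conj_eq_iff_re.1 (v.2 x)

/-- the real embedding -/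
noncomputable def RealPlace.toReal {k : IntermediateField ℚ ℂ} (v : RealPlace k) : k →+* ℝ where
  toFun x := (v.1 x).re
  map_one' := by rw [map_one, Complex.one_re]
  map_zero' := by rw [map_zero, Complex.zero_re]
  map_add' x y := by rw [map_add, Complex.add_re]
  map_mul' x y := by
    apply Complex.ofReal_injective
    rw [v.re, Complex.ofReal_mul, v.re, v.re, map_mul]

variable (F₀ k₀ : IntermediateField ℚ ℂ) [FiniteDimensional ℚ F₀] [FiniteDimensional ℚ k₀]
  (hk : k₀ ≤ F₀)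

include hk in
/-- an element of `k₀` which is negative exactly at `v` and whose square root is in `big F₀` -/
theorem exists_el (v : RealPlace k₀) : ∃ a : k₀, (v.1 a).re < 0 ∧ (∀ w : RealPlace k₀, w ≠ v → 0 < (w.1 a).re) ∧
    ∀ z : ℂ, z * z = (a : ℂ) → z ∈ big F₀ := by
  classical
  let L : IntermediateField ℚ F₀ := IntermediateField.restrict hk
  have hL : ∀ x : L, (((x : F₀) : ℂ)) ∈ k₀ := fun x => (IntermediateField.mem_restrict hk x.1).1 x.2
  let j : L →+* k₀ :=
    { toFun := fun x => ⟨((x : F₀) : ℂ), hL x⟩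
      map_one' := rfl
      map_zero' := rfl
      map_add' := fun _ _ => rfl
      map_mul' := fun _ _ => rfl }
  let τ : RealPlace k₀ → (L →ₐ[ℚ] ℝ) := fun w => RingHom.toRatAlgHom (w.toReal.comp j)
  have hτ : ∀ w (x : L), τ w x = (w.1 (j x)).re := fun w x => rfl
  have hj : ∀ y : k₀, ∃ x : L, j x = y := by
    intro y
    exact ⟨⟨⟨y, hk y.2⟩, (IntermediateField.mem_restrict hk _).2 y.2⟩, rfl⟩
  have hinj : ∀ w w', τ w = τ w' → w = w' := by
    intro w w' h
    apply Subtype.ext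
    apply AlgHom.ext
    intro y
    obtain ⟨x, rfl⟩ := hj y
    rw [← w.re, ← w'.re, ← hτ, ← hτ, h]
  let ε : (L →ₐ[ℚ] ℝ) → ℤˣ := fun σ => if σ = τ v then -1 else 1
  let a : L := el F₀ ⟨L, ε⟩
  have ha : ∀ σ, 0 < ((ε σ : ℤ) : ℝ) * σ a := el_spec F₀ ⟨L, ε⟩
  refine ⟨j a, ?_, ?_, ?_⟩
  · have h1 := ha (τ v)
    have h2 : ε (τ v) = -1 := if_pos rfl
    rw [h2, hτ] at h1
    push_cast at h1
    linarith
  · intro w hw
    have h1 := ha (τ w)
    have h2 : ε (τ w) = 1 := if_neg fun h => hw (hinj _ _ h)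
    rw [h2, hτ] at h1
    push_cast at h1
    linarith
  · intro z hz
    exact big_sqrt F₀ ⟨L, ε⟩ hz

/-- the sign characters at the real places -/
theorem exists_sign_char {c : RealPlace k₀ → fixer k₀ (big F₀)}
    (hc : ∀ v, IsConjAt (hk.trans (le_big F₀)) v (c v).1) (v : RealPlace k₀) :
    ∃ κ : fixer k₀ (big F₀) →* ℤˣ, κ (c v) = -1 ∧ ∀ w, w ≠ v → κ (c w) = 1 := by
  classical
  obtain ⟨a, hav, haw, hsqrt⟩ := exists_el F₀ k₀ hk v
  obtain ⟨z, hz⟩ : ∃ z : ℂ, z * z = (a : ℂ) := by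
    obtain ⟨z, hz⟩ := IsAlgClosed.exists_pow_nat_eq (a : ℂ) (n := 2) (by norm_num)
    exact ⟨z, by rw [← sq, hz]⟩
  let y : big F₀ := ⟨z, hsqrt z hz⟩
  let a' : big F₀ := ⟨a, hk.trans (le_big F₀) a.2⟩
  have hy : y * y = a' := Subtype.ext hz
  have ha0 : a ≠ 0 := by
    rintro rfl
    rw [map_zero, Complex.zero_re] at hav
    exact lt_irrefl _ hav
  have hy0 : y ≠ 0 := by
    intro h0
    apply ha0
    apply Subtype.ext
    have h1 : ((a' : big F₀) : ℂ) = 0 := by
      rw [← hy, h0, mul_zero]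
      rfl
    exact h1
  have hne : -y ≠ y := by
    intro h1
    exact hy0 (self_eq_neg.1 h1.symm)
  have hu : ∀ u : fixer k₀ (big F₀), (u : big F₀ ≃ₐ[ℚ] big F₀) y = y ∨
      (u : big F₀ ≃ₐ[ℚ] big F₀) y = -y := by
    intro u
    apply mul_self_eq_mul_self_iff.1
    rw [← map_mul, hy, u.2 a' a.2]
  let κ : fixer k₀ (big F₀) →* ℤˣ :=
    { toFun := fun u => if (u : big F₀ ≃ₐ[ℚ] big F₀) y = y then 1 else -1
      map_one' := if_pos rfl
      map_mul' := by
        intro u w
        show (if (u : big F₀ ≃ₐ[ℚ] big F₀) ((w : big F₀ ≃ₐ[ℚ] big F₀) y) = y then (1 : ℤˣ) else -1) =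
          (if (u : big F₀ ≃ₐ[ℚ] big F₀) y = y then 1 else -1) *
          (if (w : big F₀ ≃ₐ[ℚ] big F₀) y = y then 1 else -1)
        rcases hu u with h1 | h1 <;> rcases hu w with h2 | h2 <;> simp [h1, h2, hne] }
  have hκ : ∀ u, κ u = if (u : big F₀ ≃ₐ[ℚ] big F₀) y = y then 1 else -1 := fun u => rfl
  refine ⟨κ, ?_, ?_⟩
  · obtain ⟨g, hg1, hg2⟩ := hc v
    have h1 : ((g y : big F₀) : ℂ) * ((g y : big F₀) : ℂ) = (((v.1 a).re : ℝ) : ℂ) := by
      rw [v.re, ← hg1 a]
      have h2 : g y * g y = g a' := by rw [← map_mul, hy]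
      exact congrArg Subtype.val h2
    have h3 := conj_of_mul_self_neg h1 hav
    have h4 : (c v).1 y = -y := by
      apply g.injective
      apply Subtype.ext
      rw [hg2, h3, map_neg]
      rfl
    rw [hκ, if_neg]
    rw [h4]
    exact hne
  · intro w hw
    obtain ⟨g, hg1, hg2⟩ := hc w
    have h1 : ((g y : big F₀) : ℂ) * ((g y : big F₀) : ℂ) = (((w.1 a).re : ℝ) : ℂ) := by
      rw [w.re, ← hg1 a]
      have h2 : g y * g y = g a' := by rw [← map_mul, hy]
      exact congrArg Subtype.val h2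
    have h3 := conj_of_mul_self_pos h1 (haw w hw)
    have h4 : (c w).1 y = y := by
      apply g.injective
      apply Subtype.ext
      rw [hg2, h3]
    rw [hκ, if_pos h4]

end

end Pool.Agent.Y144.DL
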