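import Pool.Agent.Y144.DL.Over4

/-!
# Motives over arbitrary number fields: the theorem
-/

set_option autoImplicit false

namespace Pool.Agent.Y144.DL

attribute [local instance high] IntermediateField.algebra'

section

variable {K E : Type} [Field K] [CharZero K] [Field E] [Algebra K E] [Algebra.IsAlgebraic K E]

/-- both directions over `k₀` -/
theorem equiv_fixer (F₀ k₀ : IntermediateField ℚ ℂ) [FiniteDimensional ℚ F₀] [Normal ℚ F₀]
    [FiniteDimensional ℚ k₀] (hk : k₀ ≤ F₀)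
    (hE : HasEnoughRootsOfUnity E (Nat.card (fixer k₀ (big F₀))))
    (c : RealPlace k₀ → fixer k₀ (big F₀)) (hc : ∀ v, IsConjAt (hk.trans (le_big F₀)) v (c v).1)
    (M : EulerData K) (Fr : M.P → fixer k₀ (big F₀)) (m : ℂ) (A : ArtinPeriods E (fixer k₀ (big F₀)))
    (r : ℕ) (q : (K →+* ℂ) → ℂ) (ρ : RealPlace k₀ → (K →+* ℂ) → ℂ) :
    (Nonempty (TwistsOver (fun H : Subgroup (fixer k₀ (big F₀)) => Group.IsSolvable H) c (M.map E) Fr m A
        r (lft E q) (fun v => lft E (ρ v))) →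
      DeligneOver E ((fixer F₀ (big F₀)).subgroupOf (fixer k₀ (big F₀))) c M Fr m A r q ρ) ∧
    (DeligneOver E ⊥ c M Fr m A r q ρ →
      Nonempty (TwistsOver (fun H : Subgroup (fixer k₀ (big F₀)) => Group.IsSolvable H) c (M.map E) Fr m
        A r (lft E q) (fun v => lft E (ρ v)))) := by
  have hE0 : CharZero E := charZero_ext (K := K)
  constructor
  · rintro ⟨h⟩
    exact deligne_fixer F₀ k₀ hk hE hc h
  · intro h
    refine twists_of_all ?_ ?_ _ ?_
    · intro v
      obtain ⟨g, hg1, hg2⟩ := hc v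
      have h1 := conj_sq (conj_of_at (v := v) hg2)
      apply Subtype.ext
      show (c v).1 * (c v).1 = 1
      have h2 : (c v).1 * (c v).1 = g⁻¹ * ((g * (c v).1 * g⁻¹) * (g * (c v).1 * g⁻¹)) * g := by group
      rw [h2, h1, mul_one, inv_mul_cancel]
    · intro v
      obtain ⟨κ, h1, h2⟩ := exists_sign_char F₀ k₀ hk hc v
      refine ⟨(Units.map (Int.castRingHom E : ℤ →* E)).comp κ, ?_, ?_⟩
      · show Units.map (Int.castRingHom E : ℤ →* E) (κ (c v)) = -1
        rw [h1]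
        ext
        simp
      · intro w hw
        show Units.map (Int.castRingHom E : ℤ →* E) (κ (c w)) = 1
        rw [h2 w (Ne.symm hw)]
        ext
        simp
    · intro θ hθ d b hd hb
      exact h E θ (isCharN_bot hθ) d b hd hb (A.δ θ) (Sim.refl _)

end

/-- the theorem in the form of the hand-in -/
theorem all_base_fields (F₀ k₀ : IntermediateField ℚ ℂ) [FiniteDimensional ℚ F₀] [Normal ℚ F₀]
    [FiniteDimensional ℚ k₀] (hk : k₀ ≤ F₀) :
    ∃ (F₁ : IntermediateField ℚ ℂ) (_ : FiniteDimensional ℚ F₁) (_ : Normal ℚ F₁) (h : k₀ ≤ F₁),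
      F₀ ≤ F₁ ∧ (∀ g ∈ gal F₀ F₁, g * g = 1) ∧
      ∀ (K E : Type) [Field K] [CharZero K] [Field E] [Algebra K E] [Algebra.IsAlgebraic K E]
        (_ : HasEnoughRootsOfUnity E (Nat.card (gal k₀ F₁))) (c : RealPlace k₀ → gal k₀ F₁)
        (_ : ∀ v, IsConjAt h v (c v).1) (M : EulerData K) (Fr : M.P → gal k₀ F₁) (m : ℂ)
        (A : ArtinPeriods E (gal k₀ F₁)) (r : ℕ) (q : (K →+* ℂ) → ℂ)
        (ρ : RealPlace k₀ → (K →+* ℂ) → ℂ),
        (Nonempty (TwistsOver (fun H : Subgroup (gal k₀ F₁) => Group.IsSolvable H) c (M.map E) Fr m A r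
            (lft E q) (fun v => lft E (ρ v))) →
          DeligneOver E ((gal F₀ F₁).subgroupOf (gal k₀ F₁)) c M Fr m A r q ρ) ∧
        (DeligneOver E ⊥ c M Fr m A r q ρ →
          Nonempty (TwistsOver (fun H : Subgroup (gal k₀ F₁) => Group.IsSolvable H) c (M.map E) Fr m A r
            (lft E q) (fun v => lft E (ρ v)))) := by
  refine ⟨big F₀, inferInstance, inferInstance, hk.trans (le_big F₀), le_big F₀, ?_, ?_⟩
  · intro g hg
    rw [gal_eq] at hg
    exact big_fixer_sq F₀ g hg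
  · rw [gal_eq k₀ (big F₀), gal_eq F₀ (big F₀)]
    intro K E _ _ _ _ _ hE c hc M Fr m A r q ρ
    exact equiv_fixer F₀ k₀ hk hE c hc M Fr m A r q ρ

end Pool.Agent.Y144.DL
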