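import Pool.Agent.Y144.DL.Over5
import Pool.Agent.Y144.DL.Ell

/-!
# Motives with rational coefficients over a number field, considered over an extension
-/

set_option autoImplicit false

namespace Pool.Agent.Y144.DL

attribute [local instance high] IntermediateField.algebra'

section

variable {k₀ k F : IntermediateField ℚ ℂ} (hk₀ : k₀ ≤ k) (hk : k ≤ F) [FiniteDimensional ℚ F]
  [Normal ℚ F]

include hk₀ hk in
/-- the number of cosets -/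
theorem card_cosets_over [FiniteDimensional ℚ k] [FiniteDimensional ℚ k₀] :
    Nat.card (fixer k₀ F ⧸ (fixer k F).subgroupOf (fixer k₀ F)) * Module.finrank ℚ k₀ =
      Module.finrank ℚ k := by
  have h1 := Subgroup.relIndex_mul_index (fixer_mono (F := F) hk₀)
  have h2 : (fixer k₀ F).index = Module.finrank ℚ k₀ := card_cosets (hk₀.trans hk)
  have h3 : (fixer k F).index = Module.finrank ℚ k := card_cosets hk
  rw [h2, h3] at h1
  exact h1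

/-- the fixed cosets of complex conjugation at `v` are the real places above `v` -/
theorem card_fixed_over (v : RealPlace k₀) (c : fixer k₀ F) (hc : IsConjAt (hk₀.trans hk) v c.1) :
    Nat.card {x : fixer k₀ F ⧸ (fixer k F).subgroupOf (fixer k₀ F) // c • x = x} =
      Nat.card {w : RealPlace k // ∀ x : k₀, w.1 ⟨x, hk₀ x.2⟩ = v.1 x} := by
  obtain ⟨g, hg1, hg2⟩ := hc
  have hout : ∀ x : fixer k₀ F ⧸ (fixer k F).subgroupOf (fixer k₀ F), c • x = x →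
      ∀ y : F, (y : ℂ) ∈ k → (c : F ≃ₐ[ℚ] F) ((x.out : F ≃ₐ[ℚ] F) y) = (x.out : F ≃ₐ[ℚ] F) y := by
    intro x hx y hy
    have h1 : ((c * x.out : fixer k₀ F) : fixer k₀ F ⧸ (fixer k F).subgroupOf (fixer k₀ F)) =
        (x.out : fixer k₀ F ⧸ (fixer k F).subgroupOf (fixer k₀ F)) := by
      have h2 : ((c * x.out : fixer k₀ F) : fixer k₀ F ⧸ (fixer k F).subgroupOf (fixer k₀ F)) =
          c • (x.out : fixer k₀ F ⧸ (fixer k F).subgroupOf (fixer k₀ F)) := rfl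
      rw [h2, QuotientGroup.out_eq', hx]
    have h3 := Subgroup.mem_subgroupOf.1 (QuotientGroup.eq.1 h1.symm) y hy
    have h4 : (x.out : F ≃ₐ[ℚ] F) ((x.out : F ≃ₐ[ℚ] F)⁻¹ ((c : F ≃ₐ[ℚ] F) ((x.out : F ≃ₐ[ℚ] F) y))) =
        (x.out : F ≃ₐ[ℚ] F) y := congrArg (x.out : F ≃ₐ[ℚ] F) h3
    exact ((x.out : F ≃ₐ[ℚ] F).apply_symm_apply _).symm.trans h4
  have hreal : ∀ (x : {x : fixer k₀ F ⧸ (fixer k F).subgroupOf (fixer k₀ F) // c • x = x}) (y : k),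
      (starRingEnd ℂ) (toEmb hk (g * (x.1.out : F ≃ₐ[ℚ] F)) y) =
        toEmb hk (g * (x.1.out : F ≃ₐ[ℚ] F)) y := by
    intro x y
    show (starRingEnd ℂ) ((g ((x.1.out : F ≃ₐ[ℚ] F) ⟨y, hk y.2⟩) : F) : ℂ) =
      ((g ((x.1.out : F ≃ₐ[ℚ] F) ⟨y, hk y.2⟩) : F) : ℂ)
    rw [← hg2, hout x.1 x.2 ⟨y, hk y.2⟩ y.2]
  let Ψ : {x : fixer k₀ F ⧸ (fixer k F).subgroupOf (fixer k₀ F) // c • x = x} →
      {w : RealPlace k // ∀ x : k₀, w.1 ⟨x, hk₀ x.2⟩ = v.1 x} := fun x =>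
    ⟨⟨toEmb hk (g * (x.1.out : F ≃ₐ[ℚ] F)), hreal x⟩, by
      intro y
      show ((g ((x.1.out : F ≃ₐ[ℚ] F) ⟨y, hk (hk₀ y.2)⟩) : F) : ℂ) = v.1 y
      rw [x.1.out.2 ⟨y, hk (hk₀ y.2)⟩ y.2]
      exact hg1 y⟩
  have hΨ : ∀ (x : {x : fixer k₀ F ⧸ (fixer k F).subgroupOf (fixer k₀ F) // c • x = x}) (y : k),
      (Ψ x).1.1 y = ((g ((x.1.out : F ≃ₐ[ℚ] F) ⟨y, hk y.2⟩) : F) : ℂ) := fun x y => rfl
  refine Nat.card_congr (Equiv.ofBijective Ψ ⟨?_, ?_⟩)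
  · intro x x' h
    apply Subtype.ext
    rw [← QuotientGroup.out_eq' x.1, ← QuotientGroup.out_eq' x'.1]
    refine QuotientGroup.eq.2 (Subgroup.mem_subgroupOf.2 ?_)
    intro y hy
    have h1 : (Ψ x).1.1 ⟨y, hy⟩ = (Ψ x').1.1 ⟨y, hy⟩ := by rw [h]
    rw [hΨ, hΨ] at h1
    have h2 : (x.1.out : F ≃ₐ[ℚ] F) y = (x'.1.out : F ≃ₐ[ℚ] F) y := g.injective (Subtype.ext h1)
    show (x.1.out : F ≃ₐ[ℚ] F)⁻¹ ((x'.1.out : F ≃ₐ[ℚ] F) y) = y
    rw [← h2]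
    exact (x.1.out : F ≃ₐ[ℚ] F).symm_apply_apply y
  · rintro ⟨w, hw⟩
    obtain ⟨g', hg'⟩ := toEmb_surj hk w.1
    have hg'y : ∀ y : k, ((g' ⟨y, hk y.2⟩ : F) : ℂ) = w.1 y := fun y => by rw [← hg']; rfl
    have hu : g⁻¹ * g' ∈ fixer k₀ F := by
      intro y hy
      have h1 : g' y = g y := by
        apply Subtype.ext
        have h2 := hg'y ⟨y, hk₀ hy⟩
        have h3 := hw ⟨y, hy⟩
        have h4 := hg1 ⟨y, hy⟩
        exact (h2.trans h3).trans h4.symm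
      show g⁻¹ (g' y) = y
      rw [h1]
      exact g.symm_apply_apply y
    have hgu : ∀ y : F, g ((g⁻¹ * g') y) = g' y := fun y => g.apply_symm_apply (g' y)
    have hcu : ∀ y : F, (y : ℂ) ∈ k → (c : F ≃ₐ[ℚ] F) ((g⁻¹ * g') y) = (g⁻¹ * g') y := by
      intro y hy
      apply g.injective
      apply Subtype.ext
      rw [hg2, hgu]
      have h1 := hg'y ⟨y, hy⟩
      have h2 := w.2 ⟨y, hy⟩
      rw [← h1] at h2
      exact h2
    have hfix : c • ((⟨g⁻¹ * g', hu⟩ : fixer k₀ F) : fixer k₀ F ⧸ (fixer k F).subgroupOf (fixer k₀ F)) =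
        ((⟨g⁻¹ * g', hu⟩ : fixer k₀ F) : fixer k₀ F ⧸ (fixer k F).subgroupOf (fixer k₀ F)) := by
      symm
      refine QuotientGroup.eq.2 (Subgroup.mem_subgroupOf.2 ?_)
      intro y hy
      show (g⁻¹ * g')⁻¹ ((c : F ≃ₐ[ℚ] F) ((g⁻¹ * g') y)) = y
      rw [hcu y hy]
      exact (g⁻¹ * g').symm_apply_apply y
    refine ⟨⟨_, hfix⟩, ?_⟩
    apply Subtype.ext
    apply Subtype.ext
    apply AlgHom.ext
    intro y
    rw [hΨ]
    have h1 : (Quotient.out ((⟨g⁻¹ * g', hu⟩ : fixer k₀ F) :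
        fixer k₀ F ⧸ (fixer k F).subgroupOf (fixer k₀ F)) : fixer k₀ F).1 ⟨y, hk y.2⟩ =
        (g⁻¹ * g') ⟨y, hk y.2⟩ := by
      have h2 := QuotientGroup.out_eq' ((⟨g⁻¹ * g', hu⟩ : fixer k₀ F) :
        fixer k₀ F ⧸ (fixer k F).subgroupOf (fixer k₀ F))
      have h3 := Subgroup.mem_subgroupOf.1 (QuotientGroup.eq.1 h2.symm) ⟨y, hk y.2⟩ y.2
      have h4 := congrArg (g⁻¹ * g') h3
      have h5 : (g⁻¹ * g') ((g⁻¹ * g')⁻¹ ((Quotient.out ((⟨g⁻¹ * g', hu⟩ : fixer k₀ F) :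
        fixer k₀ F ⧸ (fixer k F).subgroupOf (fixer k₀ F)) : fixer k₀ F).1 ⟨y, hk y.2⟩)) =
        (Quotient.out ((⟨g⁻¹ * g', hu⟩ : fixer k₀ F) :
        fixer k₀ F ⧸ (fixer k F).subgroupOf (fixer k₀ F)) : fixer k₀ F).1 ⟨y, hk y.2⟩ :=
        (g⁻¹ * g').apply_symm_apply _
      rw [← h5]
      exact h4
    rw [h1, hgu]
    exact hg'y y

end

/-- the theorem in terms of `fixer` -/
theorem ext_fixer (F₀ k₀ k : IntermediateField ℚ ℂ) [FiniteDimensional ℚ F₀] [Normal ℚ F₀]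
    [FiniteDimensional ℚ k₀] [FiniteDimensional ℚ k]
    (hk₀ : k₀ ≤ k) (hk : k ≤ F₀) (d : ℕ) (hd : d * Module.finrank ℚ k₀ = Module.finrank ℚ k)
    (r₂ : RealPlace k₀ → ℕ)
    (hr₂ : ∀ v, Nat.card {w : RealPlace k // ∀ x : k₀, w.1 ⟨x, hk₀ x.2⟩ = v.1 x} + 2 * r₂ v = d)
    {E : Type} [Field E] [Algebra ℚ E] [Algebra.IsAlgebraic ℚ E]
    (hE : HasEnoughRootsOfUnity E (Nat.card (fixer k₀ (big F₀))))
    (c : RealPlace k₀ → fixer k₀ (big F₀))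
    (hc : ∀ v, IsConjAt ((hk₀.trans hk).trans (le_big F₀)) v (c v).1) (M : EulerData ℚ)
    (Fr : M.P → fixer k₀ (big F₀)) (m : ℂ)
    (A : ArtinPeriods E (fixer k₀ (big F₀))) (r : ℕ) (q : ℂ) (ρ : RealPlace k₀ → ℂ)
    (h : TwistsOver (fun H : Subgroup (fixer k₀ (big F₀)) => Group.IsSolvable H) c (M.map E) Fr m A r
      (fun _ => q) (fun v _ => ρ v)) (δ : ℂ)
    (hδ : Sim (A.δ (perm E ((fixer k (big F₀)).subgroupOf (fixer k₀ (big F₀))))) fun _ => δ) :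
    ∃ X : LOver M Fr (perm ℚ ((fixer k (big F₀)).subgroupOf (fixer k₀ (big F₀)))) m,
      ∃ t : ℚ, t ≠ 0 ∧ X.L (algebraMap ℚ ℂ) m = t * (q ^ d * (∏ v, ρ v ^ r₂ v) * δ ^ r) := by
  have hF : (k : IntermediateField ℚ ℂ) ≤ big F₀ := hk.trans (le_big F₀)
  have hD := deligne_fixer (K := ℚ) F₀ k₀ (hk₀.trans hk) hE hc (q := fun _ => q) (ρ := fun v _ => ρ v) h
  have hfin : Module.finrank ℚ k₀ ≠ 0 := Module.finrank_pos.ne'
  have hcard : Nat.card (fixer k₀ (big F₀) ⧸ (fixer k (big F₀)).subgroupOf (fixer k₀ (big F₀))) = d := by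
    have h1 := card_cosets_over hk₀ hF
    rw [← hd] at h1
    exact Nat.eq_of_mul_eq_mul_right (Nat.pos_of_ne_zero hfin) h1
  have hθ : IsCharN ((fixer F₀ (big F₀)).subgroupOf (fixer k₀ (big F₀)))
      (perm ℚ ((fixer k (big F₀)).subgroupOf (fixer k₀ (big F₀)))) := by
    refine isCharN_perm ?_ ?_
    · have := fixer_normal (F₀ := F₀) (F₁ := big F₀)
      infer_instance
    · intro x hx
      exact Subgroup.mem_subgroupOf.2 (fixer_mono hk (Subgroup.mem_subgroupOf.1 hx))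
  obtain ⟨X, t, ht, hX⟩ := hD ℚ (perm ℚ ((fixer k (big F₀)).subgroupOf (fixer k₀ (big F₀)))) hθ d r₂
    (by rw [perm_one, hcard]) (by
      intro v
      have h1 := card_fixed_over hk₀ hF v (c v) (hc v)
      show (Nat.card {x : fixer k₀ (big F₀) ⧸ (fixer k (big F₀)).subgroupOf (fixer k₀ (big F₀)) //
        c v • x = x} : ℚ) = _
      rw [h1, ← hr₂ v]
      push_cast
      ring) (fun _ => δ) (by
      rw [perm_map]
      exact hδ)
  refine ⟨X, t, ht, ?_⟩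
  have h3 := hX (algebraMap ℚ ℂ)
  have h4 : valueOver X (algebraMap ℚ ℂ) = X.L (algebraMap ℚ ℂ) m := rfl
  rw [← h4, h3]
  simp only [Pi.mul_apply, Pi.pow_apply, Finset.prod_apply]
  have h5 : ∀ x : (ℚ →+* ℂ) → ℂ, lft ℚ x (algebraMap ℚ ℂ) = x (algebraMap ℚ ℂ) := by
    intro x
    show x ((algebraMap ℚ ℂ).comp (algebraMap ℚ ℚ)) = _
    congr 1
  simp only [h5]
  simp

/-- The theorem for a motive `M` over `k₀` with rational coefficients and all extensions `k` of `k₀`. -/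
theorem main_extension (k₀ k : IntermediateField ℚ ℂ) [FiniteDimensional ℚ k₀] [FiniteDimensional ℚ k]
    (hk₀ : k₀ ≤ k) (d : ℕ) (hd : d * Module.finrank ℚ k₀ = Module.finrank ℚ k)
    (r₂ : RealPlace k₀ → ℕ)
    (hr₂ : ∀ v, Nat.card {w : RealPlace k // ∀ x : k₀, w.1 ⟨x, hk₀ x.2⟩ = v.1 x} + 2 * r₂ v = d) :
    ∃ (F₁ : IntermediateField ℚ ℂ) (_ : FiniteDimensional ℚ F₁) (_ : Normal ℚ F₁) (h : k ≤ F₁),
      (∀ g ∈ gal (IntermediateField.normalClosure ℚ k ℂ) F₁, g * g = 1) ∧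
      ∀ (E : Type) [Field E] [Algebra ℚ E] [Algebra.IsAlgebraic ℚ E]
        (_ : HasEnoughRootsOfUnity E (Nat.card (gal k₀ F₁))) (c : RealPlace k₀ → gal k₀ F₁)
        (_ : ∀ v, IsConjAt (hk₀.trans h) v (c v).1) (M : EulerData ℚ) (Fr : M.P → gal k₀ F₁) (m : ℂ)
        (A : ArtinPeriods E (gal k₀ F₁)) (r : ℕ) (q : ℂ) (ρ : RealPlace k₀ → ℂ)
        (_ : TwistsOver (fun H : Subgroup (gal k₀ F₁) => Group.IsSolvable H) c (M.map E) Fr m A r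
            (fun _ => q) (fun v _ => ρ v)) (δ : ℂ)
        (_ : Sim (A.δ (perm E ((gal k F₁).subgroupOf (gal k₀ F₁)))) fun _ => δ),
        ∃ X : LOver M Fr (perm ℚ ((gal k F₁).subgroupOf (gal k₀ F₁))) m, ∃ t : ℚ, t ≠ 0 ∧
          X.L (algebraMap ℚ ℂ) m = t * (q ^ d * (∏ v, ρ v ^ r₂ v) * δ ^ r) := by
  let F₀ := IntermediateField.normalClosure ℚ k ℂ
  have : Normal ℚ F₀ := normalClosure_normal k
  have hk : k ≤ F₀ := IntermediateField.le_normalClosure k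
  refine ⟨big F₀, inferInstance, inferInstance, hk.trans (le_big F₀), ?_, ?_⟩
  · intro g hg
    rw [gal_eq] at hg
    exact big_fixer_sq F₀ g hg
  rw [gal_eq k₀ (big F₀), gal_eq k (big F₀)]
  intro E _ _ _ hE c hc M Fr m A r q ρ h δ hδ
  exact ext_fixer F₀ k₀ k hk₀ hk d hd r₂ hr₂ hE c hc M Fr m A r q ρ h δ hδ

end Pool.Agent.Y144.DL
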