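import Pool.Agent.Y144.DL.Over6

/-!
# Elliptic curves over a number field, considered over an extension
-/

set_option autoImplicit false

namespace Pool.Agent.Y144.DL

attribute [local instance high] IntermediateField.algebra'

theorem card_real_sum {k₀ k : IntermediateField ℚ ℂ} (hk₀ : k₀ ≤ k) [FiniteDimensional ℚ k₀]
    [FiniteDimensional ℚ k] : Nat.card (RealPlace k) =
      ∑ v : RealPlace k₀, Nat.card {w : RealPlace k // ∀ x : k₀, w.1 ⟨x, hk₀ x.2⟩ = v.1 x} := by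
  let res : RealPlace k → RealPlace k₀ := fun w =>
    ⟨w.1.comp (IntermediateField.inclusion hk₀), fun x => w.2 _⟩
  have hres : ∀ (w : RealPlace k) (v : RealPlace k₀), res w = v ↔
      ∀ x : k₀, w.1 ⟨x, hk₀ x.2⟩ = v.1 x := by
    intro w v
    constructor
    · rintro rfl x
      rfl
    · intro h
      apply Subtype.ext
      apply AlgHom.ext
      exact h
  rw [← Nat.card_congr (Equiv.sigmaFiberEquiv res), Nat.card_sigma]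
  refine Finset.sum_congr rfl fun v _ => ?_
  exact Nat.card_congr (Equiv.subtypeEquivRight fun w => hres w v)

theorem elliptic_calc {V : Type} [Fintype V] (Ωp Ωm : V → ℝ) (hp : ∀ v, Ωp v ≠ 0) (Pc Δ : ℝ)
    (d n₂ N₂ : ℕ) (r₁ r₂ : V → ℕ) (hr : ∀ v, r₁ v + 2 * r₂ v = d)
    (hN : N₂ = (∑ v, r₂ v) + d * n₂) :
    ((∏ v, (Ωp v : ℂ)) * Pc / Complex.I ^ n₂) ^ d * (∏ v, (Complex.I * Ωm v / Ωp v) ^ r₂ v) *
      (Complex.I ^ N₂ * Δ) ^ 1 =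
      (-1) ^ (∑ v, r₂ v) * (Δ * (∏ v, (Ωp v : ℂ) ^ r₁ v * ((Ωp v : ℂ) * Ωm v) ^ r₂ v) * Pc ^ d) := by
  have h1 : ∀ v, (Ωp v : ℂ) ≠ 0 := fun v => Complex.ofReal_ne_zero.2 (hp v)
  have h2 : ∀ v, (Ωp v : ℂ) ^ d * (Complex.I * Ωm v / Ωp v) ^ r₂ v =
      Complex.I ^ r₂ v * ((Ωp v : ℂ) ^ r₁ v * ((Ωp v : ℂ) * Ωm v) ^ r₂ v) := by
    intro v
    have h3 := h1 v
    rw [← hr v, div_pow, mul_pow, mul_pow, pow_add, two_mul, pow_add]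
    field_simp
  have h4 : (∏ v, (Ωp v : ℂ)) ^ d * ∏ v, (Complex.I * Ωm v / Ωp v) ^ r₂ v =
      Complex.I ^ (∑ v, r₂ v) * ∏ v, (Ωp v : ℂ) ^ r₁ v * ((Ωp v : ℂ) * Ωm v) ^ r₂ v := by
    rw [← Finset.prod_pow, ← Finset.prod_mul_distrib, Finset.prod_congr rfl fun v _ => h2 v,
      Finset.prod_mul_distrib, Finset.prod_pow_eq_pow_sum]
  have hI : Complex.I ≠ 0 := Complex.I_ne_zero
  have h5 : ((∏ v, (Ωp v : ℂ)) * Pc / Complex.I ^ n₂) ^ d *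
      (∏ v, (Complex.I * Ωm v / Ωp v) ^ r₂ v) * (Complex.I ^ N₂ * Δ) ^ 1 =
      ((∏ v, (Ωp v : ℂ)) ^ d * ∏ v, (Complex.I * Ωm v / Ωp v) ^ r₂ v) * Pc ^ d *
        ((Complex.I ^ n₂) ^ d)⁻¹ * (Complex.I ^ N₂ * Δ) := by
    rw [pow_one, div_pow, mul_pow]
    ring
  rw [h5, h4, hN, pow_add, mul_comm d n₂, pow_mul]
  have h6 : Complex.I ^ (∑ v, r₂ v) * Complex.I ^ (∑ v, r₂ v) = (-1) ^ (∑ v, r₂ v) := by
    rw [← mul_pow, Complex.I_mul_I]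
  rw [← h6]
  have h7 : (Complex.I ^ n₂) ^ d ≠ 0 := pow_ne_zero _ (pow_ne_zero _ hI)
  field_simp

/-- The theorem for elliptic curves. -/
theorem main_elliptic (k₀ k : IntermediateField ℚ ℂ) [FiniteDimensional ℚ k₀] [FiniteDimensional ℚ k]
    (hk₀ : k₀ ≤ k) (d n₂ N₂ : ℕ) (r₁ r₂ : RealPlace k₀ → ℕ)
    (hd : d * Module.finrank ℚ k₀ = Module.finrank ℚ k)
    (hn₂ : Nat.card (RealPlace k₀) + 2 * n₂ = Module.finrank ℚ k₀)
    (hN₂ : Nat.card (RealPlace k) + 2 * N₂ = Module.finrank ℚ k)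
    (hr₁ : ∀ v, Nat.card {w : RealPlace k // ∀ x : k₀, w.1 ⟨x, hk₀ x.2⟩ = v.1 x} = r₁ v)
    (hr₂ : ∀ v, r₁ v + 2 * r₂ v = d) :
    ∃ (F₁ : IntermediateField ℚ ℂ) (_ : FiniteDimensional ℚ F₁) (_ : Normal ℚ F₁) (h : k ≤ F₁),
      (∀ g ∈ gal (IntermediateField.normalClosure ℚ k ℂ) F₁, g * g = 1) ∧
      ∀ (E : Type) [Field E] [Algebra ℚ E] [Algebra.IsAlgebraic ℚ E]
        (_ : HasEnoughRootsOfUnity E (Nat.card (gal k₀ F₁))) (c : RealPlace k₀ → gal k₀ F₁)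
        (_ : ∀ v, IsConjAt (hk₀.trans h) v (c v).1) (M : EulerData ℚ) (Fr : M.P → gal k₀ F₁)
        (A : ArtinPeriods E (gal k₀ F₁)) (Ωp Ωm : RealPlace k₀ → ℝ) (_ : ∀ v, Ωp v ≠ 0) (Pc : ℝ)
        (_ : TwistsOver (fun H : Subgroup (gal k₀ F₁) => Group.IsSolvable H) c (M.map E) Fr 1 A 1
            (fun _ => (∏ v, (Ωp v : ℂ)) * Pc / Complex.I ^ n₂)
            (fun v _ => Complex.I * Ωm v / Ωp v)) (Δ : ℝ)
        (_ : Sim (A.δ (perm E ((gal k F₁).subgroupOf (gal k₀ F₁)))) fun _ => Complex.I ^ N₂ * Δ),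
        ∃ X : LOver M Fr (perm ℚ ((gal k F₁).subgroupOf (gal k₀ F₁))) 1, ∃ t : ℚ, t ≠ 0 ∧
          X.L (algebraMap ℚ ℂ) 1 =
            t * (Δ * (∏ v, (Ωp v : ℂ) ^ r₁ v * ((Ωp v : ℂ) * Ωm v) ^ r₂ v) * Pc ^ d) := by
  obtain ⟨F₁, hf, hn, h, hsq, H⟩ := main_extension k₀ k hk₀ d hd r₂ (fun v => by rw [hr₁, hr₂])
  refine ⟨F₁, hf, hn, h, hsq, ?_⟩
  intro E _ _ _ hE c hc M Fr A Ωp Ωm hΩ Pc hT Δ hδ
  obtain ⟨X, t, ht, hX⟩ := H E hE c hc M Fr 1 A 1 _ _ hT _ hδ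
  have hN : N₂ = (∑ v, r₂ v) + d * n₂ := by
    have h1 := card_real_sum hk₀
    have h2 : ∑ v : RealPlace k₀, Nat.card {w : RealPlace k // ∀ x : k₀, w.1 ⟨x, hk₀ x.2⟩ = v.1 x} +
        2 * ∑ v, r₂ v = d * Nat.card (RealPlace k₀) := by
      rw [Finset.mul_sum, ← Finset.sum_add_distrib, Finset.sum_congr rfl fun v _ => by rw [hr₁, hr₂],
        Finset.sum_const, Finset.card_univ, Nat.card_eq_fintype_card, smul_eq_mul, mul_comm]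
    rw [← h1] at h2
    have h3 : d * (Nat.card (RealPlace k₀) + 2 * n₂) = Nat.card (RealPlace k) + 2 * N₂ := by
      rw [hn₂, hN₂, hd]
    rw [mul_add, ← h2] at h3
    have h4 : d * (2 * n₂) = 2 * (d * n₂) := by ring
    rw [h4] at h3
    omega
  refine ⟨X, t * (-1) ^ (∑ v, r₂ v), mul_ne_zero ht (pow_ne_zero _ (by norm_num)), ?_⟩
  rw [hX, elliptic_calc Ωp Ωm hΩ Pc Δ d n₂ N₂ r₁ r₂ hr₂ hN]
  push_cast
  ring

end Pool.Agent.Y144.DL
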