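import Pool.Agent.Y144.DL.Basic

/-!
# Projectors on the isotypic parts of a group acting through an abelian quotient
-/

set_option autoImplicit false

namespace Pool.Agent.Y144.DL

open scoped commutatorElement

variable {E : Type*} [Field E] {G : Type*} [Group G]

/-! ### sums of linear characters -/

theorem hasEnough_of_dvd {n m : ℕ} (h : HasEnoughRootsOfUnity E n) (hd : m ∣ n) (hn : n ≠ 0) :
    HasEnoughRootsOfUnity E m := by
  have : NeZero n := ⟨hn⟩
  exact HasEnoughRootsOfUnity.of_dvd E hd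

theorem hasEnough_ab [Finite G] (hE : HasEnoughRootsOfUnity E (Nat.card G)) (B : Subgroup G) :
    HasEnoughRootsOfUnity E (Monoid.exponent (Abelianization B)) := by
  refine hasEnough_of_dvd hE ?_ Nat.card_pos.ne'
  have h1 : Monoid.exponent (Abelianization B) ∣ Nat.card (Abelianization B) :=
    Group.exponent_dvd_nat_card
  have h2 : Nat.card (Abelianization B) ∣ Nat.card B := by
    have h3 : Nat.card (Abelianization B) = (commutator B).index := rfl
    rw [h3]
    exact Subgroup.index_dvd_card _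
  exact (h1.trans h2).trans (Subgroup.card_subgroup_dvd_card B)

theorem sum_dual {Q : Type*} [CommGroup Q] [Finite Q]
    (hE : HasEnoughRootsOfUnity E (Monoid.exponent Q)) [Fintype (Q →* Eˣ)] (q : Q) [Decidable (q = 1)] :
    ∑ χ : Q →* Eˣ, (χ q : E) = if q = 1 then (Nat.card Q : E) else 0 := by
  split_ifs with hq
  · subst hq
    have h1 : ∀ χ : Q →* Eˣ, ((χ 1 : Eˣ) : E) = 1 := fun χ => by rw [map_one, Units.val_one]
    rw [Finset.sum_congr rfl fun χ _ => h1 χ, Finset.sum_const, Finset.card_univ, nsmul_eq_mul, mul_one,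
      ← Nat.card_eq_fintype_card, CommGroup.card_monoidHom_of_hasEnoughRootsOfUnity]
  · obtain ⟨φ, hφ⟩ := CommGroup.exists_apply_ne_one_of_hasEnoughRootsOfUnity Q E hq
    have h1 : ∑ χ : Q →* Eˣ, (χ q : E) = (φ q : E) * ∑ χ : Q →* Eˣ, (χ q : E) := by
      rw [Finset.mul_sum]
      refine (Fintype.sum_equiv (Equiv.mulLeft φ) _ _ (fun χ => ?_)).symm
      simp
    have h2 : ((φ q : E) - 1) * ∑ χ : Q →* Eˣ, (χ q : E) = 0 := by
      rw [sub_mul, one_mul, ← h1, sub_self]
    rcases mul_eq_zero.1 h2 with h3 | h3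
    · exfalso
      apply hφ
      rw [← Units.val_inj, Units.val_one]
      exact sub_eq_zero.1 h3
    · exact h3

/-- linear characters and the abelianization -/
noncomputable def dualEquiv (B : Type*) [Group B] : (B →* Eˣ) ≃ (Abelianization B →* Eˣ) :=
  Abelianization.lift

theorem finite_dual {B : Type*} [Group B] [Finite B]
    (hE : HasEnoughRootsOfUnity E (Monoid.exponent (Abelianization B))) : Finite (B →* Eˣ) := by
  obtain ⟨e⟩ := CommGroup.monoidHom_mulEquiv_of_hasEnoughRootsOfUnity (Abelianization B) E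
  have h1 : Finite (Abelianization B →* Eˣ) := Finite.of_equiv _ e.symm.toEquiv
  exact Finite.of_equiv _ (dualEquiv B).symm

theorem sum_dual_ab {B : Type*} [Group B] [Finite B]
    (hE : HasEnoughRootsOfUnity E (Monoid.exponent (Abelianization B))) [Fintype (B →* Eˣ)] (b : B)
    [Decidable (b ∈ commutator B)] :
    ∑ χ : B →* Eˣ, (χ b : E) = if b ∈ commutator B then (Nat.card (Abelianization B) : E) else 0 := by
  classical
  have : Finite (Abelianization B →* Eˣ) := Finite.of_equiv _ (dualEquiv (E := E) B)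
  have : Fintype (Abelianization B →* Eˣ) := Fintype.ofFinite _
  have h1 := sum_dual hE (Abelianization.of b)
  have h2 : (Abelianization.of b = 1) ↔ b ∈ commutator B := by
    rw [← MonoidHom.mem_ker, Abelianization.ker_of]
  simp only [h2] at h1
  rw [← h1]
  refine Fintype.sum_equiv (dualEquiv B) _ _ (fun χ => ?_)
  congr 2

/-! ### projectors -/

section proj

variable {R : Type*} [Ring R] [Algebra E R] (ρ : G →* R) (B : Subgroup G)

/-- `B` acts on `e` through an abelian quotient -/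
structure Adm (e : R) : Prop where
  idem : e * e = e
  comm : ∀ b ∈ B, ρ b * e = e * ρ b
  abel : ∀ x ∈ B, ∀ y ∈ B, ρ (x * y) * e = ρ (y * x) * e

/-- the projector for the linear character `μ` of `B` -/
noncomputable def pr [Fintype B] (e : R) (μ : B →* Eˣ) : R :=
  (Nat.card B : E)⁻¹ • ∑ b : B, ((μ b)⁻¹ : Eˣ) • (ρ b * e)

variable {ρ B} {e : R}

theorem Adm.commutator (h : Adm ρ B e) (b : B) (hb : b ∈ _root_.commutator B) : ρ b * e = e := by
  let S : Subgroup B :=
    { carrier := {b | ρ b * e = e}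
      one_mem' := by
        show ρ ((1 : B) : G) * e = e
        rw [Subgroup.coe_one, map_one, one_mul]
      mul_mem' := by
        intro x y hx hy
        show ρ ((x * y : B) : G) * e = e
        have hx' : ρ x * e = e := hx
        have hy' : ρ y * e = e := hy
        rw [Subgroup.coe_mul, map_mul, mul_assoc, hy', hx']
      inv_mem' := by
        intro x hx
        show ρ ((x⁻¹ : B) : G) * e = e
        have hx' : ρ x * e = e := hx
        conv_lhs => rw [← hx']
        rw [← mul_assoc, ← map_mul, Subgroup.coe_inv, inv_mul_cancel, map_one, one_mul] }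
  have h1 : _root_.commutator B ≤ S := by
    rw [commutator_eq_closure, Subgroup.closure_le]
    rintro _ ⟨x, y, rfl⟩
    show ρ ((⁅x, y⁆ : B) : G) * e = e
    have h2 : ((⁅x, y⁆ : B) : G) = ((x : G) * y) * ((y : G) * x)⁻¹ := by
      rw [commutatorElement_def]
      simp only [Subgroup.coe_mul, Subgroup.coe_inv]
      group
    have h3 : ((y : G) * x)⁻¹ ∈ B := B.inv_mem (B.mul_mem y.2 x.2)
    rw [h2, map_mul, mul_assoc, h.comm _ h3, ← mul_assoc, h.abel x x.2 y y.2, mul_assoc,
      ← h.comm _ h3, ← mul_assoc, ← map_mul, mul_inv_cancel, map_one, one_mul]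
  exact h1 hb

variable [Fintype B]

theorem Adm.mul_pr (h : Adm ρ B e) (μ : B →* Eˣ) (b : B) : ρ b * pr ρ B e μ = (μ b : Eˣ) • pr ρ B e μ := by
  have h1 : ρ b * ∑ x : B, ((μ x)⁻¹ : Eˣ) • (ρ x * e) =
      (μ b : Eˣ) • ∑ x : B, ((μ x)⁻¹ : Eˣ) • (ρ x * e) := by
    rw [Finset.mul_sum, Finset.smul_sum]
    refine Fintype.sum_equiv (Equiv.mulLeft b) _ _ (fun x => ?_)
    simp only [Equiv.coe_mulLeft, Subgroup.coe_mul, map_mul, mul_inv_rev]
    rw [mul_smul_comm, smul_smul, ← mul_assoc]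
    congr 1
    rw [mul_comm (μ x)⁻¹, ← mul_assoc, mul_inv_cancel, one_mul]
  unfold pr
  rw [mul_smul_comm, h1, smul_comm]

theorem Adm.pr_mul (h : Adm ρ B e) (μ : B →* Eˣ) (b : B) : pr ρ B e μ * ρ b = (μ b : Eˣ) • pr ρ B e μ := by
  have h1 : (∑ x : B, ((μ x)⁻¹ : Eˣ) • (ρ x * e)) * ρ b =
      (μ b : Eˣ) • ∑ x : B, ((μ x)⁻¹ : Eˣ) • (ρ x * e) := by
    rw [Finset.sum_mul, Finset.smul_sum]
    refine Fintype.sum_equiv (Equiv.mulRight b) _ _ (fun x => ?_)
    simp only [Equiv.coe_mulRight, Subgroup.coe_mul, map_mul, mul_inv_rev]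
    rw [smul_mul_assoc, mul_assoc, ← h.comm _ b.2, smul_smul, ← mul_assoc]
    congr 1
    rw [← mul_assoc, mul_inv_cancel, one_mul]
  unfold pr
  rw [smul_mul_assoc, h1, smul_comm]

theorem Adm.e_mul_pr (h : Adm ρ B e) (μ : B →* Eˣ) : e * pr ρ B e μ = pr ρ B e μ := by
  unfold pr
  rw [mul_smul_comm, Finset.mul_sum]
  congr 1
  refine Finset.sum_congr rfl fun x _ => ?_
  rw [mul_smul_comm, ← mul_assoc, ← h.comm _ x.2, mul_assoc, h.idem]

theorem Adm.pr_mul_e (h : Adm ρ B e) (μ : B →* Eˣ) : pr ρ B e μ * e = pr ρ B e μ := by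
  unfold pr
  rw [smul_mul_assoc, Finset.sum_mul]
  congr 1
  refine Finset.sum_congr rfl fun x _ => ?_
  rw [smul_mul_assoc, mul_assoc, h.idem]

theorem Adm.pr_mul_pr_of_ne (h : Adm ρ B e) {μ ν : B →* Eˣ} (hne : μ ≠ ν) :
    pr ρ B e μ * pr ρ B e ν = 0 := by
  obtain ⟨b, hb⟩ : ∃ b, μ b ≠ ν b := by
    by_contra hcon
    push Not at hcon
    exact hne (MonoidHom.ext hcon)
  have h1 : (μ b : Eˣ) • (pr ρ B e μ * pr ρ B e ν) = (ν b : Eˣ) • (pr ρ B e μ * pr ρ B e ν) := by
    rw [← smul_mul_assoc, ← h.pr_mul, mul_assoc, h.mul_pr, mul_smul_comm]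
  rw [Units.smul_def, Units.smul_def, ← sub_eq_zero, ← sub_smul] at h1
  have h2 : ((μ b : Eˣ) : E) - ν b ≠ 0 := by
    rw [sub_ne_zero]
    intro h3
    exact hb (Units.ext h3)
  have h3 := congrArg (fun z => (((μ b : Eˣ) : E) - ν b)⁻¹ • z) h1
  simp only [smul_smul, inv_mul_cancel₀ h2, one_smul, smul_zero] at h3
  exact h3

theorem Adm.pr_mul_self [CharZero E] (h : Adm ρ B e) (μ : B →* Eˣ) : pr ρ B e μ * pr ρ B e μ = pr ρ B e μ := by
  have h3 : (Nat.card B : E) ≠ 0 := by
    rw [Nat.cast_ne_zero]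
    exact Nat.card_pos.ne'
  conv_lhs =>
    enter [1]
    unfold pr
  rw [smul_mul_assoc, Finset.sum_mul]
  have h1 : ∀ b : B, (((μ b)⁻¹ : Eˣ) • (ρ b * e)) * pr ρ B e μ = pr ρ B e μ := by
    intro b
    rw [smul_mul_assoc, mul_assoc, h.e_mul_pr, h.mul_pr, smul_smul, inv_mul_cancel, one_smul]
  rw [Finset.sum_congr rfl fun b _ => h1 b, Finset.sum_const, Finset.card_univ,
    ← Nat.card_eq_fintype_card, ← Nat.cast_smul_eq_nsmul E, smul_smul, inv_mul_cancel₀ h3, one_smul]

theorem Adm.sum_pr [Finite G] [CharZero E] (h : Adm ρ B e)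
    (hE : HasEnoughRootsOfUnity E (Monoid.exponent (Abelianization B))) [Fintype (B →* Eˣ)] :
    ∑ μ : B →* Eˣ, pr ρ B e μ = e := by
  classical
  have h3 : (Nat.card B : E) ≠ 0 := by
    rw [Nat.cast_ne_zero]
    exact Nat.card_pos.ne'
  unfold pr
  rw [← Finset.smul_sum, Finset.sum_comm]
  have h1 : ∀ b : B, ∑ μ : B →* Eˣ, ((μ b)⁻¹ : Eˣ) • (ρ b * e) =
      (if b ∈ _root_.commutator B then (Nat.card (Abelianization B) : E) else 0) • e := by
    intro b
    have h2 : ∀ μ : B →* Eˣ, ((μ b)⁻¹ : Eˣ) • (ρ b * e) = ((μ b⁻¹ : Eˣ) : E) • (ρ b * e) := by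
      intro μ
      rw [map_inv, Units.smul_def]
    rw [Finset.sum_congr rfl fun μ _ => h2 μ, ← Finset.sum_smul, sum_dual_ab hE]
    have h4 : (b⁻¹ ∈ _root_.commutator B) ↔ b ∈ _root_.commutator B := inv_mem_iff
    simp only [h4]
    split_ifs with hb
    · rw [h.commutator b hb]
    · rw [zero_smul, zero_smul]
  rw [Finset.sum_congr rfl fun b _ => h1 b, ← Finset.sum_smul, smul_smul]
  have h5 : (∑ b : B, if b ∈ _root_.commutator B then (Nat.card (Abelianization B) : E) else 0) =
      Nat.card B := by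
    rw [Finset.sum_ite, Finset.sum_const_zero, add_zero, Finset.sum_const, nsmul_eq_mul,
      ← Nat.cast_mul]
    congr 1
    have h6 : (Finset.univ.filter fun b => b ∈ _root_.commutator B).card =
        Nat.card (_root_.commutator B) := by
      rw [Nat.card_eq_fintype_card, Fintype.card_subtype]
    have h7 : Nat.card (Abelianization B) = (_root_.commutator B).index := rfl
    rw [h6, h7]
    exact Subgroup.card_mul_index _
  rw [h5, inv_mul_cancel₀ h3, one_smul]

end proj

end Pool.Agent.Y144.DL
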