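import Pool.Agent.Y144.DL.AbnThm
import Pool.Agent.Y144.DL.Ratio

/-!
# Ratios of values at two points for all twists, relative to an abelian normal subgroup
-/

set_option autoImplicit false

namespace Pool.Agent.Y144.DL

universe u

section

variable {K E : Type*} [Field K] [Field E] [Algebra K E] {G : Type u} [Group G]

/-- extension of the field of coefficients -/
noncomputable def EulerData.map (M : EulerData K) (E : Type*) [Field E] [Algebra K E] : EulerData E where
  P := M.P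
  nrm := M.nrm
  one_lt := M.one_lt
  t := fun p k => algebraMap K E (M.t p k)
  a := M.a
  summable := fun σ x hx => M.summable (σ.comp (algebraMap K E)) x hx

theorem logE_map (M : EulerData K) (Fr : M.P → G) (θ : G → K) (σ : E →+* ℂ) (s : ℂ) :
    logE (M.map E) Fr (fun g => algebraMap K E (θ g)) σ s =
      logE M Fr θ (σ.comp (algebraMap K E)) s := by
  unfold logE EulerData.map
  refine tsum_congr fun q => ?_
  simp only [← map_mul, RingHom.comp_apply]

theorem IsLE.map {M : EulerData K} {Fr : M.P → G} {θ : G → K} {σ : E →+* ℂ} {Λ : ℂ → ℂ} :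
    IsLE (M.map E) Fr (fun g => algebraMap K E (θ g)) σ Λ ↔
      IsLE M Fr θ (σ.comp (algebraMap K E)) Λ := by
  unfold IsLE
  have h1 : (M.map E).a = M.a := rfl
  rw [h1]
  simp only [logE_map]

/-- extension of the field of coefficients -/
noncomputable def Good2.map {M : EulerData K} {Fr : M.P → G} {m m' : ℂ} {θ : G → K}
    (f : Good2 M Fr m m' θ) (E : Type*) [Field E] [Algebra K E] :
    Good2 (M.map E) Fr m m' (fun g => algebraMap K E (θ g)) where
  L := fun σ => f.L (σ.comp (algebraMap K E))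
  isLE := fun σ => IsLE.map.2 (f.isLE _)
  an := fun σ => f.an _
  an' := fun σ => f.an' _
  ne := fun σ => f.ne _
  ne' := fun σ => f.ne' _

/-- descent of the field of coefficients -/
theorem descend_Good2 [CharZero K] [Algebra.IsAlgebraic K E]
    {M : EulerData K} {Fr : M.P → G} {m m' : ℂ} {θ : G → K}
    (X : Good2 (M.map E) Fr m m' (fun g => algebraMap K E (θ g)))
    (y : (K →+* ℂ) → ℂ) (h : Sim X.ratio (lft E y)) :
    ∃ X₀ : Good2 M Fr m m' θ, Sim X₀.ratio y := by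
  classical
  have : CharZero E := charZero_ext (K := K)
  have hlift : ∀ τ : K →+* ℂ, ∃ σ : E →+* ℂ, σ.comp (algebraMap K E) = τ := by
    intro τ
    let _ : Algebra K ℂ := τ.toAlgebra
    have φ : E →ₐ[K] ℂ := IsAlgClosed.lift
    refine ⟨(φ : E →+* ℂ), ?_⟩
    ext x
    exact φ.commutes x
  choose ι hι using hlift
  have hL : ∀ σ : E →+* ℂ, IsLE M Fr θ (σ.comp (algebraMap K E)) (X.L σ) :=
    fun σ => IsLE.map.1 (X.isLE σ)
  let X₀ : Good2 M Fr m m' θ :=
    { L := fun τ => X.L (ι τ)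
      isLE := fun τ => by
        have h1 := hL (ι τ)
        rwa [hι] at h1
      an := fun τ => X.an _
      an' := fun τ => X.an' _
      ne := fun τ => X.ne _
      ne' := fun τ => X.ne' _ }
  have hy : ∀ σ, lft E y σ ≠ 0 := by
    intro σ h0
    obtain ⟨e, _, h⟩ := h
    apply X.ratio_ne σ
    have h3 := h σ
    rw [h0, mul_zero] at h3
    exact h3
  refine ⟨X₀, Sim.descend h hy X₀.ratio y ?_ (fun σ => rfl)⟩
  intro σ
  have h1 := hL (ι (σ.comp (algebraMap K E)))
  rw [hι] at h1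
  show X.L σ m / X.L σ m' = X.L (ι (σ.comp (algebraMap K E))) m / X.L (ι (σ.comp (algebraMap K E))) m'
  rw [(hL σ).unique h1 (X.an _) (X.an _), (hL σ).unique h1 (X.an' _) (X.an' _)]

end

section

variable {E : Type*} [Field E] [CharZero E] {G : Type u} [Group G] [Finite G]

/-- the virtual characters generated by the pairs -/
theorem exists_goodT {P : Subgroup G → Prop} {S : Set G} {M : EulerData E} {Fr : M.P → G} {m m' : ℂ}
    (f : ∀ H : Subgroup G, P H → ∀ χ : H →* Eˣ, Good2 M Fr m m' (ind H χ))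
    (hrel : ∀ (H : Subgroup G) (h : P H) (χ χ' : H →* Eˣ), Sim (f H h χ).ratio (f H h χ').ratio)
    {D : G → E} (hD : D ∈ SCT P E S) :
    ∃ F : Good2 M Fr m m' D, Sim F.ratio 1 := by
  classical
  have := Fintype.ofFinite G
  induction hD using AddSubgroup.closure_induction with
  | mem D hD =>
    obtain ⟨K, χ, χ', hK, _, rfl⟩ := hD
    rw [sub_eq_add_neg]
    refine ⟨(f K hK χ).mul (f K hK χ').inv, ?_⟩
    obtain ⟨e, he, h4⟩ := hrel K hK χ χ'
    refine ⟨e, he, fun σ => ?_⟩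
    have h5 := h4 σ
    unfold Good2.ratio at h5
    show ((f K hK χ).L σ m * ((f K hK χ').L σ m)⁻¹) / ((f K hK χ).L σ m' * ((f K hK χ').L σ m')⁻¹) =
      σ e * 1
    have n1 := (f K hK χ).ne' σ
    have n2 := (f K hK χ').ne' σ
    have n3 := (f K hK χ').ne σ
    field_simp at h5 ⊢
    linear_combination h5
  | zero =>
    refine ⟨Good2.one, ⟨1, one_ne_zero, fun σ => ?_⟩⟩
    show (1 : ℂ) / 1 = σ 1 * 1
    simp
  | add D D' _ _ h h' =>
    obtain ⟨F, e, he, h⟩ := h
    obtain ⟨F', e', he', h'⟩ := h'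
    refine ⟨F.mul F', ⟨e * e', mul_ne_zero he he', fun σ => ?_⟩⟩
    show (F.L σ m * F'.L σ m) / (F.L σ m' * F'.L σ m') = σ (e * e') * 1
    rw [mul_div_mul_comm, map_mul]
    have h1 := h σ
    have h2 := h' σ
    unfold Good2.ratio at h1 h2
    rw [h1, h2]
    simp
  | neg D _ h =>
    obtain ⟨F, e, he, h⟩ := h
    refine ⟨F.inv, ⟨e⁻¹, inv_ne_zero he, fun σ => ?_⟩⟩
    show ((F.L σ m)⁻¹) / ((F.L σ m')⁻¹) = σ e⁻¹ * 1
    have h1 := h σ
    unfold Good2.ratio at h1
    rw [inv_div_inv, map_inv₀, mul_one, ← inv_div, h1]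
    simp

/-- The ratio for all twists, from the ratios for the abelian twists over the fields `F^H`, `H ≥ Z` solvable. -/
theorem ratiosZ (hE : HasEnoughRootsOfUnity E (Nat.card G)) {Z : Subgroup G} (hZ : Z.Normal)
    (hZab : ∀ x ∈ Z, ∀ y ∈ Z, x * y = y * x) {M : EulerData E} {Fr : M.P → G} {m m' : ℂ}
    (f : ∀ H : Subgroup G, Group.IsSolvable H ∧ Z ≤ H → ∀ χ : H →* Eˣ, Good2 M Fr m m' (ind H χ))
    (hrel : ∀ (H : Subgroup G) (h : Group.IsSolvable H ∧ Z ≤ H) (χ : H →* Eˣ),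
      Sim (f H h χ).ratio (f H h 1).ratio)
    (f₁ : Good2 M Fr m m' (1 : G → E)) (θ : G → E) (hθ : IsChar θ) (d : ℕ) (hd : θ 1 = d) :
    ∃ F : Good2 M Fr m m' θ, Sim F.ratio (f₁.ratio ^ d) := by
  classical
  have := Fintype.ofFinite G
  have hone : IsChar (d • (1 : G → E)) := isChar_nsmul isChar_one d
  have h1 : θ - d • (1 : G → E) ∈ SCT (fun K : Subgroup G => Group.IsSolvable K ∧ Z ≤ K) E
      {s | IsConj (1 : G) s} :=
    brauer_Z (ψ := 1) hE (c := 1) (N := ⊥) inferInstance (by simp) (fun g => by simp) (one_mul 1)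
      hZ hZab (fun h => absurd rfl h) hθ hone (by rw [hd]; simp) (by rw [hd]; simp)
  obtain ⟨F, hF⟩ := exists_goodT f (by
    intro H h χ χ'
    obtain ⟨e, he, h1⟩ := hrel H h χ
    obtain ⟨e', he', h2⟩ := hrel H h χ'
    refine ⟨e * e'⁻¹, mul_ne_zero he (inv_ne_zero he'), fun σ => ?_⟩
    rw [h1 σ, h2 σ, map_mul, map_inv₀]
    have : σ e' ≠ 0 := (map_ne_zero σ).2 he'
    field_simp) h1
  obtain ⟨F', hF'⟩ := exists_good_nsmul f₁ d
  have key : ∀ θ' : G → E, θ' = θ → ∀ X : Good2 M Fr m m' θ',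
      ∃ F : Good2 M Fr m m' θ, F.ratio = X.ratio := by
    rintro _ rfl X
    exact ⟨X, rfl⟩
  obtain ⟨X, hX⟩ := key _ (by abel) (F.mul F')
  refine ⟨X, ?_⟩
  obtain ⟨e, he, h⟩ := hF
  refine ⟨e, he, fun σ => ?_⟩
  rw [hX]
  show (F.L σ m * F'.L σ m) / (F.L σ m' * F'.L σ m') = _
  rw [mul_div_mul_comm, ← hF']
  have h3 := h σ
  unfold Good2.ratio at h3
  rw [h3]
  unfold Good2.ratio
  simp

end

section

variable {K E : Type*} [Field K] [CharZero K] [Field E] [Algebra K E] [Algebra.IsAlgebraic K E]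
  {G : Type u} [Group G] [Finite G]

/-- the version with coefficients in a subfield -/
theorem ratiosK (hE : HasEnoughRootsOfUnity E (Nat.card G)) {Z : Subgroup G} (hZ : Z.Normal)
    (hZab : ∀ x ∈ Z, ∀ y ∈ Z, x * y = y * x) {M : EulerData K} {Fr : M.P → G} {m m' : ℂ}
    (f : ∀ H : Subgroup G, Group.IsSolvable H ∧ Z ≤ H → ∀ χ : H →* Eˣ,
      Good2 (M.map E) Fr m m' (ind H χ))
    (hrel : ∀ (H : Subgroup G) (h : Group.IsSolvable H ∧ Z ≤ H) (χ : H →* Eˣ),
      Sim (f H h χ).ratio (f H h 1).ratio)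
    (f₁ : Good2 M Fr m m' (1 : G → K)) (θ : G → K) (hθ : IsChar θ) (d : ℕ) (hd : θ 1 = d) :
    ∃ F : Good2 M Fr m m' θ, Sim F.ratio (f₁.ratio ^ d) := by
  have hE0 : CharZero E := charZero_ext (K := K)
  have key : ∀ θ' : G → E, θ' = 1 → ∀ X : Good2 (M.map E) Fr m m' θ',
      ∃ F : Good2 (M.map E) Fr m m' (1 : G → E), F.ratio = X.ratio := by
    rintro _ rfl X
    exact ⟨X, rfl⟩
  obtain ⟨f₂, hf₂⟩ := key _ (by
    funext g
    simp) (f₁.map E)
  obtain ⟨X, hX⟩ := ratiosZ hE hZ hZab f hrel f₂ (fun g => algebraMap K E (θ g)) (isChar_map hθ) d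
    (by rw [hd, map_natCast])
  refine descend_Good2 X _ ?_
  rw [hf₂] at hX
  exact hX

end

end Pool.Agent.Y144.DL
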