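import Pool.Agent.Y144.DL.Two

/-!
# Sign characters
-/

set_option autoImplicit false

namespace Pool.Agent.Y144.DL

universe u

variable {E : Type*} [Field E] {G : Type u} [Group G]

/-- `V` has index two in `U`, `t` represents the nontrivial coset -/
def Idx (V U : Subgroup G) (t : G) : Prop :=
  V ≤ U ∧ t ∈ U ∧ t ∉ V ∧ ∀ u ∈ U, u ∈ V ∨ t⁻¹ * u ∈ V

theorem Idx.index {V U : Subgroup G} {t : G} (h : Idx V U t) : (V.subgroupOf U).index = 2 := by
  obtain ⟨hVU, htU, htV, hcos⟩ := h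
  rw [Subgroup.index_eq_two_iff]
  refine ⟨⟨t, htU⟩⁻¹, ?_⟩
  rintro ⟨u, hu⟩
  have h1 : ((⟨u, hu⟩ : U) * (⟨t, htU⟩ : U)⁻¹ ∈ V.subgroupOf U) ↔ u * t⁻¹ ∈ V := Iff.rfl
  have h2 : ((⟨u, hu⟩ : U) ∈ V.subgroupOf U) ↔ u ∈ V := Iff.rfl
  rw [h1, h2]
  by_cases huV : u ∈ V
  · right
    refine ⟨huV, ?_⟩
    intro h3
    apply htV
    have h4 : t = (u * t⁻¹)⁻¹ * u := by group
    rw [h4]
    exact V.mul_mem (V.inv_mem h3) huV
  · left
    refine ⟨?_, huV⟩
    rcases hcos (t * u⁻¹) (U.mul_mem htU (U.inv_mem hu)) with h3 | h3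
    · have h4 : u * t⁻¹ = (t * u⁻¹)⁻¹ := by group
      rw [h4]
      exact V.inv_mem h3
    · exfalso
      apply huV
      have h4 : u = (t⁻¹ * (t * u⁻¹))⁻¹ := by group
      rw [h4]
      exact V.inv_mem h3

theorem Idx.mul_mem_iff {V U : Subgroup G} {t : G} (h : Idx V U t) {a b : G} (ha : a ∈ U) (hb : b ∈ U) :
    a * b ∈ V ↔ (a ∈ V ↔ b ∈ V) :=
  Subgroup.mul_mem_iff_of_index_two h.index (a := (⟨a, ha⟩ : U)) (b := (⟨b, hb⟩ : U))

theorem Idx.normal {V U : Subgroup G} {t : G} (h : Idx V U t) {u v : G} (hu : u ∈ U) (hv : v ∈ U) :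
    u⁻¹ * v * u ∈ V ↔ v ∈ V := by
  rw [h.mul_mem_iff (U.mul_mem (U.inv_mem hu) hv) hu, h.mul_mem_iff (U.inv_mem hu) hv, V.inv_mem_iff]
  tauto

/-- the character of `U` with kernel `V` -/
noncomputable def Idx.eps {V U : Subgroup G} {t : G} (h : Idx V U t) : U →* ℤˣ where
  toFun u := by classical exact if (u : G) ∈ V then 1 else -1
  map_one' := if_pos V.one_mem
  map_mul' := by
    classical
    rintro ⟨a, ha⟩ ⟨b, hb⟩
    have h1 := h.mul_mem_iff ha hb
    show (if a * b ∈ V then (1 : ℤˣ) else -1) = (if a ∈ V then 1 else -1) * (if b ∈ V then 1 else -1)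
    by_cases haV : a ∈ V
    · by_cases hbV : b ∈ V
      · rw [if_pos haV, if_pos hbV, if_pos (h1.2 (iff_of_true haV hbV)), one_mul]
      · rw [if_pos haV, if_neg hbV, if_neg (fun h2 => hbV ((h1.1 h2).1 haV)), one_mul]
    · by_cases hbV : b ∈ V
      · rw [if_neg haV, if_pos hbV, if_neg (fun h2 => haV ((h1.1 h2).2 hbV)), mul_one]
      · rw [if_neg haV, if_neg hbV, if_pos (h1.2 (iff_of_false haV hbV))]
        rfl

theorem Idx.eps_mem {V U : Subgroup G} {t : G} (h : Idx V U t) {u : G} (hu : u ∈ U) (hV : u ∈ V) :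
    h.eps ⟨u, hu⟩ = 1 := if_pos hV

theorem Idx.eps_not_mem {V U : Subgroup G} {t : G} (h : Idx V U t) {u : G} (hu : u ∈ U) (hV : u ∉ V) :
    h.eps ⟨u, hu⟩ = -1 := if_neg hV

/-- the sum over the two cosets -/
theorem Idx.avg [Finite G] [CharZero E] {V U : Subgroup G} {t : G} (h : Idx V U t) {f : G → E}
    (hf : ∀ x ∈ V, ∀ g, f (x⁻¹ * g * x) = f g) (g : G) : avg V U f g = f g + f (t⁻¹ * g * t) := by
  classical
  have := Fintype.ofFinite G
  obtain ⟨hVU, htU, htV, hcos⟩ := h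
  have hne : (Nat.card V : E) ≠ 0 := by
    rw [Nat.cast_ne_zero]
    exact Nat.card_pos.ne'
  rw [avg_eq']
  have h1 : ∑ x : U, f ((x : G)⁻¹ * g * x) =
      ∑ x ∈ Finset.univ.filter (fun x : U => (x : G) ∈ V), f ((x : G)⁻¹ * g * x) +
        ∑ x ∈ Finset.univ.filter (fun x : U => ¬ (x : G) ∈ V), f ((x : G)⁻¹ * g * x) :=
    (Finset.sum_filter_add_sum_filter_not _ _ _).symm
  have h2 : ∑ x ∈ Finset.univ.filter (fun x : U => (x : G) ∈ V), f ((x : G)⁻¹ * g * x) =
      Nat.card V * f g := by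
    have h4 : ∀ x ∈ Finset.univ.filter (fun x : U => (x : G) ∈ V), f ((x : G)⁻¹ * g * x) = f g :=
      fun x hx => hf x (Finset.mem_filter.1 hx).2 g
    rw [Finset.sum_congr rfl h4, Finset.sum_const, nsmul_eq_mul, Nat.card_eq_fintype_card]
    congr 2
    refine Finset.card_bij' (fun x hx => (⟨x, (Finset.mem_filter.1 hx).2⟩ : V))
      (fun v _ => (⟨v, hVU v.2⟩ : U)) ?_ ?_ ?_ ?_
    · intro x hx
      exact Finset.mem_univ _
    · intro v _
      exact Finset.mem_filter.2 ⟨Finset.mem_univ _, v.2⟩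
    · intro x hx
      rfl
    · intro v _
      rfl
  have h3 : ∑ x ∈ Finset.univ.filter (fun x : U => ¬ (x : G) ∈ V), f ((x : G)⁻¹ * g * x) =
      Nat.card V * f (t⁻¹ * g * t) := by
    have h4 : ∀ x ∈ Finset.univ.filter fun x : U => ¬ (x : G) ∈ V,
        f ((x : G)⁻¹ * g * x) = f (t⁻¹ * g * t) := by
      intro x hx
      have hx' := (Finset.mem_filter.1 hx).2
      have h5 : t⁻¹ * (x : G) ∈ V := (hcos x x.2).resolve_left hx'
      rw [← hf _ h5 (t⁻¹ * g * t)]
      congr 1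
      group
    rw [Finset.sum_congr rfl h4, Finset.sum_const, nsmul_eq_mul, Nat.card_eq_fintype_card]
    congr 2
    refine Finset.card_bij'
      (fun x hx => (⟨t⁻¹ * x, (hcos x x.2).resolve_left (Finset.mem_filter.1 hx).2⟩ : V))
      (fun v _ => (⟨t * v, U.mul_mem htU (hVU v.2)⟩ : U)) ?_ ?_ ?_ ?_
    · intro x hx
      exact Finset.mem_univ _
    · intro v _
      refine Finset.mem_filter.2 ⟨Finset.mem_univ _, ?_⟩
      intro h5
      apply htV
      have h6 : t = t * (v : G) * (v : G)⁻¹ := by group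
      rw [h6]
      exact V.mul_mem h5 (V.inv_mem v.2)
    · intro x hx
      apply Subtype.ext
      show t * (t⁻¹ * (x : G)) = x
      group
    · intro v _
      apply Subtype.ext
      show t⁻¹ * (t * (v : G)) = v
      group
  rw [h1, h2, h3]
  field_simp

/-- the `E`-valued character of a sign character -/
noncomputable def sg (E : Type*) [Field E] {U : Subgroup G} (κ : U →* ℤˣ) : U →* Eˣ :=
  (Units.map (Int.castRingHom E).toMonoidHom).comp κ

theorem sg_val {U : Subgroup G} (κ : U →* ℤˣ) (u : U) : (sg E κ u : E) = ((κ u : ℤ) : E) := rfl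

/-- all sign patterns on `U ∩ S` are given by characters of `U` -/
def SignProp (S : Set G) (U : Subgroup G) : Prop :=
  ∀ h : G → ℤˣ, (∀ s ∈ S, s ∈ U → ∀ u ∈ U, h (u⁻¹ * s * u) = h s) →
    ∃ κ : U →* ℤˣ, ∀ s, ∀ hs : s ∈ U, s ∈ S → κ ⟨s, hs⟩ = h s

/-- the standing assumptions on the set `S` of conjugates of the involution -/
structure Invol (S : Set G) : Prop where
  sq : ∀ s ∈ S, s * s = 1
  ne : ∀ s ∈ S, s ≠ 1
  conj : ∀ s ∈ S, ∀ x : G, x⁻¹ * s * x ∈ S

theorem Invol.val {S : Set G} (hS : Invol S) {U : Subgroup G} (χ : U →* Eˣ) {s : G} (hs : s ∈ S)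
    (hsU : s ∈ U) : ext U χ s = 1 ∨ ext U χ s = -1 := by
  apply mul_self_eq_one_iff.1
  rw [ext_mem U χ hsU, ← Units.val_mul, ← map_mul]
  have h2 : (⟨s, hsU⟩ : U) * ⟨s, hsU⟩ = 1 := Subtype.ext (hS.sq s hs)
  rw [h2, map_one, Units.val_one]

section

variable [Finite G] [CharZero E] {S : Set G}

theorem one_ne_neg_one' : (1 : E) ≠ -1 := by
  intro h
  have h5 : (1 : E) + 1 = 0 := by
    nth_rewrite 1 [h]
    ring
  norm_num at h5

/-- replacing a character by a sign character -/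
theorem exists_sign {U : Subgroup G} (hU : SignProp S U) (f : G → E)
    (hf : ∀ s ∈ S, s ∈ U → ∀ u ∈ U, f (u⁻¹ * s * u) = f s) :
    ∃ κ : U →* ℤˣ, ∀ s ∈ S, s ∈ U → (f s = 1 ∨ f s = -1) → ext U (sg E κ) s = f s := by
  classical
  obtain ⟨κ, hκ⟩ := hU (fun s => if f s = -1 then -1 else 1) (by
    intro s hs hsU u hu
    simp only [hf s hs hsU u hu])
  refine ⟨κ, ?_⟩
  intro s hs hsU hval
  rw [ext_mem U _ hsU, sg_val, hκ s hsU hs]
  rcases hval with h | h
  · rw [h, if_neg one_ne_neg_one']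
    simp
  · rw [h, if_pos rfl]
    simp

omit [Finite G] [CharZero E] in
theorem mul_ext {U : Subgroup G} (χ χ' : U →* Eˣ) (g : G) :
    ext U (χ * χ') g = ext U χ g * ext U χ' g := by
  by_cases hg : g ∈ U
  · rw [ext_mem U _ hg, ext_mem U _ hg, ext_mem U _ hg, MonoidHom.mul_apply, Units.val_mul]
  · rw [ext_not_mem U _ hg, ext_not_mem U _ hg, zero_mul]

/-- induction of a restricted character from a subgroup of index two -/
theorem Idx.avg_res {V U : Subgroup G} {t : G} (h : Idx V U t) (χ : U →* Eˣ) :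
    Pool.Agent.Y144.DL.avg V U (ext V (χ.comp (Subgroup.inclusion h.1))) =
      ext U χ + ext U (χ * sg E h.eps) := by
  classical
  funext g
  rw [h.avg (fun x hx g => ext_conj V _ g hx), Pi.add_apply, mul_ext]
  by_cases hg : g ∈ U
  · by_cases hgV : g ∈ V
    · have h1 : t⁻¹ * g * t ∈ V := (h.normal h.2.1 hg).2 hgV
      rw [ext_mem V _ hgV, ext_mem V _ h1, ext_mem U _ hg, ext_mem U _ hg, sg_val,
        h.eps_mem hg hgV]
      show (χ ⟨g, hg⟩ : E) + (χ ⟨t⁻¹ * g * t, h.1 h1⟩ : E) = _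
      have h2 := ext_conj U χ g h.2.1
      rw [ext_mem U χ hg, ext_mem U χ (h.1 h1)] at h2
      rw [h2]
      simp
    · have h1 : t⁻¹ * g * t ∉ V := fun h' => hgV ((h.normal h.2.1 hg).1 h')
      rw [ext_not_mem V _ hgV, ext_not_mem V _ h1, ext_mem U _ hg, ext_mem U _ hg, sg_val,
        h.eps_not_mem hg hgV]
      simp
  · have h1 : t⁻¹ * g * t ∉ U := by
      intro h'
      apply hg
      have h2 : g = t * (t⁻¹ * g * t) * t⁻¹ := by group
      rw [h2]
      exact U.mul_mem (U.mul_mem h.2.1 h') (U.inv_mem h.2.1)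
    rw [ext_not_mem V _ (fun h' => hg (h.1 h')), ext_not_mem V _ (fun h' => h1 (h.1 h')),
      ext_not_mem U _ hg, ext_not_mem U _ hg]
    ring

/-- the kernel of a nontrivial sign character -/
theorem exists_idx {U : Subgroup G} (κ : U →* ℤˣ) (h : ∃ u, κ u ≠ 1) :
    ∃ (V : Subgroup G) (t : G) (hV : Idx V U t), hV.eps = κ := by
  classical
  obtain ⟨⟨t, ht⟩, htκ⟩ := h
  have hm : ∀ u : U, κ u = 1 ∨ κ u = -1 := fun u => Int.units_eq_one_or (κ u)
  let V : Subgroup G := κ.ker.map U.subtype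
  have hVU : V ≤ U := by
    rintro _ ⟨y, _, rfl⟩
    exact y.2
  have hmem : ∀ u (hu : u ∈ U), u ∈ V ↔ κ ⟨u, hu⟩ = 1 := by
    intro u hu
    constructor
    · rintro ⟨y, hy, hyu⟩
      have h1 : y = ⟨u, hu⟩ := Subtype.ext hyu
      rw [← h1]
      exact hy
    · intro h1
      exact ⟨⟨u, hu⟩, h1, rfl⟩
  have hI : Idx V U t := by
    refine ⟨hVU, ht, fun h1 => htκ ((hmem t ht).1 h1), ?_⟩
    intro u hu
    rcases hm ⟨u, hu⟩ with h1 | h1
    · exact Or.inl ((hmem u hu).2 h1)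
    · right
      rw [hmem _ (U.mul_mem (U.inv_mem ht) hu)]
      have h2 : (⟨t⁻¹ * u, U.mul_mem (U.inv_mem ht) hu⟩ : U) = (⟨t, ht⟩ : U)⁻¹ * ⟨u, hu⟩ := rfl
      rw [h2, map_mul, map_inv, h1, (hm ⟨t, ht⟩).resolve_left htκ]
      rfl
  refine ⟨V, t, hI, ?_⟩
  ext ⟨u, hu⟩
  congr 1
  by_cases huV : u ∈ V
  · rw [hI.eps_mem hu huV, (hmem u hu).1 huV]
  · rw [hI.eps_not_mem hu huV, ((hm ⟨u, hu⟩).resolve_left (fun h1 => huV ((hmem u hu).2 h1)))]

/-- the relation between sums of two characters -/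
theorem sign_swap (hS : Invol S) {U : Subgroup G} (hU : SignProp S U) (χ₁ χ₂ χ₁' χ₂' : U →* Eˣ)
    (h : ∀ s ∈ S, ext U χ₁ s + ext U χ₂ s = ext U χ₁' s + ext U χ₂' s) :
    ext U χ₁ + ext U χ₂ - (ext U χ₁' + ext U χ₂') ∈ SC E S ⊥ U := by
  classical
  obtain ⟨κ, hκ⟩ := exists_sign (E := E) hU (fun g => ext U χ₁ g * ext U χ₂ g) (by
    intro s hs hsU u hu
    simp only [ext_conj U _ s hu])
  have hne := one_ne_neg_one' (E := E)
  have h2 : (2 : E) ≠ 0 := two_ne_zero
  -- the values on S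
  have key : ∀ s ∈ S, s ∈ U → ext U (sg E κ) s = ext U χ₁ s * ext U χ₂ s ∧
      ext U (sg E κ) s = ext U χ₁' s * ext U χ₂' s ∧
      (ext U (sg E κ) s = 1 → ext U χ₁ s = ext U χ₁' s) := by
    intro s hs hsU
    have v1 := hS.val χ₁ hs hsU
    have v2 := hS.val χ₂ hs hsU
    have v3 := hS.val χ₁' hs hsU
    have v4 := hS.val χ₂' hs hsU
    have h3 := h s hs
    have h4 : ext U (sg E κ) s = ext U χ₁ s * ext U χ₂ s := hκ s hs hsU (by
      rcases v1 with h | h <;> rcases v2 with h' | h' <;> simp [h, h'])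
    rw [h4]
    rcases v1 with h | h <;> rcases v2 with h' | h' <;> rcases v3 with h'' | h'' <;>
      rcases v4 with h''' | h''' <;> rw [h, h', h'', h'''] at h3 ⊢ <;>
      refine ⟨rfl, ?_, ?_⟩ <;> first
        | rfl
        | (intro; rfl)
        | (exfalso; apply h2; linear_combination h3)
        | (exfalso; apply h2; linear_combination -h3)
        | (exfalso; apply h2; linear_combination h3 / 2)
        | (exfalso; apply h2; linear_combination -h3 / 2)
        | (intro h5; exfalso; apply h2; linear_combination h3)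
        | (intro h5; exfalso; apply h2; linear_combination -h3)
        | (intro h5; exfalso; apply h2; linear_combination h3 / 2)
        | (intro h5; exfalso; apply h2; linear_combination -h3 / 2)
        | (intro h5; exfalso; exact hne (by linear_combination h5))
        | (intro h5; exfalso; exact hne (by linear_combination -h5))
        | ring
  have hsqv : ∀ χ : U →* Eˣ, ∀ s ∈ S, s ∈ U → ext U χ s * ext U χ s = 1 := by
    intro χ s hs hsU
    rcases hS.val χ hs hsU with h | h <;> rw [h] <;> ring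
  by_cases hκ1 : ∃ u, κ u ≠ 1
  · obtain ⟨V, t, hV, rfl⟩ := exists_idx κ hκ1
    have A1 := hV.avg_res χ₁
    have A2 := hV.avg_res χ₁'
    have B1 : ext U χ₂ - ext U (χ₁ * sg E hV.eps) ∈ SC E S ⊥ U := by
      apply SC_ext bot_le
      intro s hs
      by_cases hsU : s ∈ U
      · rw [mul_ext, (key s hs hsU).1, ← mul_assoc, hsqv χ₁ s hs hsU, one_mul]
      · rw [ext_not_mem U _ hsU, ext_not_mem U _ hsU]
    have B2 : ext U χ₂' - ext U (χ₁' * sg E hV.eps) ∈ SC E S ⊥ U := by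
      apply SC_ext bot_le
      intro s hs
      by_cases hsU : s ∈ U
      · rw [mul_ext, (key s hs hsU).2.1, ← mul_assoc, hsqv χ₁' s hs hsU, one_mul]
      · rw [ext_not_mem U _ hsU, ext_not_mem U _ hsU]
    have C : Pool.Agent.Y144.DL.avg V U (ext V (χ₁.comp (Subgroup.inclusion hV.1)) -
        ext V (χ₁'.comp (Subgroup.inclusion hV.1))) ∈ SC E S ⊥ U := by
      refine AddSubgroup.subset_closure ⟨V, _, _, hV.1, bot_le, ?_, rfl⟩
      intro s hs
      by_cases hsV : s ∈ V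
      · have hsU := hV.1 hsV
        have h5 : ext U (sg E hV.eps) s = 1 := by
          rw [ext_mem U _ hsU, sg_val, hV.eps_mem hsU hsV]
          simp
        have h6 := (key s hs hsU).2.2 h5
        rw [ext_mem U _ hsU, ext_mem U _ hsU] at h6
        rw [ext_mem V _ hsV, ext_mem V _ hsV]
        exact h6
      · rw [ext_not_mem V _ hsV, ext_not_mem V _ hsV]
    have := Fintype.ofFinite G
    rw [avg_sub, A1, A2] at C
    have h7 := add_mem (sub_mem B1 B2) C
    convert h7 using 1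
    abel
  · push Not at hκ1
    have hone : ∀ s ∈ S, s ∈ U → ext U (sg E κ) s = 1 := by
      intro s hs hsU
      rw [ext_mem U _ hsU, sg_val, hκ1]
      simp
    have B1 : ext U χ₁ - ext U χ₁' ∈ SC E S ⊥ U := by
      apply SC_ext bot_le
      intro s hs
      by_cases hsU : s ∈ U
      · exact (key s hs hsU).2.2 (hone s hs hsU)
      · rw [ext_not_mem U _ hsU, ext_not_mem U _ hsU]
    have B2 : ext U χ₂ - ext U χ₂' ∈ SC E S ⊥ U := by
      apply SC_ext bot_le
      intro s hs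
      by_cases hsU : s ∈ U
      · have h5 := h s hs
        rw [(key s hs hsU).2.2 (hone s hs hsU)] at h5
        exact add_left_cancel h5
      · rw [ext_not_mem U _ hsU, ext_not_mem U _ hsU]
    have h7 := add_mem B1 B2
    convert h7 using 1
    abel

end

end Pool.Agent.Y144.DL
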