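import Pool.Agent.Y144.DL.Enl

/-!
# All sign patterns over the subfields of a number field
-/

set_option autoImplicit false

namespace Pool.Agent.Y144.DL

open Polynomial IntermediateField

attribute [local instance high] IntermediateField.algebra'

section

variable (F : IntermediateField ℚ ℂ) [FiniteDimensional ℚ F]

/-- subfields and sign patterns -/
abbrev Pat : Type := Σ L : IntermediateField ℚ F, ((L →ₐ[ℚ] ℝ) → ℤˣ)

theorem finite_pat : Finite (Pat F) := by
  have h1 : Finite (IntermediateField ℚ F) :=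
    Field.finite_intermediateField_of_exists_primitive_element ℚ F
      (Field.exists_primitive_element ℚ F)
  have h2 : ∀ L : IntermediateField ℚ F, Finite ((L →ₐ[ℚ] ℝ) → ℤˣ) := by
    intro L
    have h3 : Finite (L →ₐ[ℚ] ℝ) := inferInstance
    exact Pi.finite
  infer_instance

/-- an element with the given signs -/
noncomputable def el (x : Pat F) : x.1 := (exists_signs x.2).choose

theorem el_spec (x : Pat F) (τ : x.1 →ₐ[ℚ] ℝ) : 0 < ((x.2 τ : ℤ) : ℝ) * τ (el F x) :=
  (exists_signs x.2).choose_spec τ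

/-- the field obtained by adjoining square roots of elements with all sign patterns over all subfields -/
noncomputable def big : IntermediateField ℚ ℂ := enl F (fun x : Pat F => (el F x : F))

instance : FiniteDimensional ℚ (big F) := enl_finite F _

instance : Normal ℚ (big F) := enl_normal F _

instance : IsGalois ℚ (big F) := ⟨⟩

theorem le_big : F ≤ big F :=
  have := finite_pat F
  le_enl F _

theorem big_sqrt (x : Pat F) {z : ℂ} (hz : z * z = ((el F x : F) : ℂ)) : z ∈ big F :=
  have := finite_pat F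
  sqrt_mem F _ x hz

theorem big_sq [Normal ℚ F] (g : big F ≃ₐ[ℚ] big F) (hg : ∀ x : big F, (x : ℂ) ∈ F → g x = x) :
    g * g = 1 :=
  have := finite_pat F
  enl_sq F _ g hg

/-- all sign patterns are given by sign characters -/
theorem big_signProp (c : big F ≃ₐ[ℚ] big F)
    (hc : ∀ x : big F, ((c x : big F) : ℂ) = (starRingEnd ℂ) (x : ℂ))
    (U : Subgroup (big F ≃ₐ[ℚ] big F))
    (hU : ∀ g : big F ≃ₐ[ℚ] big F, (∀ x : big F, (x : ℂ) ∈ F → g x = x) → g ∈ U) :
    SignProp {s | IsConj c s} U := by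
  classical
  intro h hinv
  let k' : IntermediateField ℚ (big F) := IntermediateField.fixedField U
  have hk'U : ∀ y ∈ k', ∀ u ∈ U, u y = y := by
    intro y hy u hu
    exact (IntermediateField.mem_fixedField_iff U y).1 hy u hu
  have hUk' : ∀ g : big F ≃ₐ[ℚ] big F, (∀ y ∈ k', g y = y) → g ∈ U := by
    intro g hg
    have h1 : g ∈ IntermediateField.fixingSubgroup k' :=
      (IntermediateField.mem_fixingSubgroup_iff k' g).2 hg
    rwa [IntermediateField.fixingSubgroup_fixedField] at h1
  have hk'F : ∀ y ∈ k', (y : ℂ) ∈ F := by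
    intro y hy
    let F₁ : IntermediateField ℚ (big F) := IntermediateField.restrict (le_big F)
    have h1 : F₁.fixingSubgroup ≤ U := by
      intro g hg
      refine hU g ?_
      intro x hx
      exact (IntermediateField.mem_fixingSubgroup_iff F₁ g).1 hg x
        ((IntermediateField.mem_restrict (le_big F) x).2 hx)
    have h2 : k' ≤ IntermediateField.fixedField F₁.fixingSubgroup := by
      intro x hx
      rw [IntermediateField.mem_fixedField_iff]
      intro f hf
      exact hk'U x hx f (h1 hf)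
    rw [IsGalois.fixedField_fixingSubgroup] at h2
    exact (IntermediateField.mem_restrict (le_big F) y).1 (h2 hy)
  let ι₀ : F →ₐ[ℚ] big F := IntermediateField.inclusion (le_big F)
  have hι₀ : ∀ x : F, ((ι₀ x : big F) : ℂ) = x := fun x => rfl
  let L : IntermediateField ℚ F := k'.comap ι₀
  have hL : ∀ x : F, x ∈ L ↔ ι₀ x ∈ k' := fun x => Iff.rfl
  let P : (L →ₐ[ℚ] ℝ) → (big F ≃ₐ[ℚ] big F) → Prop := fun τ g =>
    g⁻¹ * c * g ∈ U ∧ ∀ x : L, ((g (ι₀ x) : big F) : ℂ) = (τ x : ℂ)
  let ε : (L →ₐ[ℚ] ℝ) → ℤˣ := fun τ =>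
    if hx : ∃ g, P τ g then h (hx.choose⁻¹ * c * hx.choose) else 1
  let a : L := el F ⟨L, ε⟩
  have ha : ∀ τ, 0 < ((ε τ : ℤ) : ℝ) * τ a := el_spec F ⟨L, ε⟩
  obtain ⟨z, hz⟩ : ∃ z : ℂ, z * z = ((a : F) : ℂ) := by
    obtain ⟨z, hz⟩ := IsAlgClosed.exists_pow_nat_eq ((a : F) : ℂ) (n := 2) (by norm_num)
    exact ⟨z, by rw [← sq, hz]⟩
  have hzF : z ∈ big F := big_sqrt F ⟨L, ε⟩ hz
  let w : big F := ⟨z, hzF⟩
  have hw : w * w = ι₀ a := Subtype.ext hz
  have hua : ∀ u ∈ U, u (ι₀ a) = ι₀ a := fun u hu => hk'U _ a.2 u hu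
  have hu : ∀ u ∈ U, u w = w ∨ u w = -w := by
    intro u hu
    apply mul_self_eq_mul_self_iff.1
    rw [← map_mul, hw, hua u hu]
  let κ : U →* ℤˣ :=
    { toFun := fun u => if (u : big F ≃ₐ[ℚ] big F) w = w then 1 else -1
      map_one' := if_pos rfl
      map_mul' := by
        rintro ⟨u, hu1⟩ ⟨v, hv1⟩
        show (if u (v w) = w then (1 : ℤˣ) else -1) = (if u w = w then 1 else -1) *
          (if v w = w then 1 else -1)
        by_cases hw0 : w = 0
        · rw [hw0]
          simp
        · have hne : -w ≠ w := by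
            intro h1
            apply hw0
            exact self_eq_neg.1 h1.symm
          rcases hu u hu1 with h1 | h1 <;> rcases hu v hv1 with h2 | h2 <;>
            simp [h1, h2, hne] }
  refine ⟨κ, ?_⟩
  rintro s hsU hsS
  obtain ⟨v, hv⟩ := isConj_iff.1 hsS
  let g : big F ≃ₐ[ℚ] big F := v⁻¹
  have hsg : s = g⁻¹ * c * g := by
    rw [← hv]
    show v * c * v⁻¹ = (v⁻¹)⁻¹ * c * v⁻¹
    rw [inv_inv]
  -- the real embedding
  have hreal : ∀ x : L, ((((g (ι₀ x) : big F) : ℂ).re : ℝ) : ℂ) = ((g (ι₀ x) : big F) : ℂ) := by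
    intro x
    have h1 : s (ι₀ x) = ι₀ x := hk'U _ x.2 s hsU
    have h2 : c (g (ι₀ x)) = g (ι₀ x) := by
      have h3 : g * s = c * g := by
        rw [hsg]
        group
      have h4 := congrArg (fun f : big F ≃ₐ[ℚ] big F => f (ι₀ x)) h3
      have h5 : g (s (ι₀ x)) = c (g (ι₀ x)) := h4
      rw [← h5, h1]
    have h6 := hc (g (ι₀ x))
    rw [h2] at h6
    exact Complex.conj_eq_iff_re.1 h6.symm
  let τ : L →ₐ[ℚ] ℝ :=
    RingHom.toRatAlgHom
      { toFun := fun x => ((g (ι₀ x) : big F) : ℂ).re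
        map_one' := by
          have h1 : ((g (ι₀ ((1 : L) : F)) : big F) : ℂ) = 1 := by
            have h2 : ι₀ ((1 : L) : F) = 1 := rfl
            rw [h2, map_one]
            rfl
          rw [h1, Complex.one_re]
        map_zero' := by
          have h1 : ((g (ι₀ ((0 : L) : F)) : big F) : ℂ) = 0 := by
            have h2 : ι₀ ((0 : L) : F) = 0 := rfl
            rw [h2, map_zero]
            rfl
          rw [h1, Complex.zero_re]
        map_add' := by
          intro x y
          have h1 : ((g (ι₀ ((x + y : L) : F)) : big F) : ℂ) =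
              ((g (ι₀ x) : big F) : ℂ) + ((g (ι₀ y) : big F) : ℂ) := by
            have h2 : ι₀ ((x + y : L) : F) = ι₀ x + ι₀ y := rfl
            rw [h2, map_add]
            rfl
          rw [h1, Complex.add_re]
        map_mul' := by
          intro x y
          have h1 : ((g (ι₀ ((x * y : L) : F)) : big F) : ℂ) =
              ((g (ι₀ x) : big F) : ℂ) * ((g (ι₀ y) : big F) : ℂ) := by
            have h2 : ι₀ ((x * y : L) : F) = ι₀ x * ι₀ y := rfl
            rw [h2, map_mul]
            rfl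
          rw [h1, ← hreal x, ← hreal y, ← Complex.ofReal_mul, Complex.ofReal_re, Complex.ofReal_re,
            Complex.ofReal_re] }
  have hτ : ∀ x : L, ((τ x : ℝ) : ℂ) = ((g (ι₀ x) : big F) : ℂ) := hreal
  have hP : P τ g := by
    refine ⟨?_, fun x => (hτ x).symm⟩
    rw [← hsg]
    exact hsU
  have hε : ε τ = h s := by
    have hex : ∃ g, P τ g := ⟨g, hP⟩
    have h1 : ε τ = h (hex.choose⁻¹ * c * hex.choose) := dif_pos hex
    obtain ⟨hg1, hg2⟩ := hex.choose_spec
    rw [h1]
    set g' := hex.choose with hg'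
    have hmem : g'⁻¹ * g ∈ U := by
      apply hUk'
      intro y hy
      let x : L := ⟨⟨y, hk'F y hy⟩, by
        rw [hL]
        exact hy⟩
      have hx : ι₀ x = y := rfl
      have h2 : g y = g' y := by
        apply Subtype.ext
        rw [← hx, ← hτ x, hg2 x]
      show g'⁻¹ (g y) = y
      rw [h2]
      exact g'.symm_apply_apply y
    have h3 : s = (g'⁻¹ * g)⁻¹ * (g'⁻¹ * c * g') * (g'⁻¹ * g) := by
      rw [hsg]
      group
    rw [h3]
    refine (hinv (g'⁻¹ * c * g') ?_ hg1 _ hmem).symm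
    exact isConj_iff.2 ⟨g'⁻¹, by group⟩
  have hpos := ha τ
  rw [hε] at hpos
  have hyy : ((g w : big F) : ℂ) * ((g w : big F) : ℂ) = ((τ a : ℝ) : ℂ) := by
    rw [hτ a, ← hw, map_mul]
    rfl
  have hsw : s w = g.symm (c (g w)) := by
    rw [hsg]
    rfl
  show (if s w = w then (1 : ℤˣ) else -1) = h s
  rcases Int.units_eq_one_or (h s) with h1 | h1
  · rw [h1] at hpos ⊢
    have h2 : 0 < τ a := by simpa using hpos
    have h3 := conj_of_sq_pos hyy h2
    have h4 : c (g w) = g w := Subtype.ext (by rw [hc, h3])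
    rw [hsw, h4, AlgEquiv.symm_apply_apply, if_pos rfl]
  · rw [h1] at hpos ⊢
    have h2 : τ a < 0 := by simpa using hpos
    have h3 := conj_of_sq_neg hyy h2
    have h4 : c (g w) = -(g w) := Subtype.ext (by rw [hc, h3]; rfl)
    rw [hsw, h4, map_neg, AlgEquiv.symm_apply_apply, if_neg]
    intro h5
    have h6 : w = 0 := self_eq_neg.1 h5.symm
    rw [h6, map_zero] at hyy
    have h7 : ((τ a : ℝ) : ℂ) = 0 := by
      rw [← hyy]
      simp
    rw [Complex.ofReal_eq_zero] at h7
    linarith

end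

end Pool.Agent.Y144.DL
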