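import Pool.Agent.Y144.DL.Two
import Pool.Agent.Y144.DL.Fam

/-!
# Deligne's conjecture for twists by Artin representations
-/

set_option autoImplicit false

namespace Pool.Agent.Y144.DL

universe u

variable {E : Type*} [Field E] [CharZero E] {G : Type u} [Group G] [Finite G]

/-- the pairs of induced characters with the same signature: `χ`, `χ'` are linear characters of a subgroup
`H ≥ Z` which agree on `H ∩ S` -/
def pairsS (E : Type*) [Field E] {G : Type*} [Group G] [Finite G] (S : Set G) (Z : Subgroup G) :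
    Set ((G → E) × (G → E)) :=
  {q | ∃ (H : Subgroup G) (χ χ' : H →* Eˣ), Z ≤ H ∧ (∀ h : H, (h : G) ∈ S → χ h = χ' h) ∧
    q = (ind H χ, ind H χ')}

theorem SC_le_pairsS (S : Set G) (Z : Subgroup G) : SC E S Z (⊤ : Subgroup G) ≤
    AddSubgroup.closure {f | ∃ q ∈ pairsS E S Z, f = q.1 - q.2} := by
  classical
  have := Fintype.ofFinite G
  unfold SC
  rw [AddSubgroup.closure_le]
  rintro _ ⟨K, χ, χ', _, hc, he, rfl⟩
  refine AddSubgroup.subset_closure ⟨(ind K χ, ind K χ'), ⟨K, χ, χ', hc, ?_, rfl⟩, ?_⟩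
  · intro h hh
    have h1 := he h hh
    rw [ext_mem K χ h.2, ext_mem K χ' h.2] at h1
    exact Units.ext h1
  · rw [avg_sub]
    rfl

/-- the value at a difference which is a combination of pairs -/
theorem Y_of_SC {M : FrobData E} {Fr : Nat.Primes → G} {m : ℂ} (F : LFamily M Fr m)
    (A : ArtinPeriods E G) (r : ℕ) (S : Set G) (Z : Subgroup G)
    (hrel : ∀ H : Subgroup G, Z ≤ H → ∀ χ χ' : H →* Eˣ, (∀ h : H, (h : G) ∈ S → χ h = χ' h) →
        Sim (F.value (ind H χ) * A.δ (ind H χ') ^ r) (F.value (ind H χ') * A.δ (ind H χ) ^ r))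
    {θ ω : G → E} (hθ : IsChar θ) (hω : IsChar ω) (n : ℕ) (h : n • (θ - ω) ∈ SC E S Z ⊤) :
    Y F A r θ ^ n = Y F A r ω ^ n := by
  have hY : ∀ θ θ' : G → E, IsChar θ → IsChar θ' → Y F A r (θ + θ') = Y F A r θ * Y F A r θ' :=
    fun θ θ' h h' => Y_add F A r h h'
  refine formal (Y F A r) hY (pairsS E S Z) ?_ hθ hω n ?_
  · rintro q ⟨H, χ, χ', hZ, he, rfl⟩
    exact ⟨isChar_ind H χ, isChar_ind H χ',
      (Y_eq_iff F A r (isChar_ind H χ) (isChar_ind H χ')).2 (hrel H hZ χ χ' he)⟩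
  · rw [← smul_sub]
    exact SC_le_pairsS S Z h

/-- the common part of the theorems -/
theorem core (c : G) (ψ : G →* Eˣ) (hψ : c ≠ 1 → ψ c = -1) {M : FrobData E} {Fr : Nat.Primes → G}
    {m : ℂ} (F : LFamily M Fr m) (A : ArtinPeriods E G) (r : ℕ) (cP cM : (E →+* ℂ) → ℂ)
    (hP : ∀ σ, cP σ ≠ 0) (hM : ∀ σ, cM σ ≠ 0) (h1 : Sim (F.value 1) (cP * A.δ 1 ^ r))
    (h2 : c ≠ 1 → Sim (F.value fun g => ψ g) (cM * A.δ (fun g => ψ g) ^ r)) (S : Set G)
    (Z : Subgroup G)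
    (hrel : ∀ H : Subgroup G, Z ≤ H → ∀ χ χ' : H →* Eˣ, (∀ h : H, (h : G) ∈ S → χ h = χ' h) →
        Sim (F.value (ind H χ) * A.δ (ind H χ') ^ r) (F.value (ind H χ') * A.δ (ind H χ) ^ r))
    (n : ℕ) (hn : ∀ θ ω : G → E, IsChar θ → IsChar ω → θ 1 = ω 1 → θ c = ω c →
      n • (θ - ω) ∈ SC E S Z ⊤)
    (θ : G → E) (hθ : IsChar θ) (a b : ℕ) (ha : θ 1 = a + b) (hb : θ c = a - b) :
    Sim (F.value θ ^ n) ((cP ^ a * cM ^ b * A.δ θ ^ r) ^ n) := by
  have hψc : IsChar (fun g => (ψ g : E)) := isChar_linear ψ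
  have hone : IsChar (1 : G → E) := isChar_one
  have hω : IsChar (a • (1 : G → E) + b • fun g => (ψ g : E)) :=
    isChar_add (isChar_nsmul hone a) (isChar_nsmul hψc b)
  have hY : ∀ θ θ' : G → E, IsChar θ → IsChar θ' → Y F A r (θ + θ') = Y F A r θ * Y F A r θ' :=
    fun θ θ' h h' => Y_add F A r h h'
  have hω1 : θ 1 = (a • (1 : G → E) + b • fun g => (ψ g : E)) 1 := by
    rw [ha]
    simp
  have hbc : c = 1 → b = 0 := by
    rintro rfl
    rw [ha] at hb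
    have h3 : ((2 * b : ℕ) : E) = 0 := by
      push_cast
      linear_combination hb
    have h4 : 2 * b = 0 := by exact_mod_cast h3
    omega
  have hωc : θ c = (a • (1 : G → E) + b • fun g => (ψ g : E)) c := by
    by_cases hc1 : c = 1
    · rw [hc1]
      exact hω1
    · rw [hb]
      simp only [Pi.add_apply, Pi.smul_apply, Pi.one_apply, hψ hc1]
      simp
      ring
  have h3 := Y_of_SC F A r S Z hrel hθ hω n (hn θ _ hθ hω hω1 hωc)
  have h4 : Y F A r (a • (1 : G → E) + b • fun g => (ψ g : E)) = cls (cP ^ a * cM ^ b) := by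
    rw [hY _ _ (isChar_nsmul hone a) (isChar_nsmul hψc b), hY_nsmul (Y F A r) hY hone,
      hY_nsmul (Y F A r) hY hψc, (Y_eq_cls_iff F A r hone hP).2 h1,
      cls_mul (ne_zero_pow hP a) (ne_zero_pow hM b), cls_pow hP, cls_pow hM]
    congr 1
    by_cases hc1 : c = 1
    · rw [hbc hc1, pow_zero, pow_zero]
    · rw [(Y_eq_cls_iff F A r hψc hM).2 (h2 hc1)]
  rw [h4] at h3
  exact (Y_pow_eq_cls_iff F A r n hθ (ne_zero_mul (ne_zero_pow hP a) (ne_zero_pow hM b))).1 h3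

/-- the totally real and the CM case -/
theorem central (hE : HasEnoughRootsOfUnity E (Nat.card G)) (c : G) (hc : ∀ g : G, g * c = c * g)
    (hcc : c * c = 1) (ψ : G →* Eˣ) (hψ : c ≠ 1 → ψ c = -1) {M : FrobData E} {Fr : Nat.Primes → G}
    {m : ℂ} (F : LFamily M Fr m) (A : ArtinPeriods E G) (r : ℕ) (cP cM : (E →+* ℂ) → ℂ)
    (hP : ∀ σ, cP σ ≠ 0) (hM : ∀ σ, cM σ ≠ 0) (h1 : Sim (F.value 1) (cP * A.δ 1 ^ r))
    (h2 : c ≠ 1 → Sim (F.value fun g => ψ g) (cM * A.δ (fun g => ψ g) ^ r))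
    (hrel : ∀ (H : Subgroup G) (hH : c ∈ H) (χ χ' : H →* Eˣ), χ ⟨c, hH⟩ = χ' ⟨c, hH⟩ →
        Sim (F.value (ind H χ) * A.δ (ind H χ') ^ r) (F.value (ind H χ') * A.δ (ind H χ) ^ r))
    (θ : G → E) (hθ : IsChar θ) (a b : ℕ) (ha : θ 1 = a + b) (hb : θ c = a - b) :
    Sim (F.value θ) (cP ^ a * cM ^ b * A.δ θ ^ r) := by
  have h := core c ψ hψ F A r cP cM hP hM h1 h2 {c} (Subgroup.zpowers c) (by
      intro H hH χ χ' he
      have hcH : c ∈ H := hH (Subgroup.mem_zpowers c)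
      exact hrel H hcH χ χ' (he ⟨c, hcH⟩ rfl)) 1 (by
      intro θ ω hθ hω e1 e2
      rw [one_smul]
      exact brauer_signature hE hc hcc hψ hθ hω e1 e2) θ hθ a b ha hb
  rwa [pow_one, pow_one] at h

/-- extensions of odd degree of totally real and CM fields -/
theorem oddext (hE : HasEnoughRootsOfUnity E (Nat.card G)) (c : G) (N : Subgroup G) (hN : N.Normal)
    (hodd : Odd (Nat.card N)) (hcN : ∀ g : G, g * c * g⁻¹ * c⁻¹ ∈ N)
    (hcc : c * c = 1) (ψ : G →* Eˣ) (hψ : c ≠ 1 → ψ c = -1) {M : FrobData E} {Fr : Nat.Primes → G}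
    {m : ℂ} (F : LFamily M Fr m) (A : ArtinPeriods E G) (r : ℕ) (cP cM : (E →+* ℂ) → ℂ)
    (hP : ∀ σ, cP σ ≠ 0) (hM : ∀ σ, cM σ ≠ 0) (h1 : Sim (F.value 1) (cP * A.δ 1 ^ r))
    (h2 : c ≠ 1 → Sim (F.value fun g => ψ g) (cM * A.δ (fun g => ψ g) ^ r))
    (hrel : ∀ (H : Subgroup G) (χ χ' : H →* Eˣ), (∀ h : H, IsConj c (h : G) → χ h = χ' h) →
        Sim (F.value (ind H χ) * A.δ (ind H χ') ^ r) (F.value (ind H χ') * A.δ (ind H χ) ^ r))
    (θ : G → E) (hθ : IsChar θ) (a b : ℕ) (ha : θ 1 = a + b) (hb : θ c = a - b) :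
    Sim (F.value θ) (cP ^ a * cM ^ b * A.δ θ ^ r) := by
  have h := core c ψ hψ F A r cP cM hP hM h1 h2 {s | IsConj c s} ⊥
    (fun H _ χ χ' he => hrel H χ χ' he) 1 (by
      intro θ ω hθ hω e1 e2
      rw [one_smul]
      exact brauer_odd hE hN hodd hcN hcc hψ hθ hω e1 e2) θ hθ a b ha hb
  rwa [pow_one, pow_one] at h

/-- the general case -/
theorem general (hE : HasEnoughRootsOfUnity E (Nat.card G)) (c : G)
    (hcc : c * c = 1) (ψ : G →* Eˣ) (hψ : c ≠ 1 → ψ c = -1) {M : FrobData E} {Fr : Nat.Primes → G}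
    {m : ℂ} (F : LFamily M Fr m) (A : ArtinPeriods E G) (r : ℕ) (cP cM : (E →+* ℂ) → ℂ)
    (hP : ∀ σ, cP σ ≠ 0) (hM : ∀ σ, cM σ ≠ 0) (h1 : Sim (F.value 1) (cP * A.δ 1 ^ r))
    (h2 : c ≠ 1 → Sim (F.value fun g => ψ g) (cM * A.δ (fun g => ψ g) ^ r))
    (hrel : ∀ (H : Subgroup G) (χ χ' : H →* Eˣ), (∀ h : H, IsConj c (h : G) → χ h = χ' h) →
        Sim (F.value (ind H χ) * A.δ (ind H χ') ^ r) (F.value (ind H χ') * A.δ (ind H χ) ^ r))
    (θ : G → E) (hθ : IsChar θ) (a b : ℕ) (ha : θ 1 = a + b) (hb : θ c = a - b) :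
    Sim (F.value θ ^ 2 ^ (Nat.card G).factorization 2)
      ((cP ^ a * cM ^ b * A.δ θ ^ r) ^ 2 ^ (Nat.card G).factorization 2) :=
  core c ψ hψ F A r cP cM hP hM h1 h2 {s | IsConj c s} ⊥
    (fun H _ χ χ' he => hrel H χ χ' he) _ (by
      intro θ ω hθ hω e1 e2
      exact two_part hE hcc hψ hθ hω e1 e2) θ hθ a b ha hb

end Pool.Agent.Y144.DL
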