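import Pool.Agent.Y144.DL.NF
import Pool.Agent.Y144.DL.Mono

/-!
# Characters of subgroups, considered as functions on the group
-/

set_option autoImplicit false

namespace Pool.Agent.Y144.DL

variable {E : Type*} [Field E] {G : Type*} [Group G]

/-- extension by zero from a subgroup -/
noncomputable def ex0 (U : Subgroup G) (f : U → E) : G → E := fun g => by
  classical
  exact if h : g ∈ U then f ⟨g, h⟩ else 0

theorem ex0_mem (U : Subgroup G) (f : U → E) {g : G} (h : g ∈ U) : ex0 U f g = f ⟨g, h⟩ := by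
  unfold ex0
  rw [dif_pos h]

theorem ex0_not_mem (U : Subgroup G) (f : U → E) {g : G} (h : g ∉ U) : ex0 U f g = 0 := by
  unfold ex0
  rw [dif_neg h]

/-- extension by zero as an additive map -/
noncomputable def ex0Hom (U : Subgroup G) : (U → E) →+ (G → E) where
  toFun := ex0 U
  map_zero' := by
    funext g
    by_cases h : g ∈ U
    · rw [ex0_mem U _ h]
      rfl
    · rw [ex0_not_mem U _ h]
      rfl
  map_add' := by
    intro f f'
    funext g
    rw [Pi.add_apply]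
    by_cases h : g ∈ U
    · rw [ex0_mem U _ h, ex0_mem U _ h, ex0_mem U _ h]
      rfl
    · rw [ex0_not_mem U _ h, ex0_not_mem U _ h, ex0_not_mem U _ h, add_zero]

/-- the character of the image of a subgroup of `U` in `G` -/
noncomputable def mapChar {U : Subgroup G} (K : Subgroup U) (χ : K →* Eˣ) : (K.map U.subtype) →* Eˣ :=
  χ.comp (K.equivMapOfInjective U.subtype U.subtype_injective).symm.toMonoidHom

theorem mapChar_apply {U : Subgroup G} (K : Subgroup U) (χ : K →* Eˣ) (u : U) (hu : u ∈ K)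
    (h : (u : G) ∈ K.map U.subtype) : mapChar K χ ⟨u, h⟩ = χ ⟨u, hu⟩ := by
  unfold mapChar
  show χ ((K.equivMapOfInjective U.subtype U.subtype_injective).symm ⟨u, h⟩) = χ ⟨u, hu⟩
  congr 1
  rw [MulEquiv.symm_apply_eq]
  apply Subtype.ext
  rw [Subgroup.coe_equivMapOfInjective_apply]
  rfl

theorem ex0_ext {U : Subgroup G} (K : Subgroup U) (χ : K →* Eˣ) :
    ex0 U (ext K χ) = ext (K.map U.subtype) (mapChar K χ) := by
  funext g
  by_cases hg : g ∈ K.map U.subtype
  · obtain ⟨u, hu, rfl⟩ := hg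
    have h1 : (U.subtype u) ∈ U := u.2
    have h2 : (⟨U.subtype u, h1⟩ : U) = u := rfl
    have h3 : U.subtype u ∈ K.map U.subtype := ⟨u, hu, rfl⟩
    rw [ex0_mem U _ h1, h2, ext_mem K χ hu, ext_mem _ _ h3]
    congr 1
    exact (mapChar_apply K χ u hu h3).symm
  · rw [ext_not_mem _ _ hg]
    by_cases hU : g ∈ U
    · rw [ex0_mem U _ hU, ext_not_mem]
      intro h
      exact hg ⟨⟨g, hU⟩, h, rfl⟩
    · exact ex0_not_mem U _ hU

theorem ex0_avg [Finite G] {U : Subgroup G} (K : Subgroup U) (f : U → E) :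
    ex0 U (avg K ⊤ f) = avg (K.map U.subtype) U (ex0 U f) := by
  classical
  have := Fintype.ofFinite G
  have hcard : Nat.card (K.map U.subtype) = Nat.card K :=
    Nat.card_congr (K.equivMapOfInjective U.subtype U.subtype_injective).symm.toEquiv
  funext g
  rw [avg_eq', hcard]
  by_cases hU : g ∈ U
  · rw [ex0_mem U _ hU, avg_eq']
    congr 1
    refine Fintype.sum_equiv (Subgroup.topEquiv (G := U)).toEquiv _ _ (fun x => ?_)
    have h1 : ((x : U) : G)⁻¹ * g * ((x : U) : G) ∈ U :=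
      U.mul_mem (U.mul_mem (U.inv_mem (x : U).2) hU) (x : U).2
    show f ((x : U)⁻¹ * ⟨g, hU⟩ * (x : U)) = ex0 U f (((x : U) : G)⁻¹ * g * ((x : U) : G))
    rw [ex0_mem U _ h1]
    rfl
  · rw [ex0_not_mem U _ hU, Finset.sum_eq_zero, mul_zero]
    intro x _
    refine ex0_not_mem U _ (fun h => hU ?_)
    have h2 : g = (x : G) * ((x : G)⁻¹ * g * (x : G)) * (x : G)⁻¹ := by group
    rw [h2]
    exact U.mul_mem (U.mul_mem x.2 h) (U.inv_mem x.2)

section

variable [Finite G] [CharZero E] {S : Set G} {Z : Subgroup G} {ψ : G →* Eˣ}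

omit [CharZero E] in
theorem ex0_SC {U : Subgroup G} (hZU : Z ≤ U) {f : U → E}
    (hf : f ∈ SC E {s : U | (s : G) ∈ S} (Z.subgroupOf U) ⊤) : ex0 U f ∈ SC E S Z U := by
  have h1 : SC E {s : U | (s : G) ∈ S} (Z.subgroupOf U) ⊤ ≤ (SC E S Z U).comap (ex0Hom U) := by
    unfold SC
    rw [AddSubgroup.closure_le]
    rintro _ ⟨K, χ, χ', _, hc, he, rfl⟩
    have h2 : ex0Hom U (avg K ⊤ (ext K χ - ext K χ')) =
        avg (K.map U.subtype) U (ext (K.map U.subtype) (mapChar K χ) -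
          ext (K.map U.subtype) (mapChar K χ')) := by
      show ex0 U (avg K ⊤ (ext K χ - ext K χ')) = _
      rw [ex0_avg, ← ex0_ext, ← ex0_ext]
      congr 1
      exact map_sub (ex0Hom (E := E) U) (ext K χ) (ext K χ')
    rw [SetLike.mem_coe, AddSubgroup.mem_comap, h2]
    refine AddSubgroup.subset_closure ⟨K.map U.subtype, mapChar K χ, mapChar K χ', ?_, ?_, ?_, rfl⟩
    · rintro _ ⟨u, _, rfl⟩
      exact u.2
    · intro z hz
      exact ⟨⟨z, hZU hz⟩, hc (Subgroup.mem_subgroupOf.2 hz), rfl⟩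
    · intro s hs
      rw [← ex0_ext, ← ex0_ext]
      by_cases hU : s ∈ U
      · rw [ex0_mem U _ hU, ex0_mem U _ hU]
        exact he ⟨s, hU⟩ hs
      · rw [ex0_not_mem U _ hU, ex0_not_mem U _ hU]
  exact h1 hf

omit [Finite G] [CharZero E] in
theorem ex0_ext_top {U : Subgroup G} (ω : G →* Eˣ) :
    ex0 U (ext (⊤ : Subgroup U) ((ω.comp U.subtype).comp (⊤ : Subgroup U).subtype)) =
      ext U (ω.comp U.subtype) := by
  funext g
  by_cases hU : g ∈ U
  · rw [ex0_mem U _ hU, ext_mem U _ hU, ext_mem _ _ (Subgroup.mem_top _)]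
    rfl
  · rw [ex0_not_mem U _ hU, ext_not_mem U _ hU]

theorem ex0_GC {U : Subgroup G} (hZU : Z ≤ U) {f : U → E}
    (hf : f ∈ GC E {s : U | (s : G) ∈ S} (Z.subgroupOf U) (ψ.comp U.subtype) ⊤) :
    ex0 U f ∈ GC E S Z ψ U := by
  have h1 : GC E {s : U | (s : G) ∈ S} (Z.subgroupOf U) (ψ.comp U.subtype) ⊤ ≤
      (GC E S Z ψ U).comap (ex0Hom U) := by
    refine sup_le ?_ ?_
    · intro f hf
      exact SC_le_GC U (ex0_SC hZU hf)
    · rw [AddSubgroup.closure_le]
      rintro _ (rfl | rfl)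
      · show ex0 U (ext (⊤ : Subgroup U) 1) ∈ GC E S Z ψ U
        have h2 := ex0_ext_top (E := E) (U := U) (1 : G →* Eˣ)
        have h3 : ex0 U (ext (⊤ : Subgroup U) (1 : (⊤ : Subgroup U) →* Eˣ)) = ext U (1 : U →* Eˣ) := h2
        rw [h3]
        exact one_mem_GC U
      · show ex0 U (ext (⊤ : Subgroup U) ((ψ.comp U.subtype).comp (⊤ : Subgroup U).subtype)) ∈
          GC E S Z ψ U
        rw [ex0_ext_top]
        exact psi_mem_GC U
  exact h1 hf

omit [Finite G] [CharZero E] in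
theorem Isol.subtype {U : Subgroup G} (h : Isol S ψ U) :
    Isol {s : U | (s : G) ∈ S} (ψ.comp U.subtype) (⊤ : Subgroup U) := by
  refine ⟨?_, ?_, ?_⟩
  · intro s hs
    exact Subtype.ext (h.sq s hs)
  · intro s hs s' hs' K _ hK hK'
    obtain ⟨k, ⟨u, hu, rfl⟩, hk⟩ := h.iso s hs s' hs' (K.map U.subtype) (by
      rintro _ ⟨u, _, rfl⟩
      exact u.2) ⟨s, hK, rfl⟩ ⟨s', hK', rfl⟩
    exact ⟨u, hu, Subtype.ext hk⟩
  · intro s hs hs1
    exact h.psi s hs (fun h1 => hs1 (Subtype.ext h1))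

end

end Pool.Agent.Y144.DL
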