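import Pool.Agent.Y144.DL.Ban

/-!
# The denominators of the signature theorem are powers of two
-/

set_option autoImplicit false

namespace Pool.Agent.Y144.DL

universe u

variable {G : Type u} [Group G]

/-- `p`-hyperelementary subgroups -/
def Hyc (p : ℕ) (H : Subgroup G) : Prop :=
  ∃ B : Subgroup G, B ≤ H ∧ IsCyclic B ∧
    (∀ t ∈ H, ∀ b ∈ B, t * b * t⁻¹ ∈ B) ∧ ∀ t ∈ H, ∃ j : ℕ, t ^ p ^ j ∈ B

theorem hyc_inf {p : ℕ} {H K : Subgroup G} (h : Hyc p H) : Hyc p (H ⊓ K) := by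
  obtain ⟨B, hB, hcyc, hn, hpow⟩ := h
  refine ⟨B ⊓ K, inf_le_inf_right K hB, ?_, ?_, ?_⟩
  · exact isCyclic_of_injective (Subgroup.inclusion (inf_le_left : B ⊓ K ≤ B))
      (Subgroup.inclusion_injective _)
  · intro t ht b hb
    exact ⟨hn t ht.1 b hb.1, K.mul_mem (K.mul_mem ht.2 hb.2) (K.inv_mem ht.2)⟩
  · intro t ht
    obtain ⟨j, hj⟩ := hpow t ht.1
    exact ⟨j, hj, K.pow_mem ht.2 _⟩

theorem Hyc.hyp {p : ℕ} {H : Subgroup G} (h : Hyc p H) : Hyp (⊥ : Subgroup G) p H := by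
  obtain ⟨B, hB, hcyc, hn, hpow⟩ := h
  refine ⟨B, bot_le, hB, ?_, hn, hpow⟩
  intro a ha b hb
  let := hcyc.commGroup
  have := mul_comm (⟨a, ha⟩ : B) ⟨b, hb⟩
  exact congrArg Subtype.val this

theorem exists_FG_hyc [Finite G] (x : G) (p : ℕ) (hp : p.Prime) :
    ∃ f ∈ FG (Hyc (G := G) p), ¬ (p : ℤ) ∣ f x := by
  classical
  have := Fact.mk hp
  obtain ⟨H, C, hCH, hC, hn, hpow, hdvd⟩ := exists_hyper x p
  refine ⟨fun g => Nat.card {y : G ⧸ H // g • y = y},
    ⟨G ⧸ H, Fintype.ofFinite _, inferInstance, ?_, fun g => rfl⟩, ?_⟩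
  · intro y
    induction y using QuotientGroup.induction_on with
    | H q =>
      let θ : G →* G := (MulAut.conj q⁻¹).toMonoidHom
      have hθ : ∀ g : G, θ g = q⁻¹ * g * q := by
        intro g
        show q⁻¹ * g * (q⁻¹)⁻¹ = _
        rw [inv_inv]
      have hinj : Function.Injective θ := (MulAut.conj q⁻¹).injective
      have hstab : MulAction.stabilizer G (q : G ⧸ H) = H.comap θ := by
        ext g
        rw [MulAction.mem_stabilizer_iff, Subgroup.mem_comap, hθ]
        have h1 : g • (q : G ⧸ H) = ((g * q : G) : G ⧸ H) := rfl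
        rw [h1, eq_comm, QuotientGroup.eq, mul_assoc]
      rw [hstab]
      refine ⟨C.comap θ, Subgroup.comap_mono hCH, ?_, ?_, ?_⟩
      · let f : C.comap θ →* C :=
          { toFun := fun g => ⟨θ g, g.2⟩
            map_one' := Subtype.ext (by
              show θ ((1 : C.comap θ) : G) = 1
              rw [Subgroup.coe_one, map_one])
            map_mul' := fun g h => Subtype.ext (by
              show θ ((g * h : C.comap θ) : G) = θ g * θ h
              rw [Subgroup.coe_mul, map_mul]) }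
        refine isCyclic_of_injective f ?_
        intro a b hab
        exact Subtype.ext (hinj (congrArg Subtype.val hab))
      · intro t ht b hb
        rw [Subgroup.mem_comap, map_mul, map_mul, map_inv]
        exact hn _ ht _ hb
      · intro t ht
        obtain ⟨j, hj⟩ := hpow (θ t) ht
        refine ⟨j, ?_⟩
        rw [Subgroup.mem_comap, map_pow]
        exact hj
  · intro h1
    apply hdvd
    have h2 : (p : ℤ) ∣ (Nat.card {y : G ⧸ H // x • y = y} : ℤ) := h1
    exact_mod_cast h2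

/-- involutions in `p`-hyperelementary subgroups, `p` odd -/
theorem Hyc.unique [Finite G] {p : ℕ} (hp : Odd p) {H : Subgroup G} (h : Hyc p H) {s s' : G} (hs : s ∈ H)
    (hs' : s' ∈ H) (h1 : s * s = 1) (h1' : s' * s' = 1) (h2 : s ≠ 1) (h2' : s' ≠ 1) : s = s' := by
  obtain ⟨B, hB, hcyc, hn, hpow⟩ := h
  have key : ∀ s : G, s ∈ H → s * s = 1 → s ∈ B := by
    intro s hs h1
    obtain ⟨j, hj⟩ := hpow s hs
    obtain ⟨k, hk⟩ := hp.pow (n := j)
    rw [hk, pow_succ, pow_mul, pow_two, h1, one_pow, one_mul] at hj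
    exact hj
  exact cyclic_unique B hcyc (key s hs h1) (key s' hs' h1') h1 h1' h2 h2'

variable {E : Type*} [Field E] [CharZero E] [Finite G] {ψ : G →* Eˣ}

/-- for every odd prime `p` a multiple prime to `p` of the difference is in `SC` -/
theorem odd_part (hE : HasEnoughRootsOfUnity E (Nat.card G)) {c : G}
    (hcc : c * c = 1) (hψ : c ≠ 1 → ψ c = -1) {θ ω : G → E}
    (hθ : IsChar θ) (hω : IsChar ω) (h1 : θ 1 = ω 1) (h2 : θ c = ω c) (p : ℕ) (hp : p.Prime)
    (hp2 : Odd p) : ∃ l : ℤ, ¬ (p : ℤ) ∣ l ∧ l • (θ - ω) ∈ SC E {s | IsConj c s} ⊥ ⊤ := by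
  have hsq : ∀ s ∈ {s | IsConj c s}, s * s = 1 := by
    intro s hs
    obtain ⟨u, hu⟩ := isConj_iff.1 hs
    rw [← hu]
    have h3 : u * c * u⁻¹ * (u * c * u⁻¹) = u * (c * c) * u⁻¹ := by group
    rw [h3, hcc]
    group
  have hone : ∀ s ∈ {s | IsConj c s}, c = 1 → s = 1 := by
    intro s hs hc
    obtain ⟨u, hu⟩ := isConj_iff.1 hs
    rw [← hu, hc]
    group
  have hone' : ∀ s ∈ {s | IsConj c s}, s = 1 → c = 1 := by
    intro s hs hc
    obtain ⟨u, hu⟩ := isConj_iff.1 hs
    have h3 : c = u⁻¹ * (u * c * u⁻¹) * u := by group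
    rw [h3, hu, hc]
    group
  have hI : ∀ H : Subgroup G, Hyc p H → Isol {s | IsConj c s} ψ H := by
    intro H hH
    refine ⟨hsq, ?_, ?_⟩
    · intro s hs s' hs' K hKH hK hK'
      refine ⟨1, K.one_mem, ?_⟩
      have h3 : s = s' := by
        by_cases hc : c = 1
        · rw [hone s hs hc, hone s' hs' hc]
        · exact hH.unique hp2 (hKH hK) (hKH hK') (hsq s hs) (hsq s' hs')
            (fun h => hc (hone' s hs h)) (fun h => hc (hone' s' hs' h))
      rw [h3]
      group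
    · intro s hs hs1
      have hc1 : c ≠ 1 := fun h => hs1 (hone s hs h)
      obtain ⟨u, hu⟩ := isConj_iff.1 hs
      rw [← hu, map_mul, map_mul, hψ hc1, map_inv, mul_right_comm, mul_inv_cancel, one_mul]
  obtain ⟨l, hl, hlR⟩ := banaschewski_p (AddSubgroup.closure (FG (Hyc (G := G) p)))
    (closure_FG_mul (fun H K hH _ => hyc_inf hH)) p hp (fun x => by
      obtain ⟨f, hf, h⟩ := exists_FG_hyc x p hp
      exact ⟨f, AddSubgroup.subset_closure hf, h⟩)
  refine ⟨l, hl, ?_⟩
  have h3 := glue (S := {s | IsConj c s}) (Z := (⊥ : Subgroup G)) (ψ := ψ) hE (by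
      intro s hs x
      exact hs.trans (isConj_iff.2 ⟨x⁻¹, by rw [inv_inv]⟩))
    (Hyc p) (fun H hH => ⟨hI H hH, p, hp, hH.hyp⟩) hθ hω h1
    (by
      intro s hs
      obtain ⟨u, hu⟩ := isConj_iff.1 hs
      have h5 : s = (u⁻¹)⁻¹ * c * u⁻¹ := by rw [← hu, inv_inv]
      rw [h5, isChar_conj hθ, isChar_conj hω, h2]) _ hlR
  have h4 : (fun g => (((fun _ => l : G → ℤ) g : ℤ) : E) * (θ g - ω g)) = l • (θ - ω) := by
    funext g
    rw [Pi.smul_apply, Pi.sub_apply, zsmul_eq_mul]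
  rwa [h4] at h3

/-- **Artin's theorem with signatures.** Let `c` be an element of order at most two and `ψ` a linear
character with `ψ c = -1` if `c ≠ 1`. If two characters agree at `1` and `c`, then `2 ^ v` times their
difference, `2 ^ v` the `2`-part of `|G|`, is an integral combination of differences of characters induced by
linear characters of the same subgroup `K` which agree on the conjugates of `c` in `K`. -/
theorem two_part (hE : HasEnoughRootsOfUnity E (Nat.card G)) {c : G}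
    (hcc : c * c = 1) (hψ : c ≠ 1 → ψ c = -1) {θ ω : G → E}
    (hθ : IsChar θ) (hω : IsChar ω) (h1 : θ 1 = ω 1) (h2 : θ c = ω c) :
    2 ^ (Nat.card G).factorization 2 • (θ - ω) ∈ SC E {s | IsConj c s} ⊥ ⊤ := by
  classical
  have := Fintype.ofFinite G
  let D : G → E := θ - ω
  let A : AddSubgroup ℤ := (SC E {s | IsConj c s} ⊥ (⊤ : Subgroup G)).comap
    ((smulAddHom ℤ (G → E)).flip D)
  have hA : ∀ n : ℤ, n ∈ A ↔ n • D ∈ SC E {s | IsConj c s} ⊥ (⊤ : Subgroup G) := fun n => Iff.rfl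
  have hcard : ((Nat.card G : ℕ) : ℤ) ∈ A := by
    rw [hA, natCast_zsmul]
    have h3 := artin_signature hE hcc hθ hω h1 h2
    rw [← smul_sub] at h3
    have h4 : AddSubgroup.closure {f | ∃ q ∈ pairs E c, f = q.1 - q.2} ≤
        SC E {s | IsConj c s} ⊥ (⊤ : Subgroup G) := by
      rw [AddSubgroup.closure_le]
      rintro _ ⟨_, ⟨C, χ, χ', _, hsig, rfl⟩, rfl⟩
      refine AddSubgroup.subset_closure ⟨C, χ, χ', le_top, bot_le, ?_, ?_⟩
      · intro s hs
        by_cases hsC : s ∈ C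
        · rw [ext_mem C χ hsC, ext_mem C χ' hsC, hsig ⟨s, hsC⟩ hs]
        · rw [ext_not_mem C χ hsC, ext_not_mem C χ' hsC]
      · rw [avg_sub]
        rfl
    exact h4 h3
  obtain ⟨a, ha⟩ := Int.subgroup_cyclic A
  have hAa : ∀ n : ℤ, n ∈ A ↔ a ∣ n := by
    intro n
    rw [ha, AddSubgroup.mem_closure_singleton]
    constructor
    · rintro ⟨k, rfl⟩
      exact ⟨k, by rw [smul_eq_mul, mul_comm]⟩
    · rintro ⟨k, rfl⟩
      exact ⟨k, by rw [smul_eq_mul, mul_comm]⟩
  have hG : Nat.card G ≠ 0 := Nat.card_pos.ne'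
  have ha1 : a.natAbs ∣ Nat.card G := Int.natCast_dvd_natCast.1 (by
    rw [Int.natCast_natAbs, abs_dvd]
    exact (hAa _).1 hcard)
  have ha0 : a.natAbs ≠ 0 := fun h => hG (Nat.eq_zero_of_zero_dvd (h ▸ ha1))
  have hodd : ∀ p : ℕ, p.Prime → p ∣ a.natAbs → p = 2 := by
    intro p hp hpa
    by_contra hne
    obtain ⟨l, hl, hlD⟩ := odd_part hE hcc hψ hθ hω h1 h2 p hp (hp.odd_of_ne_two hne)
    apply hl
    exact (Int.natCast_dvd.2 hpa).trans ((hAa l).1 hlD)
  have h5 : a.natAbs = 2 ^ a.natAbs.factorization 2 := by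
    have h6 := Nat.eq_prime_pow_of_unique_prime_dvd ha0 (fun {d} hd hda => hodd d hd hda)
    have h7 : a.natAbs.factorization 2 = a.natAbs.primeFactorsList.length := by
      conv_lhs => rw [h6]
      rw [Nat.factorization_pow]
      simp [Nat.prime_two.factorization]
    rw [h7]
    exact h6
  have h8 : a.natAbs ∣ 2 ^ (Nat.card G).factorization 2 := by
    rw [h5]
    exact pow_dvd_pow 2 ((Nat.factorization_le_iff_dvd ha0 hG).2 ha1 2)
  have h9 : ((2 ^ (Nat.card G).factorization 2 : ℕ) : ℤ) ∈ A := by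
    rw [hAa]
    exact Int.natAbs_dvd.1 (Int.natCast_dvd_natCast.2 h8)
  rw [hA, natCast_zsmul] at h9
  exact h9

end Pool.Agent.Y144.DL
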