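import Pool.Agent.Y144.DL.Glob

/-!
# Elements of a number field with prescribed signs
-/

set_option autoImplicit false

namespace Pool.Agent.Y144.DL

open Polynomial

/-- there are elements with given signs at the real embeddings -/
theorem exists_signs {k : Type*} [Field k] [Algebra ℚ k] [FiniteDimensional ℚ k]
    (ε : (k →ₐ[ℚ] ℝ) → ℤˣ) : ∃ a : k, ∀ τ, 0 < ((ε τ : ℤ) : ℝ) * τ a := by
  classical
  obtain ⟨α, hα⟩ := Field.exists_primitive_element ℚ k
  have : Finite (k →ₐ[ℚ] ℝ) := inferInstance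
  have := Fintype.ofFinite (k →ₐ[ℚ] ℝ)
  have hinj : Function.Injective fun τ : k →ₐ[ℚ] ℝ => τ α := by
    intro τ τ' h
    have h1 : (τ : k →ₐ[ℚ] ℝ) = τ' := by
      apply AlgHom.ext
      intro x
      have hx : x ∈ IntermediateField.adjoin ℚ {α} := by rw [hα]; trivial
      have hx' : x ∈ Algebra.adjoin ℚ {α} := by
        rw [← IntermediateField.adjoin_simple_toSubalgebra_of_isAlgebraic
          (Algebra.IsAlgebraic.isAlgebraic α)]
        exact hx
      rw [Algebra.adjoin_singleton_eq_range_aeval] at hx'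
      obtain ⟨q, rfl⟩ := hx'
      show τ (aeval α q) = τ' (aeval α q)
      rw [← aeval_algHom_apply, ← aeval_algHom_apply]
      show aeval (τ α) q = aeval (τ' α) q
      rw [show τ α = τ' α from h]
    exact h1
  let p : ℝ[X] := Lagrange.interpolate Finset.univ (fun τ : k →ₐ[ℚ] ℝ => τ α)
    (fun τ => ((ε τ : ℤ) : ℝ))
  have hp : ∀ τ, p.eval (τ α) = ((ε τ : ℤ) : ℝ) := fun τ =>
    Lagrange.eval_interpolate_at_node _ hinj.injOn (Finset.mem_univ τ)
  let n := p.natDegree + 1
  let O : Set (Fin n → ℝ) := {r | ∀ τ : k →ₐ[ℚ] ℝ, 0 < ((ε τ : ℤ) : ℝ) * ∑ j : Fin n, r j * (τ α) ^ (j : ℕ)}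
  have hO : IsOpen O := by
    have h1 : O = ⋂ τ : k →ₐ[ℚ] ℝ, {r | 0 < ((ε τ : ℤ) : ℝ) * ∑ j : Fin n, r j * (τ α) ^ (j : ℕ)} := by
      ext r
      simp [O]
    rw [h1]
    refine isOpen_iInter_of_finite fun τ => isOpen_lt continuous_const ?_
    fun_prop
  have hmem : (fun j : Fin n => p.coeff j) ∈ O := by
    intro τ
    have h1 : ∑ j : Fin n, p.coeff j * (τ α) ^ (j : ℕ) = p.eval (τ α) := by
      rw [eval_eq_sum_range, Finset.sum_range fun i => p.coeff i * (τ α) ^ i]
    rw [h1, hp]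
    rcases Int.units_eq_one_or (ε τ) with h | h <;> rw [h] <;> norm_num
  have hd : DenseRange (Pi.map fun _ : Fin n => ((↑) : ℚ → ℝ)) :=
    DenseRange.piMap fun _ => Rat.denseRange_cast
  obtain ⟨q, hq⟩ := hd.exists_mem_open hO ⟨_, hmem⟩
  refine ⟨∑ j : Fin n, algebraMap ℚ k (q j) * α ^ (j : ℕ), ?_⟩
  intro τ
  have h1 := hq τ
  have h2 : τ (∑ j : Fin n, algebraMap ℚ k (q j) * α ^ (j : ℕ)) =
      ∑ j : Fin n, (Pi.map (fun _ : Fin n => ((↑) : ℚ → ℝ)) q) j * (τ α) ^ (j : ℕ) := by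
    rw [map_sum]
    refine Finset.sum_congr rfl fun j _ => ?_
    rw [map_mul, map_pow, AlgHom.commutes]
    rfl
  rw [h2]
  exact h1

/-- conjugation and square roots of real numbers -/
theorem conj_of_sq_pos {y : ℂ} {t : ℝ} (h : y * y = t) (ht : 0 < t) : (starRingEnd ℂ) y = y := by
  rw [Complex.conj_eq_iff_im]
  have h1 := congrArg Complex.re h
  have h2 := congrArg Complex.im h
  simp only [Complex.mul_re, Complex.mul_im, Complex.ofReal_re, Complex.ofReal_im] at h1 h2
  have h3 : y.re * y.im = 0 := by linarith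
  rcases mul_eq_zero.1 h3 with h4 | h4
  · rw [h4] at h1
    nlinarith [mul_self_nonneg y.im]
  · exact h4

theorem conj_of_sq_neg {y : ℂ} {t : ℝ} (h : y * y = t) (ht : t < 0) : (starRingEnd ℂ) y = -y := by
  have h1 := congrArg Complex.re h
  have h2 := congrArg Complex.im h
  simp only [Complex.mul_re, Complex.mul_im, Complex.ofReal_re, Complex.ofReal_im] at h1 h2
  have h3 : y.re * y.im = 0 := by linarith
  have h5 : y.re = 0 := by
    rcases mul_eq_zero.1 h3 with h4 | h4
    · exact h4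
    · rw [h4] at h1
      nlinarith [mul_self_nonneg y.re]
  apply Complex.ext
  · rw [Complex.conj_re, Complex.neg_re, h5, neg_zero]
  · rw [Complex.conj_im, Complex.neg_im]

end Pool.Agent.Y144.DL
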